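import Pool.Agent.ZR.EQ.St

/-!
# ZR, block EQ: module LC1, one-variable local data of a curve chart
-/

set_option autoImplicit false

open scoped BigOperators ComplexConjugate
open Filter Topology MeasureTheory

namespace Pool.Agent.ZR

open Pool.Agent.ZPT Pool.Agent.ZPE

namespace EQ

/-- LC1 -/
theorem LC1_of (h : C2.St_LOCT) : St_LC1 := by
  intro ex hex V N _ _ C hV q hq
  obtain ⟨L, hLc, hLx⟩ := h ex hex V N C q.1 q.2 hq
  have hsub : Subsingleton V := Fintype.card_le_one_iff_subsingleton.1 hV.le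
  have hall : ∀ y : V → ℂ, y = fun _ => y C.i₀ := by
    intro y
    funext i
    rw [Subsingleton.elim i C.i₀]
  have hmem : ∀ t : ℂ, t ∈ Metric.ball (L.c C.i₀) L.r →
      (fun _ => t : V → ℂ) ∈ Metric.ball L.c L.r := by
    intro t ht
    rw [Metric.mem_ball, dist_pi_lt_iff L.r_pos]
    intro i
    rw [Subsingleton.elim i C.i₀]
    exact ht
  have han : ∀ t : ℂ, AnalyticAt ℂ (fun t : ℂ => (fun _ => t : V → ℂ)) t := by
    intro t
    exact AnalyticAt.pi fun _ => analyticAt_id
  let L' : Loc1 ex C :=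
    { c := L.c C.i₀
      r := L.r
      x := fun t => L.x (fun _ => t)
      z := fun ν t => L.z ν (fun _ => t)
      w₁ := L.w₁
      w₂ := L.w₂
      x_an := fun t ht => (L.x_an _ (hmem t ht)).comp (han t)
      pt := fun t ht => L.pt _ (hmem t ht)
      z_an := fun ν t ht => (L.z_an ν _ (hmem t ht)).comp (han t)
      per := L.per
      th := fun ν t ht => L.th ν _ (hmem t ht) }
  refine ⟨L', fun i => ?_, ?_, ?_⟩
  · show q.1 i = L.c C.i₀
    rw [hLc, Subsingleton.elim i C.i₀]
  · show L.x (fun _ => L.c C.i₀) = q.2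
    rw [← hall L.c, hLc, hLx]
  · intro q' hq' h1 h2
    show q'.2 = L.x (fun _ => q'.1 C.i₀)
    rw [← hall q'.1]
    refine L.uniq _ ?_ _ hq' ?_
    · rw [hall q'.1]
      refine hmem _ ?_
      rw [Metric.mem_ball, dist_eq_norm]
      exact h1
    · rw [hLc, hLx]
      exact h2

end EQ

end Pool.Agent.ZR
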