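import Pool.Agent.ZR.EQ.Defs
import Pool.Agent.ZR.C2.St
import Pool.Agent.ZR.D.St

/-!
# ZR, block EQ: CORE II for `f = 1` (sharp equidistribution) and NR: statements (helper27)

Every `def St_X : Prop` is the statement of one module `ZR/EQ/X.lean` with the theorem `X_of`
(the hypotheses which may be used are named in the docstring).  Names of other blocks: `C2.St_..`
(helper62), `D.St_..` (helper20), `St_..` (block S, all proved: `thm_..` in `ZR/S/All.lean`).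

Idea.  `m = round(Λ w)`, `Λ → ∞`, `N` (the degree in the coordinates of `m.P`) `→ ∞`, `k → ∞`.
Locally the coordinates `(X₀, X₃)` of `m.P`, times a holomorphic function, have the size
`exp(Λ² s_w(x) |t - t₁|²)` (LG).  Lower bound for the degree of `X₀/X₃` by Jensen's formula (SHC),
upper bound for the mass of a disc by killing Taylor coefficients (UPP).  Both are sharp, so
`mass(F) · ∫ s_w ≤ ∫_F s_w` (INT).  The masses add up to one: equality, so `s_w` is proportional to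
`s_w'` for all `w, w' ∈ W` (RAT): isotropy, which contradicts the `∂̄`-equation of the Betti form
(ISO).
-/

set_option autoImplicit false

open scoped BigOperators ComplexConjugate
open Filter Topology MeasureTheory

namespace Pool.Agent.ZR

open Pool.Agent.ZPT Pool.Agent.ZPE

namespace EQ

/-! ### 1. local data -/

/-- LC1.  One-variable local data at every point of a curve chart, with uniqueness of the root.

Proof.  Hypothesis `C2.St_LOCT`.  `V` has one element, so `y = fun _ => y i₀` for all `y : V → K`, and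
in the sup norm `(fun _ => t)` is in `Metric.ball L.c L.r` iff `‖t - L.c i₀‖ < L.r`.  Compose the
functions of `LocT` with the analytic map `t ↦ (fun _ => t)`. -/
def St_LC1 : Prop :=
  ∀ ex : (t : ℂ) → ℂ →+ LPt t, ExP ex → ∀ (V N : Type) [Fintype V] [Fintype N] (C : JCh V N),
    Fintype.card V = 1 → ∀ q ∈ C2.VC C, ∃ L : Loc1 ex C, (∀ i, q.1 i = L.c) ∧ L.x L.c = q.2 ∧
      ∀ q' ∈ C2.VC C, ‖q'.1 C.i₀ - L.c‖ < L.r → ‖q'.2 - q.2‖ < L.r → q'.2 = L.x (q'.1 C.i₀)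

/-- GQF.  The growth form: `gq t z = aq t |z|² + Re (b t z²)`, `aq`, `b` continuous, `aq > 0`.

Proof.  Hypotheses `ThP`, `St_GRQ`, `ExP` (exists: `thm_EX`).  A function with `Par` which is
continuous is a real quadratic form of `(Re z, Im z)`; `b t := (gq t 1 - gq t I) / 2 -
(gq t (1 + I) - gq t 1 - gq t I) / 2 * I` (check the sign with `z = 1 + I`).  Positivity: if
`aq t ≤ 0`, then `z ↦ exp (-b z²) Th z t i` is entire and bounded (`|log ‖Th‖ - gq| ≤ C`), so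
constant (Liouville); for `i = 0` the value at `0` is `0` (`ThP.loc`), so `Th · t 0 = 0`, but
`Th z t 0 = z + O(z³)` (`ThP.loc`). -/
def St_GQF : Prop :=
  ∃ b : ℂ → ℂ, ContinuousOn aq {t | t ≠ 0 ∧ t ≠ 1} ∧ ContinuousOn b {t | t ≠ 0 ∧ t ≠ 1} ∧
    (∀ t, t ≠ 0 → t ≠ 1 → 0 < aq t) ∧
    ∀ t, t ≠ 0 → t ≠ 1 → ∀ z : ℂ, gq t z = aq t * ‖z‖ ^ 2 + (b t * z ^ 2).re

/-- ETA1.  The Betti form is real linear in the combination, and continuous.

Proof.  `be1`, `be2` are real linear in the third argument; `deriv (L.zw w) t = ∑ w ν deriv (z ν) t`.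
Continuity: `im ≠ 0` (`L.per.im`), derivatives of analytic functions are continuous. -/
def St_ETA1 : Prop :=
  ∀ (ex : (t : ℂ) → ℂ →+ LPt t) (V N : Type) [Fintype V] [Fintype N] (C : JCh V N)
    (L : Loc1 ex C),
    (∀ t ∈ L.dsk, ∃ θ : (N → ℝ) →ₗ[ℝ] ℂ, ∀ w, θ w = L.th1 w t) ∧
    ∀ w, ContinuousOn (L.th1 w) L.dsk

/-- LINL.  The logarithm of `m . P`, reduced by periods, is `Λ θ_w(t₁) (t - t₁)`, up to
`O(1 + Λ |t - t₁|²)`.

Proof.  Hypothesis `St_ETA1`.  `F' :=` a compact neighbourhood of `F` in `L.dsk`; on `F'` the functions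
`z ν`, `w_i`, their first and second derivatives, `be1`, `be2` of `z ν` are bounded, so
`|g t - g t₁ - g'(t₁)(t - t₁)| ≤ C |t - t₁|²` for `g = z ν, w₁, w₂` (`t₁ ∈ F`, `|t - t₁| ≤ ρ ≤ 1`).
`β_i := be_i` of `Z(t₁)`, `Z := L.zm m`, `k_i := round β_i`, `l := Z - k₁ w₁ - k₂ w₂`:
`l(t₁) = (β₁ - k₁) w₁ + (β₂ - k₂) w₂` is bounded; `l'(t₁) = th1 (m) t₁ + (β₁ - k₁) w₁' + (β₂ - k₂) w₂'`
and `th1 m = Λ th1 w + th1 (m - Λ w)` (linearity), the other terms are bounded;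
`|m ν|, |k_i| ≤ C Λ`. -/
def St_LINL : Prop :=
  ∀ (ex : (t : ℂ) → ℂ →+ LPt t) (V N : Type) [Fintype V] [Fintype N] (C : JCh V N)
    (L : Loc1 ex C) (F : Set ℂ), IsCompact F → F ⊆ L.dsk → ∀ w : N → ℝ,
    ∃ ρ C₁ : ℝ, 0 < ρ ∧ 1 ≤ C₁ ∧ ∀ t₁ ∈ F, Metric.closedBall t₁ ρ ⊆ L.dsk ∧
      ∀ (Λ : ℝ) (m : N → ℤ), 1 ≤ Λ → Near w Λ m → ∃ k₁ k₂ : ℤ, ∀ t ∈ Metric.closedBall t₁ ρ,
        ‖L.zm m t - k₁ * L.w₁ t - k₂ * L.w₂ t - Λ * L.th1 w t₁ * (t - t₁)‖ ≤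
          C₁ * (1 + Λ * ‖t - t₁‖ ^ 2)

/-- LG.  LOCAL GROWTH: Gaussian size of the coordinates of `m . P`.

Proof.  Hypotheses `St_LINL`, `St_GQF`, `St_GRQ`, `St_ETA1`, `ThP`.  `l(t) := Z - k₁ w₁ - k₂ w₂`
from LINL, `G_i(t) := exp (-b(t₁) l(t)²) Th (l t) t i` (`i = 0, 3`), analytic (`ThP.an`).  `ex t (l t) =
ex t (Z t)` (`L.per.k₁`, `k₂`), so `Th (l t) t` and `Th (Z t) t` are proportional (`ExP.pt`).
`OnJ`: `‖Th‖ ≤ C max(‖Th 0‖, ‖Th 3‖)` as `Th_1² = Th_3² - Th_0²`, `Th_2² = Th_3² - t Th_0²`; so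
`log max(‖G₀‖, ‖G₃‖) = gq t (l t) - Re (b(t₁) l²) + O(1) = aq t ‖l‖² + Re ((b t - b t₁) l²) + O(1)`
(GRQ, GQF; `t` in a compact set without `0`, `1`).  With `|l - Λ θ (t - t₁)| ≤ C₁ (1 + Λ r²)`,
`|l| ≤ C (1 + Λ r)`: the difference to `Λ² aq t₁ ‖θ‖² |t - t₁|²` is at most
`C + C ω(r) (1 + Λ r)² + C (1 + Λ r²)(1 + Λ r)`, `ω` the modulus of continuity of `aq`, `b` on a
compact neighbourhood of `F`.  For `Λ ≥ r⁻²` this is at most `C Λ² r² (ω(r) + r)` up to a factor;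
choose `r₀` small, then `Λ₀` large. -/
def St_LG : Prop :=
  ∀ ex : (t : ℂ) → ℂ →+ LPt t, ExP ex → ∀ (V N : Type) [Fintype V] [Fintype N] (C : JCh V N)
    (L : Loc1 ex C) (F : Set ℂ), IsCompact F → F ⊆ L.dsk → ∀ (w : N → ℝ) (ε : ℝ), 0 < ε →
    ∃ r₀ : ℝ, 0 < r₀ ∧ ∀ t₁ ∈ F, ∀ r : ℝ, 0 < r → r ≤ r₀ → ∃ Λ₀ : ℝ, 0 < Λ₀ ∧ ∀ Λ : ℝ, Λ₀ ≤ Λ →
      ∀ m : N → ℤ, Near w Λ m → ∃ G₀ G₃ : ℂ → ℂ,
        Gau L m t₁ r (Λ ^ 2 * L.ds w t₁) (ε * Λ ^ 2 * r ^ 2) G₀ G₃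

/-- CST.  If the Betti form vanishes near a point, the Betti coordinates are constant on the disc.

Proof.  Near `t₁`: `be1`, `be2` of `zw w` are real differentiable and by `D.St_BET` (for `V = Unit`)
the derivative `D` satisfies `(D h).1 w₁ + (D h).2 w₂ = th1 · h = 0`, so `D = 0` (`im ≠ 0`); so they are
constant `b₁, b₂` near `t₁`, and `zw w = b₁ w₁ + b₂ w₂` near `t₁`, so on the disc (identity theorem for
analytic functions on the ball).  On the whole disc then `be1 = b₁`, `be2 = b₂`, `th1 = 0`. -/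
def St_CST : Prop :=
  ∀ (ex : (t : ℂ) → ℂ →+ LPt t) (V N : Type) [Fintype V] [Fintype N] (C : JCh V N)
    (L : Loc1 ex C) (w : N → ℝ), ∀ t₁ ∈ L.dsk, (∀ᶠ t in 𝓝 t₁, L.th1 w t = 0) →
    ∃ b₁ b₂ : ℝ, ∀ t ∈ L.dsk, L.zw w t = b₁ * L.w₁ t + b₂ * L.w₂ t ∧ L.th1 w t = 0

/-- LG0.  If the Betti form is zero on the disc, the coordinates of `m . P` are bounded, uniformly
in `Λ`.

Proof.  Hypotheses `St_CST`, `St_GRW`, `ThP`.  `L.zw w = b₁ w₁ + b₂ w₂`; `k_i := round (Λ b_i)`,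
`l := L.zm m - k₁ w₁ - k₂ w₂ = ∑ (m ν - Λ w ν) z ν + (Λ b₁ - k₁) w₁ + (Λ b₂ - k₂) w₂` is bounded on
the compact disc, `G_i := Th (l t) t i`; St_GRW and `OnJ` as in LG. -/
def St_LG0 : Prop :=
  ∀ ex : (t : ℂ) → ℂ →+ LPt t, ExP ex → ∀ (V N : Type) [Fintype V] [Fintype N] (C : JCh V N)
    (L : Loc1 ex C) (w : N → ℝ), (∀ t ∈ L.dsk, L.th1 w t = 0) → ∀ (t₁ : ℂ) (R : ℝ), 0 < R →
    Metric.closedBall t₁ R ⊆ L.dsk → ∃ e : ℝ, 0 ≤ e ∧ ∀ (Λ : ℝ) (m : N → ℤ), Near w Λ m →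
      ∃ G₀ G₃ : ℂ → ℂ, Gau L m t₁ R 0 e G₀ G₃

/-! ### 2. the mass of a disc: upper bound -/

/-- TAY.  Pigeonhole for the Taylor coefficients with the Gaussian weight.

Proof.  RHO: for `x : ℕ` there is `0 < ρ ≤ R₁` with `(s/ρ)^x exp (α ρ²) ≤ exp (α s² + 1)` for all
`0 ≤ s ≤ R₁`: `x = 0`: `ρ` small; `x ≥ 2 α R₁²`, `x ≥ 1`: `ρ = R₁` (`(s/R₁)^x ≤ (s/R₁)^(2 α R₁²)` and
`log y ≤ y - 1` for `y = s²/R₁²`); else `ρ² = x/(2α)` (again `log y ≤ y - 1`, `y = s²/ρ²`).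
`a_x(v)` := Taylor coefficients at `t₁`; `|a_x(v_i)| ρ_x^x ≤ exp (α ρ_x² + e)` (Cauchy on the circle of
radius `ρ_x`).  `thm_PIG2` (ZPE/II/PIG2.lean) with `X := Fin T`, `m := T`,
`v i x := a_x(v_i) ρ_x^x exp (-(α ρ_x² + e))`, `R := R'` gives `c`.  For `|t - t₁| = s ≤ r` the terms
`x < T` are at most `exp (α s² + e + 1 - R')`; the terms `x ≥ T`: `|∑ c_i a_x(v_i)| ≤
card ι · e^h exp (α R₁² + e) R₁^(-x)`, geometric series, `(s/R₁)^T ≤ (s/R₁)^(2 α R₁²) (r/R₁)^(2β)`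
and `(s/R₁)^(2 α R₁²) exp (α R₁²) ≤ exp (α s²)`. -/
def St_TAY : Prop :=
  ∀ (ι : Type) [Fintype ι] (v : ι → ℂ → ℂ) (t₁ : ℂ) (α e β r R₁ R' h : ℝ) (T : ℕ), 0 ≤ α → 0 ≤ e →
    0 < β → 0 < r → r < R₁ → (∀ i, AnalyticOnNhd ℂ (v i) (Metric.closedBall t₁ R₁)) →
    (∀ i, ∀ t ∈ Metric.closedBall t₁ R₁, ‖v i t‖ ≤ Real.exp (α * ‖t - t₁‖ ^ 2 + e)) →
    2 * (α * R₁ ^ 2 + β) ≤ T → 1 ≤ Fintype.card ι → 0 ≤ R' → 0 ≤ h →
    2 * T * (R' + h + Real.log (Fintype.card ι) + 5) ≤ Fintype.card ι * h →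
    ∃ c : ι → ℤ, c ≠ 0 ∧ (∀ i, |(c i : ℝ)| ≤ Real.exp h) ∧ ∀ t ∈ Metric.closedBall t₁ r,
      ‖∑ i, (c i : ℂ) * v i t‖ ≤ Real.exp (α * ‖t - t₁‖ ^ 2 + e) *
        (T * Real.exp (1 - R') +
          Fintype.card ι * Real.exp h * (r / R₁) ^ (2 * β) / (1 - r / R₁))

/-- NUMU.  The choice of the parameters (real analysis).

Proof.  `θ := 2 τ (1 + η/4) / (q b)` (`≤ 0.08 η`), `R' := n g₀`, `h := θ g₀ n`, `T := ⌈n τ⌉`,
`Rg := min (R' - 2 n e - Cx - 1 - log T) (g₀ n - h - log (q (n+1) b) - 2 Cx - 2 n e) - log 2`, which is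
at least `g₀ n (1 - 0.2 η)` for `n` large (`2e ≤ η g₀/10`).  Pigeonhole: `2 (n τ + 1) (g₀ n (1 + θ) +
o(n)) ≤ q n b θ g₀ n = 2 τ (1 + η/4) g₀ n²` for `n` large.  The last inequality:
`(θ g₀ + H + o(1)) / (2 g₀ (1 - 0.2 η))`, `(1 + η/4)/(1 - 0.2 η) ≤ 1 + η - 0.1 η`,
`1/(2 · 0.8) ≤ 2` (the slack absorbs the `o(1)`, since `τ > 0`). -/
def St_NUMU : Prop :=
  ∀ (q b : ℕ) (τ e g₀ η Cx H : ℝ), 2 ≤ q → 1 ≤ b → 0 < τ → 0 ≤ e → 0 < g₀ → 0 < η → η ≤ 1 →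
    0 ≤ Cx → 0 ≤ H → 20 * e ≤ η * g₀ → 20 * τ ≤ η * b → ∃ n₀ : ℕ, ∀ n : ℕ, n₀ ≤ n →
    ∃ (T : ℕ) (h R' Rg : ℝ), n * τ ≤ T ∧ 0 ≤ h ∧ 0 ≤ R' ∧ 0 < Rg ∧
      2 * T * (R' + h + Real.log ((q * ((n + 1) * b) : ℕ) : ℝ) + 5) ≤
        ((q * ((n + 1) * b) : ℕ) : ℝ) * h ∧
      Real.exp (2 * n * e + Cx) * (T * Real.exp (1 - R') +
        ((q * ((n + 1) * b) : ℕ) : ℝ) * Real.exp (h - n * g₀ + Cx)) ≤ Real.exp (-Rg) ∧
      h + Real.log ((q * ((n + 1) * b) : ℕ) : ℝ) + Cx + n * H ≤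
        2 * Rg * ((1 + η) * τ / (q * b) + 2 * (H + 1) / g₀)

/-- OMG.  Independent algebraic integers of a number field, as many as the degree; a bound for
their conjugates.  (Integral basis; finitely many embeddings.) -/
def St_OMG : Prop :=
  ∀ κ : IntermediateField ℚ ℂ, FiniteDimensional ℚ κ →
    ∃ (ω : Fin (Module.finrank ℚ κ) → κ) (B : ℝ), (∀ j, IsIntegral ℤ (ω j)) ∧
      LinearIndependent ℤ ω ∧ 1 ≤ B ∧ ∀ (ψ : κ →+* ℂ) (j), ‖ψ (ω j)‖ ≤ B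

open scoped Classical in
/-- PFQ.  The product formula for the auxiliary function, general coefficients.

Proof.  As `C2.St_PFX` (ZR/C2/PFX.lean), the coefficients are at most `exp h` at the infinite places
and at most `1` at the finite places. -/
def St_PFQ : Prop :=
  ∀ (V : Type) [Fintype V] (K : Type) [Field K] [NumberField K] (y : V → K) (x : K)
    (A : V → Fin 4 → K) (n Dg : ℕ) (X : Finset ((V → ℕ) × ℕ))
    (c : (V → Fin (n + 1)) × X → K) (h R : ℝ) (S₀ : Set (K →+* ℂ)), (∀ s, A s ≠ 0) →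
    (∀ p ∈ X, (∀ i, p.1 i ≤ Dg) ∧ p.2 ≤ Dg) → 0 ≤ h → 0 ≤ R →
    (∀ (ψ : K →+* ℂ) (p), ‖ψ (c p)‖ ≤ Real.exp h) →
    (∀ (v : NumberField.FinitePlace K) (p), v (c p) ≤ 1) → PhK n X c y x A ≠ 0 →
    (∀ ψ ∈ S₀, ‖ψ (PhK n X c y x A)‖ ≤ Real.exp (-R) * ∏ s, (⨆ i, ‖ψ (A s i)‖) ^ n) →
    R * S₀.ncard ≤ (h + Real.log (Fintype.card ((V → Fin (n + 1)) × X)) +
      Dg * (∑ i, hN (y i) + hN x) +
      n * ∑ s, Height.logHeight (A s) / Module.finrank ℚ K) * Module.finrank ℚ K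

/-- NVQ.  The auxiliary function does not vanish at the points of the sequence, coefficients in
`Qb`.

Proof.  As `C2.St_NV` (ZR/C2/NV.lean); `FamJ` has coefficients in `Qb`. -/
def St_NVQ : Prop :=
  ∀ (V N : Type) [Fintype V] [Fintype N] (C : JCh V N) (Q : Type) (U : Ultrafilter Q)
    (p : PreF N Q) (y : Q → V → Qb) (x : Q → Qb), C2.GSeq C U p y x →
    ∀ (m : V → N → ℤ) (X : Finset ((V → ℕ) × ℕ)), C2.FamJ C m X →
    ∀ (n : ℕ) (c : (V → Fin (n + 1)) × X → Qb), c ≠ 0 → ∀ᶠ k in (U : Filter Q),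
      ∀ A : V → Fin 4 → Qb, (∀ s, IsJ (A s) (cb (p.P k) (m s))) → PhK n X c (y k) (x k) A ≠ 0

/-- UPP.  THE MASS OF A DISC, UPPER BOUND.

Proof.  Hypotheses `St_TAY`, `St_NUMU`, `St_OMG`, `St_PFQ`, `St_NVQ`, `C2.St_CNJ`, `ThP`, `St_S1`.
`q := [κ : ℚ] ≥ 2` (`I ∈ κ`), `b := X.card`, `τ := 2 (α R₁² + β)`, `g₀ := 2 β log (R₁/r)`, `ω`, `B`
from OMG.  `X ≠ ∅` by the last hypothesis.  Unknowns `ι := Fin q × ((V → Fin (n + 1)) × X)`; functions
`v_(j,p)(t) := ω_j t^(..) (L.x t)^(..) G₀^p G₃^(n-p)`, bounded by `exp (n α |t - t₁|² + n e + Cx)`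
(`Gau.bd`).  TAY with `n α`, `n e + Cx`, `n β` and `T`, `h`, `R'` of NUMU
(`(r/R₁)^(2 n β) = exp (-n g₀)`): integers `c ≠ 0`.  Coefficients `c_p := ∑_j c_(j,p) ω_j ∈ κ`, not
all zero (OMG), conjugates `≤ exp (h + log (q B))`, integral, so `≤ 1` at finite places.  For almost
all `k`: `PhK ≠ 0` at the point (NVQ), `K := KK k`; `A` over `K` from CNJ (as in ZR/C2/MASS.lean,
`P'` := the points over the conjugate point).  `S₀ := EmbIn ∪ conj ∘ EmbIn`: disjoint since `I ∈ κ`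
is fixed resp. goes to `-I`; so `S₀.ncard = 2 EmbIn.ncard`.  For `ψ ∈ EmbIn`: the point goes to
`(t, L.x t)`, `t ∈ closedBall t₁ r`, `(ψ A 0, ψ A 3) = u (G₀ t, G₃ t)`, so `‖ψ PhK‖ = |u|^n ‖∑ c v(t)‖`,
and `(⨆ i, ‖ψ (A i)‖) ≥ |u| exp (α |t - t₁|² - e)`: quotient `≤ exp (2 n e + Cx) (...) ≤ exp (-Rg)`.
The same for `conj ∘ ψ`.  PFQ and the last inequality of NUMU: `2 Rg EmbIn.ncard ≤
(h + log (..) + Cx + n H) [K : ℚ]`. -/
def St_UPP : Prop :=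
  ∀ ex : (t : ℂ) → ℂ →+ LPt t, ExP ex → ∀ (V N : Type) [Fintype V] [Fintype N] (C : JCh V N),
    Fintype.card V = 1 → ∀ κ : IntermediateField ℚ ℂ, FiniteDimensional ℚ κ → C2.CoIn C κ →
    Complex.I ∈ κ → ∀ (Q : Type) (U : Ultrafilter Q) (p : PreF N Q) (y : Q → V → Qb) (x : Q → Qb),
    C2.GSeq C U p y x → ∀ KK : Q → IntermediateField ℚ ℂ, C2.GoodK κ y x KK →
    ∀ (L : Loc1 ex C) (m : N → ℤ) (X : Finset ((V → ℕ) × ℕ)), C2.FamJ C (fun _ => m) X →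
    ∀ H : ℝ, 0 ≤ H → (∀ᶠ k in (U : Filter Q), hJ (cb (p.P k) m) ≤ H) →
    ∀ (t₁ : ℂ) (r R₁ α e β η : ℝ) (G₀ G₃ : ℂ → ℂ), 0 < r → r < R₁ → 0 ≤ α → 0 ≤ e → 0 < β →
    0 < η → η ≤ 1 → Gau L m t₁ R₁ α e G₀ G₃ → 10 * e ≤ η * (β * Real.log (R₁ / r)) →
    20 * (2 * (α * R₁ ^ 2 + β)) ≤ η * X.card →
    ∀ᶠ k in (U : Filter Q), C2.prp κ (KK k) (y k) (x k) (L.lift (Metric.closedBall t₁ r)) ≤
      (1 + η) * (2 * (α * R₁ ^ 2 + β)) / (Module.finrank ℚ κ * X.card) +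
        (H + 1) / (β * Real.log (R₁ / r))

/-! ### 3. the degree: lower bound -/

/-- JEN.  Jensen's formula on two circles.

Proof.  `g` is not identically zero near any point of the disc (simple zeros).
`AnalyticOnNhd.circleAverage_log_norm` (Mathlib, JensenFormula.lean) for both radii; the divisor of
`g` is `1` at the zeros (simple) and `0` elsewhere, `Z` := the zeros in the closed disc of radius `R`
(finite).  A zero `u` contributes to the difference `log (R/|u - t₁|) - log (r/|u - t₁|)` or only the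
first term if `|u - t₁| > r`; both are at most `log (R/r)`; the centre contributes `log R - log r` if
it is a zero; the trailing coefficients cancel. -/
def St_JEN : Prop :=
  ∀ (g : ℂ → ℂ) (t₁ : ℂ) (r R : ℝ), 0 < r → r < R → AnalyticOnNhd ℂ g (Metric.closedBall t₁ R) →
    (∀ t ∈ Metric.closedBall t₁ R, g t = 0 → deriv g t ≠ 0) →
    ∃ Z : Finset ℂ, (∀ t ∈ Z, t ∈ Metric.closedBall t₁ R ∧ g t = 0) ∧
      Real.circleAverage (fun t => Real.log ‖g t‖) t₁ R -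
        Real.circleAverage (fun t => Real.log ‖g t‖) t₁ r ≤ Z.card * Real.log (R / r)

/-- CAR.  Cartan's averaging: a good value `ζ` on the unit circle outside a countable set.

Proof.  For `(a, b) ≠ 0` the average over `|ζ| = 1` of `log |a - ζ b|` is `log max (|a|, |b|)`
(`circleAverage_log_norm_sub_const_eq_posLog`).  The functions
`log (2 max (|G₀|, |G₃|)) - log |G₀ - ζ G₃|` are `≥ 0`; by Tonelli (`lintegral_lintegral_swap`) the
average over `ζ` of the sum over `j` of their averages over the circles is `∑_j log 2`; by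
`exists_notMem_null_lintegral_le` there is `ζ` outside the null set `B ∪ B'` for which the sum is
`≤ ∑_j log 2`, where `B'` is the set of `ζ` such that some `G₀ j - ζ G₃ j` is zero identically on the
disc (at most one for each `j`).  For such `ζ` the functions are integrable
(`circleIntegrable_log_norm_meromorphicOn`), so the lintegrals are the integrals. -/
def St_CAR : Prop :=
  ∀ (J : Type) [Fintype J] (t₁ : J → ℂ) (R : J → ℝ) (G₀ G₃ : J → ℂ → ℂ), (∀ j, 0 < R j) →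
    (∀ j, AnalyticOnNhd ℂ (G₀ j) (Metric.closedBall (t₁ j) (R j))) →
    (∀ j, AnalyticOnNhd ℂ (G₃ j) (Metric.closedBall (t₁ j) (R j))) →
    (∀ j, ∀ t ∈ Metric.closedBall (t₁ j) (R j), G₀ j t ≠ 0 ∨ G₃ j t ≠ 0) →
    ∀ B : Set ℂ, B.Countable → ∃ ζ : ℂ, ‖ζ‖ = 1 ∧ ζ ∉ B ∧
      ∑ j, Real.circleAverage (fun t => Real.log (max ‖G₀ j t‖ ‖G₃ j t‖)) (t₁ j) (R j) ≤
        ∑ j, Real.circleAverage (fun t => Real.log ‖G₀ j t - ζ * G₃ j t‖) (t₁ j) (R j)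

/-- BADC.  Multiple solutions of `G₀ = ζ G₃` occur only for finitely many `ζ`.

Proof.  At such a point the Wronskian `G₀' G₃ - G₀ G₃'` vanishes; it is analytic on a neighbourhood
of the closed disc (connected) and not identically zero, so it has finitely many zeros in the compact
disc; at a zero `G₃ ≠ 0` and `ζ = G₀ / G₃`. -/
def St_BADC : Prop :=
  ∀ (G₀ G₃ : ℂ → ℂ) (t₁ : ℂ) (R : ℝ), 0 < R → AnalyticOnNhd ℂ G₀ (Metric.closedBall t₁ R) →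
    AnalyticOnNhd ℂ G₃ (Metric.closedBall t₁ R) →
    (∀ t ∈ Metric.closedBall t₁ R, G₀ t ≠ 0 ∨ G₃ t ≠ 0) →
    (∃ t ∈ Metric.closedBall t₁ R, deriv G₀ t * G₃ t - G₀ t * deriv G₃ t ≠ 0) →
    {ζ : ℂ | ∃ t ∈ Metric.closedBall t₁ R, G₀ t = ζ * G₃ t ∧
      deriv G₀ t = ζ * deriv G₃ t}.Finite

/-- FIB.  Many points in a fibre of `G₀ / G₃`.

Proof.  Hypotheses `St_JEN`, `St_CAR`, `St_BADC`.  `J₁` := the `j` whose Wronskian is not identically
zero on the disc.  For `j ∉ J₁` the quotient is constant: `(G₀, G₃) = (a g, b g)` with `g` analytic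
without zeros, `log ‖g‖` has the same average over both circles (`circleAverage_log_norm_of_ne_zero`),
so `E j ≤ A j`, and `Z j := ∅`.  For `J₁`: CAR with `B ∪` the sets of BADC; `g_j := G₀ - ζ G₃` has
simple zeros in the closed disc; `Z j` from JEN; the average of `log ‖g_j‖` over the circle of radius
`r j` is at most `A j + log 2`, the sum of the averages over the circles of radius `R j` is at
least `∑ E j`.  At a zero `G₃ ≠ 0`. -/
def St_FIB : Prop :=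
  ∀ (J : Type) [Fintype J] (t₁ : J → ℂ) (r R A E : J → ℝ) (ℓ : ℝ) (G₀ G₃ : J → ℂ → ℂ), 0 < ℓ →
    (∀ j, 0 < r j ∧ r j < R j ∧ Real.log (R j / r j) = ℓ) →
    (∀ j, AnalyticOnNhd ℂ (G₀ j) (Metric.closedBall (t₁ j) (R j))) →
    (∀ j, AnalyticOnNhd ℂ (G₃ j) (Metric.closedBall (t₁ j) (R j))) →
    (∀ j, ∀ t ∈ Metric.closedBall (t₁ j) (R j), G₀ j t ≠ 0 ∨ G₃ j t ≠ 0) →
    (∀ j, ∀ t ∈ Metric.sphere (t₁ j) (r j), Real.log (max ‖G₀ j t‖ ‖G₃ j t‖) ≤ A j) →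
    (∀ j, ∀ t ∈ Metric.sphere (t₁ j) (R j), E j ≤ Real.log (max ‖G₀ j t‖ ‖G₃ j t‖)) →
    ∀ B : Set ℂ, B.Countable → ∃ (ζ : ℂ) (Z : J → Finset ℂ), ζ ∉ B ∧
      (∀ j, ∀ t ∈ Z j, t ∈ Metric.closedBall (t₁ j) (R j) ∧ G₃ j t ≠ 0 ∧ G₀ j t = ζ * G₃ j t) ∧
      ∑ j, (E j - A j - Real.log 2) ≤ (∑ j, ((Z j).card : ℝ)) * ℓ

/-- SHC.  SHARP LOWER BOUND FOR THE DEGREE.

Proof.  Hypotheses `St_FIB`, `D.St_FAJ`, `ThP`, `St_S1`.  FIB with `r j := R j / (1 + δ)`,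
`ℓ := log (1 + δ)`, `A j := α r² + e`, `E j := α R² - e` (`Gau.bd`), `B` := the algebraic numbers
(countable): `ζ` transcendental over `Qb`.  The points `((fun _ => t), (L j).x t)`, `t ∈ Z j`, are
different (the lifts are disjoint), they are points of the chart, and with `P ν := ex t (z ν t)`
(`Loc1.th`, `ExP.pt`: `IsJ`), `cb P m = ex t (L.zm m t)`, `rp (cb P m)` is proportional to
`Th (L.zm m t) t`, so to `(G₀, G₃)` in the coordinates `0`, `3`.  FAJ (for `fun _ => ζ`, algebraically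
independent as `V` has one element): `X.card = ∑ (Z j).card`.  Finally
`(α (R² - r²) - 2 e - log 2) / log (1 + δ)` and `R² - r² ≥ 2 r² log (1 + δ)` (`log y ≤ (y² - 1)/2`). -/
def St_SHC : Prop :=
  ∀ ex : (t : ℂ) → ℂ →+ LPt t, ExP ex → ∀ (V N : Type) [Fintype V] [Fintype N] (C : JCh V N),
    Fintype.card V = 1 → ∀ (J : Type) [Fintype J] (L : J → Loc1 ex C) (m : N → ℤ) (t₁ : J → ℂ)
    (R α e : J → ℝ) (δ : ℝ) (G₀ G₃ : J → ℂ → ℂ), 0 < δ → (∀ j, 0 < R j ∧ 0 ≤ α j) →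
    (∀ j, Gau (L j) m (t₁ j) (R j) (α j) (e j) (G₀ j) (G₃ j)) →
    (∀ i j, i ≠ j → Disjoint ((L i).lift (Metric.closedBall (t₁ i) (R i)))
      ((L j).lift (Metric.closedBall (t₁ j) (R j)))) →
    ∃ X : Finset ((V → ℕ) × ℕ), C2.FamJ C (fun _ => m) X ∧
      ∑ j, (2 * α j * R j ^ 2 / (1 + δ) ^ 2 - (2 * e j + Real.log 2) / Real.log (1 + δ)) ≤ (X.card : ℝ)

/-! ### 4. packing and covering by discs -/

/-- COVB.  Covering of a compact set by small discs, sharp.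

Proof.  `M := ∫_F (s + 1) + 1`, `ε' > 0` with `ε' ≤ 1` and `ε' (1 + M) ≤ ε`.  `O' ⊆ O` an open bounded
neighbourhood of `F` with compact closure in `O`, `η > 0` such that the `η`-neighbourhood of `F` is in
`O'` and `|s t - s t'| ≤ ε'` for `t, t' ∈ closure O'`, `|t - t'| ≤ η`.  `μ := (s + 1) · volume` restricted
to `O'` (finite measure, so outer regular).  `Besicovitch.exists_closedBall_covering_tsum_measure_le`
for `μ`, the set `F` and the radii `< min r₀ η`: a countable cover of `F` by closed balls in `O'` with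
centres in `F` and `∑ μ(ball) ≤ μ(F) + ε'`.  As the balls cover `F`, `∑ volume(ball) ≥ volume F`, so
`∑ ∫_ball s ≤ ∫_F s + ε'` for the countable family, hence for all finite subfamilies (`s ≥ 0`).  The
open balls with radii `(1 + δ) r` cover the compact `F`: finite subfamily `B`.  `∑_B π b.2² ≤
∑ μ(ball) ≤ M`, and `s(b.1) π b.2² ≤ ∫_ball s + ε' π b.2²`. -/
def St_COVB : Prop :=
  ∀ (O F : Set ℂ) (s : ℂ → ℝ), IsOpen O → IsCompact F → F ⊆ O → ContinuousOn s O →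
    (∀ t ∈ O, 0 ≤ s t) → ∀ ε δ r₀ : ℝ, 0 < ε → 0 < δ → 0 < r₀ → ∃ B : Finset (ℂ × ℝ),
      (∀ b ∈ B, b.1 ∈ F ∧ 0 < b.2 ∧ b.2 ≤ r₀) ∧
      F ⊆ ⋃ b ∈ B, Metric.closedBall b.1 ((1 + δ) * b.2) ∧
      ∑ b ∈ B, s b.1 * (Real.pi * b.2 ^ 2) ≤ (∫ t in F, s t) + ε ∧
      ∑ b ∈ B, Real.pi * b.2 ^ 2 ≤ (∫ t in F, (s t + 1)) + 1

/-- PACB.  Packing of discs, sharp.

Proof.  `F` compact in `O'`: `s` is uniformly continuous and bounded (`≤ M`) on a compact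
neighbourhood of `F`.  `Besicovitch.exists_disjoint_closedBall_covering_ae` for `volume`, the set `O`
and the radii `r ≤ min r₀ η` with `closedBall x r ⊆ O`: countable disjoint family, covering `O` up to
measure `0`; take a finite subfamily with the rest of measure `≤ ε'` (`volume O < ∞`).  Then
`∫_F s = ∫_O s ≤ ∑ ∫_ball s + M ε' ≤ ∑ (s(b.1) + ε') π b.2² + M ε'`, `∑ π b.2² ≤ volume O`. -/
def St_PACB : Prop :=
  ∀ (O F O' : Set ℂ) (s : ℂ → ℝ), IsOpen O → IsCompact F → O ⊆ F → IsOpen O' → F ⊆ O' →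
    ContinuousOn s O' → (∀ t ∈ O', 0 ≤ s t) → volume (F \ O) = 0 →
    ∀ ε r₀ : ℝ, 0 < ε → 0 < r₀ → ∃ B : Finset (ℂ × ℝ),
      (∀ b ∈ B, 0 < b.2 ∧ b.2 ≤ r₀ ∧ Metric.closedBall b.1 b.2 ⊆ O) ∧
      (∀ b ∈ B, ∀ b' ∈ B, b ≠ b' →
        Disjoint (Metric.closedBall b.1 b.2) (Metric.closedBall b'.1 b'.2)) ∧
      (∫ t in F, s t) - ε ≤ ∑ b ∈ B, s b.1 * (Real.pi * b.2 ^ 2) ∧
      ∑ b ∈ B, Real.pi * b.2 ^ 2 ≤ (volume F).toReal

/-! ### 5. the mass inequality -/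

/-- LOW.  The degree is at least `(2 Λ² / π) ∫ s_w`, sharp.

Proof.  Hypotheses `St_LG`, `St_SHC`, `St_PACB`, `St_ETA1`, `St_GQF` (`ds` is continuous and `≥ 0` on
`dsk`: `0`, `1` are not in the disc by `Pers`).  For each `j` PACB with `s := ds w`, `O' := dsk`;
`r₀` from LG for `F j` and `ε''`; the centres are in `O j ⊆ F j`.  LG at every disc: `α = Λ² ds`,
`e = ε'' Λ² r²`.  SHC for the (finitely many) discs, the lifts are disjoint (`Pieces.dis`):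
`X.card ≥ (2 Λ² / π) ((1+δ)^(-2) ∑ ds π r² - (ε'' / log (1+δ)) ∑ π r²) - # log 2 / log (1+δ)`;
first `δ`, then `ε''`, then `Λ₀`. -/
def St_LOW : Prop :=
  ∀ ex : (t : ℂ) → ℂ →+ LPt t, ExP ex → ∀ (V N : Type) [Fintype V] [Fintype N] (C : JCh V N),
    Fintype.card V = 1 → ∀ (J : Type) [Fintype J] (T : Pieces ex C J) (w : N → ℝ) (ε : ℝ), 0 < ε →
    ∃ Λ₀ : ℝ, 0 < Λ₀ ∧ ∀ Λ : ℝ, Λ₀ ≤ Λ → ∀ m : N → ℤ, Near w Λ m →
      ∃ X : Finset ((V → ℕ) × ℕ), C2.FamJ C (fun _ => m) X ∧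
        2 * Λ ^ 2 / Real.pi * ((∑ j, ∫ t in T.F j, (T.L j).ds w t) - ε) ≤ (X.card : ℝ)

/-- UPF.  The mass of a compact piece, upper bound, sharp.

Proof.  Hypotheses `St_LG`, `St_UPP`, `St_COVB`, `St_ETA1`, `St_GQF`.  `η`, `δ`, `ε₁` small, then `ε₂`
with `10 ε₂ ≤ η ε₁ log (1 + δ)`, `r₀'` from LG for `F`, `ε₂`, also `40 (max ds + ε₁) r₀'² ≤ η c₀`.
COVB with `s := ds w`, radii `≤ r₀' / (1+δ)²`.  For each `b ∈ B`: `R₁ := (1+δ)² b.2`,
`r := (1+δ) b.2`, LG: `α = Λ² ds`, `e = ε₂ Λ² R₁²`, `β := ε₁ Λ² R₁²`; UPP.  `prp` is monotone and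
subadditive in the set (`ncard` of `EmbIn`, finite sets), `L.lift F ⊆ ⋃ L.lift (closedBall ..)`.
Multiply by `q X.card`: `(1+η)(1+δ)^4 (2Λ²/π) (∑ ds π b² + ε₁ ∑ π b²)` plus
`X.card ∑ q (H+1) / (ε₁ Λ² R₁² log (1+δ)) ≤ ε X.card` for `Λ` large. -/
def St_UPF : Prop :=
  ∀ ex : (t : ℂ) → ℂ →+ LPt t, ExP ex → ∀ (V N : Type) [Fintype V] [Fintype N] (C : JCh V N),
    Fintype.card V = 1 → ∀ κ : IntermediateField ℚ ℂ, FiniteDimensional ℚ κ → C2.CoIn C κ →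
    Complex.I ∈ κ → ∀ (Q : Type) (U : Ultrafilter Q) (p : PreF N Q) (y : Q → V → Qb) (x : Q → Qb),
    C2.GSeq C U p y x → ∀ KK : Q → IntermediateField ℚ ℂ, C2.GoodK κ y x KK →
    ∀ (w : N → ℝ) (H : ℝ), 0 ≤ H → HB U p w H → ∀ (L : Loc1 ex C) (F : Set ℂ), IsCompact F →
    F ⊆ L.dsk → ∀ ε c₀ : ℝ, 0 < ε → 0 < c₀ → ∃ Λ₀ : ℝ, 0 < Λ₀ ∧ ∀ Λ : ℝ, Λ₀ ≤ Λ →
    ∀ m : N → ℤ, Near w Λ m → ∀ X : Finset ((V → ℕ) × ℕ), C2.FamJ C (fun _ => m) X →
    c₀ * Λ ^ 2 ≤ (X.card : ℝ) → ∀ᶠ k in (U : Filter Q),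
      Module.finrank ℚ κ * C2.prp κ (KK k) (y k) (x k) (L.lift F) * X.card ≤
        2 * Λ ^ 2 / Real.pi * ((∫ t in F, L.ds w t) + ε) + ε * X.card

/-- INT.  THE MASS INEQUALITY.

Proof.  Hypotheses `St_LOW`, `St_UPF`, `St_ETA1`, `St_GQF`.  `I := ∑ ∫ ds ≥ 0`.  If `I = 0` the left
side is `0`.  Else `ε' < I / 2` small, `c₀ := I / π`, `Λ` large, `m := round (Λ w)`; `X` from LOW
(`X.card ≥ c₀ Λ²`), UPF for `F j`: `(q prp - ε') X.card ≤ (2Λ²/π) (I_j + ε')`, so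
`(q prp - ε') (I - ε') ≤ I_j + ε'` (also true if the left side is negative), and `q prp ≤ 1` (the number
of embeddings of `K` over `κ` is at most `[K : κ]`).  `ε' (I + 2) ≤ ε`. -/
def St_INT : Prop :=
  ∀ ex : (t : ℂ) → ℂ →+ LPt t, ExP ex → ∀ (V N : Type) [Fintype V] [Fintype N] (C : JCh V N),
    Fintype.card V = 1 → ∀ κ : IntermediateField ℚ ℂ, FiniteDimensional ℚ κ → C2.CoIn C κ →
    Complex.I ∈ κ → ∀ (Q : Type) (U : Ultrafilter Q) (p : PreF N Q) (y : Q → V → Qb) (x : Q → Qb),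
    C2.GSeq C U p y x → ∀ KK : Q → IntermediateField ℚ ℂ, C2.GoodK κ y x KK →
    ∀ (w : N → ℝ) (H : ℝ), 0 ≤ H → HB U p w H → ∀ (J : Type) [Fintype J] (T : Pieces ex C J)
    (j : J) (ε : ℝ), 0 < ε → ∀ᶠ k in (U : Filter Q),
      Module.finrank ℚ κ * C2.prp κ (KK k) (y k) (x k) ((T.L j).lift (T.F j)) *
        (∑ i, ∫ t in T.F i, (T.L i).ds w t) ≤ (∫ t in T.F j, (T.L j).ds w t) + ε

/-- PCS.  Pieces from finitely many discs.

Proof.  Hypothesis `St_LC1`.  `F j` as in the statement, `O j := {t ∈ ball | ∀ i < j, ¬ (t ∈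
closedBall (c i) (r i) ∧ (L i).x t = (L j).x t)}`.  If `(L i).x t = (L j).x t` at a point of both
discs then the same near `t` (both are roots near the root of LC1 at `(t, x)`, unique), so
`{t ∈ closedBall j | t ∈ ball i ∧ equal}` is open in the closed disc: `F j` is compact; `O j` is open
(`{t ∈ closedBall i ∩ ball j | equal}` is closed in the ball).  `F j \ O j` is contained in the
spheres of radius `r i` around `c i`, `i ≤ j`: null sets.  `dis`: for `i < j` and `t ∈ O i ∩ O j`,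
`t ∈ ball i ⊆ closedBall i`. -/
def St_PCS : Prop :=
  ∀ ex : (t : ℂ) → ℂ →+ LPt t, ExP ex → ∀ (V N : Type) [Fintype V] [Fintype N] (C : JCh V N),
    Fintype.card V = 1 → ∀ (n : ℕ) (L : Fin n → Loc1 ex C) (c : Fin n → ℂ) (r : Fin n → ℝ),
    (∀ j, 0 < r j) → (∀ j, Metric.closedBall (c j) (r j) ⊆ (L j).dsk) →
    ∃ T : Pieces ex C (Fin n), T.L = L ∧ ∀ j, T.F j = {t | t ∈ Metric.closedBall (c j) (r j) ∧
      ∀ i < j, ¬ (t ∈ Metric.ball (c i) (r i) ∧ (L i).x t = (L j).x t)}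

/-- RAT.  THE DENSITIES ARE PROPORTIONAL.

Proof.  Hypotheses `St_INT`, `St_PCS`, `St_LC1`, `C2.St_KM`, `St_ETA1`, `St_GQF`.  Write
`S_v := ∫ ds v` over `D₁ := closedBall c₁ r₁`, for `v = w, w'`, `q := [κ : ℚ]`.  Let
`closedBall t₁ s ⊆ ball c₁ r₁`, `I_v := ∫ ds v` over it.  CLAIM `I_w S_w' = I_w' S_w`; then divide by
the area and let `s → 0` (`ds` is continuous).  Let `ε > 0`; KM with `δ := ε / q`: `M`, the compact
set `K_M` with `q prp ≥ 1 - ε`.  Discs: number `0`: `(L, t₁, s)`, number `1`: `(L, c₁, r₁)`, the others: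
finitely many discs from LC1 whose lifts of the open balls cover `K_M` (LC1 gives a neighbourhood in
the curve).  PCS: `F 0 = closedBall t₁ s`, `F 1 = D₁ \ ball t₁ s`; the lifts of the `F j` cover `K_M`.
`I_T(v) := ∑_j ∫_(F j) ds v`, `π_j(k) := q prp(lift (F j))`.  For almost all `k`, both `v` and all
`j` (finitely many): `π_j I_T(v) ≤ I_j(v) + ε'` (INT) and `∑ π_j ≥ 1 - ε`.  Sum over all
`i ≠ j`: `|I_j(v) - π_j I_T(v)| ≤ ε I_T(v) + n ε'`.  And `(π_0 + π_1) ≥ q δ₀` (hypothesis, `D₁ = F 0 ∪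
F 1`), so `q δ₀ I_T(v) ≤ S_v + 2 ε'`: `I_T(v) ≤ C_v` independent of `ε`.  Fix such a `k`; for
`j = 0, 1` and `v = w, w'`: `I_0(w) I_1(w') - I_0(w') I_1(w)` is `π_0 π_1 I_T(w) I_T(w') -` the same,
up to `C (ε + n ε')`.  `ε' → 0`, then `ε → 0`: `I_0(w) I_1(w') = I_0(w') I_1(w)`; add
`I_0(w) I_0(w')`, `I_0 + I_1 = S`. -/
def St_RAT : Prop :=
  ∀ ex : (t : ℂ) → ℂ →+ LPt t, ExP ex → ∀ (V N : Type) [Fintype V] [Fintype N] (C : JCh V N),
    Fintype.card V = 1 → ∀ κ : IntermediateField ℚ ℂ, FiniteDimensional ℚ κ → C2.CoIn C κ →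
    Complex.I ∈ κ → ∀ (Q : Type) (U : Ultrafilter Q) (p : PreF N Q) (y : Q → V → Qb) (x : Q → Qb),
    C2.GSeq C U p y x → ∀ KK : Q → IntermediateField ℚ ℂ, C2.GoodK κ y x KK →
    ∀ (L : Loc1 ex C) (c₁ : ℂ) (r₁ δ₀ : ℝ), 0 < r₁ → 0 < δ₀ →
    Metric.closedBall c₁ r₁ ⊆ L.dsk →
    (∀ᶠ k in (U : Filter Q), δ₀ ≤ C2.prp κ (KK k) (y k) (x k)
      (L.lift (Metric.closedBall c₁ r₁))) →
    ∀ (w w' : N → ℝ) (H : ℝ), 0 ≤ H → HB U p w H → HB U p w' H → ∀ t₁ ∈ Metric.ball c₁ r₁,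
      L.ds w t₁ * (∫ t in Metric.closedBall c₁ r₁, L.ds w' t) =
        L.ds w' t₁ * (∫ t in Metric.closedBall c₁ r₁, L.ds w t)

/-- ISO.  Isotropy is impossible.

Proof.  Hypotheses `St_ETA1`, `St_GQF`, `D.St_BET` or `ZR/AX/Dbar.lean`.  `q(w) := ∫ ds w` is a
positive semidefinite quadratic form on `W` (`th1` is real linear).  If `q(w) = 0` for some `w ≠ 0` in
`W`: `ds w = 0` on the open disc (continuous, `≥ 0`), so `th1 w = 0` there (`aq > 0`).  Otherwise `q` is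
positive definite, `w₁, w₂` an orthonormal basis of `W`; for `t` in the open disc
`ds (a w₁ + b w₂) t = (a² + b²) ds w₁ t`, so for `θ_i := th1 w_i t`: `|θ₁| = |θ₂|`,
`Re (θ₁ conj θ₂) = 0`, so `θ₁² + θ₂² = 0`.  Let `β^i_j` be the Betti coordinates of `zw w_i` (real
differentiable); `∑_j β^i_j w_j = zw w_i` is holomorphic and `θ_i = zw' - ∑ β^i_j w_j'`, so
`∑_j w_j ∂̄β^i_j = 0`, `∑_j w_j ∂β^i_j = θ_i`, `∂̄β = conj (∂β)` (`β` real), hence
`∂β^i_1 = conj w₂ θ_i / (w₁ conj w₂ - conj w₁ w₂)`, `∂β^i_2 = - conj w₁ θ_i / (..)`, and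
`∂̄θ_i = - w₁' ∂̄β^i_1 - w₂' ∂̄β^i_2 = K conj θ_i`, `K = (w₁ w₂' - w₂ w₁') / (conj w₁ w₂ - w₁ conj w₂)
≠ 0` (`Pers.wr`, `Pers.im`).  `0 = ∂̄ (θ₁² + θ₂²) = 2 K (|θ₁|² + |θ₂|²)`: `θ₁ = 0` on the disc.
(`∂̄ f = (f_x + i f_y) / 2`, real Fréchet derivatives; or use two real directions.) -/
def St_ISO : Prop :=
  ∀ (ex : (t : ℂ) → ℂ →+ LPt t) (V N : Type) [Fintype V] [Fintype N] (C : JCh V N)
    (L : Loc1 ex C) (W : Submodule ℝ (N → ℝ)), Module.finrank ℝ W = 2 → ∀ (c₁ : ℂ) (r₁ : ℝ),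
    0 < r₁ → Metric.closedBall c₁ r₁ ⊆ L.dsk →
    (∀ w ∈ W, ∀ w' ∈ W, ∀ t₁ ∈ Metric.ball c₁ r₁,
      L.ds w t₁ * (∫ t in Metric.closedBall c₁ r₁, L.ds w' t) =
        L.ds w' t₁ * (∫ t in Metric.closedBall c₁ r₁, L.ds w t)) →
    ∃ w ∈ W, w ≠ 0 ∧ ∀ t ∈ Metric.ball c₁ r₁, L.th1 w t = 0

/-! ### 6. discs on which the Betti form vanishes -/

/-- DGC.  The degrees tend to infinity, quadratically, for all integral combinations.

Proof.  From the block U1 (helper15): `thm_U1 : ∀ s : BlkF N U, s.Hor → s.Ind → s.fH ⊤ = 1 →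
∀ w ≠ 0, ¬ s.Rel w`.  Points `z_j` of the chart over `Qb`, `j ∈ ℕ` large: `t = j`, a root of
`f(j, ·)`, points from `St_S1`; ultrafilter on `ℕ` (hyperfilter); `lam j := max 1 (log j)`; the block
is `Hor`, `Ind` (`m . P` is not `0` at the generic point, so at almost all `z_j`), `fH ⊤ = 1`.  So
`q(w) := lim QJ/lam` is positive definite: `q(m) ≥ c |m|²`.  `X := {t^a, a < d}`, `d` maximal such
that `FamJ`; a relation `∑ F(a, l) t^l S^a T^(n-a) = 0`, `l ≤ d`, gives at `z_j`: `hQ (S/T) ≤ d hQ t +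
O(1)` (LIO, or as a polynomial relation between `S/T` and `t` of degree `≤ d` in `t`), and
`hJ ≤ 2 hQ(S/T) + C (hQ t + 1)`, `|hJ - hcJ| ≤ C (hQ t + 1)` (HTF): `d ≥ (q(m) - C)/C'`. -/
def St_DGC : Prop :=
  ∀ (V N : Type) [Fintype V] [Fintype N] (C : JCh V N), Fintype.card V = 1 →
    ∀ (Q : Type) (U : Ultrafilter Q) (p : PreF N Q) (y : Q → V → Qb) (x : Q → Qb),
    C2.GSeq C U p y x → (∀ m : N → ℤ, m ≠ 0 → ∀ᶠ k in (U : Filter Q), cb (p.P k) m ≠ 0) →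
    ∃ c C' : ℝ, 0 < c ∧ ∀ m : N → ℤ, ∃ X : Finset ((V → ℕ) × ℕ),
      c * ∑ ν, (m ν : ℝ) ^ 2 - C' ≤ (X.card : ℝ) ∧ C2.FamJ C (fun _ => m) X

/-- NRZ.  A disc on which the Betti form of an approximate relation vanishes has mass zero.

Proof.  Hypotheses `St_LG0`, `St_UPP`, `St_DGC`.  LG0: `e`.  Given `ε`: `ℓ := log (R/r)`,
`β := 10 e / ℓ + 2 (H + 1) / (ε ℓ) + 1`, `η := 1`, `α := 0`.  `Λ` large, `m := round (Λ w)`, `X` from
DGC with `X.card ≥ 40 β` and `≥ 8 β / (ε q)` (`w ≠ 0`).  UPP: `prp ≤ 2 · 2β/(q X.card) +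
(H+1)/(β ℓ) ≤ ε`. -/
def St_NRZ : Prop :=
  ∀ ex : (t : ℂ) → ℂ →+ LPt t, ExP ex → ∀ (V N : Type) [Fintype V] [Fintype N] (C : JCh V N),
    Fintype.card V = 1 → ∀ κ : IntermediateField ℚ ℂ, FiniteDimensional ℚ κ → C2.CoIn C κ →
    Complex.I ∈ κ → ∀ (Q : Type) (U : Ultrafilter Q) (p : PreF N Q) (y : Q → V → Qb) (x : Q → Qb),
    C2.GSeq C U p y x → ∀ KK : Q → IntermediateField ℚ ℂ, C2.GoodK κ y x KK →
    (∀ m : N → ℤ, m ≠ 0 → ∀ᶠ k in (U : Filter Q), cb (p.P k) m ≠ 0) →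
    ∀ (w : N → ℝ) (H : ℝ), w ≠ 0 → 0 ≤ H → HB U p w H → ∀ L : Loc1 ex C,
    (∀ t ∈ L.dsk, L.th1 w t = 0) → ∀ (t₁ : ℂ) (r R : ℝ), 0 < r → r < R →
    Metric.closedBall t₁ R ⊆ L.dsk → ∀ ε : ℝ, 0 < ε → ∀ᶠ k in (U : Filter Q),
      C2.prp κ (KK k) (y k) (x k) (L.lift (Metric.closedBall t₁ r)) ≤ ε

/-! ### 7. the end -/

/-- MinII for `fB ⊤ = 1` -/
def MinIIone : Prop :=
  ∀ (N : Type) [Fintype N] (Q : Type) (U : Ultrafilter Q) (s : BlkF N U),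
    s.Bdd → s.Ind → ∀ W : Submodule ℝ (N → ℝ), (∀ w ∈ W, s.Rel w) →
      Module.finrank ℝ W = s.fB ⊤ + 1 → s.fB ⊤ = 1 → False

/-- END: `MinIIone`.

Proof.  Hypotheses `C2.St_CHT`, `C2.St_KAP`, `C2.St_HTS`, `C2.St_KM`, `St_LC1`, `St_RAT`, `St_ISO`,
`St_NRZ`, `thm_EX`.  `C, y, x` from CHT (`card V = 1`), `κ` from KAP, enlarged by `I` (`CoIn` is
monotone in `κ`), `KK k := κ(y k, x k)`, `H` from HTS: `HB U p w H` for all `w ∈ W`.  KM with
`δ := 1/(2q)`; `K_M` is compact, the sets `L.lift (ball L.c (L.r/2))`, `L` from LC1, are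
neighbourhoods of its points in the curve, so finitely many cover it; by the ultrafilter property one
of them has `prp ≥ δ₀ > 0` for almost all `k`.  `c₁ := L.c`, `r' := L.r/2`, `r₁ := 3 L.r/4`,
`R := 5 L.r/8`: RAT for all `w, w' ∈ W` (`closedBall c₁ r₁` has mass `≥ δ₀`), ISO: `w ∈ W`, `w ≠ 0`,
`th1 w = 0` on `ball c₁ r₁`; NRZ for `L.res c₁ r₁` and `r' < R`: mass of `closedBall c₁ r'` `≤ δ₀/2`,
contradiction. -/
def St_END : Prop :=
  C2.St_CHT → C2.St_KAP → C2.St_HTS → C2.St_KM → St_LC1 → St_RAT → St_ISO → St_NRZ → MinIIone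

/-- MII: `MinII` from the two cases.

Proof.  `fB ⊤ ≥ 1`: `tU` is transcendental over `FCst` by `NC` (`Bdd`; `FCst` is algebraically
closed), compare ZR/CH, ZR/C2/CHT. -/
def St_MII : Prop := MinIIone → C2.MinIIge → MinII

/-! ### 8. NR -/

/-- CONN.  The curve is connected.

Proof.  Let `VC C = A ⊔ B`, both relatively open, `A ≠ ∅ ≠ B`.  `E := {t | D(t) ≠ 0}`, the complement
of a finite set, is connected; over `E` the projection `VC C → E` is a covering of degree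
`n := natDegree f` (roots of the monic `f(t, ·)`, simple by `bez`; LC1 at each root).  The number of
the points of `A` over `t` is locally constant, so constant `n_A`; `0 < n_A < n` (if `n_A = 0` then `A`
is empty).  `P_A(t, X) := ∏ (X - x)` over the points of `A` over `t`: the coefficients are holomorphic
on `E`, bounded near the points outside `E` (the roots of a monic polynomial with bounded coefficients
are bounded), of polynomial growth at infinity: polynomials in `t` over `ℂ`.  `f = P_A P_B` in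
`ℂ[t][X]`, monic of positive degrees: `f` is reducible over `ℂ`; but `f` is irreducible over
`Frac Qb[t]` (`C.irr`), so over `Frac ℂ[t]`: the coefficients of the factors satisfy polynomial
equations over `Qb` (finitely many unknowns, fixed degrees, monic), a complex solution gives a
solution over `Qb` (`Qb` is algebraically closed: Nullstellensatz / `IsAlgClosed` transfer, compare
ZPE GENX, or: the `Qb`-algebra generated by the coefficients has a homomorphism to `Qb`). -/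
def St_CONN : Prop :=
  ∀ (V N : Type) [Fintype V] [Fintype N] (C : JCh V N), Fintype.card V = 1 →
    IsPreconnected (C2.VC C)

/-- THI.  The Betti form does not depend on the local data.

Proof.  Hypotheses `ThP`, `St_S1`, `St_LC1`.  (1) If `ex t p = 0` and `w₁ t`, `w₂ t` are periods,
independent over `ℝ`, then `p = a w₁ t + b w₂ t` with `a, b` rational: the zeros of the entire function
`Th · t 0` (not identically zero) in a compact set are finitely many; reduce `j p`, `j = 1, 2, ...`, modulo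
`ℤ w₁ + ℤ w₂` into a parallelogram (all are zeros of `ex t`, so of `Th · t 0`: `ExP.pt`, the
coordinate `0` of `rp 0` is `0`): two coincide.  (2) If `p` is analytic near `t₀` and `ex t (p t) = 0`
for all `t` near `t₀`, the Betti coordinates `a(t), b(t)` (`be1`, `be2`, continuous) are rational for
all `t` in a disc, so constant.  (3) `L.x t₀ = L'.x t₀` implies `L.x = L'.x` near `t₀` (LC1: unique
root), so `z' ν - z ν`, `w'_i` are as in (2): `z' ν = z ν + a_ν w₁ + b_ν w₂`, `w'_i = c_i w₁ + d_i w₂`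
near `t₀` with real constants.  (4) Linear algebra: `th1` is the same. -/
def St_THI : Prop :=
  ∀ ex : (t : ℂ) → ℂ →+ LPt t, ExP ex → ∀ (V N : Type) [Fintype V] [Fintype N] (C : JCh V N),
    Fintype.card V = 1 → ∀ (L L' : Loc1 ex C) (t₀ : ℂ), t₀ ∈ L.dsk → t₀ ∈ L'.dsk →
    L.x t₀ = L'.x t₀ → ∀ w : N → ℝ, ∀ᶠ t in 𝓝 t₀, L.th1 w t = L'.th1 w t

/-- NRC.  If the Betti form vanishes on one disc, then on all.

Proof.  Hypotheses `St_CONN`, `St_THI`, `St_CST`, `St_LC1`.  `A` := the points `q` of the curve such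
that for some local data `L` at `q` (`(fun _ => L.c, L.x L.c) = q`) `th1 w = 0` on `L.dsk`.  `A` is
relatively open (restrict `L`) and relatively closed: if the disc of `L` at `q` contains a point of
`A`, then `th1 w = 0` near this point (THI), so on the disc (CST). -/
def St_NRC : Prop :=
  ∀ ex : (t : ℂ) → ℂ →+ LPt t, ExP ex → ∀ (V N : Type) [Fintype V] [Fintype N] (C : JCh V N),
    Fintype.card V = 1 → ∀ (w : N → ℝ) (L : Loc1 ex C), (∀ t ∈ L.dsk, L.th1 w t = 0) →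
    ∀ L' : Loc1 ex C, ∀ t ∈ L'.dsk, L'.th1 w t = 0

/-- NR.  The Betti form of an approximate relation does not vanish on any disc.

Proof.  Hypotheses `St_NRC`, `St_NRZ`, `St_LC1`, `C2.St_KAP`, `C2.St_HTS`, `C2.St_KM`.  Otherwise it
vanishes on all discs (NRC); as in END the compact set `K_M` of KM is covered by finitely many lifts
of discs, each of mass `≤ ε` by NRZ: contradiction for small `ε`. -/
def St_NR : Prop :=
  ∀ ex : (t : ℂ) → ℂ →+ LPt t, ExP ex → ∀ (N : Type) [Fintype N] (Q : Type) (U : Ultrafilter Q)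
    (s : BlkF N U), s.Bdd → s.Ind → ∀ (V : Type) [Fintype V] (C : JCh V N) (y : Q → V → Qb)
    (x : Q → Qb), Fintype.card V = 1 → C2.GSeq C U s.toPreF y x → ∀ w : N → ℝ, w ≠ 0 → s.Rel w →
    ∀ L : Loc1 ex C, ∃ t ∈ L.dsk, L.th1 w t ≠ 0

end EQ

end Pool.Agent.ZR
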