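import Pool.Agent.ZR.EQ.St

/-!
# ZR, block EQ: multiple solutions of `G₀ = ζ G₃` occur only for finitely many `ζ`
-/

set_option autoImplicit false

open scoped BigOperators ComplexConjugate
open Filter Topology MeasureTheory

namespace Pool.Agent.ZR.EQ

theorem BADC_of : St_BADC := by
  intro G₀ G₃ t₁ R hR h₀ h₃ hne hW
  have hWan : AnalyticOnNhd ℂ (fun t => deriv G₀ t * G₃ t - G₀ t * deriv G₃ t)
      (Metric.closedBall t₁ R) := fun t ht =>
    ((h₀ t ht).deriv.mul (h₃ t ht)).sub ((h₀ t ht).mul (h₃ t ht).deriv)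
  have hfin : {t | t ∈ Metric.closedBall t₁ R ∧
      deriv G₀ t * G₃ t - G₀ t * deriv G₃ t = 0}.Finite := by
    by_contra hinf
    obtain ⟨t₀, ht₀, hacc⟩ := Set.Infinite.exists_accPt_of_subset_isCompact hinf
      (isCompact_closedBall t₁ R) fun t ht => ht.1
    rw [accPt_iff_frequently_nhdsNE] at hacc
    have h1 := hWan.eqOn_zero_of_preconnected_of_frequently_eq_zero
      (convex_closedBall t₁ R).isPreconnected ht₀ (hacc.mono fun t ht => ht.2)
    obtain ⟨t, ht, hWt⟩ := hW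
    exact hWt (h1 ht)
  refine (hfin.image fun t => G₀ t / G₃ t).subset ?_
  rintro ζ ⟨t, ht, h1, h2⟩
  have h3 : G₃ t ≠ 0 := by
    intro h4
    rcases hne t ht with h5 | h5
    · exact h5 (by rw [h1, h4, mul_zero])
    · exact h5 h4
  refine ⟨t, ⟨ht, ?_⟩, ?_⟩
  · rw [h1, h2]; ring
  · show G₀ t / G₃ t = ζ
    rw [h1, mul_div_assoc, div_self h3, mul_one]

end Pool.Agent.ZR.EQ
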