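import Pool.Agent.ZR.EQ.St

/-!
# ZR, block EQ: CAR, Cartan's averaging
-/

set_option autoImplicit false
set_option linter.unusedSimpArgs false

open scoped BigOperators ComplexConjugate ENNReal
open Filter Topology MeasureTheory

namespace Pool.Agent.ZR

namespace EQ

private theorem CAR_null (a : ℂ) : ∀ᵐ θ : ℝ, circleMap 0 1 θ ≠ a := by
  have h := (Set.countable_singleton a).preimage_circleMap 0 (R := 1) one_ne_zero
  have h2 := h.measure_zero (volume : Measure ℝ)
  rw [ae_iff]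
  refine measure_mono_null ?_ h2
  intro θ hθ
  simpa using hθ

private theorem CAR_cov {a b : ℂ} (hb : b ≠ 0) {θ : ℝ} (h : circleMap 0 1 θ ≠ a / b) :
    Real.log ‖a - circleMap 0 1 θ * b‖ = Real.log ‖b‖ + Real.log ‖circleMap 0 1 θ - a / b‖ := by
  have h1 : a - circleMap 0 1 θ * b = -(b * (circleMap 0 1 θ - a / b)) := by
    field_simp
    ring
  rw [h1, norm_neg, norm_mul, Real.log_mul (norm_ne_zero_iff.mpr hb)
    (norm_ne_zero_iff.mpr (sub_ne_zero.mpr h))]

/-- the average of `log |a - ζ b|` -/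
private theorem CAR_int {a b : ℂ} (h : a ≠ 0 ∨ b ≠ 0) :
    IntervalIntegrable (fun θ => Real.log ‖a - circleMap 0 1 θ * b‖) volume 0 (2 * Real.pi) ∧
    ∫ θ in (0)..(2 * Real.pi), Real.log ‖a - circleMap 0 1 θ * b‖ =
      2 * Real.pi * Real.log (max ‖a‖ ‖b‖) := by
  by_cases hb : b = 0
  · subst hb
    simp only [mul_zero, sub_zero]
    refine ⟨intervalIntegrable_const, ?_⟩
    rw [intervalIntegral.integral_const, norm_zero, max_eq_left (norm_nonneg a), smul_eq_mul,
      sub_zero]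
  have hI : IntervalIntegrable (fun θ => Real.log ‖circleMap 0 1 θ - a / b‖) volume 0
      (2 * Real.pi) := by
    have h1 : CircleIntegrable (fun z => Real.log ‖z - a / b‖) 0 1 := by
      apply MeromorphicOn.circleIntegrable_log_norm
      intro z _
      exact ((analyticAt_id).sub analyticAt_const).meromorphicAt
    exact h1
  have hav : ∫ θ in (0)..(2 * Real.pi), Real.log ‖circleMap 0 1 θ - a / b‖ =
      2 * Real.pi * Real.posLog ‖a / b‖ := by
    have h1 := circleAverage_log_norm_sub_const_eq_posLog (a := a / b)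
    rw [Real.circleAverage_def, smul_eq_mul] at h1
    have hpi : (2 * Real.pi) ≠ 0 := by positivity
    rw [← h1, ← mul_assoc, mul_inv_cancel₀ hpi, one_mul]
  have hae : ∀ᵐ θ : ℝ, Real.log ‖a - circleMap 0 1 θ * b‖ =
      Real.log ‖b‖ + Real.log ‖circleMap 0 1 θ - a / b‖ := by
    filter_upwards [CAR_null (a / b)] with θ hθ using CAR_cov hb hθ
  refine ⟨?_, ?_⟩
  · refine (intervalIntegrable_const.add hI : IntervalIntegrable (fun θ => Real.log ‖b‖ +
      Real.log ‖circleMap 0 1 θ - a / b‖) volume 0 (2 * Real.pi)).congr_ae ?_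
    refine ae_restrict_of_ae ?_
    filter_upwards [hae] with θ hθ using hθ.symm
  · rw [intervalIntegral.integral_congr_ae (g := fun θ => Real.log ‖b‖ +
      Real.log ‖circleMap 0 1 θ - a / b‖) (hae.mono fun θ hθ _ => hθ),
      intervalIntegral.integral_add intervalIntegrable_const hI, hav,
      intervalIntegral.integral_const, smul_eq_mul, sub_zero, ← mul_add]
    congr 1
    have hb' : 0 < ‖b‖ := norm_pos_iff.mpr hb
    rcases le_total ‖a‖ ‖b‖ with hab | hab
    · rw [max_eq_right hab, (Real.posLog_eq_zero_iff _).mpr, add_zero]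
      rw [abs_of_nonneg (norm_nonneg _), norm_div]
      exact div_le_one_of_le₀ hab hb'.le
    · rw [max_eq_left hab]
      have ha' : 0 < ‖a‖ := hb'.trans_le hab
      rw [Real.posLog_eq_log, norm_div, Real.log_div ha'.ne' hb'.ne']
      · ring
      · rw [abs_of_nonneg (norm_nonneg _), norm_div, one_le_div hb']
        exact hab

private theorem CAR_pos {a b : ℂ} {ζ : ℂ} (hζ : ‖ζ‖ = 1) (h : a - ζ * b ≠ 0) :
    0 ≤ Real.log 2 + Real.log (max ‖a‖ ‖b‖) - Real.log ‖a - ζ * b‖ := by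
  have h1 : ‖a - ζ * b‖ ≤ 2 * max ‖a‖ ‖b‖ := by
    calc ‖a - ζ * b‖ ≤ ‖a‖ + ‖ζ * b‖ := norm_sub_le _ _
      _ = ‖a‖ + ‖b‖ := by rw [norm_mul, hζ, one_mul]
      _ ≤ 2 * max ‖a‖ ‖b‖ := by linarith [le_max_left ‖a‖ ‖b‖, le_max_right ‖a‖ ‖b‖]
  have h2 : 0 < ‖a - ζ * b‖ := norm_pos_iff.mpr h
  have h3 : 0 < max ‖a‖ ‖b‖ := by linarith
  rw [← Real.log_mul two_ne_zero h3.ne', sub_nonneg]
  exact Real.log_le_log h2 h1

theorem CAR_of : St_CAR := by
  intro J _ t₁ R G₀ G₃ hR h₀ h₃ hne B hB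
  have hpi : 0 < 2 * Real.pi := by positivity
  let μ : Measure ℝ := volume.restrict (Set.Ioc 0 (2 * Real.pi))
  have hμ : μ Set.univ = ENNReal.ofReal (2 * Real.pi) := by
    rw [Measure.restrict_apply_univ, Real.volume_Ioc, sub_zero]
  let g₀ : J → ℝ → ℂ := fun j φ => G₀ j (circleMap (t₁ j) (R j) φ)
  let g₃ : J → ℝ → ℂ := fun j φ => G₃ j (circleMap (t₁ j) (R j) φ)
  have hmem : ∀ j φ, circleMap (t₁ j) (R j) φ ∈ Metric.closedBall (t₁ j) (R j) := fun j φ =>
    circleMap_mem_closedBall _ (hR j).le _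
  have c₀ : ∀ j, Continuous (g₀ j) := fun j =>
    (h₀ j).continuousOn.comp_continuous (continuous_circleMap _ _) (hmem j)
  have c₃ : ∀ j, Continuous (g₃ j) := fun j =>
    (h₃ j).continuousOn.comp_continuous (continuous_circleMap _ _) (hmem j)
  have hg : ∀ j φ, g₀ j φ ≠ 0 ∨ g₃ j φ ≠ 0 := fun j φ => hne j _ (hmem j φ)
  have hmax : ∀ j φ, 0 < max ‖g₀ j φ‖ ‖g₃ j φ‖ := by
    intro j φ
    rcases hg j φ with h | h
    · exact lt_max_of_lt_left (norm_pos_iff.mpr h)
    · exact lt_max_of_lt_right (norm_pos_iff.mpr h)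
  let F : J → ℝ → ℝ → ℝ := fun j θ φ => Real.log 2 + Real.log (max ‖g₀ j φ‖ ‖g₃ j φ‖) -
    Real.log ‖g₀ j φ - circleMap 0 1 θ * g₃ j φ‖
  have hFm : ∀ j, Measurable (Function.uncurry (F j)) := by
    intro j
    have m1 : Measurable fun p : ℝ × ℝ => Real.log (max ‖g₀ j p.2‖ ‖g₃ j p.2‖) :=
      Real.measurable_log.comp (((c₀ j).comp continuous_snd).norm.max
        ((c₃ j).comp continuous_snd).norm).measurable
    have m2 : Measurable fun p : ℝ × ℝ => Real.log ‖g₀ j p.2 - circleMap 0 1 p.1 * g₃ j p.2‖ :=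
      Real.measurable_log.comp ((((c₀ j).comp continuous_snd).sub
        (((continuous_circleMap 0 1).comp continuous_fst).mul
          ((c₃ j).comp continuous_snd))).norm).measurable
    exact (m1.const_add _).sub m2
  -- the average over `θ`
  have hθ : ∀ j φ, ∫⁻ θ, ENNReal.ofReal (F j θ φ) ∂μ ≤ ENNReal.ofReal (2 * Real.pi * Real.log 2) := by
    intro j φ
    obtain ⟨i1, i2⟩ := CAR_int (hg j φ)
    have hF : Integrable (fun θ => F j θ φ) μ := by
      have h1 : Integrable (fun _ : ℝ => Real.log 2 + Real.log (max ‖g₀ j φ‖ ‖g₃ j φ‖)) μ := by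
        have : IsFiniteMeasure μ := ⟨by rw [hμ]; exact ENNReal.ofReal_lt_top⟩
        exact integrable_const _
      have h2 : Integrable (fun θ => Real.log ‖g₀ j φ - circleMap 0 1 θ * g₃ j φ‖) μ :=
        (intervalIntegrable_iff_integrableOn_Ioc_of_le hpi.le).mp i1
      exact h1.sub h2
    rw [← ofReal_integral_eq_lintegral_ofReal hF]
    · apply ENNReal.ofReal_le_ofReal
      apply le_of_eq
      have h3 : ∫ θ, F j θ φ ∂μ = ∫ θ in (0)..(2 * Real.pi), F j θ φ := by
        rw [intervalIntegral.integral_of_le hpi.le]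
      rw [h3]
      change ∫ θ in (0)..(2 * Real.pi), (Real.log 2 + Real.log (max ‖g₀ j φ‖ ‖g₃ j φ‖) -
        Real.log ‖g₀ j φ - circleMap 0 1 θ * g₃ j φ‖) = _
      rw [intervalIntegral.integral_sub intervalIntegrable_const i1, i2,
        intervalIntegral.integral_const, smul_eq_mul]
      ring
    · have hz : ∀ᵐ θ ∂μ, g₀ j φ - circleMap 0 1 θ * g₃ j φ ≠ 0 := by
        refine ae_restrict_of_ae ?_
        by_cases h3 : g₃ j φ = 0
        · refine Eventually.of_forall fun θ => ?_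
          rw [h3, mul_zero, sub_zero]
          exact (hg j φ).resolve_right (fun h => h h3)
        · filter_upwards [CAR_null (g₀ j φ / g₃ j φ)] with θ hθ h
          apply hθ
          rw [eq_div_iff h3]
          exact (sub_eq_zero.mp h).symm
      filter_upwards [hz] with θ hθ
      exact CAR_pos ((by simp)) hθ
  -- Tonelli
  let f : ℝ → ℝ≥0∞ := fun θ => ∑ j, ∫⁻ φ, ENNReal.ofReal (F j θ φ) ∂μ
  have hFm' : ∀ j, Measurable (Function.uncurry fun θ φ => ENNReal.ofReal (F j θ φ)) := fun j =>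
    (hFm j).ennreal_ofReal
  have hf1 : ∀ j, Measurable fun θ => ∫⁻ φ, ENNReal.ofReal (F j θ φ) ∂μ := fun j =>
    (hFm' j).lintegral_prod_right'
  have hfm : Measurable f := Finset.measurable_sum _ fun j _ => hf1 j
  have hfint : ∫⁻ θ, f θ ∂μ ≤ (Fintype.card J : ℝ≥0∞) *
      (ENNReal.ofReal (2 * Real.pi * Real.log 2) * ENNReal.ofReal (2 * Real.pi)) := by
    rw [lintegral_finsetSum _ fun j _ => hf1 j]
    calc ∑ j, ∫⁻ θ, ∫⁻ φ, ENNReal.ofReal (F j θ φ) ∂μ ∂μ
        ≤ ∑ _j : J, ENNReal.ofReal (2 * Real.pi * Real.log 2) * ENNReal.ofReal (2 * Real.pi) := by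
          refine Finset.sum_le_sum fun j _ => ?_
          rw [lintegral_lintegral_swap (hFm' j).aemeasurable]
          calc ∫⁻ φ, ∫⁻ θ, ENNReal.ofReal (F j θ φ) ∂μ ∂μ
              ≤ ∫⁻ _φ, ENNReal.ofReal (2 * Real.pi * Real.log 2) ∂μ :=
                lintegral_mono fun φ => hθ j φ
            _ = _ := by rw [lintegral_const, hμ]
      _ = _ := by rw [Finset.sum_const, Finset.card_univ, nsmul_eq_mul]
  have hμ0 : μ ≠ 0 := by
    intro h
    rw [h, Measure.coe_zero, Pi.zero_apply] at hμ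
    exact (ENNReal.ofReal_pos.mpr hpi).ne hμ
  have hN : μ (circleMap 0 1 ⁻¹' B) = 0 := by
    have h := (hB.preimage_circleMap 0 (R := 1) one_ne_zero).measure_zero (volume : Measure ℝ)
    exact Measure.restrict_le_self.absolutelyContinuous h
  obtain ⟨θ, hθB, hθf⟩ := exists_notMem_null_le_laverage hμ0 hfm.aemeasurable hN
  have hθf' : f θ ≤ ENNReal.ofReal (Fintype.card J * (2 * Real.pi * Real.log 2)) := by
    refine hθf.trans ?_
    rw [laverage_eq, hμ]
    have h2 : ENNReal.ofReal (2 * Real.pi) ≠ 0 := (ENNReal.ofReal_pos.mpr hpi).ne'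
    rw [ENNReal.div_le_iff h2 ENNReal.ofReal_ne_top]
    refine hfint.trans (le_of_eq ?_)
    rw [← mul_assoc, ENNReal.ofReal_mul (Nat.cast_nonneg _), ENNReal.ofReal_natCast]
  refine ⟨circleMap 0 1 θ, (by simp), hθB, ?_⟩
  -- the real integrals
  have i1 : ∀ j, IntervalIntegrable (fun φ => Real.log (max ‖g₀ j φ‖ ‖g₃ j φ‖)) volume 0
      (2 * Real.pi) := by
    intro j
    refine Continuous.intervalIntegrable ?_ _ _
    exact ((c₀ j).norm.max (c₃ j).norm).log fun φ => (hmax j φ).ne'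
  have i2 : ∀ j, IntervalIntegrable (fun φ => Real.log ‖g₀ j φ - circleMap 0 1 θ * g₃ j φ‖) volume
      0 (2 * Real.pi) := by
    intro j
    have h1 : CircleIntegrable (fun z => Real.log ‖(fun z => G₀ j z - circleMap 0 1 θ * G₃ j z) z‖)
        (t₁ j) (R j) := by
      apply MeromorphicOn.circleIntegrable_log_norm
      intro z hz
      have hz' : z ∈ Metric.closedBall (t₁ j) (R j) := by
        rw [abs_of_pos (hR j)] at hz
        exact Metric.sphere_subset_closedBall hz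
      exact ((h₀ j z hz').sub (analyticAt_const.mul (h₃ j z hz'))).meromorphicAt
    exact h1
  have i3 : ∀ j, Integrable (fun φ => F j θ φ) μ := by
    intro j
    have h1 : IntervalIntegrable (fun φ => F j θ φ) volume 0 (2 * Real.pi) :=
      ((intervalIntegrable_const (c := Real.log 2)).add (i1 j)).sub (i2 j)
    exact (intervalIntegrable_iff_integrableOn_Ioc_of_le hpi.le).mp h1
  have i4 : ∀ j, ∫ φ, F j θ φ ∂μ = 2 * Real.pi * Real.log 2 +
      (∫ φ in (0)..(2 * Real.pi), Real.log (max ‖g₀ j φ‖ ‖g₃ j φ‖)) -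
      ∫ φ in (0)..(2 * Real.pi), Real.log ‖g₀ j φ - circleMap 0 1 θ * g₃ j φ‖ := by
    intro j
    have h3 : ∫ φ, F j θ φ ∂μ = ∫ φ in (0)..(2 * Real.pi), F j θ φ := by
      rw [intervalIntegral.integral_of_le hpi.le]
    rw [h3]
    change ∫ φ in (0)..(2 * Real.pi), (Real.log 2 + Real.log (max ‖g₀ j φ‖ ‖g₃ j φ‖) -
        Real.log ‖g₀ j φ - circleMap 0 1 θ * g₃ j φ‖) = _
    rw [intervalIntegral.integral_sub (intervalIntegrable_const.add (i1 j)) (i2 j),
      intervalIntegral.integral_add intervalIntegrable_const (i1 j),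
      intervalIntegral.integral_const, smul_eq_mul, sub_zero]
  have i5 : ∑ j, ∫ φ, F j θ φ ∂μ ≤ Fintype.card J * (2 * Real.pi * Real.log 2) := by
    have hlt : ∀ j, ∫⁻ φ, ENNReal.ofReal (F j θ φ) ∂μ ≠ ∞ := by
      intro j h
      have h1 : f θ = ∞ := by
        rw [ENNReal.sum_eq_top]
        exact ⟨j, Finset.mem_univ _, h⟩
      rw [h1] at hθf'
      exact ENNReal.ofReal_ne_top (top_le_iff.mp hθf')
    have h1 : ∀ j, ∫ φ, F j θ φ ∂μ ≤ (∫⁻ φ, ENNReal.ofReal (F j θ φ) ∂μ).toReal := by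
      intro j
      rw [integral_eq_lintegral_pos_part_sub_lintegral_neg_part (i3 j)]
      linarith [ENNReal.toReal_nonneg (a := ∫⁻ φ, ENNReal.ofReal (-F j θ φ) ∂μ)]
    calc ∑ j, ∫ φ, F j θ φ ∂μ ≤ ∑ j, (∫⁻ φ, ENNReal.ofReal (F j θ φ) ∂μ).toReal :=
          Finset.sum_le_sum fun j _ => h1 j
      _ = (f θ).toReal := (ENNReal.toReal_sum fun j _ => hlt j).symm
      _ ≤ _ := ENNReal.toReal_le_of_le_ofReal (by positivity) hθf'
  rw [Finset.sum_congr rfl fun j _ => i4 j] at i5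
  simp only [Finset.sum_sub_distrib, Finset.sum_add_distrib, Finset.sum_const, Finset.card_univ,
    nsmul_eq_mul] at i5
  simp only [Real.circleAverage_def, smul_eq_mul, ← Finset.mul_sum]
  refine mul_le_mul_of_nonneg_left ?_ (by positivity)
  change ∑ j, ∫ φ in (0)..(2 * Real.pi), Real.log (max ‖g₀ j φ‖ ‖g₃ j φ‖) ≤
    ∑ j, ∫ φ in (0)..(2 * Real.pi), Real.log ‖g₀ j φ - circleMap 0 1 θ * g₃ j φ‖
  linarith

end EQ

end Pool.Agent.ZR
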