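import Pool.Agent.ZR.EQ.CONNa
import Pool.Agent.ZPE.A.SPF

/-!
# ZR, block EQ, module CONN: an irreducible curve is connected (helper36)
-/

set_option autoImplicit false

open scoped BigOperators Topology
open Filter Topology

namespace Pool.Agent.ZR

open Pool.Agent.ZPT Pool.Agent.ZPE

namespace EQ

/-! ### irreducibility over the complex numbers -/

section alg

variable {V : Type}

private theorem CONN_prime (f : Polynomial (MvPolynomial V Qb)) (hf : f.Monic)
    (hirr : Irreducible (f.map (algebraMap (MvPolynomial V Qb)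
      (FractionRing (MvPolynomial V Qb))))) (a b : Polynomial (MvPolynomial V Qb))
    (h : f ∣ a * b) : f ∣ a ∨ f ∣ b := by
  have hinj := IsFractionRing.injective (MvPolynomial V Qb) (FractionRing (MvPolynomial V Qb))
  have h1 := Polynomial.map_dvd (algebraMap (MvPolynomial V Qb)
    (FractionRing (MvPolynomial V Qb))) h
  rw [Polynomial.map_mul] at h1
  rcases hirr.prime.dvd_or_dvd h1 with h2 | h2
  · exact Or.inl ((Polynomial.map_dvd_map _ hinj hf).1 h2)
  · exact Or.inr ((Polynomial.map_dvd_map _ hinj hf).1 h2)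

private theorem CONN_fin (H : Polynomial (MvPolynomial V ℂ)) :
    ∃ S : Finset ℂ, ∀ n d, (H.coeff n).coeff d ∈ S := by
  classical
  refine ⟨insert 0 (H.support.biUnion fun n => (H.coeff n).support.image fun d =>
    (H.coeff n).coeff d), fun n d => ?_⟩
  by_cases h : (H.coeff n).coeff d = 0
  · rw [h]
    exact Finset.mem_insert_self _ _
  · refine Finset.mem_insert_of_mem (Finset.mem_biUnion.2 ⟨n, ?_, Finset.mem_image.2 ⟨d, ?_, rfl⟩⟩)
    · rw [Polynomial.mem_support_iff]
      rintro h0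
      rw [h0, MvPolynomial.coeff_zero] at h
      exact h rfl
    · rw [MvPolynomial.mem_support_iff]
      exact h

private theorem CONN_lift {A : Type} [CommRing A] (c : A →+* ℂ) (H : Polynomial (MvPolynomial V ℂ))
    (hH : ∀ n d, (H.coeff n).coeff d ∈ Set.range c) :
    ∃ H' : Polynomial (MvPolynomial V A), H'.map (MvPolynomial.map c) = H := by
  have h1 : H ∈ Polynomial.lifts (MvPolynomial.map c : MvPolynomial V A →+* MvPolynomial V ℂ) := by
    rw [Polynomial.lifts_iff_coeff_lifts]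
    intro n
    rw [MvPolynomial.mem_range_map_iff_coeffs_subset]
    intro z hz
    obtain ⟨d, -, rfl⟩ := MvPolynomial.mem_coeffs_iff.1 hz
    exact hH n d
  exact (Polynomial.mem_lifts _).1 h1

/-- the coefficients of the remainder -/
private noncomputable def cf {A : Type} [CommRing A] (g L : Polynomial (MvPolynomial V A)) (n : ℕ)
    (d : V →₀ ℕ) : A := ((L %ₘ g).coeff n).coeff d

private theorem CONN_iff {A K : Type} [CommRing A] [CommRing K] (c : A →+* K)
    (g L : Polynomial (MvPolynomial V A)) (hg : g.Monic) :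
    g.map (MvPolynomial.map c) ∣ L.map (MvPolynomial.map c) ↔ ∀ n d, c (cf g L n d) = 0 := by
  rw [← Polynomial.modByMonic_eq_zero_iff_dvd (hg.map _), ← Polynomial.map_modByMonic _ hg]
  constructor
  · intro h n d
    have h1 : (((L %ₘ g).map (MvPolynomial.map c)).coeff n).coeff d = 0 := by
      rw [h, Polynomial.coeff_zero, MvPolynomial.coeff_zero]
    rw [Polynomial.coeff_map, MvPolynomial.coeff_map] at h1
    exact h1
  · intro h
    ext n d
    rw [Polynomial.coeff_map, MvPolynomial.coeff_map, Polynomial.coeff_zero,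
      MvPolynomial.coeff_zero]
    exact h n d

private theorem CONN_alg (f : Polynomial (MvPolynomial V Qb)) (hf : f.Monic)
    (hirr : Irreducible (f.map (algebraMap (MvPolynomial V Qb)
      (FractionRing (MvPolynomial V Qb))))) (H₁ H₂ : Polynomial (MvPolynomial V ℂ))
    (h : f.map (MvPolynomial.map (algebraMap Qb ℂ)) ∣ H₁ * H₂) :
    f.map (MvPolynomial.map (algebraMap Qb ℂ)) ∣ H₁ ∨
      f.map (MvPolynomial.map (algebraMap Qb ℂ)) ∣ H₂ := by
  classical
  obtain ⟨S₁, hS₁⟩ := CONN_fin H₁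
  obtain ⟨S₂, hS₂⟩ := CONN_fin H₂
  let M : Type := {z : ℂ // z ∈ S₁ ∪ S₂}
  let c : MvPolynomial M Qb →ₐ[Qb] ℂ := MvPolynomial.aeval (fun z : M => (z : ℂ))
  have hc : ∀ z ∈ S₁ ∪ S₂, z ∈ Set.range (c : MvPolynomial M Qb →+* ℂ) := fun z hz =>
    ⟨MvPolynomial.X (⟨z, hz⟩ : M), MvPolynomial.aeval_X _ _⟩
  obtain ⟨L₁, hL₁⟩ := CONN_lift (c : MvPolynomial M Qb →+* ℂ) H₁ fun n d =>
    hc _ (Finset.mem_union_left _ (hS₁ n d))
  obtain ⟨L₂, hL₂⟩ := CONN_lift (c : MvPolynomial M Qb →+* ℂ) H₂ fun n d =>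
    hc _ (Finset.mem_union_right _ (hS₂ n d))
  obtain ⟨g, hg⟩ : ∃ g : Polynomial (MvPolynomial V (MvPolynomial M Qb)),
      g = f.map (MvPolynomial.map (algebraMap Qb (MvPolynomial M Qb))) := ⟨_, rfl⟩
  have hgm : g.Monic := by rw [hg]; exact hf.map _
  have hgc : g.map (MvPolynomial.map (c : MvPolynomial M Qb →+* ℂ)) =
      f.map (MvPolynomial.map (algebraMap Qb ℂ)) := by
    rw [hg, Polynomial.map_map]
    congr 1
    apply MvPolynomial.ringHom_ext
    · intro r
      simp only [RingHom.comp_apply, MvPolynomial.map_C]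
      congr 1
      exact c.commutes r
    · intro i
      simp only [RingHom.comp_apply, MvPolynomial.map_X]
  rw [← hgc] at h ⊢
  rw [← hL₁, ← hL₂] at h
  by_contra hcon
  push Not at hcon
  obtain ⟨hn₁, hn₂⟩ := hcon
  rw [← hL₁, CONN_iff _ _ _ hgm] at hn₁
  rw [← hL₂, CONN_iff _ _ _ hgm] at hn₂
  rw [← Polynomial.map_mul, CONN_iff _ _ _ hgm] at h
  push Not at hn₁ hn₂
  obtain ⟨n₁, d₁, h₁⟩ := hn₁
  obtain ⟨n₂, d₂, h₂⟩ := hn₂
  -- specialisation
  have hker : (RingHom.ker c).IsPrime := RingHom.ker_isPrime _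
  have hemp : AlgebraicIndependent Qb (fun i : (∅ : Finset M) =>
      (Ideal.Quotient.mk (RingHom.ker c) (MvPolynomial.X (i : M)) :
        MvPolynomial M Qb ⧸ RingHom.ker c)) := by
    have : IsEmpty (∅ : Finset M) := ⟨fun i => absurd i.2 (Finset.notMem_empty _)⟩
    rw [algebraicIndependent_empty_type_iff]
    exact (algebraMap Qb (MvPolynomial M Qb ⧸ RingHom.ker c)).injective
  have hinf : (Set.univ : Set Qb).Infinite := Set.infinite_univ
  have hac : IsAlgClosed Qb := (algebraicClosure.isAlgClosure ℚ ℂ).isAlgClosed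
  obtain ⟨q, hq1, hq2, -⟩ := SPF Qb (RingHom.ker c) hker ∅ hemp Set.univ hinf
    (cf g L₁ n₁ d₁ * cf g L₂ n₂ d₂) (by
      intro hmem
      rw [RingHom.mem_ker, map_mul] at hmem
      exact (mul_ne_zero h₁ h₂) hmem)
  rw [map_mul] at hq2
  have hgq : g.map (MvPolynomial.map (MvPolynomial.eval q)) = f := by
    rw [hg, Polynomial.map_map]
    have h3 : (MvPolynomial.map (MvPolynomial.eval q)).comp
        (MvPolynomial.map (algebraMap Qb (MvPolynomial M Qb))) =
        RingHom.id (MvPolynomial V Qb) := by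
      apply MvPolynomial.ringHom_ext
      · intro r
        simp only [RingHom.comp_apply, MvPolynomial.map_C, RingHom.id_apply]
        congr 1
        exact MvPolynomial.eval_C r
      · intro i
        simp only [RingHom.comp_apply, MvPolynomial.map_X, RingHom.id_apply]
    rw [h3, Polynomial.map_id]
  have hdvd : f ∣ L₁.map (MvPolynomial.map (MvPolynomial.eval q)) *
      L₂.map (MvPolynomial.map (MvPolynomial.eval q)) := by
    rw [← Polynomial.map_mul]
    nth_rw 1 [← hgq]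
    rw [CONN_iff _ _ _ hgm]
    intro n d
    exact hq1 _ (RingHom.mem_ker.2 (h n d))
  rcases CONN_prime f hf hirr _ _ hdvd with h3 | h3
  · rw [← hgq, CONN_iff _ _ _ hgm] at h3
    rw [h3 n₁ d₁, zero_mul] at hq2
    exact hq2 rfl
  · rw [← hgq, CONN_iff _ _ _ hgm] at h3
    rw [h3 n₂ d₂, mul_zero] at hq2
    exact hq2 rfl

end alg

/-! ### the theorem -/

theorem CONN_of : St_CONN := by
  intro V N _ _ C hV
  obtain ⟨i₁, hi₁⟩ := Fintype.card_eq_one_iff.1 hV
  let _ : Unique V := ⟨⟨i₁⟩, hi₁⟩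
  obtain ⟨e, he⟩ : ∃ e : MvPolynomial V ℂ ≃+* Polynomial ℂ,
      ∀ p t, (e p).eval t = MvPolynomial.eval (fun _ => t) p := by
    refine ⟨(MvPolynomial.uniqueAlgEquiv ℂ V).toRingEquiv, fun p t => ?_⟩
    have h1 : ((Polynomial.aeval t).comp
        (MvPolynomial.uniqueAlgEquiv ℂ V : MvPolynomial V ℂ →ₐ[ℂ] Polynomial ℂ)) =
        MvPolynomial.aeval (fun _ => t) := by
      apply MvPolynomial.algHom_ext
      intro i
      simp
    have h2 := DFunLike.congr_fun h1 p
    rw [MvPolynomial.aeval_eq_eval] at h2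
    exact h2
  let Θ : MvPolynomial V Qb →+* Polynomial ℂ :=
    (e : MvPolynomial V ℂ →+* Polynomial ℂ).comp (MvPolynomial.map (algebraMap Qb ℂ))
  have hΘ : ∀ p t, (Θ p).eval t = MvPolynomial.aeval (fun _ : V => t) p := by
    intro p t
    show (e (MvPolynomial.map (algebraMap Qb ℂ) p)).eval t = _
    rw [he, MvPolynomial.eval_map, MvPolynomial.aeval_def]
  have hΘe : ∀ (p : Polynomial (MvPolynomial V Qb)) (t x : ℂ),
      (p.map Θ).evalEval t x = ev p (fun _ : V => t) x := by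
    intro p t x
    rw [← Polynomial.map_evalRingHom_eval, Polynomial.map_map, Polynomial.eval_map, ev]
    congr 1
    apply RingHom.ext
    intro r
    exact hΘ r t
  obtain ⟨F, hF⟩ : ∃ F, F = (C.M.f ()).map Θ := ⟨_, rfl⟩
  have hFm : F.Monic := by rw [hF]; exact (C.M.monic ()).map _
  have hFn : 0 < F.natDegree := by
    rw [hF, (C.M.monic ()).natDegree_map]
    exact C.M.deg_pos ()
  obtain ⟨D, hD⟩ : ∃ D, D = Θ (C.M.D ()) := ⟨_, rfl⟩
  have hD0 : D ≠ 0 := by
    rw [hD]
    intro h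
    have h1 : MvPolynomial.map (algebraMap Qb ℂ) (C.M.D ()) = 0 :=
      (map_eq_zero_iff e e.injective).1 h
    exact C.M.D_ne () (MvPolynomial.map_injective _ (algebraMap Qb ℂ).injective
      (h1.trans (map_zero _).symm))
  have hbez : F ∣ (C.M.Bz ()).map Θ * Polynomial.derivative F - Polynomial.C D := by
    have h1 := Polynomial.map_dvd Θ (C.M.bez ())
    rw [Polynomial.map_sub, Polynomial.map_mul, Polynomial.map_C, ← Polynomial.derivative_map,
      ← hF, ← hD] at h1
    exact h1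
  -- the points
  have hpt : ∀ t x : ℂ, (t, x) ∈ CONN_VX F D ↔ ((fun _ => t, x) : (V → ℂ) × ℂ) ∈ C2.VC C := by
    intro t x
    constructor
    · rintro ⟨h1, h2⟩
      refine ⟨fun _ => ?_, fun _ => ?_⟩
      · have h3 : F.evalEval t x = 0 := h1
        rw [hF, hΘe] at h3
        exact h3
      · have h3 : D.eval t ≠ 0 := h2
        rw [hD, hΘ] at h3
        exact h3
    · intro h
      refine ⟨?_, ?_⟩
      · show F.evalEval t x = 0
        rw [hF, hΘe]
        exact h.eq ()
      · show D.eval t ≠ 0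
        rw [hD, hΘ]
        exact h.ne ()
  have hcs : ∀ q : (V → ℂ) × ℂ, q = (fun _ => q.1 i₁, q.2) := by
    rintro ⟨y, x⟩
    refine Prod.ext ?_ rfl
    funext i
    show y i = y i₁
    rw [hi₁ i]
  -- the proof
  rw [IsPreconnected]
  intro u v hu hv huv hnu hnv
  by_contra hcon
  rw [Set.not_nonempty_iff_eq_empty] at hcon
  have hdis : ∀ q ∈ C2.VC C, q ∈ u → q ∈ v → False := by
    intro q hq h1 h2
    have h3 : q ∈ C2.VC C ∩ (u ∩ v) := ⟨hq, h1, h2⟩
    rw [hcon] at h3
    exact h3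
  let j : ℂ × ℂ → (V → ℂ) × ℂ := fun p => (fun _ => p.1, p.2)
  have hj : Continuous j := (continuous_pi fun _ => continuous_fst).prodMk continuous_snd
  have hA : ∀ p ∈ CONN_VX F D, ∀ᶠ p' in 𝓝[CONN_VX F D] p, (p' ∈ j ⁻¹' u ↔ p ∈ j ⁻¹' u) := by
    rintro p hp
    by_cases h : p ∈ j ⁻¹' u
    · have h1 : ∀ᶠ p' in 𝓝[CONN_VX F D] p, p' ∈ j ⁻¹' u :=
        mem_nhdsWithin_of_mem_nhds ((hu.preimage hj).mem_nhds h)
      filter_upwards [h1] with p' hp'
      exact ⟨fun _ => h, fun _ => hp'⟩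
    · have h0 : j p ∈ C2.VC C := (hpt p.1 p.2).1 hp
      have hpv : p ∈ j ⁻¹' v := (huv h0).resolve_left h
      have h1 : ∀ᶠ p' in 𝓝[CONN_VX F D] p, p' ∈ j ⁻¹' v :=
        mem_nhdsWithin_of_mem_nhds ((hv.preimage hj).mem_nhds hpv)
      filter_upwards [h1, self_mem_nhdsWithin] with p' hp' hp''
      exact ⟨fun h2 => absurd hp' (fun h3 => hdis (j p') ((hpt p'.1 p'.2).1 hp'') h2 h3),
        fun h2 => absurd h2 h⟩
  obtain ⟨G, hG1, hG2⟩ := CONN_fact hFm hbez hA hD0 hFn
  -- transport to polynomials over `MvPolynomial V ℂ`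
  have hsym : ∀ p : Polynomial (Polynomial ℂ),
      (p.map (e.symm : Polynomial ℂ →+* MvPolynomial V ℂ)).map
        (e : MvPolynomial V ℂ →+* Polynomial ℂ) = p := by
    intro p
    rw [Polynomial.map_map]
    have h1 : (e : MvPolynomial V ℂ →+* Polynomial ℂ).comp
        (e.symm : Polynomial ℂ →+* MvPolynomial V ℂ) = RingHom.id _ := by
      apply RingHom.ext
      intro r
      exact e.apply_symm_apply r
    rw [h1, Polynomial.map_id]
  have hFe : (C.M.f ()).map (MvPolynomial.map (algebraMap Qb ℂ)) =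
      F.map (e.symm : Polynomial ℂ →+* MvPolynomial V ℂ) := by
    rw [hF, Polynomial.map_map]
    congr 1
    apply RingHom.ext
    intro r
    exact (e.symm_apply_apply _).symm
  have hG3 := Polynomial.map_dvd (e.symm : Polynomial ℂ →+* MvPolynomial V ℂ) hG1
  rw [Polynomial.map_mul, ← hFe] at hG3
  have hG4 := CONN_alg (C.M.f ()) (C.M.monic ()) (C.irr ()) _ _ hG3
  rw [hFe] at hG4
  rcases hG4 with h1 | h1
  · have h2 := Polynomial.map_dvd (e : MvPolynomial V ℂ →+* Polynomial ℂ) h1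
    rw [hsym, hsym] at h2
    obtain ⟨q, hq, hqu⟩ := hnu
    obtain ⟨r, hr⟩ := h2
    have h3 : (q.1 i₁, q.2) ∈ CONN_VX F D := (hpt _ _).2 (by rw [← hcs q]; exact hq)
    have h4 : G.evalEval (q.1 i₁) q.2 = D.eval (q.1 i₁) ^ 2 := (hG2 _ h3).1 (by
      show ((fun _ => q.1 i₁, q.2) : (V → ℂ) × ℂ) ∈ u
      rw [← hcs q]
      exact hqu)
    have h5 : F.evalEval (q.1 i₁) q.2 = 0 := h3.1
    rw [hr, Polynomial.evalEval_mul, h5, zero_mul] at h4
    exact (pow_ne_zero 2 h3.2) h4.symm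
  · have h2 := Polynomial.map_dvd (e : MvPolynomial V ℂ →+* Polynomial ℂ) h1
    rw [hsym, hsym] at h2
    obtain ⟨q, hq, hqv⟩ := hnv
    obtain ⟨r, hr⟩ := h2
    have h3 : (q.1 i₁, q.2) ∈ CONN_VX F D := (hpt _ _).2 (by rw [← hcs q]; exact hq)
    have h4 : G.evalEval (q.1 i₁) q.2 = 0 := (hG2 _ h3).2 (by
      intro h6
      have h7 : ((fun _ => q.1 i₁, q.2) : (V → ℂ) × ℂ) ∈ u := h6
      rw [← hcs q] at h7
      exact hdis q hq h7 hqv)
    have h5 : F.evalEval (q.1 i₁) q.2 = 0 := h3.1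
    have h6 := congrArg (Polynomial.evalEval (q.1 i₁) q.2) hr
    rw [Polynomial.evalEval_sub, Polynomial.evalEval_mul, h5, zero_mul, h4,
      Polynomial.evalEval_C, Polynomial.eval_pow, zero_sub, neg_eq_zero] at h6
    exact (pow_ne_zero 2 h3.2) h6

end EQ

end Pool.Agent.ZR
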