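import Pool.Agent.ZR.EQ.St

/-!
# ZR, block EQ, module COVB (helper95): covering of a compact set by small discs, sharp
-/

set_option autoImplicit false

open scoped BigOperators ComplexConjugate
open Filter Topology MeasureTheory

namespace Pool.Agent.ZR

namespace EQ

private theorem COVB_vol (x : ℂ) (r : ℝ) (hr : 0 ≤ r) :
    volume (Metric.closedBall x r) = ENNReal.ofReal (Real.pi * r ^ 2) := by
  rw [Complex.volume_closedBall, mul_comm Real.pi, ENNReal.ofReal_mul (by positivity),
    ENNReal.ofReal_pow hr]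
  congr 1
  rw [← ENNReal.ofReal_coe_nnreal]
  rfl

/-- a family of balls which covers `F` has a finite subfamily whose dilations cover `F` -/
private theorem COVB_fin (F : Set ℂ) (hF : IsCompact F) (T : Set ℂ) (r : ℂ → ℝ) (δ : ℝ)
    (hδ : 0 < δ) (hr : ∀ x ∈ T, 0 < r x) (hc : F ⊆ ⋃ x ∈ T, Metric.closedBall x (r x)) :
    ∃ S : Finset ℂ, (S : Set ℂ) ⊆ T ∧ F ⊆ ⋃ x ∈ S, Metric.closedBall x ((1 + δ) * r x) := by
  obtain ⟨S, hST, hSf, hS⟩ := hF.elim_finite_subcover_image (b := T)
    (c := fun x => Metric.ball x ((1 + δ) * r x)) (fun x _ => Metric.isOpen_ball) (by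
      refine hc.trans (Set.iUnion₂_mono fun x hx => ?_)
      refine Metric.closedBall_subset_ball ?_
      nlinarith [hr x hx, mul_pos hδ (hr x hx)])
  refine ⟨hSf.toFinset, by simpa using hST, ?_⟩
  refine hS.trans ?_
  intro z hz
  simp only [Set.mem_iUnion] at hz ⊢
  obtain ⟨x, hx, hz⟩ := hz
  exact ⟨x, hSf.mem_toFinset.2 hx, Metric.ball_subset_closedBall hz⟩

/-- the countable family -/
private theorem COVB_cnt (K F : Set ℂ) (s : ℂ → ℝ) (hKc : IsCompact K) (hF : IsCompact F)
    (hFK : F ⊆ K) (hs : ContinuousOn s K) (hs0 : ∀ t ∈ K, 0 ≤ s t) (ε ρ : ℝ) (hε : 0 < ε)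
    (hρ : 0 < ρ) (hρK : ∀ x ∈ F, ∀ r < ρ, Metric.closedBall x r ⊆ K) :
    ∃ (T : Set ℂ) (r : ℂ → ℝ), T ⊆ F ∧ (∀ x ∈ T, 0 < r x ∧ r x < ρ) ∧
      F ⊆ ⋃ x ∈ T, Metric.closedBall x (r x) ∧
      ∀ S : Finset ℂ, (S : Set ℂ) ⊆ T →
        ∑ x ∈ S, ∫ t in Metric.closedBall x (r x), s t ≤ (∫ t in F, s t) + ε ∧
        ∑ x ∈ S, Real.pi * r x ^ 2 ≤ (∫ t in F, (s t + 1)) + ε := by
  classical
  have hcb : ∀ (x : ℂ) (r : ℝ), MeasurableSet (Metric.closedBall x r) := fun x r =>
    Metric.isClosed_closedBall.measurableSet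
  have hsi : IntegrableOn s K := hs.integrableOn_compact hKc
  have hsi1 : IntegrableOn (fun t => s t + 1) K :=
    (hs.add continuousOn_const).integrableOn_compact hKc
  let μ : Measure ℂ := (volume.restrict K).withDensity fun t => ENNReal.ofReal (s t + 1)
  have hμf : IsFiniteMeasure μ := isFiniteMeasure_withDensity_ofReal hsi1.2
  have hμ : ∀ A : Set ℂ, MeasurableSet A → A ⊆ K →
      μ A = ENNReal.ofReal (∫ t in A, (s t + 1)) := by
    intro A hA hAK
    have h1 : μ A = ∫⁻ t in A, ENNReal.ofReal (s t + 1) ∂(volume.restrict K) :=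
      withDensity_apply _ hA
    rw [h1, Measure.restrict_restrict_of_subset hAK,
      ofReal_integral_eq_lintegral_ofReal (hsi1.mono_set hAK)]
    filter_upwards [ae_restrict_mem hA] with t ht
    exact add_nonneg (hs0 t (hAK ht)) zero_le_one
  obtain ⟨T, r, hTc, hTF, hTr, hcov, hsum⟩ :=
    Besicovitch.exists_closedBall_covering_tsum_measure_le μ
      (ε := ENNReal.ofReal ε) (by simpa using hε) (fun _ => Set.Ioo 0 ρ) F (by
        intro x _ δ hδ
        refine ⟨min ρ δ / 2, ⟨?_, ?_⟩, ?_, ?_⟩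
        · have := lt_min hρ hδ
          linarith
        · have := lt_min hρ hδ
          have := min_le_left ρ δ
          linarith
        · have := lt_min hρ hδ
          linarith
        · have := lt_min hρ hδ
          have := min_le_right ρ δ
          linarith)
  have hbK : ∀ x : T, Metric.closedBall (x : ℂ) (r x) ⊆ K := fun x =>
    hρK x (hTF x.2) _ (hTr x x.2).2
  -- the real series
  let a : T → ℝ := fun x => ∫ t in Metric.closedBall (x : ℂ) (r x), (s t + 1)
  let q : T → ℝ := fun x => Real.pi * r x ^ 2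
  let b : T → ℝ := fun x => ∫ t in Metric.closedBall (x : ℂ) (r x), s t
  have hb0 : ∀ x, 0 ≤ b x := fun x => setIntegral_nonneg (hcb _ _) fun t ht =>
    hs0 t (hbK x ht)
  have hq0 : ∀ x, 0 ≤ q x := fun x => by positivity
  have hvol : ∀ x : T, volume.real (Metric.closedBall (x : ℂ) (r x)) = q x := by
    intro x
    rw [Measure.real, COVB_vol _ _ (hTr x x.2).1.le, ENNReal.toReal_ofReal (by positivity)]
  have habq : ∀ x, a x = b x + q x := by
    intro x
    have h1 : a x = b x + ∫ _t in Metric.closedBall (x : ℂ) (r x), (1 : ℝ) :=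
      integral_add (hsi.mono_set (hbK x)) (integrableOn_const (by
        rw [COVB_vol _ _ (hTr x x.2).1.le]
        exact ENNReal.ofReal_ne_top))
    rw [h1, setIntegral_const, smul_eq_mul, mul_one, hvol]
  have ha0 : ∀ x, 0 ≤ a x := fun x => by
    rw [habq]
    exact add_nonneg (hb0 x) (hq0 x)
  have hI0 : 0 ≤ ∫ t in F, (s t + 1) := setIntegral_nonneg hF.isClosed.measurableSet
    fun t ht => add_nonneg (hs0 t (hFK ht)) zero_le_one
  have hle : ∀ S : Finset T, ∑ x ∈ S, a x ≤ (∫ t in F, (s t + 1)) + ε := by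
    intro S
    have h1 : ∑ x ∈ S, ENNReal.ofReal (a x) ≤
        ENNReal.ofReal ((∫ t in F, (s t + 1)) + ε) := by
      rw [ENNReal.ofReal_add hI0 hε.le, ← hμ F hF.isClosed.measurableSet hFK]
      refine le_trans ?_ ((ENNReal.sum_le_tsum S).trans hsum)
      refine Finset.sum_le_sum fun x _ => le_of_eq ?_
      exact (hμ _ (hcb _ _) (hbK x)).symm
    rw [← ENNReal.ofReal_sum_of_nonneg fun x _ => ha0 x] at h1
    exact (ENNReal.ofReal_le_ofReal_iff (by linarith)).1 h1
  have hasum : Summable a := summable_of_sum_le ha0 hle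
  have hqsum : Summable q := hasum.of_nonneg_of_le hq0 fun x => by
    rw [habq]; linarith [hb0 x]
  have hbsum : Summable b := hasum.of_nonneg_of_le hb0 fun x => by
    rw [habq]; linarith [hq0 x]
  have hatot : ∑' x, a x ≤ (∫ t in F, (s t + 1)) + ε := hasum.tsum_le_of_sum_le hle
  have habqt : ∑' x, a x = ∑' x, b x + ∑' x, q x := by
    rw [← hbsum.tsum_add hqsum]
    exact tsum_congr habq
  have hvF : volume.real F ≤ ∑' x, q x := by
    have h1 : volume F ≤ ENNReal.ofReal (∑' x, q x) := by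
      rw [ENNReal.ofReal_tsum_of_nonneg hq0 hqsum]
      refine (measure_mono hcov).trans ((measure_biUnion_le volume hTc _).trans ?_)
      refine ENNReal.tsum_le_tsum fun x => le_of_eq ?_
      exact COVB_vol _ _ (hTr x x.2).1.le
    have h2 := ENNReal.toReal_mono ENNReal.ofReal_ne_top h1
    rwa [ENNReal.toReal_ofReal (tsum_nonneg hq0)] at h2
  have hF1 : ∫ t in F, (s t + 1) = (∫ t in F, s t) + volume.real F := by
    rw [integral_add (hsi.mono_set hFK) (integrableOn_const hF.measure_ne_top),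
      setIntegral_const, smul_eq_mul, mul_one]
  have hbtot : ∑' x, b x ≤ (∫ t in F, s t) + ε := by linarith
  have hqtot : ∑' x, q x ≤ (∫ t in F, (s t + 1)) + ε := by
    have h9 : 0 ≤ ∑' x, b x := tsum_nonneg hb0
    linarith
  refine ⟨T, r, hTF, fun x hx => hTr x hx, hcov, fun S hS => ⟨?_, ?_⟩⟩
  · have h1 := (hbsum.sum_le_tsum (S.subtype fun x => x ∈ T) fun x _ => hb0 x).trans hbtot
    refine le_trans (le_of_eq ?_) h1
    exact (Finset.sum_subtype_of_mem (fun x : ℂ => ∫ t in Metric.closedBall x (r x), s t)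
      fun x hx => hS hx).symm
  · have h1 := (hqsum.sum_le_tsum (S.subtype fun x => x ∈ T) fun x _ => hq0 x).trans hqtot
    refine le_trans (le_of_eq ?_) h1
    exact (Finset.sum_subtype_of_mem (fun x : ℂ => Real.pi * r x ^ 2)
      fun x hx => hS hx).symm

theorem COVB_of : St_COVB := by
  classical
  intro O F s hO hF hFO hs hs0 ε δ r₀ hε hδ hr₀
  obtain ⟨η₀, hη₀, hK⟩ := hF.exists_cthickening_subset_open hO hFO
  have hKc : IsCompact (Metric.cthickening η₀ F) := hF.cthickening
  have hFK : F ⊆ Metric.cthickening η₀ F := Metric.self_subset_cthickening F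
  have hbK : ∀ x ∈ F, ∀ r ≤ η₀, Metric.closedBall x r ⊆ Metric.cthickening η₀ F := fun x hx r hr =>
    (Metric.closedBall_subset_closedBall hr).trans (Metric.closedBall_subset_cthickening hx _)
  generalize Metric.cthickening η₀ F = K at hK hKc hFK hbK
  have hsK : ContinuousOn s K := hs.mono hK
  have hs0K : ∀ t ∈ K, 0 ≤ s t := fun t ht => hs0 t (hK ht)
  have hI0 : 0 ≤ ∫ t in F, (s t + 1) := setIntegral_nonneg hF.isClosed.measurableSet
    fun t ht => add_nonneg (hs0K t (hFK ht)) zero_le_one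
  set M : ℝ := (∫ t in F, (s t + 1)) + 1 with hM
  obtain ⟨ε', hε'0, hε'1, hε'2⟩ : ∃ ε' : ℝ, 0 < ε' ∧ ε' ≤ 1 ∧ ε' * (1 + M) ≤ ε := by
    refine ⟨min 1 (ε / (1 + M)), by positivity, min_le_left _ _, ?_⟩
    calc min 1 (ε / (1 + M)) * (1 + M) ≤ ε / (1 + M) * (1 + M) :=
          mul_le_mul_of_nonneg_right (min_le_right _ _) (by positivity)
      _ = ε := div_mul_cancel₀ _ (by positivity)
  obtain ⟨η₁, hη₁, hu⟩ := Metric.uniformContinuousOn_iff.1
    (hKc.uniformContinuousOn_of_continuous hsK) ε' hε'0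
  obtain ⟨T, r, hTF, hTr, hcov, hT⟩ := COVB_cnt K F s hKc hF hFK hsK hs0K ε'
    (min r₀ (min η₀ η₁)) hε'0 (by positivity) fun x hx r hr =>
      hbK x hx r (hr.le.trans ((min_le_right _ _).trans (min_le_left _ _)))
  obtain ⟨S, hST, hSF⟩ := COVB_fin F hF T r δ hδ (fun x hx => (hTr x hx).1) hcov
  obtain ⟨hS1, hS2⟩ := hT S hST
  have hinj : Set.InjOn (fun x : ℂ => (x, r x)) S := fun x _ y _ h => congrArg Prod.fst h
  have hq : ∑ x ∈ S, s x * (Real.pi * r x ^ 2) ≤ (∫ t in F, s t) + ε := by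
    have h1 : ∀ x ∈ S, s x * (Real.pi * r x ^ 2) ≤
        (∫ t in Metric.closedBall x (r x), s t) + ε' * (Real.pi * r x ^ 2) := by
      intro x hx
      have hxT := hTr x (hST hx)
      have hxF := hTF (hST hx)
      have hrK : Metric.closedBall x (r x) ⊆ K := hbK x hxF _
        (hxT.2.le.trans ((min_le_right _ _).trans (min_le_left _ _)))
      have hv : volume (Metric.closedBall x (r x)) ≠ ⊤ := by
        rw [COVB_vol _ _ hxT.1.le]
        exact ENNReal.ofReal_ne_top
      have hvr : volume.real (Metric.closedBall x (r x)) = Real.pi * r x ^ 2 := by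
        rw [Measure.real, COVB_vol _ _ hxT.1.le, ENNReal.toReal_ofReal (by positivity)]
      have h2 : ∫ _t in Metric.closedBall x (r x), (s x - ε') ≤
          ∫ t in Metric.closedBall x (r x), s t := by
        refine setIntegral_mono_on (integrableOn_const hv)
          ((hsK.mono hrK).integrableOn_compact (isCompact_closedBall _ _))
          Metric.isClosed_closedBall.measurableSet fun t ht => ?_
        have h3 := hu x (hFK hxF) t (hrK ht) (by
          rw [dist_comm]
          exact lt_of_le_of_lt (Metric.mem_closedBall.1 ht)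
            (hxT.2.trans_le ((min_le_right _ _).trans (min_le_right _ _))))
        rw [Real.dist_eq] at h3
        linarith [le_abs_self (s x - s t)]
      rw [setIntegral_const, smul_eq_mul, hvr] at h2
      linarith
    calc ∑ x ∈ S, s x * (Real.pi * r x ^ 2)
        ≤ ∑ x ∈ S, ((∫ t in Metric.closedBall x (r x), s t) + ε' * (Real.pi * r x ^ 2)) :=
          Finset.sum_le_sum h1
      _ = ∑ x ∈ S, (∫ t in Metric.closedBall x (r x), s t) +
          ε' * ∑ x ∈ S, Real.pi * r x ^ 2 := by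
          rw [Finset.sum_add_distrib, Finset.mul_sum]
      _ ≤ ((∫ t in F, s t) + ε') + ε' * M := by
          refine add_le_add hS1 (mul_le_mul_of_nonneg_left ?_ hε'0.le)
          linarith
      _ ≤ (∫ t in F, s t) + ε := by linarith
  refine ⟨S.image fun x => (x, r x), ?_, ?_, ?_, ?_⟩
  · intro b hb
    obtain ⟨x, hx, rfl⟩ := Finset.mem_image.1 hb
    exact ⟨hTF (hST hx), (hTr x (hST hx)).1,
      (hTr x (hST hx)).2.le.trans (min_le_left _ _)⟩
  · intro z hz
    have := hSF hz
    simp only [Set.mem_iUnion] at this ⊢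
    obtain ⟨x, hx, hz⟩ := this
    exact ⟨(x, r x), Finset.mem_image_of_mem _ hx, hz⟩
  · rw [Finset.sum_image hinj]
    exact hq
  · rw [Finset.sum_image hinj]
    linarith

end EQ

end Pool.Agent.ZR
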