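import Pool.Agent.ZR.EQ.St
import Mathlib.Analysis.Complex.OpenMapping

/-!
# ZR, block EQ, module CST: constant Betti coordinates (helper81)

Near `t₁` the Betti coordinates are the solutions of `Z = β₁ w₁ + β₂ w₂`, `Z' = β₁ w₁' + β₂ w₂'`, so
they are holomorphic (Cramer's rule) and real, hence constant.
-/

set_option autoImplicit false

open scoped BigOperators ComplexConjugate
open Filter Topology MeasureTheory

namespace Pool.Agent.ZR

open Pool.Agent.ZPT Pool.Agent.ZPE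

namespace EQ

/-- a holomorphic function with real values is constant -/
private theorem CST_const {g : ℂ → ℂ} {z : ℂ} (hg : AnalyticAt ℂ g z)
    (him : ∀ᶠ t in 𝓝 z, (g t).im = 0) : ∀ᶠ t in 𝓝 z, g t = ((g z).re : ℂ) := by
  have h0 : (g z).im = 0 := him.self_of_nhds
  rcases hg.eventually_constant_or_nhds_le_map_nhds with h | h
  · filter_upwards [h] with t ht
    rw [ht]
    apply Complex.ext
    · simp
    · simpa using h0
  · exfalso
    have h1 : {w : ℂ | w.im = 0} ∈ 𝓝 (g z) := h him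
    obtain ⟨ε, hε, hb⟩ := Metric.mem_nhds_iff.1 h1
    have h2 : g z + ((ε / 2 : ℝ) : ℂ) * Complex.I ∈ Metric.ball (g z) ε := by
      rw [Metric.mem_ball, dist_eq_norm, add_sub_cancel_left, norm_mul, Complex.norm_I, mul_one,
        Complex.norm_real, Real.norm_of_nonneg (by positivity)]
      linarith
    have h3 := hb h2
    rw [Set.mem_ofPred_eq, Complex.add_im, h0, Complex.mul_im, Complex.I_re, Complex.I_im,
      Complex.ofReal_re, Complex.ofReal_im] at h3
    linarith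

/-- the Betti coordinates are coordinates -/
private theorem CST_eq {a b : ℂ} (h : (a * conj b).im ≠ 0) (z : ℂ) :
    z = (be1 a b z : ℂ) * a + (be2 a b z : ℂ) * b := by
  have h1 : (a * conj b).im = a.im * b.re - a.re * b.im := by
    simp [Complex.mul_im]
    ring
  have h2 : (b * conj a).im = -(a.im * b.re - a.re * b.im) := by
    simp [Complex.mul_im]
    ring
  have h3 : (z * conj b).im = z.im * b.re - z.re * b.im := by
    simp [Complex.mul_im]
    ring
  have h4 : (z * conj a).im = z.im * a.re - z.re * a.im := by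
    simp [Complex.mul_im]
    ring
  unfold be1 be2
  rw [h1] at h
  rw [h1, h2, h3, h4]
  apply Complex.ext
  · rw [Complex.add_re, Complex.re_ofReal_mul, Complex.re_ofReal_mul, div_neg, neg_mul,
      div_mul_eq_mul_div, div_mul_eq_mul_div, ← sub_eq_add_neg, ← sub_div, eq_div_iff h]
    ring
  · rw [Complex.add_im, Complex.im_ofReal_mul, Complex.im_ofReal_mul, div_neg, neg_mul,
      div_mul_eq_mul_div, div_mul_eq_mul_div, ← sub_eq_add_neg, ← sub_div, eq_div_iff h]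
    ring

private theorem CST_be {a b : ℂ} (h : (a * conj b).im ≠ 0) (x y : ℝ) :
    be1 a b (x * a + y * b) = x ∧ be2 a b (x * a + y * b) = y := by
  have h1 : (a * conj b).im = a.im * b.re - a.re * b.im := by
    simp [Complex.mul_im]
    ring
  have h2 : (b * conj a).im = -(a.im * b.re - a.re * b.im) := by
    simp [Complex.mul_im]
    ring
  have h3 : ((x * a + y * b) * conj b).im = x * (a.im * b.re - a.re * b.im) := by
    simp [Complex.mul_im]
    ring
  have h4 : ((x * a + y * b) * conj a).im = y * -(a.im * b.re - a.re * b.im) := by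
    simp [Complex.mul_im]
    ring
  unfold be1 be2
  rw [h1] at h
  rw [h1, h2, h3, h4]
  exact ⟨mul_div_cancel_right₀ _ h, mul_div_cancel_right₀ _ (neg_ne_zero.2 h)⟩

theorem CST_of : St_CST := by
  intro ex V N _ _ C L w t₁ ht₁ hth
  have hZ : AnalyticOnNhd ℂ (L.zw w) L.dsk := fun t ht =>
    Finset.analyticAt_fun_sum _ fun ν _ => analyticAt_const.mul (L.z_an ν t ht)
  have hop : IsOpen L.dsk := Metric.isOpen_ball
  have hex : ∃ b₁ b₂ : ℝ, ∀ᶠ t in 𝓝 t₁, L.zw w t = b₁ * L.w₁ t + b₂ * L.w₂ t := by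
    have a1 : AnalyticAt ℂ L.w₁ t₁ := L.per.a₁ t₁ ht₁
    have a2 : AnalyticAt ℂ L.w₂ t₁ := L.per.a₂ t₁ ht₁
    have aZ : AnalyticAt ℂ (L.zw w) t₁ := hZ t₁ ht₁
    have hW : AnalyticAt ℂ (fun t => L.w₁ t * deriv L.w₂ t - L.w₂ t * deriv L.w₁ t) t₁ :=
      (a1.mul a2.deriv).sub (a2.mul a1.deriv)
    have hW0 : L.w₁ t₁ * deriv L.w₂ t₁ - L.w₂ t₁ * deriv L.w₁ t₁ ≠ 0 := L.per.wr t₁ ht₁
    have g1 : AnalyticAt ℂ (fun t => (L.zw w t * deriv L.w₂ t - L.w₂ t * deriv (L.zw w) t) /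
        (L.w₁ t * deriv L.w₂ t - L.w₂ t * deriv L.w₁ t)) t₁ :=
      ((aZ.mul a2.deriv).sub (a2.mul aZ.deriv)).div hW hW0
    have g2 : AnalyticAt ℂ (fun t => (L.w₁ t * deriv (L.zw w) t - L.zw w t * deriv L.w₁ t) /
        (L.w₁ t * deriv L.w₂ t - L.w₂ t * deriv L.w₁ t)) t₁ :=
      ((a1.mul aZ.deriv).sub (aZ.mul a1.deriv)).div hW hW0
    have hev : ∀ᶠ t in 𝓝 t₁,
        (L.zw w t * deriv L.w₂ t - L.w₂ t * deriv (L.zw w) t) /
          (L.w₁ t * deriv L.w₂ t - L.w₂ t * deriv L.w₁ t) =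
            (be1 (L.w₁ t) (L.w₂ t) (L.zw w t) : ℂ) ∧
        (L.w₁ t * deriv (L.zw w) t - L.zw w t * deriv L.w₁ t) /
          (L.w₁ t * deriv L.w₂ t - L.w₂ t * deriv L.w₁ t) =
            (be2 (L.w₁ t) (L.w₂ t) (L.zw w t) : ℂ) := by
      filter_upwards [hth, hop.mem_nhds ht₁] with t ht htd
      have h1 := CST_eq (L.per.im t htd) (L.zw w t)
      have h2 : L.w₁ t * deriv L.w₂ t - L.w₂ t * deriv L.w₁ t ≠ 0 := L.per.wr t htd
      unfold Loc1.th1 at ht
      generalize (be1 (L.w₁ t) (L.w₂ t) (L.zw w t) : ℂ) = β₁ at h1 ht ⊢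
      generalize (be2 (L.w₁ t) (L.w₂ t) (L.zw w t) : ℂ) = β₂ at h1 ht ⊢
      rw [div_eq_iff h2, div_eq_iff h2]
      constructor
      · linear_combination (deriv L.w₂ t) * h1 - (L.w₂ t) * ht
      · linear_combination (L.w₁ t) * ht - (deriv L.w₁ t) * h1
    have c1 := CST_const g1 (hev.mono fun t ht => by rw [ht.1, Complex.ofReal_im])
    have c2 := CST_const g2 (hev.mono fun t ht => by rw [ht.2, Complex.ofReal_im])
    refine ⟨((L.zw w t₁ * deriv L.w₂ t₁ - L.w₂ t₁ * deriv (L.zw w) t₁) /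
        (L.w₁ t₁ * deriv L.w₂ t₁ - L.w₂ t₁ * deriv L.w₁ t₁)).re,
      ((L.w₁ t₁ * deriv (L.zw w) t₁ - L.zw w t₁ * deriv L.w₁ t₁) /
        (L.w₁ t₁ * deriv L.w₂ t₁ - L.w₂ t₁ * deriv L.w₁ t₁)).re, ?_⟩
    filter_upwards [hev, c1, c2, hop.mem_nhds ht₁] with t h1 h2 h3 htd
    have h4 := CST_eq (L.per.im t htd) (L.zw w t)
    rw [← h1.1, ← h1.2, h2, h3] at h4
    exact h4
  obtain ⟨b₁, b₂, hb⟩ := hex
  have hall : Set.EqOn (L.zw w) (fun t => b₁ * L.w₁ t + b₂ * L.w₂ t) L.dsk := by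
    refine hZ.eqOn_of_preconnected_of_eventuallyEq ?_ (convex_ball _ _).isPreconnected ht₁ hb
    exact fun t ht => (analyticAt_const.mul (L.per.a₁ t ht)).add
      (analyticAt_const.mul (L.per.a₂ t ht))
  refine ⟨b₁, b₂, fun t ht => ⟨hall ht, ?_⟩⟩
  have h1 : deriv (L.zw w) t = b₁ * deriv L.w₁ t + b₂ * deriv L.w₂ t := by
    have h2 : L.zw w =ᶠ[𝓝 t] fun t => b₁ * L.w₁ t + b₂ * L.w₂ t :=
      Filter.eventuallyEq_of_mem (hop.mem_nhds ht) hall
    rw [h2.deriv_eq]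
    exact (((L.per.a₁ t ht).differentiableAt.hasDerivAt.const_mul _).add
      ((L.per.a₂ t ht).differentiableAt.hasDerivAt.const_mul _)).deriv
  have h3 : L.zw w t = b₁ * L.w₁ t + b₂ * L.w₂ t := hall ht
  obtain ⟨h4, h5⟩ := CST_be (L.per.im t ht) b₁ b₂
  unfold Loc1.th1
  rw [h1, h3, h4, h5]
  ring

end EQ

end Pool.Agent.ZR
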