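import Pool.Agent.ZR.EQ.St
import Pool.Agent.ZR.QG.St
import Pool.Agent.ZR.S.All
import Pool.Agent.ZR.CH.ACX
import Pool.Agent.ZR.CH.CHE
import Pool.Agent.ZR.CH.TCS
import Pool.Agent.ZR.CH.FLD
import Pool.Agent.ZPE.CM.P8b
import Pool.Agent.ZPT.CF

/-!
# ZR, block EQ, module DGC: the degrees tend to infinity quadratically (helper12)
-/

set_option autoImplicit false

open scoped BigOperators
open Filter Topology

namespace Pool.Agent.ZR

open Pool.Agent.ZPT Pool.Agent.ZPE

namespace EQ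

/-! ### polynomials on a chart -/

section poly

variable {V : Type}

private theorem DGC_bez {L : Type} [Field L] (g p : Polynomial L) (hg : Irreducible g)
    (h : ¬ g ∣ p) : ∃ a b : Polynomial L, a * g + b * p = 1 :=
  (hg.coprime_iff_not_dvd).mpr h

private theorem DGC_dich (f : Polynomial (MvPolynomial V Qb)) (hm : f.Monic)
    (hf : Irreducible (f.map (algebraMap (MvPolynomial V Qb)
      (FractionRing (MvPolynomial V Qb))))) (p : Polynomial (MvPolynomial V Qb)) :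
    f ∣ p ∨ ∃ δ : MvPolynomial V Qb, δ ≠ 0 ∧ ∃ a b : Polynomial (MvPolynomial V Qb),
      a * f + b * p = Polynomial.C δ := by
  set L := FractionRing (MvPolynomial V Qb) with hL
  have hinj : Function.Injective (algebraMap (MvPolynomial V Qb) L) :=
    IsFractionRing.injective (MvPolynomial V Qb) L
  by_cases h : f.map (algebraMap (MvPolynomial V Qb) L) ∣ p.map (algebraMap (MvPolynomial V Qb) L)
  · exact Or.inl ((Polynomial.map_dvd_map _ hinj hm).1 h)
  right
  obtain ⟨a, b, hab⟩ := DGC_bez _ _ hf h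
  obtain ⟨δ₁, hδ₁, ha⟩ := IsLocalization.integerNormalization_spec
    (nonZeroDivisors (MvPolynomial V Qb)) a
  obtain ⟨δ₂, hδ₂, hb⟩ := IsLocalization.integerNormalization_spec
    (nonZeroDivisors (MvPolynomial V Qb)) b
  generalize IsLocalization.integerNormalization (nonZeroDivisors (MvPolynomial V Qb)) a = a'
    at ha
  generalize IsLocalization.integerNormalization (nonZeroDivisors (MvPolynomial V Qb)) b = b'
    at hb
  refine ⟨δ₁ * δ₂, mul_ne_zero (nonZeroDivisors.ne_zero hδ₁) (nonZeroDivisors.ne_zero hδ₂),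
    Polynomial.C δ₂ * a', Polynomial.C δ₁ * b', ?_⟩
  apply Polynomial.map_injective _ hinj
  rw [Polynomial.map_add, Polynomial.map_mul, Polynomial.map_mul, Polynomial.map_mul,
    Polynomial.map_mul, ha, hb, Polynomial.map_C, Polynomial.map_C, Polynomial.map_C, map_mul,
    Polynomial.C_mul]
  have e1 : ∀ (u : MvPolynomial V Qb) (q : Polynomial L),
      u • q = Polynomial.C (algebraMap (MvPolynomial V Qb) L u) * q := by
    intro u q
    rw [← Polynomial.smul_eq_C_mul, algebraMap_smul]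
  change Polynomial.C (algebraMap (MvPolynomial V Qb) L δ₂) * (δ₁ • a) *
      (f.map (algebraMap (MvPolynomial V Qb) L)) +
    Polynomial.C (algebraMap (MvPolynomial V Qb) L δ₁) * (δ₂ • b) *
      (p.map (algebraMap (MvPolynomial V Qb) L)) = _
  rw [e1, e1]
  linear_combination Polynomial.C (algebraMap (MvPolynomial V Qb) L δ₁) *
    Polynomial.C (algebraMap (MvPolynomial V Qb) L δ₂) * hab

private noncomputable def DGC_to : MvPolynomial (Option V) Qb →ₐ[Qb] Polynomial (MvPolynomial V Qb) :=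
  MvPolynomial.aeval fun o => o.elim Polynomial.X fun i => Polynomial.C (MvPolynomial.X i)

private noncomputable def DGC_from (p : Polynomial (MvPolynomial V Qb)) :
    MvPolynomial (Option V) Qb :=
  p.eval₂ (MvPolynomial.rename some : MvPolynomial V Qb →ₐ[Qb] MvPolynomial (Option V) Qb).toRingHom
    (MvPolynomial.X none)

/-- the point `(y, x)` -/
private def DGC_z {K : Type} (y : V → K) (x : K) : Option V → K := fun o => o.elim x y

private theorem DGC_ev_to {K : Type} [Field K] [Algebra Qb K] (y : V → K) (x : K)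
    (G : MvPolynomial (Option V) Qb) :
    ev (DGC_to G) y x = MvPolynomial.aeval (DGC_z y x) G := by
  induction G using MvPolynomial.induction_on with
  | C a =>
    rw [MvPolynomial.algHom_C, MvPolynomial.algHom_C, ev, IsScalarTower.algebraMap_apply Qb
      (MvPolynomial V Qb) (Polynomial (MvPolynomial V Qb)), Polynomial.algebraMap_apply,
      Polynomial.eval₂_C]
    simp
  | add p q hp hq =>
    rw [map_add, map_add, ← hp, ← hq, ev, Polynomial.eval₂_add]
    rfl
  | mul_X p i hp =>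
    rw [map_mul, map_mul, ← hp, ev, Polynomial.eval₂_mul]
    congr 1
    rw [DGC_to, MvPolynomial.aeval_X, MvPolynomial.aeval_X]
    rcases i with _ | i
    · simp [DGC_z]
    · simp [DGC_z]

private theorem DGC_aeval_from {K : Type} [Field K] [Algebra Qb K] (y : V → K) (x : K)
    (p : Polynomial (MvPolynomial V Qb)) :
    MvPolynomial.aeval (DGC_z y x) (DGC_from p) = ev p y x := by
  have h := Polynomial.hom_eval₂ p
    (MvPolynomial.rename some : MvPolynomial V Qb →ₐ[Qb] MvPolynomial (Option V) Qb).toRingHom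
    (MvPolynomial.aeval (DGC_z y x) : MvPolynomial (Option V) Qb →ₐ[Qb] K).toRingHom
    (MvPolynomial.X none)
  have h2 : MvPolynomial.aeval (DGC_z y x) (DGC_from p) =
      (MvPolynomial.aeval (DGC_z y x) : MvPolynomial (Option V) Qb →ₐ[Qb] K).toRingHom
        (DGC_from p) := rfl
  rw [h2, DGC_from, h, ev]
  congr 1
  · apply RingHom.ext
    intro q
    simp only [RingHom.comp_apply, AlgHom.toRingHom_eq_coe, RingHom.coe_coe,
      MvPolynomial.aeval_rename]
    rfl
  · simp [DGC_z]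

private theorem DGC_tr {K : Type} [Field K] {N : Type} [Fintype N] {t t' : K} (h : t = t')
    (P : N → LPt t) : ∃ P' : N → LPt t', (∀ ν, rp (P' ν) = rp (P ν)) ∧
      ∀ m : N → ℤ, rp (cb P' m) = rp (cb P m) := by
  subst h
  exact ⟨P, fun _ => rfl, fun _ => rfl⟩

end poly

private theorem DGC_rp_ne {K : Type} [Field K] {t : K} (h0 : t ≠ 0) (h1 : t ≠ 1)
    (h2 : (2 : K) ≠ 0) (P : LPt t) : rp P ≠ 0 := rep_ne h0 h1 h2 P

/-! ### polynomials at the points of a chart -/

section chart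

variable {V N : Type} [Fintype V] [Fintype N]

private theorem DGC_pt (C : JCh V N) {K : Type} [Field K] [Algebra Qb K]
    {y : V → K} {x : K} (h : C.M.IsPt y (fun _ => x)) :
    y C.i₀ ≠ 0 ∧ y C.i₀ ≠ 1 ∧ ∀ ν, C.co y x ν ≠ 0 ∧ OnJ (y C.i₀) (C.co y x ν) := by
  have hD := h.ne ()
  have hf : ev (C.M.f ()) y x = 0 := h.eq ()
  have hdvd : ∀ q : Polynomial (MvPolynomial V Qb), C.M.f () ∣ q → ev q y x = 0 := by
    rintro q ⟨q', rfl⟩
    rw [ev, Polynomial.eval₂_mul]
    rw [ev] at hf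
    rw [hf, zero_mul]
  obtain ⟨q, hq⟩ := C.tD
  rw [hq] at hD
  simp only [map_mul, map_sub, map_one, MvPolynomial.aeval_X] at hD
  have h0 : y C.i₀ ≠ 0 := fun e => hD (by rw [e]; simp)
  have h1 : y C.i₀ ≠ 1 := fun e => hD (by rw [e]; simp)
  refine ⟨h0, h1, fun ν => ⟨fun e => ?_, ?_, ?_⟩⟩
  · have e1 : C.co y x ν (C.jn ν) = 0 := by rw [e]; rfl
    rw [JCh.co, C.one ν, ev, Polynomial.eval₂_C] at e1
    exact h.ne () e1
  · have e1 := hdvd _ (C.eq₁ ν)
    simp only [ev, Polynomial.eval₂_sub, Polynomial.eval₂_add, Polynomial.eval₂_pow] at e1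
    simp only [JCh.co, ev]
    linear_combination e1
  · have e1 := hdvd _ (C.eq₂ ν)
    simp only [ev, Polynomial.eval₂_sub, Polynomial.eval₂_add, Polynomial.eval₂_pow,
      Polynomial.eval₂_mul, Polynomial.eval₂_C] at e1
    have e2 : (MvPolynomial.aeval y : MvPolynomial V Qb →ₐ[Qb] K).toRingHom
        (MvPolynomial.X C.i₀) = y C.i₀ := MvPolynomial.aeval_X _ _
    rw [e2] at e1
    simp only [JCh.co, ev]
    linear_combination e1

/-- A polynomial vanishes at all points, or it only vanishes on a hypersurface. -/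
private theorem DGC_alt (C : JCh V N) (Ψ : MvPolynomial (Option V) Qb) :
    (∀ (K : Type) [Field K] [Algebra Qb K] (y : V → K) (x : K), C.M.IsPt y (fun _ => x) →
      MvPolynomial.aeval (DGC_z y x) Ψ = 0) ∨
    ∃ δ : MvPolynomial V Qb, δ ≠ 0 ∧ ∀ (K : Type) [Field K] [Algebra Qb K] (y : V → K) (x : K),
      C.M.IsPt y (fun _ => x) → MvPolynomial.aeval y δ ≠ 0 →
        MvPolynomial.aeval (DGC_z y x) Ψ ≠ 0 := by
  rcases DGC_dich (C.M.f ()) (C.M.monic ()) (C.irr ()) (DGC_to Ψ) with h | ⟨δ, hδ, a, b, hab⟩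
  · left
    intro K _ _ y x hp
    obtain ⟨q, hq⟩ := h
    have hf : ev (C.M.f ()) y x = 0 := hp.eq ()
    rw [← DGC_ev_to, hq, ev, Polynomial.eval₂_mul]
    rw [ev] at hf
    rw [hf, zero_mul]
  · right
    refine ⟨δ, hδ, fun K _ _ y x hp hne h0 => ?_⟩
    have hf : ev (C.M.f ()) y x = 0 := hp.eq ()
    have e1 : ev (a * C.M.f () + b * DGC_to Ψ) y x = MvPolynomial.aeval y δ := by
      rw [hab, ev, Polynomial.eval₂_C]
      rfl
    rw [← DGC_ev_to] at h0
    rw [ev] at hf h0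
    rw [ev, Polynomial.eval₂_add, Polynomial.eval₂_mul, Polynomial.eval₂_mul, hf, h0, mul_zero,
      mul_zero, add_zero] at e1
    exact hne e1.symm

/-- polynomials which represent the combinations at all points and do not vanish generically -/
private structure DGC_G (C : JCh V N) (G : (N → ℤ) → Fin 4 → MvPolynomial (Option V) Qb) :
    Prop where
  rep : ∀ (K : Type) [Field K] [Algebra Qb K] (y : V → K) (x : K), C.M.IsPt y (fun _ => x) →
    ∀ P : N → LPt (y C.i₀), (∀ ν, IsJ (C.co y x ν) (P ν)) → ∀ m, ∃ c : K,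
      ∀ a, MvPolynomial.aeval (DGC_z y x) (G m a) = c * rp (cb P m) a
  ne : ∀ m, ∃ δ : MvPolynomial V Qb, δ ≠ 0 ∧ ∀ (K : Type) [Field K] [Algebra Qb K] (y : V → K)
    (x : K), C.M.IsPt y (fun _ => x) → MvPolynomial.aeval y δ ≠ 0 →
      ∃ a, MvPolynomial.aeval (DGC_z y x) (G m a) ≠ 0

private theorem DGC_exG (C : JCh V N) (K₀ : Type) [Field K₀] [Algebra Qb K₀] (y₀ : V → K₀)
    (x₀ : K₀) (hpt : C.M.IsPt y₀ (fun _ => x₀)) : ∃ G, DGC_G C G := by
  have hcz : CharZero K₀ := charZero_of_injective_algebraMap (algebraMap Qb K₀).injective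
  obtain ⟨ht0, ht1, hco⟩ := DGC_pt C hpt
  have hS := thm_S1 K₀ (y₀ C.i₀) ht0 ht1 two_ne_zero
  choose P₀ c₀ hc₀ hP₀ using fun ν => hS.2.2 _ (hco ν).1 (hco ν).2
  have hTz : ∀ (K : Type) [Field K] [Algebra Qb K] (y : V → K) (x : K), y C.i₀ =
      MvPolynomial.aeval (DGC_z y x) (MvPolynomial.X (some C.i₀) :
        MvPolynomial (Option V) Qb) := by
    intro K _ _ y x
    rw [MvPolynomial.aeval_X]
    rfl
  obtain ⟨P₁, hP₁, hcb₁⟩ := DGC_tr (hTz K₀ y₀ x₀) P₀
  obtain ⟨G, -, -, hG1, hG2⟩ := thm_B1 (Option V) N (MvPolynomial.X (some C.i₀))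
    (fun ν a => DGC_from (C.Xp ν a)) K₀ (DGC_z y₀ x₀)
    (hTz K₀ y₀ x₀ ▸ ht0) (hTz K₀ y₀ x₀ ▸ ht1) P₁ (fun ν => ⟨c₀ ν, hc₀ ν, by
      rw [hP₁ ν, ← hP₀ ν]
      funext i
      rw [DGC_aeval_from]
      rfl⟩)
  refine ⟨G, ?_, ?_⟩
  · intro K _ _ y x hp P hP m
    obtain ⟨h0, h1, -⟩ := DGC_pt C hp
    obtain ⟨P₂, hP₂, hcb₂⟩ := DGC_tr (hTz K y x) P
    obtain ⟨c, hc⟩ := hG2 K (DGC_z y x) (hTz K y x ▸ h0) (hTz K y x ▸ h1) P₂
      (fun ν => by
        obtain ⟨c', -, h'⟩ := hP ν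
        refine ⟨c', ?_⟩
        rw [hP₂ ν]
        have h'' : C.co y x ν = c' • rp (P ν) := h'
        rw [← h'']
        funext i
        rw [DGC_aeval_from]
        rfl) m
    refine ⟨c, fun a => ?_⟩
    rw [hcb₂ m] at hc
    exact congrFun hc a
  · intro m
    obtain ⟨c, hc, hcm⟩ := hG1 m
    have h1 : ∃ a, MvPolynomial.aeval (DGC_z y₀ x₀) (G m a) ≠ 0 := by
      by_contra hcon
      push Not at hcon
      have h2 : rp (cb P₀ m) = 0 := by
        funext a
        have h3 := congrFun hcm a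
        simp only [hcon a, Pi.smul_apply, smul_eq_mul] at h3
        rw [hcb₁ m] at h3
        exact (mul_eq_zero.1 h3.symm).resolve_left hc
      exact DGC_rp_ne ht0 ht1 two_ne_zero (cb P₀ m) h2
    obtain ⟨a, ha⟩ := h1
    rcases DGC_alt C (G m a) with h | ⟨δ, hδ, h⟩
    · exact absurd (h K₀ y₀ x₀ hpt) ha
    · exact ⟨δ, hδ, fun K _ _ y x hp hne => ⟨a, h K y x hp hne⟩⟩

end chart

/-! ### generic sequences of points -/

section seqs

variable {V N : Type} [Fintype V] [Fintype N]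

/-- the points `(y k, x k)` of the chart, generic -/
private structure DGC_S (C : JCh V N) {Q : Type} (U : Ultrafilter Q) (p : PreF N Q)
    (y : Q → V → Qb) (x : Q → Qb) : Prop where
  pt : ∀ᶠ k in (U : Filter Q), C.M.IsPt (y k) (fun _ => x k) ∧ y k C.i₀ = p.t k ∧
    ∀ ν, IsJ (C.co (y k) (x k) ν) (p.P k ν)
  gen : ∀ F : MvPolynomial V Qb, F ≠ 0 → ∀ᶠ k in (U : Filter Q), MvPolynomial.aeval (y k) F ≠ 0

/-- a polynomial which vanishes at the points of a generic sequence vanishes everywhere -/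
private theorem DGC_all {C : JCh V N} {Q : Type} {U : Ultrafilter Q} {p : PreF N Q}
    {y : Q → V → Qb} {x : Q → Qb} (h : DGC_S C U p y x) (Ψ : MvPolynomial (Option V) Qb)
    (h0 : ∀ᶠ k in (U : Filter Q), MvPolynomial.aeval (DGC_z (y k) (x k)) Ψ = 0)
    (K : Type) [Field K] [Algebra Qb K] (y' : V → K) (x' : K) (hp : C.M.IsPt y' (fun _ => x')) :
    MvPolynomial.aeval (DGC_z y' x') Ψ = 0 := by
  rcases DGC_alt C Ψ with h1 | ⟨δ, hδ, h1⟩
  · exact h1 K y' x' hp
  · obtain ⟨k, ⟨k1, k2⟩, k3⟩ := ((h.pt.and h0).and (h.gen δ hδ)).exists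
    exact absurd k2 (h1 Qb (y k) (x k) k1.1 k3)

/-- a polynomial which vanishes at a generic point vanishes everywhere -/
private theorem DGC_all' {C : JCh V N} (Ψ : MvPolynomial (Option V) Qb)
    (K₀ : Type) [Field K₀] [Algebra Qb K₀] (y₀ : V → K₀) (x₀ : K₀)
    (hi : AlgebraicIndependent Qb y₀) (hp₀ : C.M.IsPt y₀ (fun _ => x₀))
    (h0 : MvPolynomial.aeval (DGC_z y₀ x₀) Ψ = 0)
    (K : Type) [Field K] [Algebra Qb K] (y' : V → K) (x' : K) (hp : C.M.IsPt y' (fun _ => x')) :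
    MvPolynomial.aeval (DGC_z y' x') Ψ = 0 := by
  rcases DGC_alt C Ψ with h1 | ⟨δ, hδ, h1⟩
  · exact h1 K y' x' hp
  · refine absurd h0 (h1 K₀ y₀ x₀ hp₀ fun h2 => hδ ?_)
    rw [algebraicIndependent_iff_injective_aeval] at hi
    exact hi (by rw [h2, map_zero])

private theorem DGC_sq {C : JCh V N} {G : (N → ℤ) → Fin 4 → MvPolynomial (Option V) Qb}
    (hG : DGC_G C G) {Q : Type} {U : Ultrafilter Q} {p : PreF N Q}
    {y : Q → V → Qb} {x : Q → Qb} (h : DGC_S C U p y x) (m : N → ℤ) :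
    ∀ᶠ k in (U : Filter Q), ∃ c : Qb, c ≠ 0 ∧
      ∀ a, MvPolynomial.aeval (DGC_z (y k) (x k)) (G m a) = c * rp (cb (p.P k) m) a := by
  obtain ⟨δ, hδ, hne⟩ := hG.ne m
  filter_upwards [h.pt, h.gen δ hδ] with k hk hk2
  obtain ⟨hp, ht, hJ⟩ := hk
  obtain ⟨P₂, hP₂, hcb₂⟩ := DGC_tr ht.symm (p.P k)
  obtain ⟨c, hc⟩ := hG.rep Qb (y k) (x k) hp P₂ (fun ν => by
    obtain ⟨c', hc', h'⟩ := hJ ν
    refine ⟨c', hc', ?_⟩
    rw [h']
    exact congrArg (c' • ·) (hP₂ ν).symm) m
  obtain ⟨a, ha⟩ := hne Qb (y k) (x k) hp hk2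
  refine ⟨c, fun h0 => ha ?_, fun b => ?_⟩
  · rw [hc a, h0, zero_mul]
  · rw [hc b, hcb₂ m]

/-- independence only depends on the chart -/
private theorem DGC_ind {C : JCh V N} {G : (N → ℤ) → Fin 4 → MvPolynomial (Option V) Qb}
    (hG : DGC_G C G) {Q : Type} {U : Ultrafilter Q} {p : PreF N Q}
    {y : Q → V → Qb} {x : Q → Qb} (h : DGC_S C U p y x) {Q' : Type} {U' : Ultrafilter Q'}
    {p' : PreF N Q'} {y' : Q' → V → Qb} {x' : Q' → Qb} (h' : DGC_S C U' p' y' x') (m : N → ℤ)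
    (hm : ∀ᶠ k in (U : Filter Q), cb (p.P k) m ≠ 0) :
    ∀ᶠ k in (U' : Filter Q'), cb (p'.P k) m ≠ 0 := by
  by_contra hcon
  have h0 : ∀ᶠ k in (U' : Filter Q'), cb (p'.P k) m = 0 := by
    have h1 := Ultrafilter.eventually_not.2 hcon
    filter_upwards [h1] with k hk
    exact not_not.1 hk
  have h1 : ∀ᶠ k in (U' : Filter Q'),
      MvPolynomial.aeval (DGC_z (y' k) (x' k)) (G m 0) = 0 ∧
      MvPolynomial.aeval (DGC_z (y' k) (x' k)) (G m 1 - G m 3) = 0 ∧
      MvPolynomial.aeval (DGC_z (y' k) (x' k)) (G m 2 - G m 3) = 0 := by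
    filter_upwards [h0, DGC_sq hG h' m] with k hk hk2
    obtain ⟨c, -, hc⟩ := hk2
    rw [hk] at hc
    refine ⟨?_, ?_, ?_⟩
    · rw [hc 0]
      show c * jo Qb 0 = 0
      rw [show jo Qb 0 = 0 from rfl, mul_zero]
    · rw [map_sub, hc 1, hc 3]
      show c * jo Qb 1 - c * jo Qb 3 = 0
      rw [show jo Qb 1 = 1 from rfl, show jo Qb 3 = 1 from rfl, sub_self]
    · rw [map_sub, hc 2, hc 3]
      show c * jo Qb 2 - c * jo Qb 3 = 0
      rw [show jo Qb 2 = 1 from rfl, show jo Qb 3 = 1 from rfl, sub_self]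
  have e0 := DGC_all h' (G m 0) (h1.mono fun k hk => hk.1) Qb
  have e1 := DGC_all h' (G m 1 - G m 3) (h1.mono fun k hk => hk.2.1) Qb
  have e2 := DGC_all h' (G m 2 - G m 3) (h1.mono fun k hk => hk.2.2) Qb
  obtain ⟨k, ⟨hk1, c, hc, hk2⟩, hk3⟩ := ((h.pt.and (DGC_sq hG h m)).and hm).exists
  have f0 := e0 (y k) (x k) hk1.1
  have f1 := e1 (y k) (x k) hk1.1
  have f2 := e2 (y k) (x k) hk1.1
  rw [hk2 0] at f0
  rw [map_sub, hk2 1, hk2 3] at f1
  rw [map_sub, hk2 2, hk2 3] at f2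
  have g0 : rp (cb (p.P k) m) 0 = 0 := (mul_eq_zero.1 f0).resolve_left hc
  have g1 : rp (cb (p.P k) m) 1 = rp (cb (p.P k) m) 3 :=
    mul_left_cancel₀ hc (sub_eq_zero.1 f1)
  have g2 : rp (cb (p.P k) m) 2 = rp (cb (p.P k) m) 3 :=
    mul_left_cancel₀ hc (sub_eq_zero.1 f2)
  apply hk3
  have g3 : rp (cb (p.P k) m) 3 ≠ 0 := by
    intro h3
    apply DGC_rp_ne (p.t0 k) (p.t1 k) two_ne_zero (cb (p.P k) m)
    funext a
    fin_cases a
    · exact g0
    · exact g1.trans h3
    · exact g2.trans h3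
    · exact h3
  refine (thm_S1 Qb (p.t k) (p.t0 k) (p.t1 k) two_ne_zero).2.1 _ _ ⟨rp (cb (p.P k) m) 3, g3, ?_⟩
  have g4 : rp (0 : LPt (p.t k)) = jo Qb := rfl
  rw [g4]
  funext a
  fin_cases a
  · show rp (cb (p.P k) m) 0 = rp (cb (p.P k) m) 3 * 0
    rw [g0, mul_zero]
  · show rp (cb (p.P k) m) 1 = rp (cb (p.P k) m) 3 * 1
    rw [g1, mul_one]
  · show rp (cb (p.P k) m) 2 = rp (cb (p.P k) m) 3 * 1
    rw [g2, mul_one]
  · show rp (cb (p.P k) m) 3 = rp (cb (p.P k) m) 3 * 1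
    rw [mul_one]

end seqs

/-! ### germs -/

private theorem DGC_aeval {Q V : Type} (U : Ultrafilter Q) (v : Q → V → Qb)
    (F : MvPolynomial V Qb) :
    MvPolynomial.aeval (fun i => gm U (fun k => v k i)) F =
      gm U (fun k => MvPolynomial.aeval (v k) F) := by
  induction F using MvPolynomial.induction_on with
  | C a =>
    rw [MvPolynomial.aeval_C, algLL_apply]
    refine congrArg (gm U) ?_
    funext k
    rw [MvPolynomial.aeval_C]
    rfl
  | add p q hp hq =>
    rw [map_add, hp, hq, ← gm_add]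
    refine congrArg (gm U) ?_
    funext k
    rw [map_add]
  | mul_X p i hp =>
    rw [map_mul, hp, MvPolynomial.aeval_X, ← gm_mul]
    refine congrArg (gm U) ?_
    funext k
    rw [map_mul, MvPolynomial.aeval_X]

private theorem DGC_ev {Q V : Type} (U : Ultrafilter Q) (v : Q → V → Qb) (x : Q → Qb)
    (p : Polynomial (MvPolynomial V Qb)) :
    ev p (fun i => gm U (fun k => v k i)) (gm U x) = gm U (fun k => ev p (v k) (x k)) := by
  induction p using Polynomial.induction_on' with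
  | add p q hp hq =>
    have e : ∀ (K : Type) [Field K] [Algebra Qb K] (y : V → K) (t : K),
        ev (p + q) y t = ev p y t + ev q y t := fun K _ _ y t => Polynomial.eval₂_add _ _
    rw [e, hp, hq, ← gm_add]
    refine congrArg (gm U) ?_
    funext k
    rw [e]
  | monomial n a =>
    have e : ∀ (K : Type) [Field K] [Algebra Qb K] (y : V → K) (t : K),
        ev (Polynomial.monomial n a) y t = MvPolynomial.aeval y a * t ^ n :=
      fun K _ _ y t => Polynomial.eval₂_monomial _ _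
    rw [e, DGC_aeval, ← gm_pow, ← gm_mul]
    refine congrArg (gm U) ?_
    funext k
    rw [e]

section mem

variable {K V : Type} [Field K] [Algebra Qb K] (S : Subfield K)
  (hc : ∀ c : Qb, algebraMap Qb K c ∈ S) (y : V → K) (hy : ∀ i, y i ∈ S)

include hc hy

private theorem DGC_mem_aeval (q : MvPolynomial V Qb) : MvPolynomial.aeval y q ∈ S := by
  induction q using MvPolynomial.induction_on with
  | C a =>
    rw [MvPolynomial.algHom_C]
    exact hc a
  | add p q hp hq =>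
    rw [map_add]
    exact add_mem hp hq
  | mul_X p i hp =>
    rw [map_mul, MvPolynomial.aeval_X]
    exact mul_mem hp (hy i)

private theorem DGC_mem_ev (x : K) (hx : x ∈ S) (p : Polynomial (MvPolynomial V Qb)) :
    ev p y x ∈ S := by
  induction p using Polynomial.induction_on' with
  | add p q hp hq =>
    have e : ev (p + q) y x = ev p y x + ev q y x := Polynomial.eval₂_add _ _
    rw [e]
    exact add_mem hp hq
  | monomial n a =>
    have e : ev (Polynomial.monomial n a) y x = MvPolynomial.aeval y a * x ^ n :=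
      Polynomial.eval₂_monomial _ _
    rw [e]
    exact mul_mem (DGC_mem_aeval S hc y hy a) (pow_mem hx n)

private theorem DGC_root (x : K) (f : Polynomial (MvPolynomial V Qb)) (hm : f.Monic)
    (h0 : ev f y x = 0) : IsAlgebraic S x := by
  let φ : MvPolynomial V Qb →+* S :=
    (MvPolynomial.aeval y : MvPolynomial V Qb →ₐ[Qb] K).toRingHom.codRestrict S
      (fun q => DGC_mem_aeval S hc y hy q)
  refine ⟨f.map φ, (hm.map φ).ne_zero, ?_⟩
  rw [Polynomial.aeval_def, Polynomial.eval₂_map]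
  exact h0

end mem

/-! ### the coordinates of a point -/

private theorem DGC_jx {K : Type} [Field K] {t : K} (P : LPt t) (h : P ≠ 0) :
    rp P = jx t (lx P) (ly P) := by
  revert h
  refine WeierstrassCurve.Affine.Point.rec (motive := fun P : (leg t).Point =>
    (P : LPt t) ≠ 0 → rp (P : LPt t) = jx t (lx (P : LPt t)) (ly (P : LPt t))) ?_ ?_ P
  · intro h
    exact absurd rfl h
  · intro x y hh _
    rfl

/-- the scaling factor -/
private noncomputable def DGC_la {K : Type} [Field K] (t : K) (X : Fin 4 → K) : K :=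
  (t * (X 3 - X 1) - (X 3 - X 2)) / (2 * t * (1 - t))

private theorem DGC_lx {K : Type} [Field K] {t : K} (h0 : t ≠ 0) (h1 : t ≠ 1)
    (h2 : (2 : K) ≠ 0) (P : LPt t) (X : Fin 4 → K) (hX : IsJ X P) :
    lx P = (X 1 - X 2) / (2 * (t - 1) * DGC_la t X) ∧ ly P = X 0 / (2 * DGC_la t X) := by
  obtain ⟨c, hc, hX⟩ := hX
  have hX' : X = c • rp P := hX
  by_cases hP : P = 0
  · have e : ∀ a, X a = c * jo K a := by
      intro a
      rw [hX', hP]
      rfl
    have e0 : X 0 = 0 := by rw [e, show jo K 0 = 0 from rfl, mul_zero]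
    have e1 : X 1 = c := by rw [e, show jo K 1 = 1 from rfl, mul_one]
    have e2 : X 2 = c := by rw [e, show jo K 2 = 1 from rfl, mul_one]
    have hx0 : lx P = 0 := by rw [hP]; rfl
    have hy0 : ly P = 0 := by rw [hP]; rfl
    rw [hx0, hy0, e0, e1, e2, sub_self, zero_div, zero_div]
    exact ⟨rfl, rfl⟩
  · have e : ∀ a, X a = c * jx t (lx P) (ly P) a := by
      intro a
      rw [hX', DGC_jx P hP]
      rfl
    have e0 : X 0 = c * (2 * ly P) := e 0
    have e1 : X 1 = c * (lx P ^ 2 - 2 * lx P + t) := e 1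
    have e2 : X 2 = c * (lx P ^ 2 - 2 * t * lx P + t) := e 2
    have e3 : X 3 = c * (lx P ^ 2 - t) := e 3
    have h3 : t - 1 ≠ 0 := sub_ne_zero.2 h1
    have h4 : (1 : K) - t ≠ 0 := sub_ne_zero.2 h1.symm
    have hl : DGC_la t X = c := by
      rw [DGC_la, e1, e2, e3]
      field_simp
      ring
    rw [hl, e0, e1, e2]
    constructor
    · field_simp
      ring
    · field_simp

/-! ### the sequence -/

private theorem DGC_trans {Q : Type} (U : Ultrafilter Q) (t : Q → Qb)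
    (h : ∀ z : Qb, ∀ᶠ k in (U : Filter Q), t k ≠ z) : Transcendental Qb (gm U t) := by
  intro hcon
  have h4 : IsAlgClosed Qb := (algebraicClosure.isAlgClosure ℚ ℂ).isAlgClosed
  have h5 := hcon.isIntegral
  obtain ⟨c, hc⟩ := minpoly.mem_range_of_degree_eq_one Qb (gm U t)
    (IsAlgClosed.degree_eq_one_of_irreducible Qb (minpoly.irreducible h5))
  rw [algLL_apply, gm_eq_iff] at hc
  obtain ⟨k, hk, hk'⟩ := (hc.and (h c)).exists
  exact hk' hk.symm

private theorem DGC_tend (t : ℕ → Qb) (ht : ∀ j, t j = ((j + 2 : ℕ) : Qb)) :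
    Tendsto (fun k => hQ (t k)) (hyperfilter ℕ : Filter ℕ) atTop ∧
    (∀ k, Real.log 2 ≤ hQ (t k)) ∧
    ∀ z : Qb, ∀ᶠ k in (hyperfilter ℕ : Filter ℕ), t k ≠ z := by
  have hh : ∀ j, hQ (t j) = Real.log ((j : ℝ) + 2) := by
    intro j
    have h1 := hQ_int ((j + 2 : ℕ) : ℤ)
    rw [Int.cast_natCast, Int.cast_natCast] at h1
    rw [ht j, h1]
    push_cast
    have h2 : (0 : ℝ) ≤ (j : ℝ) := Nat.cast_nonneg j
    rw [abs_of_nonneg (by linarith), Real.posLog_eq_log]
    rw [abs_of_nonneg (by linarith)]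
    linarith
  refine ⟨?_, ?_, ?_⟩
  · have h1 : Tendsto (fun j : ℕ => Real.log ((j : ℝ) + 2)) atTop atTop :=
      Real.tendsto_log_atTop.comp (tendsto_atTop_add_const_right _ _ tendsto_natCast_atTop_atTop)
    have h2 := h1.mono_left Nat.hyperfilter_le_atTop
    refine h2.congr fun j => ?_
    rw [hh j]
  · intro k
    rw [hh k]
    have h2 : (0 : ℝ) ≤ (k : ℝ) := Nat.cast_nonneg k
    exact Real.log_le_log (by norm_num) (by linarith)
  · intro z
    have h1 : {k : ℕ | t k = z}.Finite := by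
      refine Set.Subsingleton.finite fun a ha b hb => ?_
      have h2 : t a = t b := ha.trans hb.symm
      rw [ht, ht] at h2
      have h3 : (a + 2 : ℕ) = b + 2 := Nat.cast_injective h2
      omega
    exact h1.compl_mem_hyperfilter

section new

variable {V N : Type} [Fintype V] [Fintype N]

private theorem DGC_seq (C : JCh V N) (hV : Fintype.card V = 1) :
    ∃ (p : PreF N ℕ) (y : ℕ → V → Qb) (x : ℕ → Qb), (∀ j, p.t j = ((j + 2 : ℕ) : Qb)) ∧
      (∀ j, y j = fun _ => p.t j) ∧ (∀ j, ev (C.M.f ()) (y j) (x j) = 0) ∧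
      DGC_S C (hyperfilter ℕ) p y x := by
  classical
  obtain ⟨v₀, hv₀⟩ := Fintype.card_eq_one_iff.1 hV
  have hU : Nonempty (Unique V) := ⟨⟨⟨v₀⟩, hv₀⟩⟩
  obtain ⟨hU⟩ := hU
  obtain ⟨t, ht⟩ : ∃ t : ℕ → Qb, ∀ j, t j = ((j + 2 : ℕ) : Qb) := ⟨_, fun _ => rfl⟩
  have ht0 : ∀ j, t j ≠ 0 := by
    intro j
    rw [ht j]
    exact Nat.cast_ne_zero.2 (by omega)
  have ht1 : ∀ j, t j ≠ 1 := by
    intro j
    rw [ht j]
    exact Nat.cast_ne_one.2 (by omega)
  have h4 : IsAlgClosed Qb := (algebraicClosure.isAlgClosure ℚ ℂ).isAlgClosed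
  have hroot : ∀ j, ∃ x : Qb, ev (C.M.f ()) (fun _ => t j) x = 0 := by
    intro j
    have hm := (C.M.monic ()).map
      (MvPolynomial.aeval (fun _ : V => t j) : MvPolynomial V Qb →ₐ[Qb] Qb).toRingHom
    have hd := (C.M.monic ()).natDegree_map
      (MvPolynomial.aeval (fun _ : V => t j) : MvPolynomial V Qb →ₐ[Qb] Qb).toRingHom
    have hpos := C.M.deg_pos ()
    obtain ⟨x, hx⟩ := IsAlgClosed.exists_root ((C.M.f ()).map
      (MvPolynomial.aeval (fun _ : V => t j) : MvPolynomial V Qb →ₐ[Qb] Qb).toRingHom) (by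
        rw [Polynomial.degree_eq_natDegree hm.ne_zero, hd]
        intro h0
        have h1 : (C.M.f ()).natDegree = 0 := by exact_mod_cast h0
        omega)
    refine ⟨x, ?_⟩
    rw [Polynomial.IsRoot.def, Polynomial.eval_map] at hx
    exact hx
  choose x hx using hroot
  have hP : ∀ j, ∃ P : N → LPt (t j), C.M.IsPt (fun _ => t j) (fun _ => x j) →
      ∀ ν, IsJ (C.co (fun _ => t j) (x j) ν) (P ν) := by
    intro j
    by_cases hp : C.M.IsPt (fun _ => t j) (fun _ => x j)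
    · have hco := (DGC_pt C hp).2.2
      have hS := (thm_S1 Qb (t j) (ht0 j) (ht1 j) two_ne_zero).2.2
      choose P c hc hP using fun ν => hS _ (hco ν).1 (hco ν).2
      exact ⟨P, fun _ ν => ⟨c ν, hc ν, hP ν⟩⟩
    · exact ⟨fun _ => 0, fun h => absurd h hp⟩
  choose P hP using hP
  obtain ⟨-, -, hNC⟩ := DGC_tend t ht
  have hi : AlgebraicIndependent Qb (fun _ : V => gm (hyperfilter ℕ) t) := by
    rw [algebraicIndependent_unique_type_iff]
    exact DGC_trans _ t hNC
  have hgen : ∀ F : MvPolynomial V Qb, F ≠ 0 → ∀ᶠ k in (hyperfilter ℕ : Filter ℕ),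
      MvPolynomial.aeval (fun _ : V => t k) F ≠ 0 := by
    intro F hF
    have h1 : MvPolynomial.aeval (fun _ : V => gm (hyperfilter ℕ) t) F ≠ 0 := by
      intro h0
      rw [algebraicIndependent_iff_injective_aeval] at hi
      exact hF (hi (by rw [h0, map_zero]))
    have h2 := DGC_aeval (hyperfilter ℕ) (fun k (_ : V) => t k) F
    rw [h2] at h1
    exact gm_ne _ (g := fun _ => 0) h1
  refine ⟨⟨t, ht0, ht1, P⟩, fun j _ => t j, x, ht, fun _ => rfl, hx, ?_, hgen⟩
  filter_upwards [hgen _ (C.M.D_ne ())] with k hk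
  have hp : C.M.IsPt (fun _ => t k) (fun _ => x k) := ⟨fun _ => hx k, fun _ => hk⟩
  exact ⟨hp, rfl, hP k hp⟩

private theorem DGC_mem {C : JCh V N} {Q : Type} {U : Ultrafilter Q} {p : PreF N Q}
    {y : Q → V → Qb} {x : Q → Qb} (h : DGC_S C U p y x) (hy : ∀ j, y j = fun _ => p.t j)
    (hx : ∀ j, ev (C.M.f ()) (y j) (x j) = 0) (ν : N) :
    gm U (fun k => lx (p.P k ν)) ∈ acl ({gm U p.t} : Set (LL U)) ∧
      gm U (fun k => ly (p.P k ν)) ∈ acl ({gm U p.t} : Set (LL U)) := by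
  obtain ⟨S, hS⟩ : ∃ S : Subfield (LL U), S = acl ({gm U p.t} : Set (LL U)) := ⟨_, rfl⟩
  have hc : ∀ c : Qb, algebraMap Qb (LL U) c ∈ S := fun c => by
    rw [hS]
    exact acl_Qb _ c
  have hc' : ∀ c : Qb, gm U (fun _ => c) ∈ S := hc
  have ht : gm U p.t ∈ S := by
    rw [hS]
    exact acl_mem rfl
  have hy' : ∀ i : V, gm U (fun k => y k i) ∈ S := by
    intro i
    have e : (fun k => y k i) = p.t := by
      funext k
      rw [hy k]
    rw [e]
    exact ht
  have hxS : gm U x ∈ S := by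
    have h1 := DGC_ev U y x (C.M.f ())
    have h2 : gm U (fun k => ev (C.M.f ()) (y k) (x k)) = gm U (fun _ => 0) := by
      refine congrArg (gm U) ?_
      funext k
      exact hx k
    have h3 := DGC_root S hc _ hy' (gm U x) _ (C.M.monic ()) (h1.trans h2)
    rw [hS] at h3 ⊢
    exact acl_closed h3
  have hX : ∀ a, gm U (fun k => C.co (y k) (x k) ν a) ∈ S := by
    intro a
    have h1 := DGC_ev U y x (C.Xp ν a)
    have h2 := DGC_mem_ev S hc _ hy' (gm U x) hxS (C.Xp ν a)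
    rw [h1] at h2
    exact h2
  have hla : gm U (fun k => DGC_la (p.t k) (C.co (y k) (x k) ν)) ∈ S := by
    have e : gm U (fun k => DGC_la (p.t k) (C.co (y k) (x k) ν)) =
        (gm U p.t * (gm U (fun k => C.co (y k) (x k) ν 3) - gm U (fun k => C.co (y k) (x k) ν 1)) -
          (gm U (fun k => C.co (y k) (x k) ν 3) - gm U (fun k => C.co (y k) (x k) ν 2))) /
          (gm U (fun _ => 2) * gm U p.t * (gm U (fun _ => 1) - gm U p.t)) := by
      unfold DGC_la
      rw [gm_div]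
      rfl
    rw [e]
    exact div_mem (sub_mem (mul_mem ht (sub_mem (hX 3) (hX 1))) (sub_mem (hX 3) (hX 2)))
      (mul_mem (mul_mem (hc' 2) ht) (sub_mem (hc' 1) ht))
  have hev : ∀ᶠ k in (U : Filter Q), lx (p.P k ν) = (C.co (y k) (x k) ν 1 -
      C.co (y k) (x k) ν 2) / (2 * (p.t k - 1) * DGC_la (p.t k) (C.co (y k) (x k) ν)) ∧
      ly (p.P k ν) = C.co (y k) (x k) ν 0 / (2 * DGC_la (p.t k) (C.co (y k) (x k) ν)) := by
    filter_upwards [h.pt] with k hk
    exact DGC_lx (p.t0 k) (p.t1 k) two_ne_zero (p.P k ν) _ (hk.2.2 ν)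
  rw [← hS]
  constructor
  · rw [(gm_eq_iff U).2 (hev.mono fun k hk => hk.1), gm_div]
    have e : gm U (fun k => 2 * (p.t k - 1) * DGC_la (p.t k) (C.co (y k) (x k) ν)) =
        gm U (fun _ => 2) * (gm U p.t - gm U (fun _ => 1)) *
          gm U (fun k => DGC_la (p.t k) (C.co (y k) (x k) ν)) := rfl
    rw [e]
    exact div_mem (sub_mem (hX 1) (hX 2)) (mul_mem (mul_mem (hc' 2) (sub_mem ht (hc' 1))) hla)
  · rw [(gm_eq_iff U).2 (hev.mono fun k hk => hk.2), gm_div]
    have e : gm U (fun k => 2 * DGC_la (p.t k) (C.co (y k) (x k) ν)) =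
        gm U (fun _ => 2) * gm U (fun k => DGC_la (p.t k) (C.co (y k) (x k) ν)) := rfl
    rw [e]
    exact div_mem (hX 0) (mul_mem (hc' 2) hla)

private theorem DGC_fH {Q : Type} {U : Ultrafilter Q} (s : BlkF N U)
    (h : ∀ ν, gm U (fun k => lx (s.P k ν)) ∈ acl ({gm U s.t} : Set (LL U)) ∧
      gm U (fun k => ly (s.P k ν)) ∈ acl ({gm U s.t} : Set (LL U)))
    (hH : s.Hor) (hNC : s.toPreF.NC U) : s.fH ⊤ = 1 := by
  classical
  obtain ⟨Y, hY⟩ : ∃ Y : Set (LL U), Y = s.ch ⊤ ∪ {s.tU} := ⟨_, rfl⟩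
  have h0 : s.fH ⊤ = trd (FLo U s.lam) Y := by
    rw [hY]
    rfl
  rw [h0]
  obtain ⟨F, hF⟩ : ∃ F : Subfield (LL U), F = Subfield.closure (FLo U s.lam ∪ {s.tU}) :=
    ⟨_, rfl⟩
  have htF : s.toPreF.tg U ∈ F := by
    rw [hF]
    exact Subfield.subset_closure (Or.inr rfl)
  have hFG0 : ∀ z ∈ Y, z ∈ Subfield.closure ((F : Set (LL U)) ∪ s.toPreF.co U Set.univ) := by
    rw [hY]
    rintro z (⟨m, -, hz⟩ | hz)
    · exact (thm_ACX N Q U s.toPreF F htF).1 Unit (fun _ => m) ⟨(), trivial, hz⟩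
    · have hz' : z = s.toPreF.tg U := hz
      rw [hz']
      exact Subfield.subset_closure (Or.inl htF)
  have hcofin : (s.toPreF.co U Set.univ).Finite := by
    have h1 : s.toPreF.co U Set.univ ⊆
        Set.range (fun ν => ((fun k => lx (s.P k ν) : Q → Qb) : LL U)) ∪
          Set.range (fun ν => ((fun k => ly (s.P k ν) : Q → Qb) : LL U)) := by
      rintro z ⟨ν, -, hz⟩
      rcases hz with hz | hz
      · exact Or.inl ⟨ν, hz.symm⟩
      · exact Or.inr ⟨ν, hz.symm⟩
    exact ((Set.finite_range _).union (Set.finite_range _)).subset h1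
  have hTfin : (s.toPreF.co U Set.univ ∪ {s.tU}).Finite := hcofin.union (Set.finite_singleton _)
  have hFG : FG (FLo U s.lam) Y := by
    refine ⟨hTfin.toFinset, fun z hz => ?_⟩
    rw [hTfin.coe_toFinset]
    have h1 : Subfield.closure ((F : Set (LL U)) ∪ s.toPreF.co U Set.univ) ≤
        Subfield.closure (FLo U s.lam ∪ (s.toPreF.co U Set.univ ∪ {s.tU})) := by
      rw [Subfield.closure_le]
      rintro w (hw | hw)
      · have h2 : F ≤ Subfield.closure (FLo U s.lam ∪ (s.toPreF.co U Set.univ ∪ {s.tU})) := by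
          rw [hF]
          refine Subfield.closure_mono ?_
          rintro v (hv | hv)
          · exact Or.inl hv
          · exact Or.inr (Or.inr hv)
        exact h2 hw
      · exact Subfield.subset_closure (Or.inr (Or.inl hw))
    exact h1 (hFG0 z hz)
  have hYa : ∀ z ∈ Y, z ∈ acl (FLo U s.lam ∪ {s.tU}) := by
    intro z hz
    have h1 : Subfield.closure ((F : Set (LL U)) ∪ s.toPreF.co U Set.univ) ≤
        acl (FLo U s.lam ∪ {s.tU}) := by
      rw [Subfield.closure_le]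
      rintro w (hw | hw)
      · have h2 : F ≤ acl (FLo U s.lam ∪ {s.tU}) := by
          rw [hF, Subfield.closure_le]
          intro v hv
          exact acl_mem hv
        exact h2 hw
      · have h3 : acl ({gm U s.t} : Set (LL U)) ≤ acl (FLo U s.lam ∪ {s.tU}) :=
          acl_mono Set.subset_union_right
        obtain ⟨ν, -, hw⟩ := hw
        rcases hw with hw | hw
        · rw [hw]
          exact h3 (h ν).1
        · rw [hw]
          exact h3 (h ν).2
    exact h1 (hFG0 z hz)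
  have htY : s.tU ∈ Y := by
    rw [hY]
    exact Or.inr rfl
  refine le_antisymm ?_ ?_
  · refine (trd_le_iff hFG _).2 ⟨{s.tU}, ?_, ?_, ?_⟩
    · rw [Finset.coe_singleton, Set.singleton_subset_iff]
      exact htY
    · rw [Finset.card_singleton]
    · intro z hz
      rw [Finset.coe_singleton]
      exact mem_acl.1 (hYa z hz)
  · have h1 := (thm_TCS thm_FLD N Q U s.toPreF hNC).2 s.lam s.one_le hH.1 hH.2.2
    have h2 : trd (FLo U s.lam) {s.toPreF.tg U} ≤ trd (FLo U s.lam) Y :=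
      trd_mono hFG (Set.singleton_subset_iff.2 htY)
    exact h1.trans_le h2

private theorem DGC_blk (C : JCh V N) (hV : Fintype.card V = 1) :
    ∃ (s : BlkF N (hyperfilter ℕ)) (y : ℕ → V → Qb) (x : ℕ → Qb),
      (∀ k, s.lam k = 1 + hQ (s.t k)) ∧ (∀ k, y k = fun _ => s.t k) ∧
      DGC_S C (hyperfilter ℕ) s.toPreF y x ∧ s.Hor ∧ s.fH ⊤ = 1 := by
  obtain ⟨p, y, x, ht, hy, hx, hS⟩ := DGC_seq C hV
  obtain ⟨htop, hlog, hNC⟩ := DGC_tend p.t ht
  obtain ⟨C₀, hC₀, hC⟩ := thm_CHE thm_HTF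
  have hmem := DGC_mem hS hy hx
  have hbig : ∀ ν, ∃ B : ℝ, ∀ᶠ k in (hyperfilter ℕ : Filter ℕ),
      hQ (lx (p.P k ν)) ≤ B * (1 + hQ (p.t k)) := by
    intro ν
    refine big_of_algebraic (hyperfilter ℕ) (thm_LIO thm_Hgt thm_HPI) (fun k => 1 + hQ (p.t k))
      (fun k => ?_) {gm (hyperfilter ℕ) p.t} ?_ (fun k => lx (p.P k ν)) (hmem ν).1
    · have := hQ_nonneg (p.t k)
      linarith
    · intro z hz
      have hz' : z = gm (hyperfilter ℕ) p.t := hz
      refine ⟨p.t, hz', 1, Eventually.of_forall fun k => ?_⟩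
      linarith
  choose B hB using hbig
  let s : BlkF N (hyperfilter ℕ) :=
    { toPreF := p
      lam := fun k => 1 + hQ (p.t k)
      one_le := fun k => by
        have := hQ_nonneg (p.t k)
        linarith
      upper := by
        refine ⟨2 * ∑ ν, |B ν| + C₀, ?_⟩
        filter_upwards [eventually_all.2 hB] with k hk ν
        have h1 := ((hC (p.t k) (p.t0 k) (p.t1 k)).2.2.2.2.2 (p.P k ν)).1
        have h2 := hk ν
        have h3 : |B ν| ≤ ∑ ν, |B ν| :=
          Finset.single_le_sum (fun a _ => abs_nonneg (B a)) (Finset.mem_univ ν)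
        have h4 := hQ_nonneg (p.t k)
        have h5 : B ν * (1 + hQ (p.t k)) ≤ (∑ ν, |B ν|) * (1 + hQ (p.t k)) :=
          mul_le_mul_of_nonneg_right ((le_abs_self _).trans h3) (by linarith)
        nlinarith }
  have hH : s.Hor := by
    refine ⟨?_, ⟨1, Eventually.of_forall fun k => ?_⟩, 1 / 3, by norm_num,
      Eventually.of_forall fun k => ?_⟩
    · exact tendsto_atTop_add_const_left _ 1 htop
    · show hQ (p.t k) ≤ 1 * (1 + hQ (p.t k))
      linarith
    · show 1 / 3 * (1 + hQ (p.t k)) ≤ hQ (p.t k)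
      have h1 := hlog k
      have h2 := Real.log_two_gt_d9
      linarith
  exact ⟨s, y, x, fun _ => rfl, hy, hS, hH, DGC_fH s hmem hH hNC⟩

end new

/-! ### heights -/

private theorem DGC_hJ (t : Qb) (h0 : t ≠ 0) (h1 : t ≠ 1) (P : LPt t) (B : ℝ) (hB : 0 ≤ B)
    (h : rp P 3 ≠ 0 → hQ (rp P 0 / rp P 3) ≤ B) : hJ P ≤ 3 * B + hQ t + Real.log 2 := by
  obtain ⟨X, hX⟩ : ∃ X : Fin 4 → Qb, X = rp P := ⟨_, rfl⟩
  have hJX : hJ P = hP X := by
    rw [hX]
    rfl
  have hOn : OnJ t X := by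
    rw [hX]
    exact onJ_rep P
  have hne : X ≠ 0 := by
    rw [hX]
    exact DGC_rp_ne h0 h1 two_ne_zero P
  rw [← hX] at h
  rw [hJX]
  have ht := hQ_nonneg t
  have hl2 : 0 ≤ Real.log 2 := Real.log_nonneg (by norm_num)
  have hc := hOn.c
  have hd := hOn.d
  by_cases hT : X 3 = 0
  · have hS : X 0 ≠ 0 := by
      intro hS
      apply hne
      rw [hS, hT] at hc hd
      have e1 : X 1 = 0 := by
        have : X 1 ^ 2 = 0 := by linear_combination hc
        exact pow_eq_zero_iff two_ne_zero |>.1 this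
      have e2 : X 2 = 0 := by
        have : X 2 ^ 2 = 0 := by linear_combination hd
        exact pow_eq_zero_iff two_ne_zero |>.1 this
      funext a
      fin_cases a
      · exact hS
      · exact e1
      · exact e2
      · exact hT
    have e : hP X = hP ![1, X 1 / X 0, X 2 / X 0, 0] := by
      refine Eq.trans ?_ (hP_smul ![1, X 1 / X 0, X 2 / X 0, 0] (X 0) hS)
      congr 1
      funext a
      fin_cases a
      · exact (mul_one _).symm
      · exact (mul_div_cancel₀ _ hS).symm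
      · exact (mul_div_cancel₀ _ hS).symm
      · exact hT.trans (mul_zero _).symm
    have h2 : 2 * hQ (X 1 / X 0) = 0 := by
      have h3 := hQ_pow (X 1 / X 0) 2
      have h4 : (X 1 / X 0) ^ 2 = -1 := by
        rw [hT] at hc
        rw [div_pow]
        field_simp
        linear_combination hc
      rw [h4, hQ_neg, hQ_one] at h3
      push_cast at h3
      exact h3.symm
    have h5 : 2 * hQ (X 2 / X 0) = hQ t := by
      have h3 := hQ_pow (X 2 / X 0) 2
      have h4 : (X 2 / X 0) ^ 2 = -t := by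
        rw [hT] at hd
        rw [div_pow]
        field_simp
        linear_combination hd
      rw [h4, hQ_neg] at h3
      push_cast at h3
      exact h3.symm
    have h6 := hP_le_sum ![1, X 1 / X 0, X 2 / X 0, 0]
    rw [e]
    rw [Fin.sum_univ_four] at h6
    have h7 : hQ (1 : Qb) = 0 := hQ_one
    have h8 : hQ (0 : Qb) = 0 := hQ_zero
    have h9 : hP ![1, X 1 / X 0, X 2 / X 0, 0] ≤
        hQ (1 : Qb) + hQ (X 1 / X 0) + hQ (X 2 / X 0) + hQ (0 : Qb) := h6
    linarith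
  · have h' := h hT
    have e : hP X = hP ![X 0 / X 3, X 1 / X 3, X 2 / X 3, 1] := by
      refine Eq.trans ?_ (hP_smul ![X 0 / X 3, X 1 / X 3, X 2 / X 3, 1] (X 3) hT)
      congr 1
      funext a
      fin_cases a
      · exact (mul_div_cancel₀ _ hT).symm
      · exact (mul_div_cancel₀ _ hT).symm
      · exact (mul_div_cancel₀ _ hT).symm
      · exact (mul_one _).symm
    have h2 : 2 * hQ (X 1 / X 3) ≤ 2 * hQ (X 0 / X 3) + Real.log 2 := by
      have h3 := hQ_pow (X 1 / X 3) 2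
      have h4 : (X 1 / X 3) ^ 2 = 1 + -((X 0 / X 3) ^ 2) := by
        rw [div_pow, div_pow]
        field_simp
        linear_combination hc
      rw [h4] at h3
      have h5 := hQ_add_le 1 (-((X 0 / X 3) ^ 2))
      rw [hQ_neg, hQ_pow, hQ_one] at h5
      push_cast at h3 h5
      linarith
    have h5 : 2 * hQ (X 2 / X 3) ≤ 2 * hQ (X 0 / X 3) + hQ t + Real.log 2 := by
      have h3 := hQ_pow (X 2 / X 3) 2
      have h4 : (X 2 / X 3) ^ 2 = 1 + -(t * (X 0 / X 3) ^ 2) := by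
        rw [div_pow, div_pow]
        field_simp
        linear_combination hd
      rw [h4] at h3
      have h5 := hQ_add_le 1 (-(t * (X 0 / X 3) ^ 2))
      have h6 := hQ_mul_le t ((X 0 / X 3) ^ 2)
      rw [hQ_neg, hQ_one] at h5
      rw [hQ_pow] at h6
      push_cast at h3 h6
      linarith
    have h6 := hP_le_sum ![X 0 / X 3, X 1 / X 3, X 2 / X 3, 1]
    rw [e]
    rw [Fin.sum_univ_four] at h6
    have h7 : hQ (1 : Qb) = 0 := hQ_one
    have h9 : hP ![X 0 / X 3, X 1 / X 3, X 2 / X 3, 1] ≤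
        hQ (X 0 / X 3) + hQ (X 1 / X 3) + hQ (X 2 / X 3) + hQ (1 : Qb) := h6
    linarith

private theorem DGC_hgt (n d : ℕ) {I : Type} [Fintype I] (l : I → ℕ) (hl : ∀ i, l i < d)
    (F : Fin (n + 1) × I → Qb) : ∃ B : ℝ, 0 ≤ B ∧ ∀ (t S T : Qb), T ≠ 0 →
      (fun e => ∑ i, F (e, i) * t ^ l i) ≠ 0 →
      ∑ e : Fin (n + 1), (∑ i, F (e, i) * t ^ l i) * (S ^ (e : ℕ) * T ^ (n - (e : ℕ))) = 0 →
      hQ (S / T) ≤ ((d - 1 : ℕ) : ℝ) * hQ t + B := by
  refine ⟨|Real.log (Nat.card I) + hP F + Real.log (n + 1)|, abs_nonneg _, ?_⟩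
  intro t S T hT hne h0
  have h1 := thm_LIO thm_Hgt thm_HPI n (fun e => ∑ i, F (e, i) * t ^ l i) (S / T) hne (by
    have h2 : (∑ e : Fin (n + 1), (∑ i, F (e, i) * t ^ l i) * (S / T) ^ (e : ℕ)) * T ^ n = 0 := by
      rw [← h0, Finset.sum_mul]
      refine Finset.sum_congr rfl fun e _ => ?_
      have h3 : (e : ℕ) + (n - e) = n := by
        have := e.2
        omega
      have h4 : T ^ n = T ^ (e : ℕ) * T ^ (n - (e : ℕ)) := by rw [← pow_add, h3]
      rw [h4, div_pow]
      field_simp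
    exact (mul_eq_zero.1 h2).resolve_right (pow_ne_zero _ hT))
  have h2 := HF_lin F (fun i => t ^ l i)
  have h3 : hP (fun i => t ^ l i) ≤ ((d - 1 : ℕ) : ℝ) * hQ t := by
    have h4 : ∀ i, l i < d - 1 + 1 := fun i => by
      have := hl i
      omega
    have h5 := cmp8b_comp (fun i => (⟨l i, h4 i⟩ : Fin (d - 1 + 1))) (cmp8b_pw (d - 1) t)
    exact le_trans h5 (cmp8b_pw_le (d - 1) t)
  have h6 := le_abs_self (Real.log (Nat.card I) + hP F + Real.log (n + 1))
  linarith

/-! ### the auxiliary sums -/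

section sums

variable {V : Type} [Fintype V]

private theorem DGC_map {R S : Type} [CommRing R] [CommRing S] (φ : R →+* S) (n : ℕ)
    (X : Finset ((V → ℕ) × ℕ)) (c : (V → Fin (n + 1)) × X → R) (y : V → R) (x : R)
    (A : V → Fin 4 → R) :
    φ (PhK n X c y x A) =
      PhK n X (fun p => φ (c p)) (fun i => φ (y i)) (φ x) (fun s i => φ (A s i)) := by
  simp only [PhK, map_sum, map_mul, map_prod, map_pow]

private theorem DGC_hom {R : Type} [CommRing R] (n : ℕ)
    (X : Finset ((V → ℕ) × ℕ)) (c : (V → Fin (n + 1)) × X → R) (y : V → R) (x : R)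
    (d : R) (B : V → Fin 4 → R) :
    PhK n X c y x (fun s i => d * B s i) = (∏ _s : V, d ^ n) * PhK n X c y x B := by
  classical
  simp only [PhK, Finset.mul_sum]
  refine Finset.sum_congr rfl fun p _ => ?_
  have h0 : ∏ s, ((d * B s 0) ^ (p.1 s : ℕ) * (d * B s 3) ^ (n - (p.1 s : ℕ))) =
      (∏ _s : V, d ^ n) * ∏ s, (B s 0 ^ (p.1 s : ℕ) * B s 3 ^ (n - (p.1 s : ℕ))) := by
    rw [← Finset.prod_mul_distrib]
    refine Finset.prod_congr rfl fun s _ => ?_
    have h : (p.1 s : ℕ) + (n - p.1 s) = n := by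
      have := (p.1 s).2
      omega
    rw [mul_pow, mul_pow]
    calc d ^ (p.1 s : ℕ) * B s 0 ^ (p.1 s : ℕ) *
          (d ^ (n - (p.1 s : ℕ)) * B s 3 ^ (n - (p.1 s : ℕ))) =
          d ^ ((p.1 s : ℕ) + (n - p.1 s)) * (B s 0 ^ (p.1 s : ℕ) * B s 3 ^ (n - (p.1 s : ℕ))) := by
          rw [pow_add]
          ring
      _ = _ := by rw [h]
  rw [h0]
  ring

open scoped Classical in
private theorem DGC_prod {R : Type} [CommRing R] (n : ℕ)
    (X : Finset ((V → ℕ) × ℕ)) (c : (V → Fin (n + 1)) × X → R) (y : V → R) (x : R)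
    (A : V → Fin 4 → R) : PhK n X c y x A =
      ∑ e : V → Fin (n + 1), ∑ q : X, c (e, q) * ((∏ i, y i ^ q.1.1 i) * x ^ q.1.2 *
        ∏ s, (A s 0 ^ (e s : ℕ) * A s 3 ^ (n - (e s : ℕ)))) := by
  rw [PhK, Fintype.sum_prod_type]

omit [Fintype V] in
private theorem DGC_sumV (hV : Unique V) {R : Type} [CommRing R] (n : ℕ)
    (inst : Fintype (V → Fin (n + 1))) (f : (V → Fin (n + 1)) → R) :
    (@Finset.sum _ _ _ (@Finset.univ _ inst) f) = ∑ e : Fin (n + 1), f (fun _ => e) := by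
  refine Fintype.sum_equiv (Equiv.funUnique V (Fin (n + 1))) _ _ fun e => ?_
  congr 1
  exact ((Equiv.funUnique V (Fin (n + 1))).left_inv e).symm

/-- the sum for one variable -/
private theorem DGC_one (hV : Unique V) {R : Type} [CommRing R] (n : ℕ)
    (X : Finset ((V → ℕ) × ℕ)) (hX : ∀ i ∈ X, i.2 = 0) (c : (V → Fin (n + 1)) × X → R)
    (t x : R) (A : Fin 4 → R) : PhK n X c (fun _ => t) x (fun _ => A) =
      ∑ e : Fin (n + 1), (∑ i : X, c (fun _ => e, i) * t ^ (i.1.1 default)) *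
        (A 0 ^ (e : ℕ) * A 3 ^ (n - (e : ℕ))) := by
  rw [DGC_prod, DGC_sumV hV]
  refine Finset.sum_congr rfl fun e _ => ?_
  rw [Finset.sum_mul]
  refine Finset.sum_congr rfl fun i _ => ?_
  have h1 : i.1.2 = 0 := hX i.1 i.2
  simp only [Fintype.prod_unique, h1, pow_zero, mul_one]
  rw [mul_assoc]

omit [Fintype V] in
/-- the monomials -/
private def DGC_emb (V : Type) [Nonempty V] : ℕ ↪ (V → ℕ) × ℕ :=
  ⟨fun l => (fun _ => l, 0), fun _ _ h => congrFun (congrArg Prod.fst h) (Classical.arbitrary V)⟩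

/-- the monomials `1, t, .., t ^ (d - 1)` -/
private def DGC_X (V : Type) [Nonempty V] (d : ℕ) : Finset ((V → ℕ) × ℕ) :=
  (Finset.range d).map (DGC_emb V)

end sums

/-- the coefficients are not all zero -/
private theorem DGC_nz {V : Type} [Fintype V] (hV : Unique V) {Q : Type} {U : Ultrafilter Q}
    {y : Q → V → Qb} {t : Q → Qb} (hy : ∀ k, y k = fun _ => t k)
    (hgen : ∀ F : MvPolynomial V Qb, F ≠ 0 → ∀ᶠ k in (U : Filter Q),
      MvPolynomial.aeval (y k) F ≠ 0) (n : ℕ) {I : Type} [Fintype I] (l : I → ℕ)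
    (hl : Function.Injective l) (F : Fin (n + 1) × I → Qb) (hF : F ≠ 0) :
    ∀ᶠ k in (U : Filter Q), (fun e => ∑ i, F (e, i) * t k ^ l i) ≠ 0 := by
  classical
  obtain ⟨⟨e₁, i₁⟩, hq⟩ := Function.ne_iff.1 hF
  obtain ⟨q, hq2⟩ : ∃ q : MvPolynomial V Qb, q = ∑ i : I, MvPolynomial.C (F (e₁, i)) *
    MvPolynomial.X default ^ l i := ⟨_, rfl⟩
  have h1 : q ≠ 0 := by
    intro h0
    have h2 : MvPolynomial.coeff (Finsupp.single default (l i₁)) q = F (e₁, i₁) := by
      rw [hq2, MvPolynomial.coeff_sum, Finset.sum_eq_single i₁]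
      · rw [MvPolynomial.coeff_C_mul, MvPolynomial.coeff_X_pow, if_pos rfl, mul_one]
      · intro i _ hi
        rw [MvPolynomial.coeff_C_mul, MvPolynomial.coeff_X_pow, if_neg, mul_zero]
        intro h3
        exact hi (hl (Finsupp.single_injective _ h3))
      · intro h3
        exact absurd (Finset.mem_univ _) h3
    rw [h0, MvPolynomial.coeff_zero] at h2
    exact hq h2.symm
  filter_upwards [hgen q h1] with k hk h0
  apply hk
  rw [hq2, hy k]
  simp only [map_sum, map_mul, map_pow, MvPolynomial.aeval_C, MvPolynomial.aeval_X]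
  exact congrFun h0 e₁

/-- if the monomials are dependent, the height of the points is small -/
private theorem DGC_fam {V N : Type} [Fintype V] [Fintype N] (hV : Unique V)
    (C : JCh V N) {G : (N → ℤ) → Fin 4 → MvPolynomial (Option V) Qb} (hG : DGC_G C G)
    {Q : Type} {U : Ultrafilter Q} {p : PreF N Q} {y : Q → V → Qb} {x : Q → Qb}
    (h : DGC_S C U p y x) (hy : ∀ k, y k = fun _ => p.t k) (m : N → ℤ) (d : ℕ)
    (X : Finset ((V → ℕ) × ℕ)) (hX0 : ∀ i ∈ X, i.2 = 0) (hXd : ∀ i ∈ X, i.1 default < d)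
    (hXi : ∀ i ∈ X, ∀ j ∈ X, i.1 default = j.1 default → i = j)
    (hn : ¬ C2.FamJ C (fun _ => m) X) : ∃ B : ℝ, ∀ᶠ k in (U : Filter Q),
      hJ (cb (p.P k) m) ≤ (3 * ((d - 1 : ℕ) : ℝ) + 1) * hQ (p.t k) + B := by
  unfold C2.FamJ at hn
  push Not at hn
  obtain ⟨K, _, _, y₀, x₀, hi, hp, P, hP, n, F, hF, h0⟩ := hn
  obtain ⟨Ψ, hΨ⟩ : ∃ Ψ : MvPolynomial (Option V) Qb, Ψ = PhK n X
    (fun q => MvPolynomial.C (F q)) (fun i => MvPolynomial.X (some i)) (MvPolynomial.X none)
    (fun _ => G m) := ⟨_, rfl⟩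
  have hev : ∀ (K' : Type) [Field K'] [Algebra Qb K'] (y' : V → K') (x' : K'),
      MvPolynomial.aeval (DGC_z y' x') Ψ = PhK n X (fun q => algebraMap Qb K' (F q)) y' x'
        (fun _ a => MvPolynomial.aeval (DGC_z y' x') (G m a)) := by
    intro K' _ _ y' x'
    have h1 := DGC_map (MvPolynomial.aeval (DGC_z y' x') :
      MvPolynomial (Option V) Qb →ₐ[Qb] K').toRingHom n X (fun q => MvPolynomial.C (F q))
      (fun i => MvPolynomial.X (some i)) (MvPolynomial.X none) (fun _ => G m)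
    have e1 : (MvPolynomial.aeval (DGC_z y' x') :
        MvPolynomial (Option V) Qb →ₐ[Qb] K').toRingHom (MvPolynomial.X none) = x' :=
      MvPolynomial.aeval_X _ _
    have e2 : (fun i => (MvPolynomial.aeval (DGC_z y' x') :
        MvPolynomial (Option V) Qb →ₐ[Qb] K').toRingHom (MvPolynomial.X (some i))) = y' := by
      funext i
      exact MvPolynomial.aeval_X _ _
    have e3 : (fun q => (MvPolynomial.aeval (DGC_z y' x') :
        MvPolynomial (Option V) Qb →ₐ[Qb] K').toRingHom (MvPolynomial.C (F q))) =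
        fun q => algebraMap Qb K' (F q) := by
      funext q
      exact MvPolynomial.aeval_C _ _
    rw [e1, e2, e3] at h1
    rw [hΨ]
    exact h1
  have hg0 : MvPolynomial.aeval (DGC_z y₀ x₀) Ψ = 0 := by
    obtain ⟨c, hc⟩ := hG.rep K y₀ x₀ hp P hP m
    rw [hev K y₀ x₀]
    have e : (fun (_ : V) a => MvPolynomial.aeval (DGC_z y₀ x₀) (G m a)) =
        fun _ a => c * rp (cb P m) a := by
      funext _ a
      exact hc a
    rw [e, DGC_hom n X _ y₀ x₀ c (fun _ => rp (cb P m))]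
    have h1 : PhK n X (fun q => algebraMap Qb K (F q)) y₀ x₀ (fun _ => rp (cb P m)) = 0 := h0
    rw [h1, mul_zero]
  have hall := DGC_all' Ψ K y₀ x₀ hi hp hg0 Qb
  -- the relation at the points of the sequence
  have hrel : ∀ᶠ k in (U : Filter Q), ∑ e : Fin (n + 1),
      (∑ i : X, F (fun _ => e, i) * p.t k ^ (i.1.1 default)) *
        (rp (cb (p.P k) m) 0 ^ (e : ℕ) * rp (cb (p.P k) m) 3 ^ (n - (e : ℕ))) = 0 := by
    filter_upwards [h.pt, DGC_sq hG h m] with k hk hk2
    obtain ⟨c, hc, hcm⟩ := hk2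
    have h1 := hall (y k) (x k) hk.1
    rw [hev Qb (y k) (x k)] at h1
    have e : (fun (_ : V) a => MvPolynomial.aeval (DGC_z (y k) (x k)) (G m a)) =
        fun _ a => c * rp (cb (p.P k) m) a := by
      funext _ a
      exact hcm a
    rw [e, DGC_hom n X _ (y k) (x k) c (fun _ => rp (cb (p.P k) m))] at h1
    have h2 := (mul_eq_zero.1 h1).resolve_left
      (Finset.prod_ne_zero_iff.2 fun _ _ => pow_ne_zero _ hc)
    rw [hy k, DGC_one hV n X hX0] at h2
    exact h2
  have hl : Function.Injective (fun i : X => i.1.1 default) := fun i j hij =>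
    Subtype.ext (hXi i.1 i.2 j.1 j.2 hij)
  have hF' : (fun q : Fin (n + 1) × X => F (fun _ => q.1, q.2)) ≠ 0 := by
    intro h1
    apply hF
    funext q
    have h2 := congrFun h1 (q.1 default, q.2)
    have h3 : (fun _ : V => q.1 default) = q.1 := by
      funext v
      rw [hV.uniq v]
    have h4 : F (fun _ => q.1 default, q.2) = 0 := h2
    rw [h3] at h4
    exact h4
  have hnz := DGC_nz hV hy h.gen n (fun i : X => i.1.1 default) hl _ hF'
  obtain ⟨B, hB, hgt⟩ := DGC_hgt n d (fun i : X => i.1.1 default) (fun i => hXd i.1 i.2)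
    (fun q : Fin (n + 1) × X => F (fun _ => q.1, q.2))
  refine ⟨3 * B + Real.log 2, ?_⟩
  filter_upwards [hrel, hnz] with k k1 k2
  have h3 := hQ_nonneg (p.t k)
  have h4 : (0 : ℝ) ≤ ((d - 1 : ℕ) : ℝ) := Nat.cast_nonneg _
  have h5 := DGC_hJ (p.t k) (p.t0 k) (p.t1 k) (cb (p.P k) m)
    (((d - 1 : ℕ) : ℝ) * hQ (p.t k) + B) (by positivity)
    (fun hT => hgt (p.t k) _ _ hT k2 k1)
  linarith

/-- DGC -/
theorem DGC_of (hQG : QG.St_QG) : St_DGC := by
  classical
  intro V N _ _ C hV Q U p y x hGS hind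
  obtain ⟨s, y', x', hlam, hy', hS', hH, hfH⟩ := DGC_blk C hV
  have hS : DGC_S C U p y x := ⟨hGS.pt, hGS.gen⟩
  obtain ⟨v₀, hv₀⟩ := Fintype.card_eq_one_iff.1 hV
  obtain ⟨hU⟩ : Nonempty (Unique V) := ⟨⟨⟨v₀⟩, hv₀⟩⟩
  -- a generic point
  have hpt : C.M.IsPt (fun i => gm U (fun k => y k i)) (fun _ => gm U x) := by
    refine ⟨fun _ => ?_, fun _ => ?_⟩
    · have h1 := DGC_ev U y x (C.M.f ())
      refine h1.trans ?_
      refine (gm_eq_iff U (g := fun _ => 0)).2 ?_
      filter_upwards [hGS.pt] with k hk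
      exact hk.1.eq ()
    · have h1 := DGC_aeval U y (C.M.D ())
      rw [h1]
      intro h0
      have h2 := (gm_eq_iff U (g := fun _ => 0)).1 h0
      obtain ⟨k, k1, k2⟩ := (hGS.pt.and h2).exists
      exact k1.1.ne () k2
  obtain ⟨G, hG⟩ := DGC_exG C (LL U) _ _ hpt
  have hInd : s.Ind := fun m hm => DGC_ind hG hS hS' m (hind m hm)
  obtain ⟨c, hc, hq⟩ := (hQG thm_HTF N ℕ (hyperfilter ℕ) s hH hInd hfH).2
  obtain ⟨C₁, hC₁, hHT⟩ := thm_HTF
  refine ⟨c / 3, (C₁ + 2) / 3, by positivity, fun m => ?_⟩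
  obtain ⟨M, hM⟩ : ∃ M : ℝ, M = ∑ ν, (m ν : ℝ) ^ 2 := ⟨_, rfl⟩
  rw [← hM]
  by_cases hA : (c * M - (C₁ + 2)) / 3 ≤ 0
  · refine ⟨∅, ?_, ?_⟩
    · rw [Finset.card_empty, Nat.cast_zero]
      linarith
    · intro K _ _ y₁ x₁ _ _ P _ n F hF
      exact absurd (funext fun q => absurd q.2.2 (Finset.notMem_empty _)) hF
  · push Not at hA
    obtain ⟨d, hd⟩ : ∃ d : ℕ, d = ⌈(c * M - (C₁ + 2)) / 3⌉₊ := ⟨_, rfl⟩
    have hd1 : (c * M - (C₁ + 2)) / 3 ≤ d := by
      rw [hd]
      exact Nat.le_ceil _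
    have hd2 : (d : ℝ) < (c * M - (C₁ + 2)) / 3 + 1 := by
      rw [hd]
      exact Nat.ceil_lt_add_one hA.le
    have hd3 : 1 ≤ d := by
      rw [hd]
      exact Nat.one_le_iff_ne_zero.2 (Nat.ceil_pos.2 hA).ne'
    have : Nonempty V := ⟨v₀⟩
    refine ⟨DGC_X V d, ?_, ?_⟩
    · rw [DGC_X, Finset.card_map, Finset.card_range]
      linarith
    · by_contra hn
      have hmem : ∀ i ∈ DGC_X V d, ∃ l < d, i = (fun _ => l, 0) := by
        intro i hi
        rw [DGC_X, Finset.mem_map] at hi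
        obtain ⟨l, hl, rfl⟩ := hi
        exact ⟨l, Finset.mem_range.1 hl, rfl⟩
      obtain ⟨B, hB⟩ := DGC_fam hU C hG hS' hy' m d (DGC_X V d)
        (fun i hi => by
          obtain ⟨l, -, rfl⟩ := hmem i hi
          rfl)
        (fun i hi => by
          obtain ⟨l, hl, rfl⟩ := hmem i hi
          exact hl)
        (fun i hi j hj hij => by
          obtain ⟨l, -, rfl⟩ := hmem i hi
          obtain ⟨l', -, rfl⟩ := hmem j hj
          have h1 : l = l' := hij
          rw [h1]) hn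
      have h1 : Tendsto s.lam (hyperfilter ℕ : Filter ℕ) atTop := hH.1
      obtain ⟨k, ⟨k1, k2⟩, k3⟩ := ((hB.and (hq m)).and (h1.eventually_gt_atTop |B|)).exists
      have h2 := (hHT (s.t k) (s.t0 k) (s.t1 k)).1 (cb (s.P k) m)
      have h3 := (abs_le.1 h2).1
      rw [← hM] at k2
      have h4 : ((d - 1 : ℕ) : ℝ) = (d : ℝ) - 1 := by
        push_cast [hd3]
        ring
      rw [h4] at k1
      have h5 := hQ_nonneg (s.t k)
      have h6 := hlam k
      have h7 : (0 : ℝ) ≤ (d : ℝ) - 1 := by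
        have : (1 : ℝ) ≤ d := by exact_mod_cast hd3
        linarith
      have h8 : hQ (s.t k) = s.lam k - 1 := by rw [h6]; ring
      rw [h8] at k1 h3
      have h9 := le_abs_self B
      have h10 : c * M * s.lam k ≤ (3 * ((d : ℝ) - 1) + 1) * s.lam k + B + C₁ * s.lam k := by
        nlinarith
      have h11 : c * M > 3 * ((d : ℝ) - 1) + (C₁ + 2) := by linarith
      have h12 : 0 < s.lam k := by linarith [abs_nonneg B]
      nlinarith

end EQ

end Pool.Agent.ZR
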