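import Pool.Agent.ZR.EQ.St
import Pool.Agent.ZPE.II.LgU

/-!
# ZR, block EQ, module END: `MinII` for `f = 1` from the modules (helper62)
-/

set_option autoImplicit false

open scoped BigOperators
open Filter Topology MeasureTheory

namespace Pool.Agent.ZR

open Pool.Agent.ZPT Pool.Agent.ZPE

namespace EQ

/-- the compact part of the chart -/
theorem END_cpt {V N : Type} [Fintype V] [Fintype N] (C : JCh V N) (M : ℝ)
    (hM : 0 < M) : IsCompact {q : (V → ℂ) × ℂ | q ∈ C2.VC C ∧ (∀ i, ‖q.1 i‖ ≤ M) ∧ ‖q.2‖ ≤ M ∧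
      1 ≤ M * ‖(MvPolynomial.aeval q.1 (C.M.D ()) : ℂ)‖} := by
  have hset : {q : (V → ℂ) × ℂ | q ∈ C2.VC C ∧ (∀ i, ‖q.1 i‖ ≤ M) ∧ ‖q.2‖ ≤ M ∧
      1 ≤ M * ‖(MvPolynomial.aeval q.1 (C.M.D ()) : ℂ)‖} =
      {q : (V → ℂ) × ℂ | (∀ i, ‖q.1 i‖ ≤ M) ∧ ‖q.2‖ ≤ M ∧
        ev (C.M.f ()) q.1 q.2 = 0 ∧ 1 ≤ M * ‖(MvPolynomial.aeval q.1 (C.M.D ()) : ℂ)‖} := by
    ext q
    constructor
    · rintro ⟨h1, h2, h3, h4⟩
      exact ⟨h2, h3, h1.eq (), h4⟩
    · rintro ⟨h2, h3, h1, h4⟩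
      refine ⟨⟨?_, ?_⟩, h2, h3, h4⟩
      · rintro ⟨⟩
        exact h1
      · rintro ⟨⟩ h5
        rw [h5, norm_zero, mul_zero] at h4
        linarith
  rw [hset]
  have hcl : IsClosed {q : (V → ℂ) × ℂ | (∀ i, ‖q.1 i‖ ≤ M) ∧ ‖q.2‖ ≤ M ∧
        ev (C.M.f ()) q.1 q.2 = 0 ∧
        1 ≤ M * ‖(MvPolynomial.aeval q.1 (C.M.D ()) : ℂ)‖} := by
    simp only [Set.ofPred_and]
    refine IsClosed.inter ?_ (IsClosed.inter ?_ (IsClosed.inter ?_ ?_))
    · rw [Set.ofPred_forall]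
      exact isClosed_iInter fun i => isClosed_le (by fun_prop) continuous_const
    · exact isClosed_le (by fun_prop) continuous_const
    · exact isClosed_eq (II.continuous_ev _) continuous_const
    · refine isClosed_le continuous_const ?_
      exact continuous_const.mul ((II.continuous_aeval_C _).comp continuous_fst).norm
  refine (isCompact_closedBall (0 : (V → ℂ) × ℂ) M).of_isClosed_subset hcl ?_
  intro p hp
  rw [mem_closedBall_zero_iff, Prod.norm_def]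
  refine max_le ?_ hp.2.1
  rw [pi_norm_le_iff_of_nonneg hM.le]
  exact hp.1

/-- the embeddings of a number field are finite in number -/
theorem END_fin (κ K : IntermediateField ℚ ℂ) (hK : FiniteDimensional ℚ K) {V : Type}
    (y : V → Qb) (x : Qb) (Δ : Set ((V → ℂ) × (Unit → ℂ))) :
    (II.EmbIn κ K y (fun _ : Unit => x) Δ).Finite := by
  have : NumberField K := ⟨⟩
  exact Set.toFinite _

theorem END_mono (κ K : IntermediateField ℚ ℂ) (hK : FiniteDimensional ℚ K) {V : Type}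
    [Fintype V] (y : V → Qb) (x : Qb) {Δ Δ' : Set ((V → ℂ) × ℂ)} (h : Δ ⊆ Δ') :
    C2.prp κ K y x Δ ≤ C2.prp κ K y x Δ' := by
  unfold C2.prp
  apply div_le_div_of_nonneg_right _ (Nat.cast_nonneg _)
  have h1 : II.EmbIn κ K y (fun _ : Unit => x) {q | (q.1, q.2 ()) ∈ Δ} ⊆
      II.EmbIn κ K y (fun _ : Unit => x) {q | (q.1, q.2 ()) ∈ Δ'} := by
    rintro σ ⟨h1, y', x', h2, h3, h4⟩
    exact ⟨h1, y', x', h2, h3, h h4⟩
  exact_mod_cast Set.ncard_le_ncard h1 (END_fin κ K hK y x _)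

theorem END_union (κ K : IntermediateField ℚ ℂ) (hK : FiniteDimensional ℚ K) {V : Type}
    [Fintype V] (y : V → Qb) (x : Qb) (Δ Δ' : Set ((V → ℂ) × ℂ)) :
    C2.prp κ K y x (Δ ∪ Δ') ≤ C2.prp κ K y x Δ + C2.prp κ K y x Δ' := by
  unfold C2.prp
  rw [← add_div]
  apply div_le_div_of_nonneg_right _ (Nat.cast_nonneg _)
  have h1 : II.EmbIn κ K y (fun _ : Unit => x) {q | (q.1, q.2 ()) ∈ Δ ∪ Δ'} ⊆
      II.EmbIn κ K y (fun _ : Unit => x) {q | (q.1, q.2 ()) ∈ Δ} ∪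
      II.EmbIn κ K y (fun _ : Unit => x) {q | (q.1, q.2 ()) ∈ Δ'} := by
    rintro σ ⟨h1, y', x', h2, h3, h4⟩
    rcases h4 with h4 | h4
    · exact Or.inl ⟨h1, y', x', h2, h3, h4⟩
    · exact Or.inr ⟨h1, y', x', h2, h3, h4⟩
  have h2 := Set.ncard_le_ncard h1 ((END_fin κ K hK y x _).union (END_fin κ K hK y x _))
  exact_mod_cast h2.trans (Set.ncard_union_le _ _)

theorem END_empty (κ K : IntermediateField ℚ ℂ) {V : Type} [Fintype V] (y : V → Qb)
    (x : Qb) : C2.prp κ K y x ∅ = 0 := by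
  unfold C2.prp
  have h1 : II.EmbIn κ K y (fun _ : Unit => x)
      {q | (q.1, q.2 ()) ∈ (∅ : Set ((V → ℂ) × ℂ))} = ∅ := by
    rw [Set.eq_empty_iff_forall_notMem]
    rintro σ ⟨h1, y', x', h2, h3, h4⟩
    exact h4
  rw [h1, Set.ncard_empty, Nat.cast_zero, zero_div]

/-- number fields generated by the points over `κ` -/
theorem END_KK {V : Type} [Fintype V] {Q : Type} (κ : IntermediateField ℚ ℂ)
    (hκ : FiniteDimensional ℚ κ) (y : Q → V → Qb) (x : Q → Qb) :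
    ∃ KK : Q → IntermediateField ℚ ℂ, C2.GoodK κ y x KK := by
  have hint : ∀ a : Qb, IsIntegral ℚ (a : ℂ) := fun a => a.2
  refine ⟨fun k => κ ⊔ IntermediateField.adjoin ℚ
    (Set.range fun o : Option V => ((o.elim (x k) (y k) : Qb) : ℂ)), fun k => ?_⟩
  have h1 : FiniteDimensional ℚ (IntermediateField.adjoin ℚ
    (Set.range fun o : Option V => ((o.elim (x k) (y k) : Qb) : ℂ))) := by
    apply IntermediateField.finiteDimensional_adjoin
    rintro _ ⟨o, rfl⟩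
    exact hint _
  refine ⟨?_, le_sup_left, fun i => ?_, ?_⟩
  · exact IntermediateField.finiteDimensional_sup _ _
  · exact (le_sup_right : _ ≤ κ ⊔ _) (IntermediateField.subset_adjoin ℚ _ ⟨some i, rfl⟩)
  · exact (le_sup_right : _ ≤ κ ⊔ _) (IntermediateField.subset_adjoin ℚ _ ⟨none, rfl⟩)

/-- the coefficients in a number field which contains `I` -/
theorem END_kap (h : C2.St_KAP) {V N : Type} [Fintype V] [Fintype N] (C : JCh V N) :
    ∃ κ : IntermediateField ℚ ℂ, FiniteDimensional ℚ κ ∧ C2.CoIn C κ ∧ Complex.I ∈ κ := by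
  obtain ⟨κ, hκ, hC1, hC2⟩ := h V N C
  have hI : IsIntegral ℚ Complex.I := Complex.isIntegral_rat_I
  have h1 : FiniteDimensional ℚ (IntermediateField.adjoin ℚ ({Complex.I} : Set ℂ)) :=
    IntermediateField.adjoin.finiteDimensional hI
  refine ⟨κ ⊔ IntermediateField.adjoin ℚ ({Complex.I} : Set ℂ),
    IntermediateField.finiteDimensional_sup _ _, ⟨?_, fun ν a n d => ?_⟩, ?_⟩
  · have hsub : {c : Qb | (c : ℂ) ∈ κ} ⊆ {c : Qb | (c : ℂ) ∈
        κ ⊔ IntermediateField.adjoin ℚ ({Complex.I} : Set ℂ)} := fun c hc =>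
      (le_sup_left : κ ≤ κ ⊔ _) hc
    exact ⟨fun d => hsub (hC1.1 d), fun n d => hsub (hC1.2.1 n d),
      fun n d => hsub (hC1.2.2.1 n d),
      fun ν hν n d => ⟨hsub (hC1.2.2.2 ν hν n d).1, hsub (hC1.2.2.2 ν hν n d).2⟩⟩
  · exact (le_sup_left : κ ≤ κ ⊔ _) (hC2 ν a n d)
  · exact (le_sup_right : _ ≤ κ ⊔ _) (IntermediateField.subset_adjoin ℚ _ rfl)

/-- If every disc has mass zero, so has a compact part of the curve. -/
theorem END_small {ex : (t : ℂ) → ℂ →+ LPt t} (hex : ExP ex) {V N : Type} [Fintype V] [Fintype N]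
    (C : JCh V N) (hc1 : Fintype.card V = 1) (hLC1 : St_LC1) (κ : IntermediateField ℚ ℂ)
    {Q : Type} (U : Ultrafilter Q) (y : Q → V → Qb) (x : Q → Qb)
    (KK : Q → IntermediateField ℚ ℂ) (hKK : C2.GoodK κ y x KK)
    (h : ∀ L : Loc1 ex C, ∀ ε : ℝ, 0 < ε → ∀ᶠ k in (U : Filter Q),
      C2.prp κ (KK k) (y k) (x k) (L.lift (Metric.closedBall L.c (L.r / 2))) ≤ ε)
    (S : Set ((V → ℂ) × ℂ)) (hS : IsCompact S) (hSV : S ⊆ C2.VC C) :
    ∀ ε : ℝ, 0 < ε → ∀ᶠ k in (U : Filter Q), C2.prp κ (KK k) (y k) (x k) S ≤ ε := by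
  have hloc : ∀ q ∈ S, ∃ T ∈ 𝓝[S] q, ∀ ε : ℝ, 0 < ε → ∀ᶠ k in (U : Filter Q),
      C2.prp κ (KK k) (y k) (x k) T ≤ ε := by
    intro q hq
    obtain ⟨L, hLc, hLx, hLu⟩ := hLC1 ex hex V N C hc1 q (hSV hq)
    have hr : 0 < L.r := L.per.pos
    have hsub : Subsingleton V := Fintype.card_le_one_iff_subsingleton.1 hc1.le
    refine ⟨S ∩ Metric.ball q (L.r / 2), ?_, fun ε hε => ?_⟩
    · exact Filter.inter_mem self_mem_nhdsWithin
        (mem_nhdsWithin_of_mem_nhds (Metric.ball_mem_nhds q (by linarith)))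
    · filter_upwards [h L ε hε] with k hk
      refine (END_mono κ (KK k) (hKK k).1 (y k) (x k) ?_).trans hk
      rintro p ⟨hp1, hp2⟩
      rw [Metric.mem_ball, Prod.dist_eq, max_lt_iff, dist_eq_norm, dist_eq_norm] at hp2
      have h1 : ‖p.1 C.i₀ - L.c‖ < L.r / 2 := by
        rw [← hLc C.i₀]
        exact (norm_le_pi_norm (p.1 - q.1) C.i₀).trans_lt hp2.1
      have h2 := hLu p (hSV hp1) (by linarith) (by linarith [hp2.2])
      refine ⟨p.1 C.i₀, ?_, ?_⟩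
      · rw [Metric.mem_closedBall, dist_eq_norm]
        exact h1.le
      · refine Prod.ext ?_ h2
        funext i
        exact congrArg p.1 (Subsingleton.elim _ _)
  refine hS.induction_on (p := fun T => ∀ ε : ℝ, 0 < ε → ∀ᶠ k in (U : Filter Q),
    C2.prp κ (KK k) (y k) (x k) T ≤ ε) ?_ ?_ ?_ hloc
  · intro ε hε
    refine Filter.Eventually.of_forall fun k => ?_
    rw [END_empty]
    exact hε.le
  · intro T T' hTT h ε hε
    filter_upwards [h ε hε] with k hk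
    exact (END_mono κ (KK k) (hKK k).1 (y k) (x k) hTT).trans hk
  · intro T T' hT hT' ε hε
    filter_upwards [hT (ε / 2) (by linarith), hT' (ε / 2) (by linarith)] with k hk hk'
    refine (END_union κ (KK k) (hKK k).1 (y k) (x k) T T').trans ?_
    linarith

/-- Some disc has positive mass. -/
theorem END_big {ex : (t : ℂ) → ℂ →+ LPt t} (hex : ExP ex) {V N : Type} [Fintype V] [Fintype N]
    (C : JCh V N) (hc1 : Fintype.card V = 1) (hLC1 : St_LC1) (hKM : C2.St_KM)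
    (κ : IntermediateField ℚ ℂ) (hκ : FiniteDimensional ℚ κ) (hCo : C2.CoIn C κ)
    {Q : Type} (U : Ultrafilter Q) (p : PreF N Q) (y : Q → V → Qb) (x : Q → Qb)
    (hG : C2.GSeq C U p y x) (KK : Q → IntermediateField ℚ ℂ) (hKK : C2.GoodK κ y x KK) :
    ∃ (L : Loc1 ex C) (δ₀ : ℝ), 0 < δ₀ ∧ ∀ᶠ k in (U : Filter Q),
      δ₀ ≤ C2.prp κ (KK k) (y k) (x k) (L.lift (Metric.closedBall L.c (L.r / 2))) := by
  by_contra hno
  have h : ∀ L : Loc1 ex C, ∀ ε : ℝ, 0 < ε → ∀ᶠ k in (U : Filter Q),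
      C2.prp κ (KK k) (y k) (x k) (L.lift (Metric.closedBall L.c (L.r / 2))) ≤ ε := by
    intro L ε hε
    by_contra h1
    rw [← Ultrafilter.eventually_not] at h1
    refine hno ⟨L, ε, hε, ?_⟩
    filter_upwards [h1] with k hk
    exact (not_le.1 hk).le
  have hn : 0 < (Module.finrank ℚ κ : ℝ) := by exact_mod_cast Module.finrank_pos
  obtain ⟨M, hM, hKM'⟩ := hKM V N C κ hκ hCo Q U p y x hG (1 / (2 * Module.finrank ℚ κ))
    (by positivity)
  obtain ⟨k, hk1, hk2⟩ := ((hKM' KK hKK).and (END_small hex C hc1 hLC1 κ U y x KK hKK h _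
    (END_cpt C M hM) (fun q hq => hq.1) (1 / (4 * Module.finrank ℚ κ)) (by positivity))).exists
  have h10 := hk1.trans hk2
  have h11 : 1 / (Module.finrank ℚ κ : ℝ) - 1 / (2 * Module.finrank ℚ κ) -
      1 / (4 * Module.finrank ℚ κ) = 1 / (4 * Module.finrank ℚ κ) := by
    field_simp
    norm_num
  have h12 : 0 < 1 / (4 * (Module.finrank ℚ κ : ℝ)) := by positivity
  linarith

/-- [END] -/
theorem END_of (hEX : St_EX) : St_END := by
  intro hCHT hKAP hHTS hKM hLC1 hRAT hISO hNRZ N _ Q U s hB hI W hW hf hf1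
  obtain ⟨V, hV, C, y, x, hc, hG⟩ := hCHT N Q U s hB
  obtain ⟨ex, hex⟩ := hEX
  obtain ⟨κ, hκ, hCo, hIκ⟩ := END_kap hKAP C
  obtain ⟨H, hH0, hH⟩ := hHTS N Q U s hB
  obtain ⟨KK, hKK⟩ := END_KK κ hκ y x
  have hc1 : Fintype.card V = 1 := by rw [hc, hf1]
  have hHB : ∀ w ∈ W, HB U s.toPreF w H := fun w hw Λ m hm => hH w (hW w hw) Λ m hm
  obtain ⟨L, δ₀, hδ₀, hbig⟩ := END_big hex C hc1 hLC1 hKM κ hκ hCo U s.toPreF y x hG KK hKK
  have hr : 0 < L.r := L.per.pos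
  have hsub : Metric.closedBall L.c (3 * L.r / 4) ⊆ L.dsk :=
    Metric.closedBall_subset_ball (by linarith)
  have hsub' : Metric.ball L.c (3 * L.r / 4) ⊆ L.dsk :=
    Metric.ball_subset_ball (by linarith)
  have hlift : L.lift (Metric.closedBall L.c (L.r / 2)) ⊆
      L.lift (Metric.closedBall L.c (3 * L.r / 4)) := by
    rintro q ⟨t, ht, hq⟩
    exact ⟨t, Metric.closedBall_subset_closedBall (by linarith) ht, hq⟩
  have hmass : ∀ᶠ k in (U : Filter Q), δ₀ ≤ C2.prp κ (KK k) (y k) (x k)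
      (L.lift (Metric.closedBall L.c (3 * L.r / 4))) := by
    filter_upwards [hbig] with k hk
    exact hk.trans (END_mono κ (KK k) (hKK k).1 (y k) (x k) hlift)
  have hW2 : Module.finrank ℝ W = 2 := by rw [hf, hf1]
  obtain ⟨w, hwW, hw0, hth⟩ := hISO ex V N C L W hW2 L.c (3 * L.r / 4) (by linarith) hsub
    (fun w hw w' hw' t₁ ht₁ => hRAT ex hex V N C hc1 κ hκ hCo hIκ Q U s.toPreF y x hG KK hKK L
      L.c (3 * L.r / 4) δ₀ (by linarith) hδ₀ hsub hmass w w' H hH0 (hHB w hw) (hHB w' hw') t₁ ht₁)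
  have hz := hNRZ ex hex V N C hc1 κ hκ hCo hIκ Q U s.toPreF y x hG KK hKK hI w H hw0 hH0
    (hHB w hwW) (L.res L.c (3 * L.r / 4) (by linarith) hsub') hth L.c (L.r / 2) (5 * L.r / 8)
    (by linarith) (by linarith) (Metric.closedBall_subset_ball (by
      show 5 * L.r / 8 < 3 * L.r / 4
      linarith)) (δ₀ / 2) (by linarith)
  obtain ⟨k, hk1, hk2⟩ := (hbig.and hz).exists
  have hk3 : C2.prp κ (KK k) (y k) (x k) (L.lift (Metric.closedBall L.c (L.r / 2))) ≤ δ₀ / 2 :=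
    hk2
  linarith

end EQ

end Pool.Agent.ZR
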