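import Pool.Agent.ZR.EQ.St

/-!
# ZR, block EQ, ETA1: the Betti form is real linear and continuous (helper29)
-/

set_option autoImplicit false

open scoped BigOperators ComplexConjugate
open Filter Topology

namespace Pool.Agent.ZR

open Pool.Agent.ZPT Pool.Agent.ZPE

namespace EQ

private theorem ETA1_im (a b : ℂ) : (b * conj a).im = -(a * conj b).im := by
  simp only [Complex.mul_im, Complex.conj_re, Complex.conj_im]
  ring

private theorem ETA1_be1 {N : Type} [Fintype N] (a b : ℂ) (w : N → ℝ) (z : N → ℂ) :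
    be1 a b (∑ ν, (w ν : ℂ) * z ν) = ∑ ν, w ν * be1 a b (z ν) := by
  unfold be1
  rw [Finset.sum_mul, Complex.im_sum, Finset.sum_div]
  refine Finset.sum_congr rfl fun ν _ => ?_
  rw [mul_assoc, Complex.im_ofReal_mul, mul_div_assoc]

private theorem ETA1_be2 {N : Type} [Fintype N] (a b : ℂ) (w : N → ℝ) (z : N → ℂ) :
    be2 a b (∑ ν, (w ν : ℂ) * z ν) = ∑ ν, w ν * be2 a b (z ν) := by
  unfold be2
  rw [Finset.sum_mul, Complex.im_sum, Finset.sum_div]
  refine Finset.sum_congr rfl fun ν _ => ?_
  rw [mul_assoc, Complex.im_ofReal_mul, mul_div_assoc]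

theorem ETA1_of : St_ETA1 := by
  intro ex V N _ _ C L
  have hop : IsOpen L.dsk := Metric.isOpen_ball
  refine ⟨fun t ht => ?_, fun w => ?_⟩
  · have hz : ∀ ν, DifferentiableAt ℂ (L.z ν) t := fun ν => (L.z_an ν t ht).differentiableAt
    obtain ⟨g, hg⟩ : ∃ g : N → ℂ, ∀ ν, g ν = deriv (L.z ν) t -
        be1 (L.w₁ t) (L.w₂ t) (L.z ν t) * deriv L.w₁ t -
        be2 (L.w₁ t) (L.w₂ t) (L.z ν t) * deriv L.w₂ t := ⟨_, fun _ => rfl⟩
    refine ⟨{ toFun := fun w => ∑ ν, (w ν : ℂ) * g ν, map_add' := ?_, map_smul' := ?_ },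
      fun w => ?_⟩
    · intro w w'
      rw [← Finset.sum_add_distrib]
      refine Finset.sum_congr rfl fun ν _ => ?_
      rw [Pi.add_apply]
      push_cast
      ring
    · intro c w
      rw [RingHom.id_apply, Finset.smul_sum]
      refine Finset.sum_congr rfl fun ν _ => ?_
      rw [Pi.smul_apply, smul_eq_mul, Complex.real_smul]
      push_cast
      ring
    · change ∑ ν, (w ν : ℂ) * g ν = L.th1 w t
      have hd : deriv (L.zw w) t = ∑ ν, (w ν : ℂ) * deriv (L.z ν) t := by
        have e1 : L.zw w = fun t => ∑ ν, (w ν : ℂ) * L.z ν t := rfl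
        rw [e1, deriv_fun_sum fun ν _ => (hz ν).const_mul _]
        exact Finset.sum_congr rfl fun ν _ => deriv_const_mul _ (hz ν)
      have e2 : L.zw w t = ∑ ν, (w ν : ℂ) * L.z ν t := rfl
      unfold Loc1.th1
      rw [hd, e2, ETA1_be1, ETA1_be2]
      push_cast
      rw [Finset.sum_mul, Finset.sum_mul, ← Finset.sum_sub_distrib, ← Finset.sum_sub_distrib]
      refine Finset.sum_congr rfl fun ν _ => ?_
      rw [hg]
      ring
  · have hzw : AnalyticOnNhd ℂ (L.zw w) L.dsk := by
      intro t ht
      have e1 : L.zw w = fun t => ∑ ν, (w ν : ℂ) * L.z ν t := rfl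
      rw [e1]
      exact Finset.analyticAt_fun_sum _ fun ν _ => analyticAt_const.mul (L.z_an ν t ht)
    have c0 : ContinuousOn (L.zw w) L.dsk := hzw.continuousOn
    have c1 : ContinuousOn (deriv (L.zw w)) L.dsk := hzw.deriv.continuousOn
    have a1 : ContinuousOn L.w₁ L.dsk := L.per.a₁.continuousOn
    have a2 : ContinuousOn L.w₂ L.dsk := L.per.a₂.continuousOn
    have d1 : ContinuousOn (deriv L.w₁) L.dsk := L.per.a₁.deriv.continuousOn
    have d2 : ContinuousOn (deriv L.w₂) L.dsk := L.per.a₂.deriv.continuousOn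
    have b1 : ContinuousOn (fun t => be1 (L.w₁ t) (L.w₂ t) (L.zw w t)) L.dsk := by
      unfold be1
      refine ContinuousOn.div ?_ ?_ fun t ht => L.per.im t ht
      · exact Complex.continuous_im.comp_continuousOn
          (c0.mul (Complex.continuous_conj.comp_continuousOn a2))
      · exact Complex.continuous_im.comp_continuousOn
          (a1.mul (Complex.continuous_conj.comp_continuousOn a2))
    have b2 : ContinuousOn (fun t => be2 (L.w₁ t) (L.w₂ t) (L.zw w t)) L.dsk := by
      unfold be2
      refine ContinuousOn.div ?_ ?_ fun t ht => ?_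
      · exact Complex.continuous_im.comp_continuousOn
          (c0.mul (Complex.continuous_conj.comp_continuousOn a1))
      · exact Complex.continuous_im.comp_continuousOn
          (a2.mul (Complex.continuous_conj.comp_continuousOn a1))
      · rw [ETA1_im]
        exact neg_ne_zero.2 (L.per.im t ht)
    exact (c1.sub ((Complex.continuous_ofReal.comp_continuousOn b1).mul d1)).sub
      ((Complex.continuous_ofReal.comp_continuousOn b2).mul d2)

end EQ

end Pool.Agent.ZR
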