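import Pool.Agent.ZR.EQ.St
import Mathlib.Analysis.SpecialFunctions.Integrability.LogMeromorphic
import Mathlib.MeasureTheory.Integral.CircleAverage

/-!
# ZR, block EQ, module FIB: many points in a fibre of `G₀ / G₃` (helper81)
-/

set_option autoImplicit false

open scoped BigOperators ComplexConjugate
open Filter Topology MeasureTheory

namespace Pool.Agent.ZR

open Pool.Agent.ZPT Pool.Agent.ZPE

namespace EQ

/-- two functions with vanishing Wronskian are proportional -/
private theorem FIB_prop {f g : ℂ → ℂ} {c : ℂ} {R : ℝ} (hR : 0 < R)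
    (hf : AnalyticOnNhd ℂ f (Metric.closedBall c R))
    (hg : AnalyticOnNhd ℂ g (Metric.closedBall c R))
    (hW : ∀ t ∈ Metric.closedBall c R, deriv f t * g t - f t * deriv g t = 0) (hc : g c ≠ 0) :
    ∀ t ∈ Metric.closedBall c R, f t = f c / g c * g t := by
  have hcm : c ∈ Metric.closedBall c R := Metric.mem_closedBall_self hR.le
  have h1 : ∀ᶠ t in 𝓝 c, g t ≠ 0 ∧ t ∈ Metric.closedBall c R :=
    ((hg c hcm).continuousAt.eventually_ne hc).and (Metric.closedBall_mem_nhds c hR)
  obtain ⟨ε, hε, hb⟩ := Metric.eventually_nhds_iff_ball.1 h1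
  have hd : ∀ t ∈ Metric.ball c ε, HasDerivAt (fun t => f t / g t)
      ((deriv f t * g t - f t * deriv g t) / g t ^ 2) t := by
    intro t ht
    obtain ⟨h2, h3⟩ := hb t ht
    exact (hf t h3).differentiableAt.hasDerivAt.div (hg t h3).differentiableAt.hasDerivAt h2
  have hconst : ∀ t ∈ Metric.ball c ε, f t / g t = f c / g c := by
    intro t ht
    refine Metric.isOpen_ball.is_const_of_deriv_eq_zero (f := fun t => f t / g t)
      (convex_ball c ε).isPreconnected
      (fun x hx => (hd x hx).differentiableAt.differentiableWithinAt) ?_ ht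
      (Metric.mem_ball_self hε)
    intro x hx
    rw [(hd x hx).deriv, hW x (hb x hx).2, zero_div]
    rfl
  have h2 : f =ᶠ[𝓝 c] fun t => f c / g c * g t := by
    filter_upwards [Metric.ball_mem_nhds c hε] with t ht
    rw [← hconst t ht, div_mul_cancel₀ _ (hb t ht).1]
  exact hf.eqOn_of_preconnected_of_eventuallyEq (fun t ht => analyticAt_const.mul (hg t ht))
    (convex_closedBall c R).isPreconnected hcm h2

/-- the bad values -/
private theorem FIB_bad (hB : St_BADC) {G₀ G₃ : ℂ → ℂ} {c : ℂ} {R : ℝ} (hR : 0 < R)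
    (h0 : AnalyticOnNhd ℂ G₀ (Metric.closedBall c R))
    (h3 : AnalyticOnNhd ℂ G₃ (Metric.closedBall c R))
    (hne : ∀ t ∈ Metric.closedBall c R, G₀ t ≠ 0 ∨ G₃ t ≠ 0) :
    {ζ : ℂ | ∃ t ∈ Metric.closedBall c R, G₀ t = ζ * G₃ t ∧
      deriv G₀ t = ζ * deriv G₃ t}.Finite := by
  by_cases hW : ∃ t ∈ Metric.closedBall c R, deriv G₀ t * G₃ t - G₀ t * deriv G₃ t ≠ 0
  · exact hB G₀ G₃ c R hR h0 h3 hne hW
  · push Not at hW
    have hcm : c ∈ Metric.closedBall c R := Metric.mem_closedBall_self hR.le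
    have hg3 : ∀ (ζ t : ℂ), t ∈ Metric.closedBall c R → G₀ t = ζ * G₃ t → G₃ t ≠ 0 := by
      intro ζ t ht he h
      rcases hne t ht with h1 | h1
      · rw [he, h, mul_zero] at h1
        exact h1 rfl
      · exact h1 h
    by_cases hc : G₃ c = 0
    · have hc0 : G₀ c ≠ 0 := (hne c hcm).resolve_right (fun h => h hc)
      have h4 := FIB_prop hR h3 h0 (fun t ht => by linear_combination -hW t ht) hc0
      refine Set.Finite.subset Set.finite_empty ?_
      rintro ζ ⟨t, ht, he, -⟩
      have h5 := h4 t ht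
      rw [hc, zero_div, zero_mul] at h5
      exact hg3 ζ t ht he h5
    · have h4 := FIB_prop hR h0 h3 hW hc
      refine Set.Finite.subset (Set.finite_singleton (G₀ c / G₃ c)) ?_
      rintro ζ ⟨t, ht, he, -⟩
      have h5 := h4 t ht
      rw [he] at h5
      exact mul_right_cancel₀ (hg3 ζ t ht he) h5

/-- the average of the logarithm of a function with simple zeros -/
private theorem FIB_avg {g : ℂ → ℂ} {c : ℂ} {r R a : ℝ} (hr : 0 < r) (hrR : r < R)
    (hg : AnalyticOnNhd ℂ g (Metric.closedBall c R))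
    (hz : ∀ t ∈ Metric.closedBall c R, g t = 0 → deriv g t ≠ 0)
    (ha : ∀ t ∈ Metric.sphere c r, g t ≠ 0 → Real.log ‖g t‖ ≤ a) :
    Real.circleAverage (fun t => Real.log ‖g t‖) c r ≤ a := by
  have habs : |r| = r := abs_of_pos hr
  have hsub : Metric.sphere c r ⊆ Metric.closedBall c R :=
    Metric.sphere_subset_closedBall.trans (Metric.closedBall_subset_closedBall hrR.le)
  have hcod : (fun t => Real.log ‖g t‖) =ᶠ[codiscreteWithin (Metric.sphere c |r|)]
      fun t => min (Real.log ‖g t‖) a := by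
    rw [habs]
    have h1 : {t | g t ≠ 0} ∩ Metric.sphere c r ∈ codiscreteWithin (Metric.sphere c r) := by
      refine Filter.inter_mem ?_ (Filter.self_mem_codiscreteWithin _)
      rw [mem_codiscreteWithin_iff_forall_mem_nhdsNE]
      intro x hx
      have h2 : ∀ᶠ t in 𝓝[≠] x, g t ≠ 0 := by
        by_cases h3 : g x = 0
        · exact (hg x (hsub hx)).differentiableAt.hasDerivAt.eventually_ne (hz x (hsub hx) h3)
        · exact nhdsWithin_le_nhds ((hg x (hsub hx)).continuousAt.eventually_ne h3)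
      filter_upwards [h2] with t ht
      exact Or.inl ht
    filter_upwards [h1] with t ht
    rw [min_eq_left (ha t ht.2 ht.1)]
  have hint : CircleIntegrable (fun t => Real.log ‖g t‖) c r := by
    refine MeromorphicOn.circleIntegrable_log_norm ?_
    rw [habs]
    exact fun t ht => (hg t (hsub ht)).meromorphicAt
  rw [Real.circleAverage_congr_codiscreteWithin hcod hr.ne']
  refine Real.circleAverage_mono_on_of_le_circle (hint.congr_codiscreteWithin hcod) ?_
  exact fun t _ => min_le_right _ _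

theorem FIB_of (hJ : St_JEN) (hC : St_CAR) (hB : St_BADC) : St_FIB := by
  intro J _ t₁ r R A E ℓ G₀ G₃ hℓ hrR h0 h3 hne hA hE B hBc
  have hR : ∀ j, 0 < R j := fun j => (hrR j).1.trans (hrR j).2.1
  obtain ⟨ζ, hζ1, hζB, hζ⟩ := hC J t₁ R G₀ G₃ hR h0 h3 hne
    (B ∪ ⋃ j, {ζ : ℂ | ∃ t ∈ Metric.closedBall (t₁ j) (R j), G₀ j t = ζ * G₃ j t ∧
      deriv (G₀ j) t = ζ * deriv (G₃ j) t})
    (hBc.union (Set.countable_iUnion fun j => (FIB_bad hB (hR j) (h0 j) (h3 j) (hne j)).countable))
  have hg : ∀ j, AnalyticOnNhd ℂ (fun t => G₀ j t - ζ * G₃ j t)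
      (Metric.closedBall (t₁ j) (R j)) := fun j t ht =>
    (h0 j t ht).sub (analyticAt_const.mul (h3 j t ht))
  have hz : ∀ j, ∀ t ∈ Metric.closedBall (t₁ j) (R j), G₀ j t - ζ * G₃ j t = 0 →
      deriv (fun t => G₀ j t - ζ * G₃ j t) t ≠ 0 := by
    intro j t ht h1 h2
    have h4 : deriv (fun t => G₀ j t - ζ * G₃ j t) t = deriv (G₀ j) t - ζ * deriv (G₃ j) t :=
      ((h0 j t ht).differentiableAt.hasDerivAt.sub
        ((h3 j t ht).differentiableAt.hasDerivAt.const_mul ζ)).deriv
    rw [h4] at h2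
    exact hζB (Or.inr (Set.mem_iUnion.2 ⟨j, t, ht, sub_eq_zero.1 h1, sub_eq_zero.1 h2⟩))
  choose Z hZ hZc using fun j => hJ (fun t => G₀ j t - ζ * G₃ j t) (t₁ j) (r j) (R j)
    (hrR j).1 (hrR j).2.1 (hg j) (hz j)
  refine ⟨ζ, Z, fun h => hζB (Or.inl h), ?_, ?_⟩
  · intro j t ht
    obtain ⟨h1, h2⟩ := hZ j t ht
    have h4 : G₀ j t = ζ * G₃ j t := sub_eq_zero.1 h2
    refine ⟨h1, ?_, h4⟩
    intro h5
    rcases hne j t h1 with h6 | h6
    · rw [h4, h5, mul_zero] at h6
      exact h6 rfl
    · exact h6 h5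
  · have hEj : ∀ j, E j ≤
        Real.circleAverage (fun t => Real.log (max ‖G₀ j t‖ ‖G₃ j t‖)) (t₁ j) (R j) := by
      intro j
      have habs : |R j| = R j := abs_of_pos (hR j)
      have h1 := Real.circleAverage_mono (c := t₁ j) (R := R j) (f₁ := fun _ => E j)
        (f₂ := fun t => Real.log (max ‖G₀ j t‖ ‖G₃ j t‖)) (circleIntegrable_const _ _ _) (by
          refine ContinuousOn.circleIntegrable (hR j).le ?_
          have hs : Metric.sphere (t₁ j) (R j) ⊆ Metric.closedBall (t₁ j) (R j) :=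
            Metric.sphere_subset_closedBall
          refine ContinuousOn.log (((h0 j).continuousOn.mono hs).norm.sup
            ((h3 j).continuousOn.mono hs).norm) ?_
          intro t ht
          rcases hne j t (hs ht) with h | h
          · exact (lt_max_of_lt_left (norm_pos_iff.2 h)).ne'
          · exact (lt_max_of_lt_right (norm_pos_iff.2 h)).ne')
        (by
          rw [habs]
          exact hE j)
      rwa [Real.circleAverage_const] at h1
    have hAj : ∀ j, Real.circleAverage (fun t => Real.log ‖G₀ j t - ζ * G₃ j t‖) (t₁ j) (r j) ≤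
        A j + Real.log 2 := by
      intro j
      refine FIB_avg (hrR j).1 (hrR j).2.1 (hg j) (hz j) ?_
      intro t ht hgt
      have h1 : ‖G₀ j t - ζ * G₃ j t‖ ≤ max ‖G₀ j t‖ ‖G₃ j t‖ * 2 := by
        refine (norm_sub_le _ _).trans ?_
        rw [norm_mul, hζ1, one_mul, mul_two]
        exact add_le_add (le_max_left _ _) (le_max_right _ _)
      have h2 : 0 < ‖G₀ j t - ζ * G₃ j t‖ := norm_pos_iff.2 hgt
      have h4 : 0 < max ‖G₀ j t‖ ‖G₃ j t‖ := by
        by_contra h
        have : max ‖G₀ j t‖ ‖G₃ j t‖ * 2 ≤ 0 := by linarith [not_lt.1 h]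
        linarith
      have h5 := Real.log_le_log h2 h1
      rw [Real.log_mul h4.ne' two_ne_zero] at h5
      linarith [hA j t ht]
    have h1 : ∑ j, E j ≤ ∑ j, ((A j + Real.log 2) + ((Z j).card : ℝ) * ℓ) := by
      refine (Finset.sum_le_sum fun j _ => hEj j).trans (hζ.trans (Finset.sum_le_sum fun j _ => ?_))
      have h2 := hZc j
      rw [(hrR j).2.2] at h2
      linarith [hAj j]
    rw [Finset.sum_add_distrib, ← Finset.sum_mul] at h1
    have h2 : ∑ j, (E j - A j - Real.log 2) = ∑ j, E j - ∑ j, (A j + Real.log 2) := by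
      rw [← Finset.sum_sub_distrib]
      refine Finset.sum_congr rfl fun j _ => by ring
    rw [h2]
    linarith

end EQ

end Pool.Agent.ZR
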