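import Pool.Agent.ZR.EQ.St
import Pool.Agent.ZR.S.All

/-!
# ZR, block EQ, GQF: the growth form is `a |z|² + Re (b z²)` with `a > 0` (helper98)
-/

set_option autoImplicit false

open scoped BigOperators ComplexConjugate
open Filter Topology MeasureTheory

namespace Pool.Agent.ZR

open Pool.Agent.ZPT Pool.Agent.ZPE

namespace EQ

/-- continuous functions with the parallelogram law on the complex plane -/
private theorem GQF_form (q : ℂ → ℝ) (hpar : ZPE.Par q) (hcont : Continuous q) (z : ℂ) :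
    q z = (q 1 + q Complex.I) / 2 * ‖z‖ ^ 2 +
      ((((q 1 - q Complex.I) / 2 : ℝ) - ((q (1 + Complex.I) - q 1 - q Complex.I) / 2 : ℝ) *
        Complex.I) * z ^ 2).re := by
  let b : ℂ →+ ℂ →+ ℝ := hpar.bilH
  have hbapp : ∀ z w, b z w = (q (z + w) - q z - q w) / 2 := fun z w =>
    hpar.bilH_apply z w
  have hbc : ∀ z, Continuous (b z) := by
    intro z
    have h1 : (fun w => b z w) = fun w => (q (z + w) - q z - q w) / 2 :=
      funext fun w => hbapp z w
    show Continuous fun w => b z w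
    rw [h1]
    fun_prop
  have hcomm : ∀ z w, b z w = b w z := fun z w => hpar.bilH_comm z w
  have hself : ∀ z, b z z = q z := fun z => hpar.bilH_self z
  have hz : z = z.re • (1 : ℂ) + z.im • Complex.I := by
    apply Complex.ext <;> simp
  have hlin : ∀ w : ℂ, b w z = z.re * b w 1 + z.im * b w Complex.I := by
    intro w
    have h1 : b w z = b w (z.re • (1 : ℂ) + z.im • Complex.I) := congrArg (b w) hz
    rw [h1, map_add, map_real_smul (b w) (hbc w), map_real_smul (b w) (hbc w), smul_eq_mul,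
      smul_eq_mul]
  have h2 : q z = z.re * (z.re * q 1 + z.im * b 1 Complex.I) +
      z.im * (z.re * b 1 Complex.I + z.im * q Complex.I) := by
    rw [← hself z, hlin z, hcomm z 1, hcomm z Complex.I, hlin 1, hlin Complex.I, hself, hself,
      hcomm Complex.I 1]
  have h3 : b 1 Complex.I = (q (1 + Complex.I) - q 1 - q Complex.I) / 2 := hbapp 1 Complex.I
  have h4 : ‖z‖ ^ 2 = z.re ^ 2 + z.im ^ 2 := by
    rw [← Complex.normSq_eq_norm_sq, Complex.normSq_apply]
    ring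
  have h5 : z ^ 2 = ((z.re ^ 2 - z.im ^ 2 : ℝ) : ℂ) + ((2 * z.re * z.im : ℝ) : ℂ) * Complex.I := by
    apply Complex.ext
    · simp [pow_two]
    · simp [pow_two]
      ring
  rw [h2, h3, h4, h5]
  simp only [Complex.mul_re, Complex.sub_re, Complex.sub_im, Complex.add_re, Complex.add_im,
    Complex.mul_im, Complex.ofReal_re, Complex.ofReal_im, Complex.I_re, Complex.I_im]
  ring

/-- an entire function which is small against a harmonic form is zero -/
private theorem GQF_zero (T : ℂ → Fin 4 → ℂ) (b : ℂ) (C : ℝ)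
    (hC : ∀ z : ℂ, Real.log ‖T z‖ ≤ (b * z ^ 2).re + C)
    (hdiff : Differentiable ℂ fun z => T z 0) (hne : ∀ z, T z ≠ 0) (hT0 : T 0 0 = 0) (z : ℂ) :
    T z 0 = 0 := by
  have hpos : ∀ z, 0 < ‖T z‖ := fun z => norm_pos_iff.2 (hne z)
  have hbd : ∀ z, ‖T z 0 * Complex.exp (-(b * z ^ 2))‖ ≤ Real.exp C := by
    intro z
    have h1 := hC z
    rw [norm_mul, Complex.norm_exp, Complex.neg_re]
    have h2 : ‖T z 0‖ ≤ ‖T z‖ := norm_le_pi_norm (T z) 0
    refine (mul_le_mul_of_nonneg_right h2 (Real.exp_pos _).le).trans ?_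
    rw [← Real.exp_log (hpos z), ← Real.exp_add]
    apply Real.exp_le_exp.2
    linarith
  have hd2 : Differentiable ℂ fun z => T z 0 * Complex.exp (-(b * z ^ 2)) := by
    refine hdiff.mul ?_
    fun_prop
  obtain ⟨a, ha⟩ := hd2.exists_const_forall_eq_of_bounded
    (isBounded_iff_forall_norm_le.2 ⟨_, by rintro _ ⟨z, rfl⟩; exact hbd z⟩)
  have ha0 : a = 0 := by rw [← ha 0, hT0, zero_mul]
  have h1 := ha z
  rw [ha0] at h1
  exact (mul_eq_zero.1 h1).resolve_right (Complex.exp_ne_zero _)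

/-- the coordinate `0` of the theta vector vanishes at the origin, and not identically -/
private theorem GQF_th (hTH : ThP) (t : ℂ) : Th 0 t 0 = 0 ∧ ¬ ∀ z, Th z t 0 = 0 := by
  obtain ⟨D, s₀, hs₀, hloc⟩ := hTH.loc ‖t‖
  constructor
  · have h1 := hloc 0 t (by rw [norm_zero]; exact hs₀.le) le_rfl
    rw [norm_zero, zero_pow (by norm_num), mul_zero] at h1
    have h2 := norm_le_zero_iff.1 h1
    have h3 := sub_eq_zero.1 h2
    show Th 0 t 0 = 0
    rw [h3]
    simp [X0]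
  · intro hz0
    let ε : ℝ := min s₀ (1 / (|D| + 1))
    have hD1 : 0 < |D| + 1 := by positivity
    have hε : 0 < ε := lt_min hs₀ (by positivity)
    have hε1 : ε ≤ 1 / (|D| + 1) := min_le_right _ _
    have hε2 : ε ≤ 1 := hε1.trans (by rw [div_le_one hD1]; linarith [abs_nonneg D])
    have hn : ‖(ε : ℂ)‖ = ε := by rw [Complex.norm_real, Real.norm_of_nonneg hε.le]
    have h1 := hloc (ε : ℂ) t (by rw [hn]; exact min_le_left _ _) le_rfl
    have h2 : ‖(Th (ε : ℂ) t - X0 (ε : ℂ) t) 0‖ ≤ ‖Th (ε : ℂ) t - X0 (ε : ℂ) t‖ :=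
      norm_le_pi_norm _ 0
    have hz1 : Th (ε : ℂ) t 0 = 0 := hz0 ε
    have h3 : (Th (ε : ℂ) t - X0 (ε : ℂ) t) 0 = -(ε : ℂ) := by
      rw [Pi.sub_apply, hz1]
      simp [X0]
    rw [h3, norm_neg, hn] at h2
    rw [hn] at h1
    have h4 : ε ≤ D * ε ^ 3 := h2.trans h1
    have h5 : D * ε ^ 3 ≤ |D| * ε * ε := by
      have h6 : D * ε ^ 3 ≤ |D| * ε ^ 3 :=
        mul_le_mul_of_nonneg_right (le_abs_self D) (by positivity)
      have h7 : |D| * ε ^ 3 = |D| * ε * ε * ε := by ring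
      have h8 : |D| * ε * ε * ε ≤ |D| * ε * ε * 1 :=
        mul_le_mul_of_nonneg_left hε2 (by positivity)
      linarith
    have h6 : |D| * ε < 1 := by
      have h7 : (|D| + 1) * ε ≤ 1 := by
        rw [mul_comm]
        rwa [le_div_iff₀ hD1] at hε1
      linarith
    have h7 : |D| * ε * ε < 1 * ε := mul_lt_mul_of_pos_right h6 hε
    linarith

theorem GQF_of (hTH : ThP) (hGRQ : St_GRQ) : St_GQF := by
  obtain ⟨ex, hex⟩ := thm_EX
  obtain ⟨g1, g2, g3⟩ := hGRQ
  have hz : ∀ z : ℂ, ContinuousOn (fun t => gq t z) {t | t ≠ 0 ∧ t ≠ 1} := by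
    intro z
    have h2 : ContinuousOn (fun t : ℂ => ((t, z) : ℂ × ℂ)) {t | t ≠ 0 ∧ t ≠ 1} := by fun_prop
    have hm : Set.MapsTo (fun t : ℂ => ((t, z) : ℂ × ℂ)) {t | t ≠ 0 ∧ t ≠ 1}
        {p | p.1 ≠ 0 ∧ p.1 ≠ 1} := fun t ht => ⟨ht.1, ht.2⟩
    have h3 : ContinuousOn ((fun p : ℂ × ℂ => gq p.1 p.2) ∘ fun t : ℂ => ((t, z) : ℂ × ℂ))
        {t | t ≠ 0 ∧ t ≠ 1} := ContinuousOn.comp g2 h2 hm
    exact h3
  have hcont : ∀ t : ℂ, t ≠ 0 → t ≠ 1 → Continuous (gq t) := by
    intro t ht0 ht1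
    have h2 : Continuous (fun z : ℂ => ((t, z) : ℂ × ℂ)) := by fun_prop
    have h3 : Continuous ((fun p : ℂ × ℂ => gq p.1 p.2) ∘ fun z : ℂ => ((t, z) : ℂ × ℂ)) :=
      g2.comp_continuous h2 fun z => ⟨ht0, ht1⟩
    exact h3
  have hform : ∀ t : ℂ, t ≠ 0 → t ≠ 1 → ∀ z : ℂ, gq t z = aq t * ‖z‖ ^ 2 +
      ((((gq t 1 - gq t Complex.I) / 2 : ℝ) -
        ((gq t (1 + Complex.I) - gq t 1 - gq t Complex.I) / 2 : ℝ) * Complex.I) * z ^ 2).re :=
    fun t ht0 ht1 z => GQF_form (gq t) (g1 t ht0 ht1) (hcont t ht0 ht1) z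
  refine ⟨fun t => (((gq t 1 - gq t Complex.I) / 2 : ℝ) : ℂ) -
    (((gq t (1 + Complex.I) - gq t 1 - gq t Complex.I) / 2 : ℝ) : ℂ) * Complex.I,
    ?_, ?_, ?_, hform⟩
  · unfold aq
    exact ((hz 1).add (hz Complex.I)).div_const 2
  · refine ContinuousOn.sub ?_ (ContinuousOn.mul ?_ continuousOn_const)
    · exact Complex.continuous_ofReal.comp_continuousOn (((hz 1).sub (hz Complex.I)).div_const 2)
    · exact Complex.continuous_ofReal.comp_continuousOn
        ((((hz (1 + Complex.I)).sub (hz 1)).sub (hz Complex.I)).div_const 2)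
  · intro t ht0 ht1
    by_contra hneg
    rw [not_lt] at hneg
    obtain ⟨C, hC0, hC'⟩ := g3 {t} isCompact_singleton
      (by simpa using ht0.symm) (by simpa using ht1.symm)
    obtain ⟨h00, hnot⟩ := GQF_th hTH t
    refine hnot (GQF_zero (fun z => Th z t) ((((gq t 1 - gq t Complex.I) / 2 : ℝ) : ℂ) -
      (((gq t (1 + Complex.I) - gq t 1 - gq t Complex.I) / 2 : ℝ) : ℂ) * Complex.I) C
      ?_ ?_ (fun z => hex.ne t z ht0 ht1) h00)
    · intro z
      have h1 := (abs_le.1 (hC' t (Set.mem_singleton t) z)).2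
      have h2 := hform t ht0 ht1 z
      have h3 : aq t * ‖z‖ ^ 2 ≤ 0 := mul_nonpos_of_nonpos_of_nonneg hneg (by positivity)
      linarith
    · intro z
      have h1 := (hTH.an 0 (z, t)).differentiableAt
      have h2 : DifferentiableAt ℂ (fun z : ℂ => ((z, t) : ℂ × ℂ)) z := by fun_prop
      exact DifferentiableAt.comp (f := fun z : ℂ => ((z, t) : ℂ × ℂ)) z h1 h2

end EQ

end Pool.Agent.ZR
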