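import Pool.Agent.ZR.EQ.St

/-!
# ZR, block EQ, module INT: the mass inequality
-/

set_option autoImplicit false

open scoped BigOperators ComplexConjugate
open Filter Topology MeasureTheory

namespace Pool.Agent.ZR

open Pool.Agent.ZPT Pool.Agent.ZPE

namespace EQ

/-- the number of the embeddings over `κ` is at most the degree -/
private theorem INT_card (κ K : IntermediateField ℚ ℂ) (hle : κ ≤ K) [FiniteDimensional ℚ κ]
    [FiniteDimensional ℚ K] :
    (Module.finrank ℚ κ : ℝ) *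
      ({σ : K →+* ℂ | ∀ c : K, (c : ℂ) ∈ κ → σ c = c}.ncard : ℝ) ≤ Module.finrank ℚ K := by
  classical
  have : NumberField K := ⟨⟩
  letI : Algebra κ K := (IntermediateField.inclusion hle).toRingHom.toAlgebra
  have : IsScalarTower ℚ κ K := IsScalarTower.of_algebraMap_eq fun r => rfl
  have : FiniteDimensional κ K := Module.Finite.of_restrictScalars_finite ℚ κ K
  have h1 : Module.finrank ℚ κ * Module.finrank κ K = Module.finrank ℚ K :=
    Module.finrank_mul_finrank ℚ κ K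
  have h2 : Fintype.card (K →ₐ[κ] ℂ) = Module.finrank κ K := AlgHom.card κ K ℂ
  have h5 : {σ : K →+* ℂ | ∀ c : K, (c : ℂ) ∈ κ → σ c = c} ⊆
      (fun φ : K →ₐ[κ] ℂ => (φ : K →+* ℂ)) '' Set.univ := by
    intro σ hσ
    refine ⟨{ σ with commutes' := fun c => ?_ }, Set.mem_univ _, ?_⟩
    · exact hσ (algebraMap κ K c) c.2
    · ext c
      rfl
  have h6 : {σ : K →+* ℂ | ∀ c : K, (c : ℂ) ∈ κ → σ c = c}.ncard ≤ Module.finrank κ K := by
    refine (Set.ncard_le_ncard h5 (Set.toFinite _)).trans ?_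
    refine (Set.ncard_image_le Set.finite_univ).trans ?_
    rw [Set.ncard_univ, Nat.card_eq_fintype_card, h2]
  rw [← h1]
  push_cast
  exact mul_le_mul_of_nonneg_left (by exact_mod_cast h6) (Nat.cast_nonneg _)

/-- the mass of a set is at most one -/
private theorem INT_prp {V : Type} [Fintype V] (κ K : IntermediateField ℚ ℂ) (hle : κ ≤ K)
    [FiniteDimensional ℚ κ] [FiniteDimensional ℚ K] (y : V → Qb) (x : Qb)
    (Δ : Set ((V → ℂ) × ℂ)) :
    (Module.finrank ℚ κ : ℝ) * C2.prp κ K y x Δ ≤ 1 ∧ 0 ≤ C2.prp κ K y x Δ := by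
  have : NumberField K := ⟨⟩
  have hpos : (0 : ℝ) < Module.finrank ℚ K := by exact_mod_cast Module.finrank_pos
  unfold C2.prp
  refine ⟨?_, div_nonneg (Nat.cast_nonneg _) (Nat.cast_nonneg _)⟩
  rw [← mul_div_assoc, div_le_one hpos]
  refine le_trans ?_ (INT_card κ K hle)
  refine mul_le_mul_of_nonneg_left ?_ (Nat.cast_nonneg _)
  have h : II.EmbIn κ K y (fun _ : Unit => x) {q | (q.1, q.2 ()) ∈ Δ} ⊆
      {σ : K →+* ℂ | ∀ c : K, (c : ℂ) ∈ κ → σ c = c} := fun σ hσ => hσ.1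
  exact_mod_cast Set.ncard_le_ncard h (Set.toFinite _)

/-- the final computation -/
private theorem INT_num (a e I Ij Q X ε : ℝ) (ha1 : a ≤ 1) (ha0 : 0 ≤ a) (he : 0 < e)
    (hI : 0 ≤ I) (hIj : 0 ≤ Ij) (heI : e < I) (hQ : 0 < Q) (hX : Q * (I - e) ≤ X)
    (h : a * X ≤ Q * (Ij + e) + e * X) (hε : e * (I + 2) ≤ ε) : a * I ≤ Ij + ε := by
  have h1 : (a - e) * (I - e) ≤ Ij + e := by
    rcases le_or_gt a e with h2 | h2
    · have h3 : (a - e) * (I - e) ≤ 0 :=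
        mul_nonpos_of_nonpos_of_nonneg (by linarith) (by linarith)
      linarith
    · have h3 : (a - e) * (Q * (I - e)) ≤ (a - e) * X :=
        mul_le_mul_of_nonneg_left hX (by linarith)
      have h4 : Q * ((a - e) * (I - e)) ≤ Q * (Ij + e) := by
        calc Q * ((a - e) * (I - e)) = (a - e) * (Q * (I - e)) := by ring
          _ ≤ (a - e) * X := h3
          _ ≤ Q * (Ij + e) := by linarith
      exact le_of_mul_le_mul_left h4 hQ
  nlinarith [mul_nonneg he.le hI, mul_le_mul_of_nonneg_left ha1 he.le, sq_nonneg e]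

theorem INT_of (hLOW : St_LOW) (hUPF : St_UPF) (hGQF : St_GQF) : St_INT := by
  intro ex hex V N _ _ C hV κ hfd hκ hI Q U p y x hG KK hKK w H hH hHB J _ T j ε hε
  obtain ⟨b, -, -, haq, -⟩ := hGQF
  -- the integrals are nonnegative
  have hds : ∀ i, ∀ t ∈ T.F i, 0 ≤ (T.L i).ds w t := by
    intro i t ht
    have h1 := T.Fb i ht
    have h0 : t ≠ 0 := fun h => (T.L i).per.n0 (h ▸ h1)
    have h2 : t ≠ 1 := fun h => (T.L i).per.n1 (h ▸ h1)
    exact mul_nonneg (haq t h0 h2).le (sq_nonneg _)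
  have hint : ∀ i, 0 ≤ ∫ t in T.F i, (T.L i).ds w t := fun i =>
    setIntegral_nonneg (T.cpt i).measurableSet (hds i)
  have hprp : ∀ k, (Module.finrank ℚ κ : ℝ) *
      C2.prp κ (KK k) (y k) (x k) ((T.L j).lift (T.F j)) ≤ 1 ∧
      0 ≤ C2.prp κ (KK k) (y k) (x k) ((T.L j).lift (T.F j)) := by
    intro k
    have := (hKK k).1
    exact INT_prp κ (KK k) (hKK k).2.1 _ _ _
  obtain ⟨I, hIdef⟩ : ∃ I : ℝ, I = ∑ i, ∫ t in T.F i, (T.L i).ds w t := ⟨_, rfl⟩
  have hI0 : 0 ≤ I := hIdef ▸ Finset.sum_nonneg fun i _ => hint i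
  rcases hI0.eq_or_lt with h0 | hIpos
  · refine Eventually.of_forall fun k => ?_
    rw [← hIdef, ← h0, mul_zero]
    have := hint j
    linarith
  -- the small number
  obtain ⟨e, he0, he1, he2⟩ : ∃ e : ℝ, 0 < e ∧ e ≤ I / 2 ∧ e * (I + 2) ≤ ε := by
    refine ⟨min (I / 2) (ε / (I + 2)), lt_min (by linarith) (by positivity), min_le_left _ _, ?_⟩
    have h1 : min (I / 2) (ε / (I + 2)) ≤ ε / (I + 2) := min_le_right _ _
    rwa [le_div_iff₀ (by linarith)] at h1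
  obtain ⟨Λ₁, hΛ₁, hlow⟩ := hLOW ex hex V N C hV J T w e he0
  have hc₀ : 0 < I / Real.pi := div_pos hIpos Real.pi_pos
  obtain ⟨Λ₂, hΛ₂, hupf⟩ := hUPF ex hex V N C hV κ hfd hκ hI Q U p y x hG KK hKK w H hH hHB
    (T.L j) (T.F j) (T.cpt j) (T.Fb j) e (I / Real.pi) he0 hc₀
  obtain ⟨Λ, hΛ⟩ : ∃ Λ : ℝ, Λ = max Λ₁ Λ₂ := ⟨_, rfl⟩
  have hm1 : Λ₁ ≤ Λ := hΛ ▸ le_max_left _ _
  have hm2 : Λ₂ ≤ Λ := hΛ ▸ le_max_right _ _
  have hΛ0 : 0 < Λ := hΛ₁.trans_le hm1
  have hnear : Near w Λ (fun ν => round (Λ * w ν)) := by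
    intro ν
    have h1 := abs_sub_round (Λ * w ν)
    rw [abs_sub_comm] at h1
    linarith
  obtain ⟨X, hX1, hX2⟩ := hlow Λ hm1 _ hnear
  rw [← hIdef] at hX2
  have hQ : 0 < 2 * Λ ^ 2 / Real.pi := by positivity
  have hX3 : I / Real.pi * Λ ^ 2 ≤ (X.card : ℝ) := by
    refine le_trans ?_ hX2
    have h1 : I / Real.pi * Λ ^ 2 = 2 * Λ ^ 2 / Real.pi * (I / 2) := by
      field_simp
    rw [h1]
    exact mul_le_mul_of_nonneg_left (by linarith) hQ.le
  filter_upwards [hupf Λ hm2 _ hnear X hX1 hX3] with k hk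
  rw [← hIdef]
  exact INT_num _ e I _ _ X.card ε (hprp k).1
    (mul_nonneg (Nat.cast_nonneg _) (hprp k).2) he0 hI0 (hint j) (by linarith) hQ hX2 hk he2

end EQ

end Pool.Agent.ZR
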