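import Pool.Agent.ZR.EQ.St
import Pool.Agent.ZR.AX.Dbar

/-!
# ZR, block EQ: [ISO] isotropy is impossible (helper6)
-/

set_option autoImplicit false

open scoped BigOperators ComplexConjugate
open Filter Topology MeasureTheory

namespace Pool.Agent.ZR.EQ

open Pool.Agent.ZPT Pool.Agent.ZPE

private theorem ISO_id {a b z : ℂ} (h : (a * conj b).im ≠ 0) :
    (be1 a b z : ℂ) * a + (be2 a b z : ℂ) * b = z := by
  have e1 : (a * conj b).im = a.im * b.re - a.re * b.im := by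
    simp [Complex.mul_im]
    ring
  have e2 : (b * conj a).im = -(a.im * b.re - a.re * b.im) := by
    simp [Complex.mul_im]
    ring
  have e3 : (z * conj b).im = z.im * b.re - z.re * b.im := by
    simp [Complex.mul_im]
    ring
  have e4 : (z * conj a).im = z.im * a.re - z.re * a.im := by
    simp [Complex.mul_im]
    ring
  rw [e1] at h
  unfold be1 be2
  rw [e1, e2, e3, e4]
  obtain ⟨d, hd⟩ : ∃ d : ℝ, d = a.im * b.re - a.re * b.im := ⟨_, rfl⟩
  rw [← hd] at h ⊢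
  apply Complex.ext
  · simp only [Complex.add_re, Complex.mul_re, Complex.ofReal_re, Complex.ofReal_im, zero_mul,
      sub_zero]
    have e5 : (z.im * b.re - z.re * b.im) / d * a.re +
        (z.im * a.re - z.re * a.im) / -d * b.re =
        ((z.im * b.re - z.re * b.im) * a.re - (z.im * a.re - z.re * a.im) * b.re) / d := by
      rw [div_neg]
      ring
    rw [e5, div_eq_iff h, hd]
    ring
  · simp only [Complex.add_im, Complex.mul_im, Complex.ofReal_re, Complex.ofReal_im, zero_mul,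
      add_zero]
    have e5 : (z.im * b.re - z.re * b.im) / d * a.im +
        (z.im * a.re - z.re * a.im) / -d * b.im =
        ((z.im * b.re - z.re * b.im) * a.im - (z.im * a.re - z.re * a.im) * b.im) / d := by
      rw [div_neg]
      ring
    rw [e5, div_eq_iff h, hd]
    ring

private theorem ISO_dbar (O : Set ℂ) (hO : IsOpen O) (f g : Fin 2 → Fin 3 → ℂ → ℂ)
    (hf : ∀ i a, DifferentiableOn ℂ (f i a) O) (hg : ∀ i a, DifferentiableOn ℂ (g i a) O)
    (h : ∀ t ∈ O, ∑ i, (∑ a, f i a t * conj (g i a t)) ^ 2 = 0) (t : ℂ) (ht : t ∈ O) :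
    ∑ i, (∑ a, f i a t * conj (g i a t)) * (∑ a, f i a t * conj (deriv (g i a) t)) = 0 := by
  have h1 := dbar (A := Fin 2 × Fin 3 × Fin 3) O hO (fun p t => f p.1 p.2.1 t * f p.1 p.2.2 t)
    (fun p t => g p.1 p.2.1 t * g p.1 p.2.2 t) (fun p => (hf _ _).mul (hf _ _))
    (fun p => (hg _ _).mul (hg _ _)) (fun y hy => by
      rw [← h y hy]
      simp only [Fintype.sum_prod_type, Fin.sum_univ_three, Fin.sum_univ_two, map_mul]
      ring) t ht 1
  have h2 : ∀ p : Fin 2 × Fin 3 × Fin 3,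
      fderiv ℂ (fun t => g p.1 p.2.1 t * g p.1 p.2.2 t) t 1 =
        deriv (g p.1 p.2.1) t * g p.1 p.2.2 t + g p.1 p.2.1 t * deriv (g p.1 p.2.2) t := by
    intro p
    have d1 := ((hg p.1 p.2.1).differentiableAt (hO.mem_nhds ht)).hasDerivAt
    have d2 := ((hg p.1 p.2.2).differentiableAt (hO.mem_nhds ht)).hasDerivAt
    have d3 := d1.mul d2
    rw [← d3.deriv]
    exact fderiv_apply_one_eq_deriv
  simp only [h2] at h1
  simp only [Fintype.sum_prod_type, Fin.sum_univ_three, Fin.sum_univ_two, map_mul,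
    map_add] at h1
  simp only [Fin.sum_univ_three, Fin.sum_univ_two]
  linear_combination (1 / 2 : ℂ) * h1

private theorem ISO_sq {a b : ℂ} (h1 : Complex.normSq a = Complex.normSq b)
    (h2 : (a * conj b).re = 0) : a ^ 2 + b ^ 2 = 0 := by
  rw [← Complex.normSq_eq_zero]
  have h3 : Complex.normSq (a ^ 2 + b ^ 2) =
      (Complex.normSq a - Complex.normSq b) ^ 2 + 4 * (a * conj b).re ^ 2 := by
    simp only [Complex.normSq_apply, Complex.add_re, Complex.add_im, Complex.mul_re,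
      Complex.mul_im, pow_two, Complex.conj_re, Complex.conj_im]
    ring
  rw [h3, h1, h2]
  ring

private theorem ISO_alg1 (β₁ β₂ : ℝ) (w₁ w₂ d₁ d₂ θ : ℂ) :
    ((θ + β₁ * d₁ + β₂ * d₂) * w₁ - (β₁ * w₁ + β₂ * w₂) * d₁) * conj w₂ +
      -((θ + β₁ * d₁ + β₂ * d₂) * w₂ - (β₁ * w₁ + β₂ * w₂) * d₂) * conj w₁ +
      (w₂ * d₁ - w₁ * d₂) * conj (β₁ * w₁ + β₂ * w₂) = (w₁ * conj w₂ - conj w₁ * w₂) * θ := by
  simp only [map_add, map_mul, Complex.conj_ofReal]
  ring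

private theorem ISO_alg2 (β₁ β₂ : ℝ) (w₁ w₂ d₁ d₂ θ : ℂ) :
    ((θ + β₁ * d₁ + β₂ * d₂) * w₁ - (β₁ * w₁ + β₂ * w₂) * d₁) * conj d₂ +
      -((θ + β₁ * d₁ + β₂ * d₂) * w₂ - (β₁ * w₁ + β₂ * w₂) * d₂) * conj d₁ +
      (w₂ * d₁ - w₁ * d₂) * conj (θ + β₁ * d₁ + β₂ * d₂) =
      θ * (w₁ * conj d₂ - w₂ * conj d₁) - conj θ * (w₁ * d₂ - w₂ * d₁) := by
  simp only [map_add, map_mul, Complex.conj_ofReal]
  ring

private theorem ISO_main {ex : (t : ℂ) → ℂ →+ LPt t} {V N : Type} [Fintype V] [Fintype N]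
    {C : JCh V N} (L : Loc1 ex C) (O : Set ℂ) (hO : IsOpen O) (hsub : O ⊆ L.dsk)
    (u v : N → ℝ) (h : ∀ t ∈ O, L.th1 u t ^ 2 + L.th1 v t ^ 2 = 0) :
    ∀ t ∈ O, L.th1 v t = 0 := by
  intro t ht
  have hdo : IsOpen L.dsk := Metric.isOpen_ball
  have hz : ∀ w : N → ℝ, AnalyticOnNhd ℂ (L.zw w) L.dsk := by
    intro w
    have h1 : DifferentiableOn ℂ (L.zw w) L.dsk := by
      unfold Loc1.zw
      refine DifferentiableOn.fun_sum fun ν _ => ?_
      exact (L.z_an ν).differentiableOn.const_mul _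
    exact h1.analyticOnNhd hdo
  obtain ⟨Z, hZ⟩ : ∃ Z : Fin 2 → N → ℝ, Z = ![u, v] := ⟨_, rfl⟩
  have hZ0 : Z 0 = u := by rw [hZ]; rfl
  have hZ1 : Z 1 = v := by rw [hZ]; rfl
  obtain ⟨g, hg⟩ : ∃ g : Fin 2 → Fin 3 → ℂ → ℂ, ∀ i, g i = ![L.w₂, L.w₁, L.zw (Z i)] :=
    ⟨_, fun _ => rfl⟩
  obtain ⟨f, hf⟩ : ∃ f : Fin 2 → Fin 3 → ℂ → ℂ, ∀ i, f i =
      ![fun t => deriv (L.zw (Z i)) t * L.w₁ t - L.zw (Z i) t * deriv L.w₁ t,
        fun t => -(deriv (L.zw (Z i)) t * L.w₂ t - L.zw (Z i) t * deriv L.w₂ t),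
        fun t => L.w₂ t * deriv L.w₁ t - L.w₁ t * deriv L.w₂ t] := ⟨_, fun _ => rfl⟩
  have g0 : ∀ i, g i 0 = L.w₂ := fun i => by rw [hg]; rfl
  have g1 : ∀ i, g i 1 = L.w₁ := fun i => by rw [hg]; rfl
  have g2 : ∀ i, g i 2 = L.zw (Z i) := fun i => by rw [hg]; rfl
  have f0 : ∀ i, f i 0 = fun t => deriv (L.zw (Z i)) t * L.w₁ t - L.zw (Z i) t * deriv L.w₁ t :=
    fun i => by rw [hf]; rfl
  have f1 : ∀ i, f i 1 = fun t => -(deriv (L.zw (Z i)) t * L.w₂ t -
    L.zw (Z i) t * deriv L.w₂ t) := fun i => by rw [hf]; rfl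
  have f2 : ∀ i, f i 2 = fun t => L.w₂ t * deriv L.w₁ t - L.w₁ t * deriv L.w₂ t :=
    fun i => by rw [hf]; rfl
  have dz : ∀ w : N → ℝ, DifferentiableOn ℂ (L.zw w) O := fun w =>
    (hz w).differentiableOn.mono hsub
  have dz' : ∀ w : N → ℝ, DifferentiableOn ℂ (deriv (L.zw w)) O := fun w =>
    (hz w).deriv.differentiableOn.mono hsub
  have a1 : AnalyticOnNhd ℂ L.w₁ L.dsk := L.per.a₁
  have a2 : AnalyticOnNhd ℂ L.w₂ L.dsk := L.per.a₂
  have d1 : DifferentiableOn ℂ L.w₁ O := a1.differentiableOn.mono hsub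
  have d2 : DifferentiableOn ℂ L.w₂ O := a2.differentiableOn.mono hsub
  have d1' : DifferentiableOn ℂ (deriv L.w₁) O := a1.deriv.differentiableOn.mono hsub
  have d2' : DifferentiableOn ℂ (deriv L.w₂) O := a2.deriv.differentiableOn.mono hsub
  have hfd : ∀ i a, DifferentiableOn ℂ (f i a) O := by
    intro i a
    fin_cases a
    · show DifferentiableOn ℂ (f i 0) O
      rw [f0]
      exact ((dz' _).mul d1).sub ((dz _).mul d1')
    · show DifferentiableOn ℂ (f i 1) O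
      rw [f1]
      exact (((dz' _).mul d2).sub ((dz _).mul d2')).neg
    · show DifferentiableOn ℂ (f i 2) O
      rw [f2]
      exact (d2.mul d1').sub (d1.mul d2')
  have hgd : ∀ i a, DifferentiableOn ℂ (g i a) O := by
    intro i a
    fin_cases a
    · show DifferentiableOn ℂ (g i 0) O
      rw [g0]
      exact d2
    · show DifferentiableOn ℂ (g i 1) O
      rw [g1]
      exact d1
    · show DifferentiableOn ℂ (g i 2) O
      rw [g2]
      exact dz _
  -- the two identities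
  have hdec : ∀ (w : N → ℝ) (s : ℂ), s ∈ O →
      L.zw w s = be1 (L.w₁ s) (L.w₂ s) (L.zw w s) * L.w₁ s +
        be2 (L.w₁ s) (L.w₂ s) (L.zw w s) * L.w₂ s ∧
      deriv (L.zw w) s = L.th1 w s + be1 (L.w₁ s) (L.w₂ s) (L.zw w s) * deriv L.w₁ s +
        be2 (L.w₁ s) (L.w₂ s) (L.zw w s) * deriv L.w₂ s := by
    intro w s hs
    refine ⟨(ISO_id (L.per.im s (hsub hs))).symm, ?_⟩
    unfold Loc1.th1
    ring
  have key1 : ∀ i, ∀ s ∈ O, ∑ a, f i a s * conj (g i a s) =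
      (L.w₁ s * conj (L.w₂ s) - conj (L.w₁ s) * L.w₂ s) * L.th1 (Z i) s := by
    intro i s hs
    obtain ⟨e1, e2⟩ := hdec (Z i) s hs
    rw [Fin.sum_univ_three, f0, f1, f2, g0, g1, g2]
    beta_reduce
    rw [← ISO_alg1 (be1 (L.w₁ s) (L.w₂ s) (L.zw (Z i) s)) (be2 (L.w₁ s) (L.w₂ s) (L.zw (Z i) s))
      (L.w₁ s) (L.w₂ s) (deriv L.w₁ s) (deriv L.w₂ s) (L.th1 (Z i) s), ← e2, ← e1]
  have key2 : ∀ i, ∑ a, f i a t * conj (deriv (g i a) t) =
      L.th1 (Z i) t * (L.w₁ t * conj (deriv L.w₂ t) - L.w₂ t * conj (deriv L.w₁ t)) -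
        conj (L.th1 (Z i) t) * (L.w₁ t * deriv L.w₂ t - L.w₂ t * deriv L.w₁ t) := by
    intro i
    obtain ⟨e1, e2⟩ := hdec (Z i) t ht
    rw [Fin.sum_univ_three, f0, f1, f2, g0, g1, g2]
    beta_reduce
    rw [← ISO_alg2 (be1 (L.w₁ t) (L.w₂ t) (L.zw (Z i) t)) (be2 (L.w₁ t) (L.w₂ t) (L.zw (Z i) t))
      (L.w₁ t) (L.w₂ t) (deriv L.w₁ t) (deriv L.w₂ t) (L.th1 (Z i) t), ← e2, ← e1]
  have hmain := ISO_dbar O hO f g hfd hgd (fun s hs => by
    simp only [key1 _ s hs]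
    rw [Fin.sum_univ_two, hZ0, hZ1, mul_pow, mul_pow, ← mul_add, h s hs, mul_zero]) t ht
  simp only [key1 _ t ht, key2] at hmain
  rw [Fin.sum_univ_two, hZ0, hZ1] at hmain
  have hT := h t ht
  have hΔ : L.w₁ t * conj (L.w₂ t) - conj (L.w₁ t) * L.w₂ t ≠ 0 := by
    intro h0
    apply L.per.im t (hsub ht)
    have h1 := congrArg Complex.im h0
    simp only [Complex.sub_im, Complex.mul_im, Complex.conj_re, Complex.conj_im,
      Complex.zero_im] at h1 ⊢
    linarith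
  have hW := L.per.wr t (hsub ht)
  have hfin : (L.w₁ t * conj (L.w₂ t) - conj (L.w₁ t) * L.w₂ t) *
      (L.w₁ t * deriv L.w₂ t - L.w₂ t * deriv L.w₁ t) *
      (L.th1 u t * conj (L.th1 u t) + L.th1 v t * conj (L.th1 v t)) = 0 := by
    linear_combination (L.w₁ t * conj (L.w₂ t) - conj (L.w₁ t) * L.w₂ t) *
      (L.w₁ t * conj (deriv L.w₂ t) - L.w₂ t * conj (deriv L.w₁ t)) * hT - hmain
  have h5 := (mul_eq_zero.1 hfin).resolve_left (mul_ne_zero hΔ hW)
  rw [Complex.mul_conj, Complex.mul_conj, ← Complex.ofReal_add] at h5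
  have h6 : Complex.normSq (L.th1 u t) + Complex.normSq (L.th1 v t) = 0 := by
    exact_mod_cast h5
  have h7 := Complex.normSq_nonneg (L.th1 u t)
  have h8 := Complex.normSq_nonneg (L.th1 v t)
  exact Complex.normSq_eq_zero.1 (by linarith)

theorem ISO_of (hE : St_ETA1) (hG : St_GQF) : St_ISO := by
  intro ex V N _ _ C L W hW c₁ r₁ hr₁ hsub hrel
  obtain ⟨b, hac, -, haq, -⟩ := hG
  obtain ⟨hlin, hcont⟩ := hE ex V N C L
  have hballsub : Metric.ball c₁ r₁ ⊆ L.dsk := Metric.ball_subset_closedBall.trans hsub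
  have hn0 : ∀ t ∈ L.dsk, t ≠ 0 := fun t ht h0 => L.per.n0 (h0 ▸ ht)
  have hn1 : ∀ t ∈ L.dsk, t ≠ 1 := fun t ht h0 => L.per.n1 (h0 ▸ ht)
  have haqp : ∀ t ∈ L.dsk, 0 < aq t := fun t ht => haq t (hn0 t ht) (hn1 t ht)
  have hlinadd : ∀ t ∈ L.dsk, ∀ w w' : N → ℝ, L.th1 (w + w') t = L.th1 w t + L.th1 w' t := by
    intro t ht w w'
    obtain ⟨θ, hθ⟩ := hlin t ht
    rw [← hθ, ← hθ, ← hθ, map_add]
  have hlinsmul : ∀ t ∈ L.dsk, ∀ (a : ℝ) (w : N → ℝ), L.th1 (a • w) t = (a : ℂ) * L.th1 w t := by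
    intro t ht a w
    obtain ⟨θ, hθ⟩ := hlin t ht
    rw [← hθ, ← hθ, map_smul, Complex.real_smul]
  obtain ⟨q, hq⟩ : ∃ q : (N → ℝ) → ℝ, ∀ w, q w = ∫ t in Metric.closedBall c₁ r₁, L.ds w t :=
    ⟨_, fun _ => rfl⟩
  simp only [← hq] at hrel
  have hdsn : ∀ w, ∀ t ∈ Metric.closedBall c₁ r₁, 0 ≤ L.ds w t := fun w t ht =>
    mul_nonneg (haqp t (hsub ht)).le (sq_nonneg _)
  have hq0 : ∀ w, 0 ≤ q w := by
    intro w
    rw [hq]
    exact setIntegral_nonneg measurableSet_closedBall (hdsn w)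
  -- `ds = 0` implies `th1 = 0`
  have hds : ∀ w, ∀ t ∈ Metric.ball c₁ r₁, L.ds w t = 0 → L.th1 w t = 0 := by
    intro w t ht h0
    rcases mul_eq_zero.1 h0 with h1 | h1
    · exact absurd h1 (haqp t (hballsub ht)).ne'
    · exact norm_eq_zero.1 (pow_eq_zero_iff two_ne_zero |>.1 h1)
  have hdsc : ∀ w, ContinuousOn (L.ds w) L.dsk := by
    intro w
    have h1 : ContinuousOn aq L.dsk := hac.mono fun t ht => ⟨hn0 t ht, hn1 t ht⟩
    exact h1.mul ((hcont w).norm.pow 2)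
  let B := Module.finBasisOfFinrankEq ℝ W hW
  by_cases hA : ∃ w ∈ W, w ≠ 0 ∧ q w = 0
  · obtain ⟨w, hw, hw0, hqw⟩ := hA
    by_cases hB : ∃ w' ∈ W, q w' ≠ 0
    · obtain ⟨w', hw', hqw'⟩ := hB
      refine ⟨w, hw, hw0, fun t ht => hds w t ht ?_⟩
      have h1 := hrel w hw w' hw' t ht
      rw [hqw, mul_zero] at h1
      exact (mul_eq_zero.1 h1).resolve_right hqw'
    · refine ⟨w, hw, hw0, fun t ht => hds w t ht ?_⟩
      have hint : IntegrableOn (L.ds w) (Metric.closedBall c₁ r₁) volume :=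
        ((hdsc w).mono hsub).integrableOn_compact (isCompact_closedBall _ _)
      have h1 : ∫ t in Metric.closedBall c₁ r₁, L.ds w t = 0 := by rw [← hq]; exact hqw
      have h2 := (setIntegral_eq_zero_iff_of_nonneg_ae
        (ae_restrict_of_forall_mem measurableSet_closedBall (hdsn w)) hint).1 h1
      have h3 : L.ds w =ᵐ[volume.restrict (Metric.ball c₁ r₁)] 0 :=
        ae_restrict_of_ae_restrict_of_subset Metric.ball_subset_closedBall h2
      exact Measure.eqOn_open_of_ae_eq h3 Metric.isOpen_ball ((hdsc w).mono hballsub)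
        continuousOn_const ht
  · push Not at hA
    obtain ⟨u, hu, huW⟩ : ∃ u : N → ℝ, u = (B 0 : N → ℝ) ∧ u ∈ W := ⟨_, rfl, (B 0).2⟩
    obtain ⟨v, hv, hvW⟩ : ∃ v : N → ℝ, v = (B 1 : N → ℝ) ∧ v ∈ W := ⟨_, rfl, (B 1).2⟩
    have hu0 : u ≠ 0 := by
      rw [hu]
      exact fun h => B.ne_zero 0 (Subtype.ext h)
    have hqu : 0 < q u := lt_of_le_of_ne (hq0 u) (hA u huW hu0).symm
    obtain ⟨μ, hμ⟩ : ∃ μ : ℝ, μ = (q (u + v) - q u - q v) / (2 * q u) := ⟨_, rfl⟩
    have hμ' : μ * (2 * q u) = q (u + v) - q u - q v := by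
      rw [hμ]
      field_simp
    obtain ⟨v', hv'⟩ : ∃ v' : N → ℝ, v' = v + (-μ) • u := ⟨_, rfl⟩
    have hv'W : v' ∈ W := by
      rw [hv']
      exact W.add_mem hvW (W.smul_mem _ huW)
    have hv'0 : v' ≠ 0 := by
      intro h0
      have h1 : (B 1 : W) + (-μ) • B 0 = 0 := by
        apply Subtype.ext
        rw [hv', hv, hu] at h0
        exact h0
      have h2 := Fintype.linearIndependent_iff.1 B.linearIndependent ![-μ, 1] (by
        rw [Fin.sum_univ_two]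
        simp only [Matrix.cons_val_zero, Matrix.cons_val_one]
        rw [one_smul, add_comm]
        exact h1) 1
      simp at h2
    have hκ0 : 0 ≤ q v' / q u := div_nonneg (hq0 _) hqu.le
    refine ⟨v', hv'W, hv'0, ?_⟩
    refine ISO_main L (Metric.ball c₁ r₁) Metric.isOpen_ball hballsub
      (Real.sqrt (q v' / q u) • u) v' fun t ht => ?_
    have htd := hballsub ht
    -- the relation for the norms
    have hn : ∀ w ∈ W, Complex.normSq (L.th1 w t) * q u = Complex.normSq (L.th1 u t) * q w := by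
      intro w hw
      have h1 := hrel w hw u huW t ht
      unfold Loc1.ds at h1
      rw [Complex.sq_norm, Complex.sq_norm, mul_assoc, mul_assoc] at h1
      exact mul_left_cancel₀ (haqp t htd).ne' h1
    have e1 := hn v hvW
    have e2 := hn (u + v) (W.add_mem huW hvW)
    have e3 := hn v' hv'W
    rw [hlinadd t htd, Complex.normSq_add] at e2
    have e4 : (L.th1 u t * conj (L.th1 v t)).re = μ * Complex.normSq (L.th1 u t) := by
      have h1 : (L.th1 u t * conj (L.th1 v t)).re * (2 * q u) =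
          μ * Complex.normSq (L.th1 u t) * (2 * q u) := by
        linear_combination e2 - e1 - Complex.normSq (L.th1 u t) * hμ'
      exact mul_right_cancel₀ (by positivity) h1
    have e5 : L.th1 v' t = L.th1 v t + ((-μ : ℝ) : ℂ) * L.th1 u t := by
      rw [hv', hlinadd t htd, hlinsmul t htd]
    rw [hlinsmul t htd]
    apply ISO_sq
    · rw [Complex.normSq_mul, Complex.normSq_ofReal, Real.mul_self_sqrt hκ0, div_mul_eq_mul_div,
        div_eq_iff hqu.ne']
      linarith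
    · have h1 : (((Real.sqrt (q v' / q u) : ℝ) : ℂ) * L.th1 u t * conj (L.th1 v' t)).re =
          Real.sqrt (q v' / q u) * ((L.th1 u t * conj (L.th1 v t)).re -
            μ * Complex.normSq (L.th1 u t)) := by
        rw [e5]
        simp only [map_add, map_mul, Complex.conj_ofReal, Complex.normSq_apply, Complex.mul_re,
          Complex.mul_im, Complex.add_re, Complex.add_im, Complex.ofReal_re, Complex.ofReal_im,
          Complex.conj_re, Complex.conj_im]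
        ring
      rw [h1, e4]
      ring

end Pool.Agent.ZR.EQ
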