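import Pool.Agent.ZR.EQ.St
import Pool.Agent.ZR.S.All

/-!
# ZR, block EQ, module LG: local growth of the coordinates of m . P (helper24)
-/

set_option autoImplicit false

open scoped BigOperators ComplexConjugate
open Filter Topology MeasureTheory

namespace Pool.Agent.ZR

open Pool.Agent.ZPT Pool.Agent.ZPE

namespace EQ

/-- the coordinates `0` and `3` dominate -/
private theorem LG_max {t : ℂ} {X : Fin 4 → ℂ} (h1 : X 0 ^ 2 + X 1 ^ 2 = X 3 ^ 2)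
    (h2 : t * X 0 ^ 2 + X 2 ^ 2 = X 3 ^ 2) {R : ℝ} (hR : ‖t‖ ≤ R) :
    max ‖X 0‖ ‖X 3‖ ≤ ‖X‖ ∧ ‖X‖ ≤ (2 + R) * max ‖X 0‖ ‖X 3‖ := by
  have hR0 : 0 ≤ R := (norm_nonneg t).trans hR
  set M := max ‖X 0‖ ‖X 3‖ with hM
  have hM0 : 0 ≤ M := (norm_nonneg _).trans (le_max_left _ _)
  have a0 : ‖X 0‖ ≤ M := le_max_left _ _
  have a3 : ‖X 3‖ ≤ M := le_max_right _ _
  have b0 : ‖X 0‖ ^ 2 ≤ M ^ 2 := pow_le_pow_left₀ (norm_nonneg _) a0 2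
  have b3 : ‖X 3‖ ^ 2 ≤ M ^ 2 := pow_le_pow_left₀ (norm_nonneg _) a3 2
  have hc : M ≤ (2 + R) * M := by nlinarith
  have hc2 : (2 + R) * M ^ 2 ≤ ((2 + R) * M) ^ 2 := by
    have h3 : 0 ≤ M ^ 2 := sq_nonneg M
    nlinarith [mul_nonneg (mul_nonneg hR0 hR0) h3, mul_nonneg hR0 h3]
  refine ⟨max_le (norm_le_pi_norm X 0) (norm_le_pi_norm X 3), ?_⟩
  rw [pi_norm_le_iff_of_nonneg (by positivity)]
  intro i
  fin_cases i
  · exact a0.trans hc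
  · change ‖X 1‖ ≤ (2 + R) * M
    have e1 : ‖X 1‖ ^ 2 ≤ ‖X 3‖ ^ 2 + ‖X 0‖ ^ 2 := by
      have e2 : X 1 ^ 2 = X 3 ^ 2 - X 0 ^ 2 := by linear_combination h1
      rw [← norm_pow, e2, ← norm_pow, ← norm_pow]
      exact norm_sub_le _ _
    refine (sq_le_sq₀ (norm_nonneg _) (by positivity)).1 (le_trans ?_ hc2)
    nlinarith [mul_nonneg hR0 (sq_nonneg M)]
  · change ‖X 2‖ ≤ (2 + R) * M
    have e1 : ‖X 2‖ ^ 2 ≤ ‖X 3‖ ^ 2 + ‖t‖ * ‖X 0‖ ^ 2 := by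
      have e2 : X 2 ^ 2 = X 3 ^ 2 - t * X 0 ^ 2 := by linear_combination h2
      rw [← norm_pow, e2, ← norm_pow, ← norm_pow, ← norm_mul]
      exact norm_sub_le _ _
    have e3 : ‖t‖ * ‖X 0‖ ^ 2 ≤ R * M ^ 2 :=
      mul_le_mul hR b0 (by positivity) hR0
    refine (sq_le_sq₀ (norm_nonneg _) (by positivity)).1 (le_trans ?_ hc2)
    nlinarith [sq_nonneg M]
  · exact a3.trans hc

/-- the logarithmic form of `LG_max` -/
private theorem LG_log {t : ℂ} {X : Fin 4 → ℂ} (h : OnJ t X) (hX : X ≠ 0) {R : ℝ}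
    (hR : ‖t‖ ≤ R) : 0 < max ‖X 0‖ ‖X 3‖ ∧
      |Real.log (max ‖X 0‖ ‖X 3‖) - Real.log ‖X‖| ≤ Real.log (2 + R) := by
  obtain ⟨h1, h2⟩ := LG_max h.1 h.2 hR
  have hR0 : 0 ≤ R := (norm_nonneg t).trans hR
  have h0 : 0 < ‖X‖ := norm_pos_iff.2 hX
  have hM : 0 < max ‖X 0‖ ‖X 3‖ := by
    by_contra hcon
    have h3 : (2 + R) * max ‖X 0‖ ‖X 3‖ ≤ 0 :=
      mul_nonpos_of_nonneg_of_nonpos (by positivity) (not_lt.1 hcon)
    linarith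
  refine ⟨hM, ?_⟩
  have h3 : Real.log (max ‖X 0‖ ‖X 3‖) ≤ Real.log ‖X‖ := Real.log_le_log hM h1
  have h4 : Real.log ‖X‖ ≤ Real.log (2 + R) + Real.log (max ‖X 0‖ ‖X 3‖) := by
    rw [← Real.log_mul (by positivity) hM.ne']
    exact Real.log_le_log h0 h2
  rw [abs_le]
  have h5 : 0 ≤ Real.log (2 + R) := Real.log_nonneg (by linarith)
  constructor <;> linarith

/-- the numerical estimate -/
private theorem LG_num {aq a : ℝ} {b b1 : ℂ} {l p : ℂ} {A ω C₁ Θ Λ r s ε C₃ : ℝ}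
    (ha : |a| ≤ A) (hω : |aq - a| ≤ ω) (hb : ‖b - b1‖ ≤ ω)
    (hp : ‖p‖ ≤ Λ * Θ * s) (hE : ‖l - p‖ ≤ C₁ * (1 + Λ * s ^ 2)) (hs0 : 0 ≤ s) (hs : s ≤ r)
    (hr : r ≤ 1) (hC₁ : 1 ≤ C₁) (hΘ : 0 ≤ Θ) (hΛ : 1 ≤ Λ) (hΛr : 1 ≤ Λ * r ^ 2)
    (hωε : ω * (8 * (Θ + 2 * C₁) ^ 2) ≤ ε) (hrε : r * (16 * (A + 1) * C₁ * (Θ + 2 * C₁)) ≤ ε)
    (hC₃ : 2 * C₃ ≤ ε * (Λ * r ^ 2)) (hε : 0 < ε) :
    C₃ + |aq * ‖l‖ ^ 2 - a * ‖p‖ ^ 2| + |((b - b1) * l ^ 2).re| ≤ ε * Λ ^ 2 * r ^ 2 := by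
  have hA : 0 ≤ A := (abs_nonneg a).trans ha
  have hω0 : 0 ≤ ω := (abs_nonneg _).trans hω
  have hr0 : 0 ≤ r := hs0.trans hs
  set B := Θ + 2 * C₁ with hB
  have hB0 : 0 < B := by linarith
  -- the error
  have hs2 : s ^ 2 ≤ r ^ 2 := pow_le_pow_left₀ hs0 hs 2
  have hE1 : ‖l - p‖ ≤ 2 * C₁ * (Λ * r ^ 2) := by
    refine hE.trans ?_
    have h1 : 1 + Λ * s ^ 2 ≤ 2 * (Λ * r ^ 2) := by
      have h2 : Λ * s ^ 2 ≤ Λ * r ^ 2 := mul_le_mul_of_nonneg_left hs2 (by linarith)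
      linarith
    calc C₁ * (1 + Λ * s ^ 2) ≤ C₁ * (2 * (Λ * r ^ 2)) :=
          mul_le_mul_of_nonneg_left h1 (by linarith)
      _ = _ := by ring
  have hp1 : ‖p‖ ≤ Θ * (Λ * r) := by
    refine hp.trans ?_
    calc Λ * Θ * s ≤ Λ * Θ * r := mul_le_mul_of_nonneg_left hs (by positivity)
      _ = _ := by ring
  have hE2 : ‖l - p‖ ≤ 2 * C₁ * (Λ * r) := by
    refine hE1.trans ?_
    have h1 : Λ * r ^ 2 ≤ Λ * r := by
      have h2 : r ^ 2 ≤ r := by nlinarith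
      exact mul_le_mul_of_nonneg_left h2 (by linarith)
    exact mul_le_mul_of_nonneg_left h1 (by linarith)
  have hl : ‖l‖ ≤ B * (Λ * r) := by
    calc ‖l‖ = ‖p + (l - p)‖ := by rw [add_sub_cancel]
      _ ≤ ‖p‖ + ‖l - p‖ := norm_add_le _ _
      _ ≤ Θ * (Λ * r) + 2 * C₁ * (Λ * r) := add_le_add hp1 hE2
      _ = _ := by rw [hB]; ring
  have hl2 : ‖l‖ ^ 2 ≤ (B * (Λ * r)) ^ 2 := pow_le_pow_left₀ (norm_nonneg _) hl 2
  -- the difference of the squares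
  have hd : |‖l‖ ^ 2 - ‖p‖ ^ 2| ≤ 2 * C₁ * (Λ * r ^ 2) * (2 * B * (Λ * r)) := by
    have h1 : ‖l‖ ^ 2 - ‖p‖ ^ 2 = (‖l‖ - ‖p‖) * (‖l‖ + ‖p‖) := by ring
    rw [h1, abs_mul]
    have h2 : |‖l‖ - ‖p‖| ≤ 2 * C₁ * (Λ * r ^ 2) := (abs_norm_sub_norm_le l p).trans hE1
    have h3 : |‖l‖ + ‖p‖| ≤ 2 * B * (Λ * r) := by
      rw [abs_of_nonneg (by positivity)]
      have h4 : ‖p‖ ≤ B * (Λ * r) := by
        refine hp1.trans (mul_le_mul_of_nonneg_right (by linarith) (by positivity))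
      linarith
    exact mul_le_mul h2 h3 (abs_nonneg _) (by positivity)
  -- the two terms
  have t1 : |aq * ‖l‖ ^ 2 - a * ‖p‖ ^ 2| ≤
      ω * (B * (Λ * r)) ^ 2 + A * (2 * C₁ * (Λ * r ^ 2) * (2 * B * (Λ * r))) := by
    have h1 : aq * ‖l‖ ^ 2 - a * ‖p‖ ^ 2 =
        (aq - a) * ‖l‖ ^ 2 + a * (‖l‖ ^ 2 - ‖p‖ ^ 2) := by ring
    rw [h1]
    refine (abs_add_le _ _).trans (add_le_add ?_ ?_)
    · rw [abs_mul, abs_of_nonneg (sq_nonneg ‖l‖)]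
      exact mul_le_mul hω hl2 (sq_nonneg _) hω0
    · rw [abs_mul]
      exact mul_le_mul ha hd (abs_nonneg _) hA
  have t2 : |((b - b1) * l ^ 2).re| ≤ ω * (B * (Λ * r)) ^ 2 := by
    refine (Complex.abs_re_le_norm _).trans ?_
    rw [norm_mul, norm_pow]
    exact mul_le_mul hb hl2 (sq_nonneg _) hω0
  -- the choice of the constants
  have q1 : 2 * (ω * (B * (Λ * r)) ^ 2) ≤ ε / 4 * (Λ ^ 2 * r ^ 2) := by
    have h1 : 2 * (ω * (B * (Λ * r)) ^ 2) = (ω * (8 * B ^ 2)) / 4 * (Λ ^ 2 * r ^ 2) := by ring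
    rw [h1]
    exact mul_le_mul_of_nonneg_right (by linarith) (by positivity)
  have q2 : A * (2 * C₁ * (Λ * r ^ 2) * (2 * B * (Λ * r))) ≤ ε / 4 * (Λ ^ 2 * r ^ 2) := by
    have h1 : A * (2 * C₁ * (Λ * r ^ 2) * (2 * B * (Λ * r))) =
        (r * (16 * A * C₁ * B)) / 4 * (Λ ^ 2 * r ^ 2) := by ring
    rw [h1]
    refine mul_le_mul_of_nonneg_right ?_ (by positivity)
    have h2 : r * (16 * A * C₁ * B) ≤ r * (16 * (A + 1) * C₁ * B) := by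
      refine mul_le_mul_of_nonneg_left ?_ hr0
      have h3 : 0 ≤ C₁ * B := by positivity
      nlinarith
    linarith
  have q3 : C₃ ≤ ε / 2 * (Λ ^ 2 * r ^ 2) := by
    have h1 : ε * (Λ * r ^ 2) ≤ ε * (Λ ^ 2 * r ^ 2) := by
      refine mul_le_mul_of_nonneg_left ?_ hε.le
      refine mul_le_mul_of_nonneg_right ?_ (sq_nonneg r)
      nlinarith
    linarith
  have h9 : ε * Λ ^ 2 * r ^ 2 = ε * (Λ ^ 2 * r ^ 2) := by ring
  rw [h9]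
  have h10 : 0 ≤ ε * (Λ ^ 2 * r ^ 2) := by positivity
  linarith

private theorem LG_an {l : ℂ → ℂ} {t : ℂ} (h1 : AnalyticAt ℂ l t) (i : Fin 4) :
    AnalyticAt ℂ (fun s : ℂ => Th (l s) s i) t :=
  AnalyticAt.comp₂ (h := fun q : ℂ × ℂ => Th q.1 q.2 i) (f := l) (g := fun s : ℂ => s)
    (thm_THP.an i (l t, t)) h1 analyticAt_id

/-- **LG** -/
theorem LG_of (hL : St_LINL) (hQ : St_GQF) (hE : St_ETA1) : St_LG := by
  intro ex hex V N _ _ C L F hF hFL w ε hε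
  obtain ⟨ρ, C₁, hρ, hC₁, hlin⟩ := hL ex V N C L F hF hFL w
  obtain ⟨b, haqc, hbc, -, hgq⟩ := hQ
  obtain ⟨-, -, hgrq⟩ := thm_GRQ
  -- the compact set
  have hKdef := hF.cthickening_eq_biUnion_closedBall hρ.le
  set K := Metric.cthickening ρ F with hK
  have hKc : IsCompact K := hF.cthickening
  have hKL : K ⊆ L.dsk := by
    intro t ht
    rw [hKdef] at ht
    obtain ⟨x, hx, htx⟩ := Set.mem_iUnion₂.1 ht
    exact (hlin x hx).1 htx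
  have hK0 : (0 : ℂ) ∉ K := fun h => L.per.n0 (hKL h)
  have hK1 : (1 : ℂ) ∉ K := fun h => L.per.n1 (hKL h)
  have hKs : K ⊆ {t : ℂ | t ≠ 0 ∧ t ≠ 1} := fun t ht =>
    ⟨fun h => hK0 (h ▸ ht), fun h => hK1 (h ▸ ht)⟩
  have hball : ∀ t₁ ∈ F, ∀ t, ‖t - t₁‖ ≤ ρ → t ∈ K := by
    intro t₁ h1 t ht
    rw [hKdef]
    exact Set.mem_iUnion₂.2 ⟨t₁, h1, by rwa [Metric.mem_closedBall, dist_eq_norm]⟩
  have hFK : F ⊆ K := fun t ht => hball t ht t (by rw [sub_self, norm_zero]; exact hρ.le)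
  obtain ⟨CK, hCK0, hCK⟩ := hgrq K hKc hK0 hK1
  -- bounds
  obtain ⟨R, hR⟩ := hKc.isBounded.exists_norm_le
  obtain ⟨A, hA⟩ := (hKc.image_of_continuousOn (haqc.mono hKs)).isBounded.exists_norm_le
  obtain ⟨Θ, hΘ⟩ := (hF.image_of_continuousOn
    (((hE ex V N C L).2 w).mono hFL)).isBounded.exists_norm_le
  have hA' : ∀ t ∈ K, |aq t| ≤ |A| := fun t ht =>
    (hA _ ⟨t, ht, rfl⟩).trans (le_abs_self A)
  have hΘ' : ∀ t ∈ F, ‖L.th1 w t‖ ≤ |Θ| := fun t ht =>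
    (hΘ _ ⟨t, ht, rfl⟩).trans (le_abs_self Θ)
  have hR' : ∀ t ∈ K, ‖t‖ ≤ |R| := fun t ht => (hR t ht).trans (le_abs_self R)
  set B := |Θ| + 2 * C₁ with hB
  have hB0 : 0 < B := by
    have := abs_nonneg Θ
    linarith
  have hω : 0 < ε / (8 * B ^ 2) := by positivity
  -- uniform continuity
  obtain ⟨δ₁, hδ₁, hu1⟩ := Metric.uniformContinuousOn_iff.1
    (hKc.uniformContinuousOn_of_continuous (haqc.mono hKs)) _ hω
  obtain ⟨δ₂, hδ₂, hu2⟩ := Metric.uniformContinuousOn_iff.1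
    (hKc.uniformContinuousOn_of_continuous (hbc.mono hKs)) _ hω
  set C₃ := CK + Real.log (2 + |R|) with hC₃
  have hC₃0 : 0 ≤ C₃ := by
    have := Real.log_nonneg (show (1 : ℝ) ≤ 2 + |R| by have := abs_nonneg R; linarith)
    linarith
  have hD : 0 < 16 * (|A| + 1) * C₁ * B := by positivity
  refine ⟨min (min ρ (min (δ₁ / 2) (δ₂ / 2))) (min 1 (ε / (16 * (|A| + 1) * C₁ * B))),
    by positivity, ?_⟩
  intro t₁ ht₁ r hr0 hr
  have hr1 : r ≤ ρ := hr.trans ((min_le_left _ _).trans (min_le_left _ _))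
  have hr2 : r ≤ δ₁ / 2 :=
    hr.trans ((min_le_left _ _).trans ((min_le_right _ _).trans (min_le_left _ _)))
  have hr3 : r ≤ δ₂ / 2 :=
    hr.trans ((min_le_left _ _).trans ((min_le_right _ _).trans (min_le_right _ _)))
  have hr4 : r ≤ 1 := hr.trans ((min_le_right _ _).trans (min_le_left _ _))
  have hr5 : r * (16 * (|A| + 1) * C₁ * B) ≤ ε := by
    have := hr.trans ((min_le_right _ _).trans (min_le_right _ _))
    rwa [le_div_iff₀ hD] at this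
  have hr20 : 0 < r ^ 2 := by positivity
  refine ⟨1 / r ^ 2 + 2 * C₃ / (ε * r ^ 2) + 1, by positivity, ?_⟩
  intro Λ hΛ m hm
  have hq0 : 0 ≤ 2 * C₃ / (ε * r ^ 2) := by positivity
  have hq1 : 0 < 1 / r ^ 2 := by positivity
  have hΛ1 : 1 ≤ Λ := by linarith
  have hΛr : 1 ≤ Λ * r ^ 2 := by
    have h1 : 1 / r ^ 2 ≤ Λ := by linarith
    rwa [div_le_iff₀ hr20] at h1
  have hΛC : 2 * C₃ ≤ ε * (Λ * r ^ 2) := by
    have h1 : 2 * C₃ / (ε * r ^ 2) ≤ Λ := by linarith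
    rw [div_le_iff₀ (by positivity)] at h1
    linarith
  obtain ⟨hsub, hlin1⟩ := hlin t₁ ht₁
  obtain ⟨k₁, k₂, hk⟩ := hlin1 Λ m hΛ1 hm
  have hsub' : Metric.closedBall t₁ r ⊆ L.dsk := (Metric.closedBall_subset_closedBall hr1).trans hsub
  -- the reduced logarithm
  let l : ℂ → ℂ := fun t => L.zm m t - k₁ * L.w₁ t - k₂ * L.w₂ t
  have hlan : ∀ t ∈ L.dsk, AnalyticAt ℂ l t := by
    intro t ht
    have h1 : AnalyticAt ℂ (L.zm m) t := by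
      have h2 : AnalyticAt ℂ (fun t => ∑ ν, (m ν : ℂ) * L.z ν t) t :=
        Finset.analyticAt_fun_sum _ fun ν _ => analyticAt_const.mul (L.z_an ν t ht)
      exact h2
    exact (h1.sub (analyticAt_const.mul (L.per.a₁ t ht))).sub
      (analyticAt_const.mul (L.per.a₂ t ht))
  have hexl : ∀ t ∈ L.dsk, ex t (l t) = ex t (L.zm m t) := by
    intro t ht
    have e1 : ex t ((k₁ : ℂ) * L.w₁ t) = 0 := by
      rw [← zsmul_eq_mul, map_zsmul, L.per.k₁ t ht, zsmul_zero]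
    have e2 : ex t ((k₂ : ℂ) * L.w₂ t) = 0 := by
      rw [← zsmul_eq_mul, map_zsmul, L.per.k₂ t ht, zsmul_zero]
    change ex t (L.zm m t - k₁ * L.w₁ t - k₂ * L.w₂ t) = _
    rw [map_sub, map_sub, e1, e2, sub_zero, sub_zero]
  have hG : ∀ i, AnalyticOnNhd ℂ (fun t => Complex.exp (-(b t₁ * l t ^ 2)) * Th (l t) t i)
      (Metric.closedBall t₁ r) := by
    intro i t ht
    have h1 := hlan t (hsub' ht)
    have h2 : AnalyticAt ℂ (fun s : ℂ => Th (l s) s i) t := LG_an h1 i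
    exact (((analyticAt_const.mul (h1.pow 2)).neg).cexp).mul h2
  refine ⟨fun t => Complex.exp (-(b t₁ * l t ^ 2)) * Th (l t) t 0,
    fun t => Complex.exp (-(b t₁ * l t ^ 2)) * Th (l t) t 3, hsub', hG 0, hG 3, ?_, ?_⟩
  · intro t ht
    have htL := hsub' ht
    have ht0 : t ≠ 0 := fun h => L.per.n0 (h ▸ htL)
    have ht1 : t ≠ 1 := fun h => L.per.n1 (h ▸ htL)
    obtain ⟨u₁, hu₁, e1⟩ := hex.pt t (l t) ht0 ht1
    obtain ⟨u₂, hu₂, e2⟩ := hex.pt t (L.zm m t) ht0 ht1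
    rw [hexl t htL] at e1
    have e3 : ∀ i, Th (l t) t i = u₁ / u₂ * Th (L.zm m t) t i := by
      intro i
      rw [e1, e2, Pi.smul_apply, Pi.smul_apply, smul_eq_mul, smul_eq_mul, ← mul_assoc,
        div_mul_cancel₀ _ hu₂]
    refine ⟨Complex.exp (-(b t₁ * l t ^ 2)) * (u₁ / u₂),
      mul_ne_zero (Complex.exp_ne_zero _) (div_ne_zero hu₁ hu₂), ?_, ?_⟩
    · rw [e3, mul_assoc]
    · rw [e3, mul_assoc]
  · intro t ht
    have htL := hsub' ht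
    have ht0 : t ≠ 0 := fun h => L.per.n0 (h ▸ htL)
    have ht1 : t ≠ 1 := fun h => L.per.n1 (h ▸ htL)
    have hts : ‖t - t₁‖ ≤ r := by rwa [Metric.mem_closedBall, dist_eq_norm] at ht
    have htK : t ∈ K := hball t₁ ht₁ t (hts.trans hr1)
    have ht₁K : t₁ ∈ K := hFK ht₁
    obtain ⟨hM, hlog⟩ := LG_log (hex.onJ t (l t) ht0 ht1) (hex.ne t (l t) ht0 ht1) (hR' t htK)
    have hlog2 := hCK t htK (l t)
    rw [hgq t ht0 ht1] at hlog2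
    -- the value
    have hval : Real.log (max ‖Complex.exp (-(b t₁ * l t ^ 2)) * Th (l t) t 0‖
        ‖Complex.exp (-(b t₁ * l t ^ 2)) * Th (l t) t 3‖) =
        -(b t₁ * l t ^ 2).re + Real.log (max ‖Th (l t) t 0‖ ‖Th (l t) t 3‖) := by
      rw [norm_mul, norm_mul, ← mul_max_of_nonneg _ _ (norm_nonneg _),
        Real.log_mul (norm_ne_zero_iff.2 (Complex.exp_ne_zero _)) hM.ne', Complex.norm_exp,
        Real.log_exp, Complex.neg_re]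
    change |Real.log (max ‖Complex.exp (-(b t₁ * l t ^ 2)) * Th (l t) t 0‖
        ‖Complex.exp (-(b t₁ * l t ^ 2)) * Th (l t) t 3‖) -
      Λ ^ 2 * L.ds w t₁ * ‖t - t₁‖ ^ 2| ≤ ε * Λ ^ 2 * r ^ 2
    rw [hval]
    have hd1 : dist t t₁ < δ₁ := by
      rw [dist_eq_norm]
      linarith
    have hd2 : dist t t₁ < δ₂ := by
      rw [dist_eq_norm]
      linarith
    have hω1 : |aq t - aq t₁| ≤ ε / (8 * B ^ 2) := (hu1 t htK t₁ ht₁K hd1).le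
    have hω2 : ‖b t - b t₁‖ ≤ ε / (8 * B ^ 2) := by
      have := (hu2 t htK t₁ ht₁K hd2).le
      rwa [dist_eq_norm] at this
    have hpn : ‖(Λ : ℂ) * L.th1 w t₁ * (t - t₁)‖ = Λ * ‖L.th1 w t₁‖ * ‖t - t₁‖ := by
      rw [norm_mul, norm_mul, Complex.norm_real, Real.norm_of_nonneg (by linarith)]
    have hnum := LG_num (aq := aq t) (a := aq t₁) (b := b t) (b1 := b t₁) (l := l t)
      (p := Λ * L.th1 w t₁ * (t - t₁)) (A := |A|) (ω := ε / (8 * B ^ 2)) (C₁ := C₁) (Θ := |Θ|)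
      (Λ := Λ) (r := r) (s := ‖t - t₁‖) (ε := ε) (C₃ := C₃) (hA' t₁ ht₁K) hω1 hω2 (by
        rw [hpn]
        refine mul_le_mul_of_nonneg_right ?_ (norm_nonneg _)
        exact mul_le_mul_of_nonneg_left (hΘ' t₁ ht₁) (by linarith))
      (hk t (Metric.closedBall_subset_closedBall hr1 ht)) (norm_nonneg _) hts hr4 hC₁
      (abs_nonneg _) hΛ1 hΛr (by
        rw [← hB, div_mul_cancel₀]
        positivity) hr5 hΛC hε
    have hp2 : aq t₁ * ‖(Λ : ℂ) * L.th1 w t₁ * (t - t₁)‖ ^ 2 =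
        Λ ^ 2 * L.ds w t₁ * ‖t - t₁‖ ^ 2 := by
      rw [hpn]
      unfold Loc1.ds
      ring
    rw [hp2] at hnum
    have hre : ((b t - b t₁) * l t ^ 2).re = (b t * l t ^ 2).re - (b t₁ * l t ^ 2).re := by
      rw [sub_mul, Complex.sub_re]
    have hsplit : -(b t₁ * l t ^ 2).re + Real.log (max ‖Th (l t) t 0‖ ‖Th (l t) t 3‖) -
        Λ ^ 2 * L.ds w t₁ * ‖t - t₁‖ ^ 2 =
        (Real.log (max ‖Th (l t) t 0‖ ‖Th (l t) t 3‖) - Real.log ‖Th (l t) t‖) +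
        (Real.log ‖Th (l t) t‖ - (aq t * ‖l t‖ ^ 2 + (b t * l t ^ 2).re)) +
        (aq t * ‖l t‖ ^ 2 - Λ ^ 2 * L.ds w t₁ * ‖t - t₁‖ ^ 2) +
        ((b t - b t₁) * l t ^ 2).re := by
      rw [hre]
      ring
    rw [hsplit]
    have h1 := abs_add_le ((Real.log (max ‖Th (l t) t 0‖ ‖Th (l t) t 3‖) -
      Real.log ‖Th (l t) t‖) + (Real.log ‖Th (l t) t‖ -
      (aq t * ‖l t‖ ^ 2 + (b t * l t ^ 2).re)) +
      (aq t * ‖l t‖ ^ 2 - Λ ^ 2 * L.ds w t₁ * ‖t - t₁‖ ^ 2)) ((b t - b t₁) * l t ^ 2).re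
    have h2 := abs_add_le ((Real.log (max ‖Th (l t) t 0‖ ‖Th (l t) t 3‖) -
      Real.log ‖Th (l t) t‖) + (Real.log ‖Th (l t) t‖ -
      (aq t * ‖l t‖ ^ 2 + (b t * l t ^ 2).re)))
      (aq t * ‖l t‖ ^ 2 - Λ ^ 2 * L.ds w t₁ * ‖t - t₁‖ ^ 2)
    have h3 := abs_add_le (Real.log (max ‖Th (l t) t 0‖ ‖Th (l t) t 3‖) -
      Real.log ‖Th (l t) t‖) (Real.log ‖Th (l t) t‖ -
      (aq t * ‖l t‖ ^ 2 + (b t * l t ^ 2).re))
    linarith

end EQ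

end Pool.Agent.ZR
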