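import Pool.Agent.ZR.EQ.St

/-!
# ZR, block EQ, module LG0 (helper91)

If the Betti form is zero on the disc, the coordinates of `m . P` are bounded, uniformly in `Λ`.
-/

set_option autoImplicit false

open scoped BigOperators ComplexConjugate
open Filter Topology MeasureTheory

namespace Pool.Agent.ZR

open Pool.Agent.ZPT Pool.Agent.ZPE

namespace EQ

/-- the norm of a point of the curve is bounded by the coordinates `0` and `3` -/
theorem LG0_norm {t : ℂ} {X : Fin 4 → ℂ} (h : OnJ t X) {T : ℝ} (hT : ‖t‖ ≤ T) :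
    ‖X‖ ≤ (2 + T) * max ‖X 0‖ ‖X 3‖ := by
  set M := max ‖X 0‖ ‖X 3‖ with hM
  have hM0 : 0 ≤ M := le_max_of_le_left (norm_nonneg _)
  have h0 : ‖X 0‖ ≤ M := le_max_left _ _
  have h3 : ‖X 3‖ ≤ M := le_max_right _ _
  have hT0 : 0 ≤ T := (norm_nonneg _).trans hT
  have hX0 : ‖X 0‖ ^ 2 ≤ M ^ 2 := pow_le_pow_left₀ (norm_nonneg _) h0 2
  have hX3 : ‖X 3‖ ^ 2 ≤ M ^ 2 := pow_le_pow_left₀ (norm_nonneg _) h3 2
  have key : ∀ z : ℂ, ‖z‖ ^ 2 ≤ (1 + T + 1) * M ^ 2 → ‖z‖ ≤ (2 + T) * M := by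
    intro z hz
    have : ‖z‖ ^ 2 ≤ ((2 + T) * M) ^ 2 := by
      refine hz.trans ?_
      nlinarith [mul_nonneg hT0 (sq_nonneg M), mul_nonneg (mul_nonneg hT0 hT0) (sq_nonneg M),
        sq_nonneg M]
    exact (sq_le_sq₀ (norm_nonneg _) (by positivity)).1 this
  refine (pi_norm_le_iff_of_nonneg (by positivity)).2 fun i => ?_
  fin_cases i
  · exact key _ (by
      show ‖X 0‖ ^ 2 ≤ _
      nlinarith [mul_nonneg hT0 (sq_nonneg M), sq_nonneg M])
  · refine key _ ?_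
    show ‖X 1‖ ^ 2 ≤ _
    have e : X 1 ^ 2 = X 3 ^ 2 - X 0 ^ 2 := by rw [← h.c]; ring
    have : ‖X 1‖ ^ 2 ≤ ‖X 3‖ ^ 2 + ‖X 0‖ ^ 2 := by
      rw [← norm_pow, e, ← norm_pow, ← norm_pow]
      exact norm_sub_le _ _
    nlinarith [mul_nonneg hT0 (sq_nonneg M), sq_nonneg M]
  · refine key _ ?_
    show ‖X 2‖ ^ 2 ≤ _
    have e : X 2 ^ 2 = X 3 ^ 2 - t * X 0 ^ 2 := by rw [← h.d]; ring
    have : ‖X 2‖ ^ 2 ≤ ‖X 3‖ ^ 2 + ‖t‖ * ‖X 0‖ ^ 2 := by
      rw [← norm_pow, e, ← norm_pow, ← norm_pow, ← norm_mul]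
      exact norm_sub_le _ _
    have h2 : ‖t‖ * ‖X 0‖ ^ 2 ≤ T * M ^ 2 :=
      mul_le_mul hT hX0 (by positivity) hT0
    nlinarith [sq_nonneg M]
  · exact key _ (by
      show ‖X 3‖ ^ 2 ≤ _
      nlinarith [mul_nonneg hT0 (sq_nonneg M), sq_nonneg M])

/-- the logarithm of the norm of a point of the curve and the coordinates `0` and `3` -/
theorem LG0_log {t : ℂ} {X : Fin 4 → ℂ} (h : OnJ t X) (hX : X ≠ 0) {T : ℝ} (hT : ‖t‖ ≤ T) :
    0 < max ‖X 0‖ ‖X 3‖ ∧ Real.log (max ‖X 0‖ ‖X 3‖) ≤ Real.log ‖X‖ ∧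
      Real.log ‖X‖ ≤ Real.log (max ‖X 0‖ ‖X 3‖) + Real.log (2 + T) := by
  have hT0 : 0 ≤ T := (norm_nonneg _).trans hT
  have hn : 0 < ‖X‖ := norm_pos_iff.2 hX
  have h1 := LG0_norm h hT
  have hM : 0 < max ‖X 0‖ ‖X 3‖ := by
    by_contra hc
    push Not at hc
    have : ‖X‖ ≤ 0 := h1.trans (mul_nonpos_of_nonneg_of_nonpos (by positivity) hc)
    linarith
  refine ⟨hM, Real.log_le_log hM (max_le (norm_le_pi_norm X 0) (norm_le_pi_norm X 3)), ?_⟩
  have := Real.log_le_log hn h1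
  rw [Real.log_mul (by positivity) hM.ne'] at this
  linarith

/-- points with the same exponential have proportional theta vectors -/
theorem LG0_pt {ex : (t : ℂ) → ℂ →+ LPt t} (hex : ExP ex) {t a b : ℂ} (h0 : t ≠ 0) (h1 : t ≠ 1)
    (hab : ex t a = ex t b) : ∃ u : ℂ, u ≠ 0 ∧ ∀ i, Th a t i = u * Th b t i := by
  obtain ⟨u, hu, e⟩ := hex.pt t a h0 h1
  obtain ⟨v, hv, e'⟩ := hex.pt t b h0 h1
  refine ⟨u / v, div_ne_zero hu hv, fun i => ?_⟩
  rw [e, e', hab]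
  simp only [Pi.smul_apply, smul_eq_mul]
  field_simp

theorem LG0_of (hC : St_CST) (hG : St_GRW) (hT : ThP) : St_LG0 := by
  intro ex hex V N _ _ C L w hw t₁ R hR hs
  have ht₁ : t₁ ∈ L.dsk := hs (Metric.mem_closedBall_self hR.le)
  have hopen : IsOpen L.dsk := Metric.isOpen_ball
  obtain ⟨b₁, b₂, hb⟩ := hC ex V N C L w t₁ ht₁
    ((hopen.eventually_mem ht₁).mono fun t ht => hw t ht)
  have hn0 : ∀ t ∈ L.dsk, t ≠ 0 := fun t ht h => L.per.n0 (by rw [← h]; exact ht)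
  have hn1 : ∀ t ∈ L.dsk, t ≠ 1 := fun t ht h => L.per.n1 (by rw [← h]; exact ht)
  obtain ⟨Cg, hCg, hgr⟩ := hG (Metric.closedBall t₁ R) (isCompact_closedBall t₁ R)
    (fun h => hn0 _ (hs h) rfl) (fun h => hn1 _ (hs h) rfl)
  have hcont : ContinuousOn (fun t => ∑ ν, ‖L.z ν t‖ + ‖L.w₁ t‖ + ‖L.w₂ t‖)
      (Metric.closedBall t₁ R) := by
    refine ((continuousOn_finsetSum _ fun ν _ => ?_).add ?_).add ?_
    · exact ((L.z_an ν).continuousOn.mono hs).norm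
    · exact (L.per.a₁.continuousOn.mono hs).norm
    · exact (L.per.a₂.continuousOn.mono hs).norm
  obtain ⟨B, hB⟩ := (isCompact_closedBall t₁ R).exists_bound_of_continuousOn hcont
  have hB0 : 0 ≤ B := (norm_nonneg _).trans (hB t₁ (Metric.mem_closedBall_self hR.le))
  have hlT : 0 ≤ Real.log (2 + (‖t₁‖ + R)) := Real.log_nonneg (by
    have := norm_nonneg t₁
    linarith)
  refine ⟨Cg * (B ^ 2 + 1) + Real.log (2 + (‖t₁‖ + R)), by positivity, fun Λ m hm => ?_⟩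
  set k₁ : ℤ := round (Λ * b₁) with hk₁
  set k₂ : ℤ := round (Λ * b₂) with hk₂
  set l : ℂ → ℂ := fun t => L.zm m t - k₁ * L.w₁ t - k₂ * L.w₂ t with hl
  have hlan : AnalyticOnNhd ℂ l (Metric.closedBall t₁ R) := by
    intro t ht
    have h1 := L.per.a₁ t (hs ht)
    have h2 := L.per.a₂ t (hs ht)
    have h3 : AnalyticAt ℂ (fun t => L.zm m t) t := by
      unfold Loc1.zm
      exact Finset.analyticAt_fun_sum _ fun ν _ => analyticAt_const.mul (L.z_an ν t (hs ht))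
    exact (h3.sub (analyticAt_const.mul h1)).sub (analyticAt_const.mul h2)
  have hGan : ∀ i, AnalyticOnNhd ℂ (fun t => Th (l t) t i) (Metric.closedBall t₁ R) := by
    intro i t ht
    have h1 : AnalyticAt ℂ (fun s => (l s, s)) t := (hlan t ht).prod analyticAt_id
    exact AnalyticAt.comp_of_eq (g := fun q : ℂ × ℂ => Th q.1 q.2 i) (f := fun s => (l s, s))
      (hT.an i (l t, t)) h1 rfl
  refine ⟨fun t => Th (l t) t 0, fun t => Th (l t) t 3, hs, hGan 0, hGan 3, ?_, ?_⟩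
  · intro t ht
    have he : ex t (l t) = ex t (L.zm m t) := by
      have e1 : ex t ((k₁ : ℂ) * L.w₁ t) = 0 := by
        rw [show (k₁ : ℂ) * L.w₁ t = k₁ • L.w₁ t by rw [zsmul_eq_mul], map_zsmul,
          L.per.k₁ t (hs ht), smul_zero]
      have e2 : ex t ((k₂ : ℂ) * L.w₂ t) = 0 := by
        rw [show (k₂ : ℂ) * L.w₂ t = k₂ • L.w₂ t by rw [zsmul_eq_mul], map_zsmul,
          L.per.k₂ t (hs ht), smul_zero]
      simp only [hl, map_sub, e1, e2, sub_zero]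
    obtain ⟨u, hu, h⟩ := LG0_pt hex (hn0 t (hs ht)) (hn1 t (hs ht)) he
    exact ⟨u, hu, h 0, h 3⟩
  · intro t ht
    have hz : L.zw w t = b₁ * L.w₁ t + b₂ * L.w₂ t := (hb t (hs ht)).1
    have hle : l t = ∑ ν, ((m ν : ℂ) - Λ * w ν) * L.z ν t + ((Λ : ℂ) * b₁ - k₁) * L.w₁ t +
        ((Λ : ℂ) * b₂ - k₂) * L.w₂ t := by
      have : ∑ ν, ((m ν : ℂ) - Λ * w ν) * L.z ν t = L.zm m t - Λ * L.zw w t := by
        unfold Loc1.zm Loc1.zw
        rw [Finset.mul_sum, ← Finset.sum_sub_distrib]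
        exact Finset.sum_congr rfl fun ν _ => by ring
      rw [this, hz]
      simp only [hl]
      ring
    have hr : ∀ x : ℝ, ‖((x : ℝ) : ℂ) - (round x : ℤ)‖ ≤ 1 := by
      intro x
      rw [show ((x : ℝ) : ℂ) - ((round x : ℤ) : ℂ) = ((x - round x : ℝ) : ℂ) by push_cast; ring,
        Complex.norm_real, Real.norm_eq_abs]
      exact (abs_sub_round x).trans (by norm_num)
    have hlB : ‖l t‖ ≤ B := by
      refine le_trans ?_ ((le_abs_self _).trans (hB t ht))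
      rw [hle]
      refine (norm_add_le _ _).trans (add_le_add ((norm_add_le _ _).trans
        (add_le_add ((norm_sum_le _ _).trans (Finset.sum_le_sum fun ν _ => ?_)) ?_)) ?_)
      · rw [norm_mul]
        have : ‖(m ν : ℂ) - Λ * w ν‖ ≤ 1 := by
          rw [show (m ν : ℂ) - Λ * w ν = (((m ν : ℝ) - Λ * w ν : ℝ) : ℂ) by push_cast; ring,
            Complex.norm_real, Real.norm_eq_abs]
          exact hm ν
        exact mul_le_of_le_one_left (norm_nonneg _) this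
      · rw [norm_mul]
        have := hr (Λ * b₁)
        rw [← hk₁] at this
        push_cast at this
        exact mul_le_of_le_one_left (norm_nonneg _) this
      · rw [norm_mul]
        have := hr (Λ * b₂)
        rw [← hk₂] at this
        push_cast at this
        exact mul_le_of_le_one_left (norm_nonneg _) this
    have htT : ‖t‖ ≤ ‖t₁‖ + R := by
      have h1 : ‖t - t₁‖ ≤ R := by
        rw [← dist_eq_norm]
        exact ht
      calc ‖t‖ = ‖t₁ + (t - t₁)‖ := by ring_nf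
        _ ≤ ‖t₁‖ + ‖t - t₁‖ := norm_add_le _ _
        _ ≤ ‖t₁‖ + R := by linarith
    obtain ⟨hp, hu, hd⟩ := LG0_log (hex.onJ t (l t) (hn0 t (hs ht)) (hn1 t (hs ht)))
      (hex.ne t (l t) (hn0 t (hs ht)) (hn1 t (hs ht))) htT
    have hgt := abs_le.1 (hgr t ht (l t))
    have hsq : ‖l t‖ ^ 2 ≤ B ^ 2 := pow_le_pow_left₀ (norm_nonneg _) hlB 2
    have hCB : Cg * (‖l t‖ ^ 2 + 1) ≤ Cg * (B ^ 2 + 1) :=
      mul_le_mul_of_nonneg_left (by linarith) hCg.le
    rw [zero_mul, sub_zero, abs_le]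
    constructor
    · linarith [hgt.1]
    · linarith [hgt.2]

end EQ

end Pool.Agent.ZR
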