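import Pool.Agent.ZR.EQ.St

/-!
# ZR, block EQ, module LINL: the logarithm of `m . P` near a point (helper30)
-/

set_option autoImplicit false

open scoped BigOperators ComplexConjugate
open Filter Topology MeasureTheory

namespace Pool.Agent.ZR

open Pool.Agent.ZPT Pool.Agent.ZPE

namespace EQ

/-- Taylor's formula with a uniform remainder -/
private theorem LINL_tay {O : Set ℂ} {g : ℂ → ℂ} (hg : AnalyticOnNhd ℂ g O)
    {F : Set ℂ} (hF : IsCompact F) {ρ : ℝ} (hsub : Metric.cthickening ρ F ⊆ O) :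
    ∃ C : ℝ, 0 ≤ C ∧ ∀ t₁ ∈ F, ∀ t ∈ Metric.closedBall t₁ ρ,
      ‖g t - g t₁ - deriv g t₁ * (t - t₁)‖ ≤ C * ‖t - t₁‖ ^ 2 := by
  have hK : IsCompact (Metric.cthickening ρ F) := hF.cthickening
  obtain ⟨C, hC⟩ := hK.exists_bound_of_continuousOn
    (hg.deriv.deriv.continuousOn.mono hsub)
  refine ⟨max C 0, le_max_right _ _, fun t₁ ht₁ t ht => ?_⟩
  have hb : Metric.closedBall t₁ ρ ⊆ Metric.cthickening ρ F :=
    Metric.closedBall_subset_cthickening ht₁ ρ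
  have hρ : 0 ≤ ρ := dist_nonneg.trans (Metric.mem_closedBall.1 ht)
  have h1 : ∀ s ∈ Metric.closedBall t₁ ρ, ‖deriv g s - deriv g t₁‖ ≤ max C 0 * ‖s - t₁‖ := by
    intro s hs
    exact Convex.norm_image_sub_le_of_norm_deriv_le (𝕜 := ℂ) (s := Metric.closedBall t₁ ρ)
      (fun x hx => (hg.deriv x (hsub (hb hx))).differentiableAt)
      (fun x hx => (hC x (hb hx)).trans (le_max_left _ _)) (convex_closedBall _ _)
      (Metric.mem_closedBall_self hρ) hs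
  have hbt : Metric.closedBall t₁ ‖t - t₁‖ ⊆ Metric.closedBall t₁ ρ := by
    apply Metric.closedBall_subset_closedBall
    rw [← dist_eq_norm]
    exact Metric.mem_closedBall.1 ht
  have hd : ∀ x ∈ Metric.closedBall t₁ ‖t - t₁‖,
      HasDerivAt (fun s => g s - deriv g t₁ * s) (deriv g x - deriv g t₁ * 1) x := fun x hx =>
    ((hg x (hsub (hb (hbt hx)))).differentiableAt.hasDerivAt).sub
      ((hasDerivAt_id x).const_mul _)
  have h2 := Convex.norm_image_sub_le_of_norm_deriv_le (𝕜 := ℂ)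
    (f := fun s => g s - deriv g t₁ * s) (C := max C 0 * ‖t - t₁‖)
    (s := Metric.closedBall t₁ ‖t - t₁‖)
    (fun x hx => (hd x hx).differentiableAt)
    (fun x hx => by
      rw [(hd x hx).deriv, mul_one]
      refine (h1 x (hbt hx)).trans (mul_le_mul_of_nonneg_left ?_ (le_max_right _ _))
      rw [← dist_eq_norm]
      exact Metric.mem_closedBall.1 hx) (convex_closedBall _ _)
    (Metric.mem_closedBall_self (norm_nonneg _))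
    (show t ∈ Metric.closedBall t₁ ‖t - t₁‖ by
      rw [Metric.mem_closedBall, dist_eq_norm])
  have h3 : g t - g t₁ - deriv g t₁ * (t - t₁) =
      (g t - deriv g t₁ * t) - (g t₁ - deriv g t₁ * t₁) := by ring
  rw [h3]
  refine h2.trans (le_of_eq ?_)
  ring

private theorem LINL_be (a b z : ℂ) (h : (a * conj b).im ≠ 0) :
    z = (be1 a b z : ℂ) * a + (be2 a b z : ℂ) * b := by
  have h1 : (b * conj a).im = -(a * conj b).im := by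
    simp only [Complex.mul_im, Complex.conj_re, Complex.conj_im]
    ring
  have key : (((a * conj b).im : ℝ) : ℂ) * z =
      (((z * conj b).im : ℝ) : ℂ) * a - (((z * conj a).im : ℝ) : ℂ) * b := by
    apply Complex.ext
    · rw [Complex.re_ofReal_mul, Complex.sub_re, Complex.re_ofReal_mul, Complex.re_ofReal_mul]
      simp only [Complex.mul_im, Complex.conj_re, Complex.conj_im]
      ring
    · rw [Complex.im_ofReal_mul, Complex.sub_im, Complex.im_ofReal_mul, Complex.im_ofReal_mul]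
      simp only [Complex.mul_im, Complex.conj_re, Complex.conj_im]
      ring
  have hD : (((a * conj b).im : ℝ) : ℂ) ≠ 0 := Complex.ofReal_ne_zero.2 h
  rw [be1, be2, h1, Complex.ofReal_div, Complex.ofReal_div, Complex.ofReal_neg]
  rw [div_mul_eq_mul_div, div_mul_eq_mul_div, div_neg, ← sub_eq_add_neg, ← sub_div, ← key,
    mul_div_cancel_left₀ _ hD]

private theorem LINL_be1_sum {N : Type} [Fintype N] (a b : ℂ) (w : N → ℝ) (z : N → ℂ) :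
    be1 a b (∑ ν, (w ν : ℂ) * z ν) = ∑ ν, w ν * be1 a b (z ν) := by
  simp only [be1]
  rw [Finset.sum_mul, Complex.im_sum, Finset.sum_div]
  refine Finset.sum_congr rfl fun ν _ => ?_
  rw [mul_assoc, Complex.im_ofReal_mul, mul_div_assoc]

private theorem LINL_be2_sum {N : Type} [Fintype N] (a b : ℂ) (w : N → ℝ) (z : N → ℂ) :
    be2 a b (∑ ν, (w ν : ℂ) * z ν) = ∑ ν, w ν * be2 a b (z ν) := by
  simp only [be2]
  rw [Finset.sum_mul, Complex.im_sum, Finset.sum_div]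
  refine Finset.sum_congr rfl fun ν _ => ?_
  rw [mul_assoc, Complex.im_ofReal_mul, mul_div_assoc]

/-- rounding a combination -/
private theorem LINL_round {N : Type} [Fintype N] {Λ : ℝ} (hΛ : 1 ≤ Λ) (m : N → ℤ) (S b B : N → ℝ)
    (hm : ∀ ν, |(m ν : ℝ)| ≤ Λ * S ν) (hb : ∀ ν, |b ν| ≤ B ν) :
    |(round (∑ ν, (m ν : ℝ) * b ν) : ℝ)| ≤ Λ * (∑ ν, S ν * B ν + 1) ∧
      |∑ ν, (m ν : ℝ) * b ν - round (∑ ν, (m ν : ℝ) * b ν)| ≤ 1 := by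
  have h1 := abs_sub_round (∑ ν, (m ν : ℝ) * b ν)
  have h2 : |∑ ν, (m ν : ℝ) * b ν| ≤ Λ * ∑ ν, S ν * B ν := by
    refine (Finset.abs_sum_le_sum_abs _ _).trans ?_
    rw [Finset.mul_sum]
    refine Finset.sum_le_sum fun ν _ => ?_
    rw [abs_mul, ← mul_assoc]
    exact mul_le_mul (hm ν) (hb ν) (abs_nonneg _) ((abs_nonneg _).trans (hm ν))
  refine ⟨?_, h1.trans (by norm_num)⟩
  have h3 : |(round (∑ ν, (m ν : ℝ) * b ν) : ℝ)| ≤ |∑ ν, (m ν : ℝ) * b ν| +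
      |∑ ν, (m ν : ℝ) * b ν - round (∑ ν, (m ν : ℝ) * b ν)| := by
    have h4 := abs_sub_abs_le_abs_sub (round (∑ ν, (m ν : ℝ) * b ν) : ℝ) (∑ ν, (m ν : ℝ) * b ν)
    rw [abs_sub_comm] at h4
    linarith
  rw [mul_add, mul_one]
  linarith

theorem LINL_of (h : St_ETA1) : St_LINL := by
  classical
  intro ex V N _ _ C L F hF hFL w
  have hO : IsOpen L.dsk := Metric.isOpen_ball
  obtain ⟨ρ₀, hρ₀, hsub₀⟩ := hF.exists_cthickening_subset_open hO hFL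
  set ρ : ℝ := min ρ₀ 1 with hρd
  have hρ : 0 < ρ := lt_min hρ₀ one_pos
  have hρ1 : ρ ≤ 1 := min_le_right _ _
  have hsub : Metric.cthickening ρ F ⊆ L.dsk :=
    (Metric.cthickening_mono (min_le_left _ _) F).trans hsub₀
  -- the bounds
  choose Cz hCz0 hCz using fun ν => LINL_tay (L.z_an ν) hF hsub
  obtain ⟨C₁, hC₁0, hC₁⟩ := LINL_tay L.per.a₁ hF hsub
  obtain ⟨C₂, hC₂0, hC₂⟩ := LINL_tay L.per.a₂ hF hsub
  have hw₁c : ContinuousOn L.w₁ F := L.per.a₁.continuousOn.mono hFL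
  have hw₂c : ContinuousOn L.w₂ F := L.per.a₂.continuousOn.mono hFL
  have hzc : ∀ ν, ContinuousOn (L.z ν) F := fun ν => (L.z_an ν).continuousOn.mono hFL
  obtain ⟨B₁, hB₁⟩ := hF.exists_bound_of_continuousOn hw₁c
  obtain ⟨B₂, hB₂⟩ := hF.exists_bound_of_continuousOn hw₂c
  obtain ⟨D₁, hD₁⟩ := hF.exists_bound_of_continuousOn (L.per.a₁.deriv.continuousOn.mono hFL)
  obtain ⟨D₂, hD₂⟩ := hF.exists_bound_of_continuousOn (L.per.a₂.deriv.continuousOn.mono hFL)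
  have hb1 : ∀ ν, ∃ B : ℝ, ∀ t ∈ F, ‖be1 (L.w₁ t) (L.w₂ t) (L.z ν t)‖ ≤ B := fun ν =>
    hF.exists_bound_of_continuousOn (by
      unfold be1
      refine ContinuousOn.div ?_ ?_ fun t ht => L.per.im t (hFL ht)
      · exact Complex.continuous_im.comp_continuousOn
          ((hzc ν).mul (Complex.continuous_conj.comp_continuousOn hw₂c))
      · exact Complex.continuous_im.comp_continuousOn
          (hw₁c.mul (Complex.continuous_conj.comp_continuousOn hw₂c)))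
  have hb2 : ∀ ν, ∃ B : ℝ, ∀ t ∈ F, ‖be2 (L.w₁ t) (L.w₂ t) (L.z ν t)‖ ≤ B := fun ν =>
    hF.exists_bound_of_continuousOn (by
      unfold be2
      refine ContinuousOn.div ?_ ?_ fun t ht => ?_
      · exact Complex.continuous_im.comp_continuousOn
          ((hzc ν).mul (Complex.continuous_conj.comp_continuousOn hw₁c))
      · exact Complex.continuous_im.comp_continuousOn
          (hw₂c.mul (Complex.continuous_conj.comp_continuousOn hw₁c))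
      · have h1 := L.per.im t (hFL ht)
        have h2 : (L.w₂ t * conj (L.w₁ t)).im = -(L.w₁ t * conj (L.w₂ t)).im := by
          simp only [Complex.mul_im, Complex.conj_re, Complex.conj_im]
          ring
        rw [h2]
        exact neg_ne_zero.2 h1)
  choose E₁ hE₁ using hb1
  choose E₂ hE₂ using hb2
  choose T hT using fun ν : N => hF.exists_bound_of_continuousOn
    (((h ex V N C L).2 (Pi.single ν 1)).mono hFL)
  -- the constants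
  set S : N → ℝ := fun ν => |w ν| + 1 with hS
  set K₁ : ℝ := ∑ ν, S ν * E₁ ν + 1 with hK₁
  set K₂ : ℝ := ∑ ν, S ν * E₂ ν + 1 with hK₂
  set M : ℝ := ∑ ν, S ν * Cz ν + K₁ * C₁ + K₂ * C₂ with hM
  set M' : ℝ := B₁ + B₂ + (∑ ν, T ν + D₁ + D₂) with hM'
  refine ⟨ρ, max 1 (max M M'), hρ, le_max_left _ _, fun t₁ ht₁ => ⟨?_, ?_⟩⟩
  · exact (Metric.closedBall_subset_cthickening ht₁ ρ).trans hsub
  intro Λ m hΛ hm
  have hΛ0 : 0 ≤ Λ := zero_le_one.trans hΛ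
  have hmS : ∀ ν, |(m ν : ℝ)| ≤ Λ * S ν := by
    intro ν
    have h1 := hm ν
    have h2 := abs_sub_abs_le_abs_sub (m ν : ℝ) (Λ * w ν)
    rw [abs_mul, abs_of_nonneg hΛ0] at h2
    simp only [hS]
    nlinarith
  set β₁ : ℝ := ∑ ν, (m ν : ℝ) * be1 (L.w₁ t₁) (L.w₂ t₁) (L.z ν t₁) with hβ₁
  set β₂ : ℝ := ∑ ν, (m ν : ℝ) * be2 (L.w₁ t₁) (L.w₂ t₁) (L.z ν t₁) with hβ₂
  obtain ⟨hk₁, hr₁⟩ := LINL_round hΛ m S (fun ν => be1 (L.w₁ t₁) (L.w₂ t₁) (L.z ν t₁)) E₁ hmS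
    (fun ν => hE₁ ν t₁ ht₁)
  obtain ⟨hk₂, hr₂⟩ := LINL_round hΛ m S (fun ν => be2 (L.w₁ t₁) (L.w₂ t₁) (L.z ν t₁)) E₂ hmS
    (fun ν => hE₂ ν t₁ ht₁)
  simp only [← hβ₁, ← hβ₂, ← hK₁, ← hK₂] at hk₁ hr₁ hk₂ hr₂
  refine ⟨round β₁, round β₂, fun t ht => ?_⟩
  have htρ : ‖t - t₁‖ ≤ 1 := by
    rw [← dist_eq_norm]
    exact (Metric.mem_closedBall.1 ht).trans hρ1
  -- the linear forms
  obtain ⟨θ, hθ⟩ := (h ex V N C L).1 t₁ (hFL ht₁)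
  have hθs : ∀ v : N → ℝ, L.th1 v t₁ = ∑ ν, (v ν : ℂ) * L.th1 (Pi.single ν 1) t₁ := by
    intro v
    rw [← hθ v]
    have h1 : v = ∑ ν, v ν • (Pi.single ν 1 : N → ℝ) := by
      funext j
      rw [Finset.sum_apply, Finset.sum_eq_single j]
      · simp
      · intro b _ hb
        rw [Pi.smul_apply, Pi.single_eq_of_ne hb.symm, smul_zero]
      · intro hj
        exact absurd (Finset.mem_univ j) hj
    conv_lhs => rw [h1]
    rw [map_sum]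
    refine Finset.sum_congr rfl fun ν _ => ?_
    rw [map_smul, hθ, Complex.real_smul]
  have hzm : L.zw (fun ν => (m ν : ℝ)) = L.zm m := by
    funext s
    unfold Loc1.zw Loc1.zm
    refine Finset.sum_congr rfl fun ν _ => ?_
    rw [Complex.ofReal_intCast]
  have hdz : deriv (L.zm m) t₁ = ∑ ν, (m ν : ℂ) * deriv (L.z ν) t₁ := by
    have h1 : HasDerivAt (fun s => ∑ ν, (m ν : ℂ) * L.z ν s)
        (∑ ν, (m ν : ℂ) * deriv (L.z ν) t₁) t₁ :=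
      HasDerivAt.fun_sum fun ν _ =>
        ((L.z_an ν t₁ (hFL ht₁)).differentiableAt.hasDerivAt).const_mul _
    exact h1.deriv
  have hz₁ : L.zm m t₁ = ∑ ν, (((m ν : ℝ)) : ℂ) * L.z ν t₁ := by
    unfold Loc1.zm
    refine Finset.sum_congr rfl fun ν _ => ?_
    rw [Complex.ofReal_intCast]
  have he1 : be1 (L.w₁ t₁) (L.w₂ t₁) (L.zm m t₁) = β₁ := by
    rw [hz₁, LINL_be1_sum]
  have he2 : be2 (L.w₁ t₁) (L.w₂ t₁) (L.zm m t₁) = β₂ := by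
    rw [hz₁, LINL_be2_sum]
  have hval : L.zm m t₁ = (β₁ : ℂ) * L.w₁ t₁ + (β₂ : ℂ) * L.w₂ t₁ := by
    have h1 := LINL_be (L.w₁ t₁) (L.w₂ t₁) (L.zm m t₁) (L.per.im t₁ (hFL ht₁))
    rw [he1, he2] at h1
    exact h1
  have hth : L.th1 (fun ν => (m ν : ℝ)) t₁ = ∑ ν, (m ν : ℂ) * deriv (L.z ν) t₁ -
      (β₁ : ℂ) * deriv L.w₁ t₁ - (β₂ : ℂ) * deriv L.w₂ t₁ := by
    unfold Loc1.th1
    rw [hzm, hdz, he1, he2]
  have hdiff : L.th1 (fun ν => (m ν : ℝ)) t₁ - Λ * L.th1 w t₁ =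
      ∑ ν, (((m ν : ℝ) - Λ * w ν : ℝ) : ℂ) * L.th1 (Pi.single ν 1) t₁ := by
    rw [hθs (fun ν => (m ν : ℝ)), hθs w, Finset.mul_sum, ← Finset.sum_sub_distrib]
    refine Finset.sum_congr rfl fun ν _ => ?_
    push_cast
    ring
  -- the decomposition
  have key : L.zm m t - (round β₁ : ℤ) * L.w₁ t - (round β₂ : ℤ) * L.w₂ t -
      Λ * L.th1 w t₁ * (t - t₁) =
      (∑ ν, (m ν : ℂ) * (L.z ν t - L.z ν t₁ - deriv (L.z ν) t₁ * (t - t₁)) -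
        (round β₁ : ℤ) * (L.w₁ t - L.w₁ t₁ - deriv L.w₁ t₁ * (t - t₁)) -
        (round β₂ : ℤ) * (L.w₂ t - L.w₂ t₁ - deriv L.w₂ t₁ * (t - t₁))) +
      ((((β₁ - round β₁ : ℝ) : ℂ) * L.w₁ t₁ + ((β₂ - round β₂ : ℝ) : ℂ) * L.w₂ t₁) +
      (∑ ν, (((m ν : ℝ) - Λ * w ν : ℝ) : ℂ) * L.th1 (Pi.single ν 1) t₁ +
        ((β₁ - round β₁ : ℝ) : ℂ) * deriv L.w₁ t₁ +
        ((β₂ - round β₂ : ℝ) : ℂ) * deriv L.w₂ t₁) * (t - t₁)) := by
    rw [← hdiff, hth]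
    have h1 : ∑ ν, (m ν : ℂ) * (L.z ν t - L.z ν t₁ - deriv (L.z ν) t₁ * (t - t₁)) =
        L.zm m t - L.zm m t₁ - (∑ ν, (m ν : ℂ) * deriv (L.z ν) t₁) * (t - t₁) := by
      unfold Loc1.zm
      rw [Finset.sum_mul, ← Finset.sum_sub_distrib, ← Finset.sum_sub_distrib]
      refine Finset.sum_congr rfl fun ν _ => ?_
      ring
    rw [h1, hval]
    push_cast
    ring
  rw [key]
  have hn1 : ‖∑ ν, (m ν : ℂ) * (L.z ν t - L.z ν t₁ - deriv (L.z ν) t₁ * (t - t₁))‖ ≤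
      Λ * (∑ ν, S ν * Cz ν) * ‖t - t₁‖ ^ 2 := by
    refine (norm_sum_le _ _).trans ?_
    rw [Finset.mul_sum, Finset.sum_mul]
    refine Finset.sum_le_sum fun ν _ => ?_
    rw [norm_mul, Complex.norm_intCast]
    have h1 := hCz ν t₁ ht₁ t ht
    have h2 := hmS ν
    calc |(m ν : ℝ)| * ‖L.z ν t - L.z ν t₁ - deriv (L.z ν) t₁ * (t - t₁)‖
        ≤ (Λ * S ν) * (Cz ν * ‖t - t₁‖ ^ 2) :=
          mul_le_mul h2 h1 (norm_nonneg _) ((abs_nonneg _).trans h2)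
      _ = Λ * (S ν * Cz ν) * ‖t - t₁‖ ^ 2 := by ring
  have hn2 : ‖((round β₁ : ℤ) : ℂ) * (L.w₁ t - L.w₁ t₁ - deriv L.w₁ t₁ * (t - t₁))‖ ≤
      Λ * (K₁ * C₁) * ‖t - t₁‖ ^ 2 := by
    rw [norm_mul, Complex.norm_intCast]
    calc |((round β₁ : ℤ) : ℝ)| * ‖L.w₁ t - L.w₁ t₁ - deriv L.w₁ t₁ * (t - t₁)‖
        ≤ (Λ * K₁) * (C₁ * ‖t - t₁‖ ^ 2) :=
          mul_le_mul hk₁ (hC₁ t₁ ht₁ t ht) (norm_nonneg _) ((abs_nonneg _).trans hk₁)
      _ = Λ * (K₁ * C₁) * ‖t - t₁‖ ^ 2 := by ring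
  have hn3 : ‖((round β₂ : ℤ) : ℂ) * (L.w₂ t - L.w₂ t₁ - deriv L.w₂ t₁ * (t - t₁))‖ ≤
      Λ * (K₂ * C₂) * ‖t - t₁‖ ^ 2 := by
    rw [norm_mul, Complex.norm_intCast]
    calc |((round β₂ : ℤ) : ℝ)| * ‖L.w₂ t - L.w₂ t₁ - deriv L.w₂ t₁ * (t - t₁)‖
        ≤ (Λ * K₂) * (C₂ * ‖t - t₁‖ ^ 2) :=
          mul_le_mul hk₂ (hC₂ t₁ ht₁ t ht) (norm_nonneg _) ((abs_nonneg _).trans hk₂)
      _ = Λ * (K₂ * C₂) * ‖t - t₁‖ ^ 2 := by ring
  have hone : ∀ (x : ℝ) (y : ℂ) (B : ℝ), |x| ≤ 1 → ‖y‖ ≤ B → ‖(x : ℂ) * y‖ ≤ B := by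
    intro x y B hx hy
    rw [norm_mul, Complex.norm_real, Real.norm_eq_abs]
    calc |x| * ‖y‖ ≤ 1 * B := mul_le_mul hx hy (norm_nonneg _) zero_le_one
      _ = B := one_mul _
  have hn4 : ‖((β₁ - round β₁ : ℝ) : ℂ) * L.w₁ t₁ + ((β₂ - round β₂ : ℝ) : ℂ) * L.w₂ t₁‖ ≤
      B₁ + B₂ :=
    (norm_add_le _ _).trans (add_le_add (hone _ _ _ hr₁ (hB₁ t₁ ht₁))
      (hone _ _ _ hr₂ (hB₂ t₁ ht₁)))
  have hn5 : ‖(∑ ν, (((m ν : ℝ) - Λ * w ν : ℝ) : ℂ) * L.th1 (Pi.single ν 1) t₁ +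
        ((β₁ - round β₁ : ℝ) : ℂ) * deriv L.w₁ t₁ +
        ((β₂ - round β₂ : ℝ) : ℂ) * deriv L.w₂ t₁) * (t - t₁)‖ ≤ ∑ ν, T ν + D₁ + D₂ := by
    have h1 : ‖∑ ν, (((m ν : ℝ) - Λ * w ν : ℝ) : ℂ) * L.th1 (Pi.single ν 1) t₁ +
        ((β₁ - round β₁ : ℝ) : ℂ) * deriv L.w₁ t₁ +
        ((β₂ - round β₂ : ℝ) : ℂ) * deriv L.w₂ t₁‖ ≤ ∑ ν, T ν + D₁ + D₂ := by
      refine (norm_add_le _ _).trans (add_le_add ((norm_add_le _ _).trans (add_le_add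
        ((norm_sum_le _ _).trans (Finset.sum_le_sum fun ν _ => ?_))
        (hone _ _ _ hr₁ (hD₁ t₁ ht₁)))) (hone _ _ _ hr₂ (hD₂ t₁ ht₁)))
      exact hone _ _ _ (hm ν) (hT ν t₁ ht₁)
    rw [norm_mul]
    calc _ ≤ (∑ ν, T ν + D₁ + D₂) * 1 := mul_le_mul h1 htρ (norm_nonneg _)
          ((norm_nonneg _).trans h1)
      _ = _ := mul_one _
  have htot : ‖(∑ ν, (m ν : ℂ) * (L.z ν t - L.z ν t₁ - deriv (L.z ν) t₁ * (t - t₁)) -
        (round β₁ : ℤ) * (L.w₁ t - L.w₁ t₁ - deriv L.w₁ t₁ * (t - t₁)) -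
        (round β₂ : ℤ) * (L.w₂ t - L.w₂ t₁ - deriv L.w₂ t₁ * (t - t₁))) +
      ((((β₁ - round β₁ : ℝ) : ℂ) * L.w₁ t₁ + ((β₂ - round β₂ : ℝ) : ℂ) * L.w₂ t₁) +
      (∑ ν, (((m ν : ℝ) - Λ * w ν : ℝ) : ℂ) * L.th1 (Pi.single ν 1) t₁ +
        ((β₁ - round β₁ : ℝ) : ℂ) * deriv L.w₁ t₁ +
        ((β₂ - round β₂ : ℝ) : ℂ) * deriv L.w₂ t₁) * (t - t₁))‖ ≤
      (Λ * (∑ ν, S ν * Cz ν) * ‖t - t₁‖ ^ 2 + Λ * (K₁ * C₁) * ‖t - t₁‖ ^ 2 +
        Λ * (K₂ * C₂) * ‖t - t₁‖ ^ 2) + ((B₁ + B₂) + (∑ ν, T ν + D₁ + D₂)) := by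
    refine (norm_add_le _ _).trans (add_le_add ?_ ((norm_add_le _ _).trans (add_le_add hn4 hn5)))
    refine (norm_sub_le _ _).trans (add_le_add ((norm_sub_le _ _).trans (add_le_add hn1 hn2)) hn3)
  refine htot.trans ?_
  have hq : 0 ≤ Λ * ‖t - t₁‖ ^ 2 := mul_nonneg hΛ0 (sq_nonneg _)
  have hM1 : M ≤ max 1 (max M M') := (le_max_left _ _).trans (le_max_right _ _)
  have hM2 : M' ≤ max 1 (max M M') := (le_max_right _ _).trans (le_max_right _ _)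
  have h1 : M * (Λ * ‖t - t₁‖ ^ 2) ≤ max 1 (max M M') * (Λ * ‖t - t₁‖ ^ 2) :=
    mul_le_mul_of_nonneg_right hM1 hq
  have h2 : (Λ * (∑ ν, S ν * Cz ν) * ‖t - t₁‖ ^ 2 + Λ * (K₁ * C₁) * ‖t - t₁‖ ^ 2 +
        Λ * (K₂ * C₂) * ‖t - t₁‖ ^ 2) + ((B₁ + B₂) + (∑ ν, T ν + D₁ + D₂)) =
      M * (Λ * ‖t - t₁‖ ^ 2) + M' := by
    rw [hM, hM']
    ring
  rw [h2, mul_add, mul_one]
  linarith

end EQ

end Pool.Agent.ZR
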