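import Pool.Agent.ZR.EQ.St

/-!
# ZR, block EQ: the degree of `X₀ / X₃` is at least `(2 Λ² / π) ∫ s_w`, sharp
-/

set_option autoImplicit false

open scoped BigOperators ComplexConjugate
open Filter Topology MeasureTheory

namespace Pool.Agent.ZR

open Pool.Agent.ZPT Pool.Agent.ZPE

namespace EQ

/-- the disc avoids `0` and `1` -/
private theorem LOW_ne {ex : (t : ℂ) → ℂ →+ LPt t} {V N : Type} [Fintype V] [Fintype N]
    {C : JCh V N} (L : Loc1 ex C) : L.dsk ⊆ {t : ℂ | t ≠ 0 ∧ t ≠ 1} := by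
  intro t ht
  refine ⟨?_, ?_⟩
  · rintro rfl
    exact L.per.n0 ht
  · rintro rfl
    exact L.per.n1 ht

/-- the density is continuous on the disc -/
private theorem LOW_cont (hE : St_ETA1) (hQ : St_GQF) {ex : (t : ℂ) → ℂ →+ LPt t} {V N : Type}
    [Fintype V] [Fintype N] {C : JCh V N} (L : Loc1 ex C) (w : N → ℝ) :
    ContinuousOn (L.ds w) L.dsk := by
  obtain ⟨b, ha, -, -, -⟩ := hQ
  have h1 : ContinuousOn aq L.dsk := ha.mono (LOW_ne L)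
  have h2 : ContinuousOn (L.th1 w) L.dsk := (hE ex V N C L).2 w
  exact h1.mul (h2.norm.pow 2)

/-- the density is nonnegative on the disc -/
private theorem LOW_nn (hQ : St_GQF) {ex : (t : ℂ) → ℂ →+ LPt t} {V N : Type}
    [Fintype V] [Fintype N] {C : JCh V N} (L : Loc1 ex C) (w : N → ℝ) :
    ∀ t ∈ L.dsk, 0 ≤ L.ds w t := by
  obtain ⟨b, -, -, hp, -⟩ := hQ
  intro t ht
  obtain ⟨h0, h1⟩ := LOW_ne L ht
  exact mul_nonneg (hp t h0 h1).le (by positivity)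

/-- the choice of `δ` -/
private theorem LOW_del (I ε : ℝ) (hI : 0 ≤ I) (hε : 0 < ε) : ∃ δ : ℝ, 0 < δ ∧
    ∀ P : ℝ, I - ε / 4 ≤ P → I - ε / 2 ≤ P / (1 + δ) ^ 2 := by
  refine ⟨ε / (8 * (I + 1)), by positivity, ?_⟩
  intro P hP
  set δ := ε / (8 * (I + 1)) with hδ
  have hδ0 : 0 < δ := by positivity
  have h1 : δ * (8 * (I + 1)) = ε := by
    rw [hδ]; field_simp
  rw [le_div_iff₀ (by positivity)]
  by_cases hs : I - ε / 2 ≤ 0
  · by_cases hP0 : 0 ≤ P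
    · have : (I - ε / 2) * (1 + δ) ^ 2 ≤ 0 := mul_nonpos_of_nonpos_of_nonneg hs (by positivity)
      linarith
    · push Not at hP0
      have h2 : (1 : ℝ) ≤ (1 + δ) ^ 2 := by nlinarith
      nlinarith
  · push Not at hs
    have h3 : δ * I ≤ ε / 8 := by nlinarith
    have h4 : (I - ε / 2) * (1 + δ) ^ 2 ≤ I - ε / 4 := by
      nlinarith [mul_pos hδ0 hδ0, mul_pos hs hδ0, mul_pos hs (mul_pos hδ0 hδ0), mul_pos hε hδ0]
    linarith

theorem LOW_of : St_LG → St_SHC → St_PACB → St_ETA1 → St_GQF → St_LOW := by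
  intro hLG hSHC hPAC hE hQ ex hex V N _ _ C hV J _ T w ε hε
  classical
  -- the sizes
  set I : ℝ := ∑ j, ∫ t in T.F j, (T.L j).ds w t with hIdef
  have hI0 : 0 ≤ I := by
    refine Finset.sum_nonneg fun j _ => ?_
    exact setIntegral_nonneg (T.cpt j).measurableSet fun t ht => LOW_nn hQ (T.L j) w t (T.Fb j ht)
  set S : ℝ := ∑ j, (volume (T.F j)).toReal with hSdef
  have hS0 : 0 ≤ S := Finset.sum_nonneg fun j _ => ENNReal.toReal_nonneg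
  obtain ⟨δ, hδ0, hδ⟩ := LOW_del I ε hI0 hε
  have hlog : 0 < Real.log (1 + δ) := Real.log_pos (by linarith)
  set ε₂ : ℝ := ε * Real.log (1 + δ) / (4 * (S + 1)) with hε₂def
  have hε₂ : 0 < ε₂ := by positivity
  set ε₁ : ℝ := ε / (4 * ((Fintype.card J : ℝ) + 1)) with hε₁def
  have hε₁ : 0 < ε₁ := by positivity
  -- the radii from the local growth
  have hr : ∀ j, ∃ r₀ : ℝ, 0 < r₀ ∧ ∀ t₁ ∈ T.F j, ∀ r : ℝ, 0 < r → r ≤ r₀ → ∃ Λ₀ : ℝ, 0 < Λ₀ ∧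
      ∀ Λ : ℝ, Λ₀ ≤ Λ → ∀ m : N → ℤ, Near w Λ m → ∃ G₀ G₃ : ℂ → ℂ,
        Gau (T.L j) m t₁ r (Λ ^ 2 * (T.L j).ds w t₁) (ε₂ * Λ ^ 2 * r ^ 2) G₀ G₃ := fun j =>
    hLG ex hex V N C (T.L j) (T.F j) (T.cpt j) (T.Fb j) w ε₂ hε₂
  choose r₀ hr₀ hG using hr
  -- the packings
  have hB : ∀ j, ∃ B : Finset (ℂ × ℝ),
      (∀ b ∈ B, 0 < b.2 ∧ b.2 ≤ r₀ j ∧ Metric.closedBall b.1 b.2 ⊆ T.O j) ∧
      (∀ b ∈ B, ∀ b' ∈ B, b ≠ b' →
        Disjoint (Metric.closedBall b.1 b.2) (Metric.closedBall b'.1 b'.2)) ∧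
      (∫ t in T.F j, (T.L j).ds w t) - ε₁ ≤
        ∑ b ∈ B, (T.L j).ds w b.1 * (Real.pi * b.2 ^ 2) ∧
      ∑ b ∈ B, Real.pi * b.2 ^ 2 ≤ (volume (T.F j)).toReal := fun j =>
    hPAC (T.O j) (T.F j) (T.L j).dsk ((T.L j).ds w) (T.opn j) (T.cpt j) (T.OF j)
      Metric.isOpen_ball (T.Fb j) (LOW_cont hE hQ (T.L j) w) (LOW_nn hQ (T.L j) w) (T.nul j)
      ε₁ (r₀ j) hε₁ (hr₀ j)
  choose B hB1 hB2 hB3 hB4 using hB
  -- the index set of all discs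
  let J' : Type := Σ j, {b : ℂ × ℝ // b ∈ B j}
  have hctr : ∀ b : J', b.2.1.1 ∈ T.F b.1 := fun b => by
    obtain ⟨h1, -, h3⟩ := hB1 b.1 b.2.1 b.2.2
    exact T.OF b.1 (h3 (Metric.mem_closedBall_self h1.le))
  have hΛ : ∀ b : J', ∃ Λ₀ : ℝ, 0 < Λ₀ ∧ ∀ Λ : ℝ, Λ₀ ≤ Λ → ∀ m : N → ℤ, Near w Λ m →
      ∃ G₀ G₃ : ℂ → ℂ, Gau (T.L b.1) m b.2.1.1 b.2.1.2 (Λ ^ 2 * (T.L b.1).ds w b.2.1.1)
        (ε₂ * Λ ^ 2 * b.2.1.2 ^ 2) G₀ G₃ := fun b => by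
    obtain ⟨h1, h2, -⟩ := hB1 b.1 b.2.1 b.2.2
    exact hG b.1 b.2.1.1 (hctr b) b.2.1.2 h1 h2
  choose Λ₁ hΛ₁ hGau using hΛ
  set K : ℝ := (Fintype.card J' : ℝ) * Real.log 2 / Real.log (1 + δ) * (2 * Real.pi / ε) with hK
  have hl2 : 0 ≤ Real.log 2 := Real.log_nonneg (by norm_num)
  have hK0 : 0 ≤ K := by positivity
  refine ⟨1 + ∑ b, Λ₁ b + K, ?_, ?_⟩
  · have : 0 ≤ ∑ b, Λ₁ b := Finset.sum_nonneg fun b _ => (hΛ₁ b).le
    linarith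
  intro Λ hΛle m hm
  have hsum0 : 0 ≤ ∑ b, Λ₁ b := Finset.sum_nonneg fun b _ => (hΛ₁ b).le
  have hΛ1 : 1 ≤ Λ := by linarith
  have hΛK : K ≤ Λ ^ 2 := by nlinarith
  have hΛb : ∀ b, Λ₁ b ≤ Λ := fun b => by
    have := Finset.single_le_sum (f := Λ₁) (fun b _ => (hΛ₁ b).le) (Finset.mem_univ b)
    linarith
  have hGG : ∀ b : J', ∃ G₀ G₃ : ℂ → ℂ, Gau (T.L b.1) m b.2.1.1 b.2.1.2
      (Λ ^ 2 * (T.L b.1).ds w b.2.1.1) (ε₂ * Λ ^ 2 * b.2.1.2 ^ 2) G₀ G₃ := fun b =>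
    hGau b Λ (hΛb b) m hm
  choose G₀ G₃ hGau' using hGG
  obtain ⟨X, hX, hXc⟩ := hSHC ex hex V N C hV J' (fun b => T.L b.1) m (fun b => b.2.1.1)
    (fun b => b.2.1.2) (fun b => Λ ^ 2 * (T.L b.1).ds w b.2.1.1)
    (fun b => ε₂ * Λ ^ 2 * b.2.1.2 ^ 2) δ G₀ G₃ hδ0
    (fun b => ⟨(hB1 b.1 b.2.1 b.2.2).1, mul_nonneg (by positivity)
      (LOW_nn hQ (T.L b.1) w _ (T.Fb b.1 (hctr b)))⟩) hGau' (by
    intro b b' hbb
    rw [Set.disjoint_left]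
    rintro q ⟨t, ht, hq⟩ ⟨t', ht', hq'⟩
    obtain ⟨i₀⟩ : Nonempty V := by
      rw [← Fintype.card_pos_iff, hV]; norm_num
    have htt : t = t' := by
      have h1 := congrArg (fun p : (V → ℂ) × ℂ => p.1 i₀) (hq.symm.trans hq')
      exact h1
    have hxx : (T.L b.1).x t = (T.L b'.1).x t' :=
      congrArg (fun p : (V → ℂ) × ℂ => p.2) (hq.symm.trans hq')
    subst htt
    have hO := (hB1 b.1 b.2.1 b.2.2).2.2 ht
    have hO' := (hB1 b'.1 b'.2.1 b'.2.2).2.2 ht'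
    by_cases hj : b.1 = b'.1
    · obtain ⟨j, b, hb⟩ := b
      obtain ⟨j', b', hb'⟩ := b'
      dsimp only at hj
      subst hj
      have hne : b ≠ b' := by
        rintro rfl
        exact hbb rfl
      exact Set.disjoint_left.1 (hB2 j b hb b' hb' hne) ht ht'
    · exact T.dis b.1 b'.1 hj t hO hO' hxx)
  refine ⟨X, hX, le_trans ?_ hXc⟩
  -- the sums
  have hsig : ∀ f : (j : J) → ℂ × ℝ → ℝ, ∑ b : J', f b.1 b.2.1 = ∑ j, ∑ b ∈ B j, f j b := by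
    intro f
    rw [Fintype.sum_sigma]
    refine Finset.sum_congr rfl fun j _ => ?_
    exact Finset.sum_coe_sort (B j) (fun b => f j b)
  set P : ℝ := ∑ j, ∑ b ∈ B j, (T.L j).ds w b.1 * (Real.pi * b.2 ^ 2) with hPdef
  set A : ℝ := ∑ j, ∑ b ∈ B j, Real.pi * b.2 ^ 2 with hAdef
  have hP : I - ε / 4 ≤ P := by
    have h1 : ∑ j, ((∫ t in T.F j, (T.L j).ds w t) - ε₁) ≤ P := Finset.sum_le_sum fun j _ => hB3 j
    rw [Finset.sum_sub_distrib] at h1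
    have h2 : ∑ _j : J, ε₁ ≤ ε / 4 := by
      rw [Finset.sum_const, Finset.card_univ, nsmul_eq_mul, hε₁def, mul_div_assoc', div_le_div_iff₀
        (by positivity) (by norm_num)]
      nlinarith
    linarith
  have hA : A ≤ S := Finset.sum_le_sum fun j _ => hB4 j
  have hA0 : 0 ≤ A := Finset.sum_nonneg fun j _ => Finset.sum_nonneg fun b _ => by positivity
  have hsum : ∑ b : J', (2 * (Λ ^ 2 * (T.L b.1).ds w b.2.1.1) * b.2.1.2 ^ 2 / (1 + δ) ^ 2 -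
      (2 * (ε₂ * Λ ^ 2 * b.2.1.2 ^ 2) + Real.log 2) / Real.log (1 + δ)) =
      2 * Λ ^ 2 / Real.pi * (P / (1 + δ) ^ 2) -
        2 * Λ ^ 2 / Real.pi * (ε₂ * A / Real.log (1 + δ)) -
        (Fintype.card J' : ℝ) * Real.log 2 / Real.log (1 + δ) := by
    have e1 : P = ∑ b : J', (T.L b.1).ds w b.2.1.1 * (Real.pi * b.2.1.2 ^ 2) :=
      (hsig fun j b => (T.L j).ds w b.1 * (Real.pi * b.2 ^ 2)).symm
    have e2 : A = ∑ b : J', Real.pi * b.2.1.2 ^ 2 := (hsig fun _ b => Real.pi * b.2 ^ 2).symm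
    have e3 : (Fintype.card J' : ℝ) * Real.log 2 / Real.log (1 + δ) =
        ∑ _b : J', Real.log 2 / Real.log (1 + δ) := by
      rw [Finset.sum_const, Finset.card_univ, nsmul_eq_mul, mul_div_assoc]
    rw [e1, e2, e3, Finset.sum_div, Finset.mul_sum, Finset.mul_sum, Finset.sum_div, Finset.mul_sum,
      ← Finset.sum_sub_distrib, ← Finset.sum_sub_distrib]
    refine Finset.sum_congr rfl fun b _ => ?_
    have hpi := Real.pi_pos.ne'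
    have hl := hlog.ne'
    field_simp
    ring
  have hc : 0 ≤ 2 * Λ ^ 2 / Real.pi := by have := Real.pi_pos; positivity
  have s1 : I - ε / 2 ≤ P / (1 + δ) ^ 2 := hδ P hP
  have s2 : ε₂ * A / Real.log (1 + δ) ≤ ε / 4 := by
    rw [div_le_div_iff₀ hlog (by norm_num), hε₂def]
    have h1 : ε * Real.log (1 + δ) / (4 * (S + 1)) * A * 4 =
        ε * Real.log (1 + δ) * (A / (S + 1)) := by field_simp
    rw [h1]
    have h2 : A / (S + 1) ≤ 1 := by rw [div_le_one (by linarith)]; linarith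
    have h3 : 0 ≤ ε * Real.log (1 + δ) := by positivity
    nlinarith
  have s3 : (Fintype.card J' : ℝ) * Real.log 2 / Real.log (1 + δ) ≤
      2 * Λ ^ 2 / Real.pi * (ε / 4) := by
    have hpi := Real.pi_pos
    have h1 : (Fintype.card J' : ℝ) * Real.log 2 / Real.log (1 + δ) = K * (ε / (2 * Real.pi)) := by
      rw [hK]; field_simp
    rw [h1]
    have h2 : 2 * Λ ^ 2 / Real.pi * (ε / 4) = Λ ^ 2 * (ε / (2 * Real.pi)) := by
      field_simp; ring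
    rw [h2]
    exact mul_le_mul_of_nonneg_right hΛK (by positivity)
  rw [hsum]
  have t1 := mul_le_mul_of_nonneg_left s1 hc
  have t2 := mul_le_mul_of_nonneg_left s2 hc
  have t3 : 2 * Λ ^ 2 / Real.pi * (I - ε) = 2 * Λ ^ 2 / Real.pi * (I - ε / 2) -
      2 * Λ ^ 2 / Real.pi * (ε / 4) - 2 * Λ ^ 2 / Real.pi * (ε / 4) := by ring
  rw [t3]
  linarith

end EQ

end Pool.Agent.ZR
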