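import Pool.Agent.ZR.EQ.St
import Pool.Agent.ZR.CH.KEY
import Pool.Agent.ZR.CH.ACX
import Pool.Agent.ZR.CH.FLD
import Pool.Agent.ZR.CH.TCS

/-!
# ZR, block EQ, module MII: `MinII` from the two cases (helper62)
-/

set_option autoImplicit false

open scoped BigOperators
open Filter Topology

namespace Pool.Agent.ZR

open Pool.Agent.ZPT Pool.Agent.ZPE

namespace EQ

/-- The transcendence degree is positive. -/
theorem MII_pos {N : Type} [Fintype N] {Q : Type} {U : Ultrafilter Q} (s : BlkF N U)
    (h : s.toPreF.NC U) : 1 ≤ s.fB ⊤ := by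
  have hACX : St_ACX := thm_ACX
  have hTCS : St_TCS := thm_TCS thm_FLD
  have hfin := KEY.co_finite s.toPreF U Set.univ
  have hfin3 : (s.toPreF.co U Set.univ ∪ {s.toPreF.tg U}).Finite :=
    hfin.union (Set.finite_singleton _)
  have hFG : FG (FCst U) (s.ch ⊤ ∪ {s.tU}) := by
    refine KEY.fg_of_sub hfin3 (Set.union_subset ?_ ?_)
    · have e1 := KEY.ch_sub hACX s (FCst U ∪ {s.toPreF.tg U}) ⊤
        (Subfield.subset_closure (Or.inr rfl))
      refine e1.trans (Subfield.closure_mono ?_)
      rintro z ((hz | hz) | hz)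
      · exact Or.inl hz
      · exact Or.inr (Or.inr hz)
      · exact Or.inr (Or.inl hz)
    · intro z hz
      exact Subfield.subset_closure (Or.inr (Or.inr hz))
  exact (hTCS N Q U s.toPreF h).1.trans_le (trd_mono hFG Set.subset_union_right)

/-- [MII] -/
theorem thm_MII : St_MII := by
  intro h1 h2 N _ Q U s hB hI W hW hf hL
  have hp := MII_pos s hB.2.2
  rcases Nat.lt_or_ge (s.fB ⊤) 2 with h | h
  · exact h1 N Q U s hB hI W hW hf (by omega)
  · exact h2 N Q U s hB hI W hW hf hL h

end EQ

end Pool.Agent.ZR
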