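import Pool.Agent.ZR.EQ.St
import Pool.Agent.ZPE.II.LgU

/-!
# ZR, block EQ, module NR: the Betti form of an approximate relation does not vanish on any disc
-/

set_option autoImplicit false

open scoped BigOperators ComplexConjugate
open Filter Topology MeasureTheory

namespace Pool.Agent.ZR

open Pool.Agent.ZPT Pool.Agent.ZPE

namespace EQ

/-- the compact part of the chart -/
theorem NR_cpt {V N : Type} [Fintype V] [Fintype N] (C : JCh V N) (M : ℝ)
    (hM : 0 < M) : IsCompact {q : (V → ℂ) × ℂ | q ∈ C2.VC C ∧ (∀ i, ‖q.1 i‖ ≤ M) ∧ ‖q.2‖ ≤ M ∧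
      1 ≤ M * ‖(MvPolynomial.aeval q.1 (C.M.D ()) : ℂ)‖} := by
  have hset : {q : (V → ℂ) × ℂ | q ∈ C2.VC C ∧ (∀ i, ‖q.1 i‖ ≤ M) ∧ ‖q.2‖ ≤ M ∧
      1 ≤ M * ‖(MvPolynomial.aeval q.1 (C.M.D ()) : ℂ)‖} =
      {q : (V → ℂ) × ℂ | (∀ i, ‖q.1 i‖ ≤ M) ∧ ‖q.2‖ ≤ M ∧
        ev (C.M.f ()) q.1 q.2 = 0 ∧ 1 ≤ M * ‖(MvPolynomial.aeval q.1 (C.M.D ()) : ℂ)‖} := by
    ext q
    constructor
    · rintro ⟨h1, h2, h3, h4⟩
      exact ⟨h2, h3, h1.eq (), h4⟩
    · rintro ⟨h2, h3, h1, h4⟩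
      refine ⟨⟨?_, ?_⟩, h2, h3, h4⟩
      · rintro ⟨⟩
        exact h1
      · rintro ⟨⟩ h5
        rw [h5, norm_zero, mul_zero] at h4
        linarith
  rw [hset]
  have hcl : IsClosed {q : (V → ℂ) × ℂ | (∀ i, ‖q.1 i‖ ≤ M) ∧ ‖q.2‖ ≤ M ∧
        ev (C.M.f ()) q.1 q.2 = 0 ∧
        1 ≤ M * ‖(MvPolynomial.aeval q.1 (C.M.D ()) : ℂ)‖} := by
    simp only [Set.ofPred_and]
    refine IsClosed.inter ?_ (IsClosed.inter ?_ (IsClosed.inter ?_ ?_))
    · rw [Set.ofPred_forall]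
      exact isClosed_iInter fun i => isClosed_le (by fun_prop) continuous_const
    · exact isClosed_le (by fun_prop) continuous_const
    · exact isClosed_eq (II.continuous_ev _) continuous_const
    · refine isClosed_le continuous_const ?_
      exact continuous_const.mul ((II.continuous_aeval_C _).comp continuous_fst).norm
  refine (isCompact_closedBall (0 : (V → ℂ) × ℂ) M).of_isClosed_subset hcl ?_
  intro p hp
  rw [mem_closedBall_zero_iff, Prod.norm_def]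
  refine max_le ?_ hp.2.1
  rw [pi_norm_le_iff_of_nonneg hM.le]
  exact hp.1

/-- the embeddings of a number field are finite in number -/
theorem NR_fin (κ K : IntermediateField ℚ ℂ) (hK : FiniteDimensional ℚ K) {V : Type}
    (y : V → Qb) (x : Qb) (Δ : Set ((V → ℂ) × (Unit → ℂ))) :
    (II.EmbIn κ K y (fun _ : Unit => x) Δ).Finite := by
  have : NumberField K := ⟨⟩
  exact Set.toFinite _

theorem NR_mono (κ K : IntermediateField ℚ ℂ) (hK : FiniteDimensional ℚ K) {V : Type}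
    [Fintype V] (y : V → Qb) (x : Qb) {Δ Δ' : Set ((V → ℂ) × ℂ)} (h : Δ ⊆ Δ') :
    C2.prp κ K y x Δ ≤ C2.prp κ K y x Δ' := by
  unfold C2.prp
  apply div_le_div_of_nonneg_right _ (Nat.cast_nonneg _)
  have h1 : II.EmbIn κ K y (fun _ : Unit => x) {q | (q.1, q.2 ()) ∈ Δ} ⊆
      II.EmbIn κ K y (fun _ : Unit => x) {q | (q.1, q.2 ()) ∈ Δ'} := by
    rintro σ ⟨h1, y', x', h2, h3, h4⟩
    exact ⟨h1, y', x', h2, h3, h h4⟩
  exact_mod_cast Set.ncard_le_ncard h1 (NR_fin κ K hK y x _)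

theorem NR_union (κ K : IntermediateField ℚ ℂ) (hK : FiniteDimensional ℚ K) {V : Type}
    [Fintype V] (y : V → Qb) (x : Qb) (Δ Δ' : Set ((V → ℂ) × ℂ)) :
    C2.prp κ K y x (Δ ∪ Δ') ≤ C2.prp κ K y x Δ + C2.prp κ K y x Δ' := by
  unfold C2.prp
  rw [← add_div]
  apply div_le_div_of_nonneg_right _ (Nat.cast_nonneg _)
  have h1 : II.EmbIn κ K y (fun _ : Unit => x) {q | (q.1, q.2 ()) ∈ Δ ∪ Δ'} ⊆
      II.EmbIn κ K y (fun _ : Unit => x) {q | (q.1, q.2 ()) ∈ Δ} ∪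
      II.EmbIn κ K y (fun _ : Unit => x) {q | (q.1, q.2 ()) ∈ Δ'} := by
    rintro σ ⟨h1, y', x', h2, h3, h4⟩
    rcases h4 with h4 | h4
    · exact Or.inl ⟨h1, y', x', h2, h3, h4⟩
    · exact Or.inr ⟨h1, y', x', h2, h3, h4⟩
  have h2 := Set.ncard_le_ncard h1 ((NR_fin κ K hK y x _).union (NR_fin κ K hK y x _))
  exact_mod_cast h2.trans (Set.ncard_union_le _ _)

theorem NR_empty (κ K : IntermediateField ℚ ℂ) {V : Type} [Fintype V] (y : V → Qb)
    (x : Qb) : C2.prp κ K y x ∅ = 0 := by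
  unfold C2.prp
  have h1 : II.EmbIn κ K y (fun _ : Unit => x)
      {q | (q.1, q.2 ()) ∈ (∅ : Set ((V → ℂ) × ℂ))} = ∅ := by
    rw [Set.eq_empty_iff_forall_notMem]
    rintro σ ⟨h1, y', x', h2, h3, h4⟩
    exact h4
  rw [h1, Set.ncard_empty, Nat.cast_zero, zero_div]

/-- number fields generated by the points over `κ` -/
theorem NR_KK {V : Type} [Fintype V] {Q : Type} (κ : IntermediateField ℚ ℂ)
    (hκ : FiniteDimensional ℚ κ) (y : Q → V → Qb) (x : Q → Qb) :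
    ∃ KK : Q → IntermediateField ℚ ℂ, C2.GoodK κ y x KK := by
  have hint : ∀ a : Qb, IsIntegral ℚ (a : ℂ) := fun a => a.2
  refine ⟨fun k => κ ⊔ IntermediateField.adjoin ℚ
    (Set.range fun o : Option V => ((o.elim (x k) (y k) : Qb) : ℂ)), fun k => ?_⟩
  have h1 : FiniteDimensional ℚ (IntermediateField.adjoin ℚ
    (Set.range fun o : Option V => ((o.elim (x k) (y k) : Qb) : ℂ))) := by
    apply IntermediateField.finiteDimensional_adjoin
    rintro _ ⟨o, rfl⟩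
    exact hint _
  refine ⟨?_, le_sup_left, fun i => ?_, ?_⟩
  · exact IntermediateField.finiteDimensional_sup _ _
  · exact (le_sup_right : _ ≤ κ ⊔ _) (IntermediateField.subset_adjoin ℚ _ ⟨some i, rfl⟩)
  · exact (le_sup_right : _ ≤ κ ⊔ _) (IntermediateField.subset_adjoin ℚ _ ⟨none, rfl⟩)

/-- a number field with the coefficients of the chart and the imaginary unit -/
theorem NR_kap (h : C2.St_KAP) {V N : Type} [Fintype V] [Fintype N] (C : JCh V N) :
    ∃ κ : IntermediateField ℚ ℂ, FiniteDimensional ℚ κ ∧ C2.CoIn C κ ∧ Complex.I ∈ κ := by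
  obtain ⟨κ, hκ, h1, h2⟩ := h V N C
  have hI : IsIntegral ℚ Complex.I := by
    refine ⟨Polynomial.X ^ 2 + 1, ?_, ?_⟩
    · exact Polynomial.monic_X_pow_add_C (n := 2) (1 : ℚ) two_ne_zero
    · simp [Complex.I_sq]
  have hf : FiniteDimensional ℚ (IntermediateField.adjoin ℚ {Complex.I}) :=
    IntermediateField.adjoin.finiteDimensional hI
  refine ⟨κ ⊔ IntermediateField.adjoin ℚ {Complex.I}, IntermediateField.finiteDimensional_sup _ _,
    ⟨?_, fun ν a n d => ?_⟩, ?_⟩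
  · obtain ⟨h3, h4, h5, h6⟩ := h1
    have hk : ∀ c : Qb, (c : ℂ) ∈ κ →
        (c : ℂ) ∈ κ ⊔ IntermediateField.adjoin ℚ {Complex.I} := fun c hc =>
      (le_sup_left : κ ≤ κ ⊔ _) hc
    exact ⟨fun d => hk _ (h3 d), fun n d => hk _ (h4 n d), fun n d => hk _ (h5 n d),
      fun ν hν n d => ⟨hk _ (h6 ν hν n d).1, hk _ (h6 ν hν n d).2⟩⟩
  · exact (le_sup_left : κ ≤ κ ⊔ _) (h2 ν a n d)
  · exact (le_sup_right : _ ≤ κ ⊔ _) (IntermediateField.mem_adjoin_simple_self ℚ _)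

theorem NR_of (h1 : St_NRC) (h2 : St_NRZ) (h3 : St_LC1) (h4 : C2.St_KAP) (h5 : C2.St_HTS)
    (h6 : C2.St_KM) : St_NR := by
  intro ex hex N _ Q U s hB hI V _ C y x hV hG w hw hR L
  by_contra hcon
  push Not at hcon
  have hall := h1 ex hex V N C hV w L hcon
  obtain ⟨κ, hκ, hCo, hκI⟩ := NR_kap h4 C
  obtain ⟨KK, hKK⟩ := NR_KK κ hκ y x
  obtain ⟨H, hH0, hH⟩ := h5 N Q U s hB
  have hHB : HB U s.toPreF w H := fun Λ m hm => hH w hR Λ m hm
  have hn : 0 < (Module.finrank ℚ κ : ℝ) := by exact_mod_cast Module.finrank_pos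
  obtain ⟨M, hM, hKM⟩ := h6 V N C κ hκ hCo Q U s.toPreF y x hG (1 / (2 * Module.finrank ℚ κ))
    (by positivity)
  have hcpt := NR_cpt C M hM
  obtain ⟨S, hS⟩ : ∃ S : Set ((V → ℂ) × ℂ), S = {q | q ∈ C2.VC C ∧ (∀ i, ‖q.1 i‖ ≤ M) ∧
    ‖q.2‖ ≤ M ∧ 1 ≤ M * ‖(MvPolynomial.aeval q.1 (C.M.D ()) : ℂ)‖} := ⟨_, rfl⟩
  rw [← hS] at hcpt
  have hbig := hKM KK hKK
  rw [← hS] at hbig
  have hloc : ∀ q ∈ S, ∃ T ∈ 𝓝[S] q, ∀ ε : ℝ, 0 < ε → ∀ᶠ k in (U : Filter Q),
      C2.prp κ (KK k) (y k) (x k) T ≤ ε := by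
    intro q hq
    have hq' : q ∈ C2.VC C := by
      rw [hS] at hq
      exact hq.1
    obtain ⟨L', hLc, hLx, huniq⟩ := h3 ex hex V N C hV q hq'
    have hr : 0 < L'.r := L'.per.pos
    refine ⟨S ∩ Metric.ball q (L'.r / 4), ?_, fun ε hε => ?_⟩
    · exact Filter.inter_mem self_mem_nhdsWithin
        (mem_nhdsWithin_of_mem_nhds (Metric.ball_mem_nhds q (by linarith)))
    · have hsub : Metric.closedBall L'.c (L'.r / 2) ⊆ L'.dsk :=
        Metric.closedBall_subset_ball (by linarith)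
      filter_upwards [h2 ex hex V N C hV κ hκ hCo hκI Q U s.toPreF y x hG KK hKK hI w H hw hH0
        hHB L' (hall L') L'.c (L'.r / 4) (L'.r / 2) (by linarith) (by linarith) hsub ε hε] with k hk
      refine (NR_mono κ (KK k) (hKK k).1 (y k) (x k) ?_).trans hk
      rintro p ⟨hp1, hp2⟩
      have hp3 : p ∈ C2.VC C := by
        rw [hS] at hp1
        exact hp1.1
      rw [Metric.mem_ball, Prod.dist_eq, max_lt_iff, dist_eq_norm, dist_eq_norm] at hp2
      have h7 : ‖p.1 C.i₀ - L'.c‖ ≤ L'.r / 4 := by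
        rw [← hLc C.i₀]
        exact (norm_le_pi_norm (p.1 - q.1) C.i₀).trans hp2.1.le
      have h8 : p.2 = L'.x (p.1 C.i₀) := huniq p hp3 (by linarith) (by linarith [hp2.2])
      have h9 : Subsingleton V := (Fintype.card_le_one_iff_subsingleton.1 hV.le)
      refine ⟨p.1 C.i₀, ?_, ?_⟩
      · rw [Metric.mem_closedBall, dist_eq_norm]
        exact h7
      · refine Prod.ext (funext fun i => ?_) h8
        rw [Subsingleton.elim i C.i₀]
  have hsmall : ∀ ε : ℝ, 0 < ε → ∀ᶠ k in (U : Filter Q), C2.prp κ (KK k) (y k) (x k) S ≤ ε := by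
    refine hcpt.induction_on (p := fun T => ∀ ε : ℝ, 0 < ε → ∀ᶠ k in (U : Filter Q),
      C2.prp κ (KK k) (y k) (x k) T ≤ ε) ?_ ?_ ?_ hloc
    · intro ε hε
      refine Filter.Eventually.of_forall fun k => ?_
      rw [NR_empty]
      exact hε.le
    · intro T T' hTT h ε hε
      filter_upwards [h ε hε] with k hk
      exact (NR_mono κ (KK k) (hKK k).1 (y k) (x k) hTT).trans hk
    · intro T T' hT hT' ε hε
      filter_upwards [hT (ε / 2) (by linarith), hT' (ε / 2) (by linarith)] with k hk hk'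
      refine (NR_union κ (KK k) (hKK k).1 (y k) (x k) T T').trans ?_
      linarith
  obtain ⟨k, hk1, hk2⟩ := (hbig.and (hsmall (1 / (4 * Module.finrank ℚ κ))
    (by positivity))).exists
  have h10 := hk1.trans hk2
  have h11 : 1 / (Module.finrank ℚ κ : ℝ) - 1 / (2 * Module.finrank ℚ κ) -
      1 / (4 * Module.finrank ℚ κ) = 1 / (4 * Module.finrank ℚ κ) := by
    field_simp
    norm_num
  have h12 : 0 < 1 / (4 * (Module.finrank ℚ κ : ℝ)) := by positivity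
  linarith

end EQ

end Pool.Agent.ZR
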