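import Pool.Agent.ZR.EQ.St

/-!
# ZR, block EQ, module NRC: if the Betti form vanishes on one disc, then on all
-/

set_option autoImplicit false

open scoped BigOperators ComplexConjugate
open Filter Topology MeasureTheory

namespace Pool.Agent.ZR

open Pool.Agent.ZPT Pool.Agent.ZPE

namespace EQ

/-- the points at which some local data have zero Betti form -/
def NRC_A {ex : (t : ℂ) → ℂ →+ LPt t} {V N : Type} [Fintype V] [Fintype N] (C : JCh V N)
    (w : N → ℝ) (q : (V → ℂ) × ℂ) : Prop :=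
  ∃ L : Loc1 ex C, L.c = q.1 C.i₀ ∧ L.x L.c = q.2 ∧ ∀ t ∈ L.dsk, L.th1 w t = 0

theorem NRC_c {ex : (t : ℂ) → ℂ →+ LPt t} {V N : Type} [Fintype V] [Fintype N] {C : JCh V N}
    (L : Loc1 ex C) : L.c ∈ L.dsk := Metric.mem_ball_self L.per.pos

theorem NRC_mem (h2 : St_THI) (h3 : St_CST) {ex : (t : ℂ) → ℂ →+ LPt t} (hex : ExP ex)
    {V N : Type} [Fintype V] [Fintype N] (C : JCh V N) (hV : Fintype.card V = 1) (w : N → ℝ)
    (L : Loc1 ex C) (q : (V → ℂ) × ℂ) (hq : q.1 C.i₀ ∈ L.dsk) (hx : L.x (q.1 C.i₀) = q.2) :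
    NRC_A (ex := ex) C w q ↔ ∀ t ∈ L.dsk, L.th1 w t = 0 := by
  constructor
  · rintro ⟨L', h4, h5, h6⟩
    have h7 : q.1 C.i₀ ∈ L'.dsk := h4 ▸ NRC_c L'
    have h8 : L.x (q.1 C.i₀) = L'.x (q.1 C.i₀) := by rw [hx, ← h5, h4]
    have h9 := h2 ex hex V N C hV L L' (q.1 C.i₀) hq h7 h8 w
    have h10 : ∀ᶠ t in 𝓝 (q.1 C.i₀), L.th1 w t = 0 := by
      filter_upwards [h9, Metric.isOpen_ball.mem_nhds h7] with t ht ht'
      rw [ht]
      exact h6 t ht'
    obtain ⟨b₁, b₂, h11⟩ := h3 ex V N C L w (q.1 C.i₀) hq h10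
    exact fun t ht => (h11 t ht).2
  · intro hZ
    obtain ⟨ρ, hρ, hball⟩ := Metric.isOpen_iff.1 Metric.isOpen_ball (q.1 C.i₀) hq
    exact ⟨L.res (q.1 C.i₀) ρ hρ hball, rfl, hx, fun t ht => hZ t (hball ht)⟩

theorem NRC_of (h1 : St_CONN) (h2 : St_THI) (h3 : St_CST) (h4 : St_LC1) : St_NRC := by
  intro ex hex V N _ _ C hV w L hL L' t ht
  have key : ∀ q ∈ C2.VC C, ∀ᶠ q' in 𝓝[C2.VC C] q,
      (NRC_A (ex := ex) C w q ↔ NRC_A (ex := ex) C w q') := by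
    intro q hq
    obtain ⟨M, h5, h6, h7⟩ := h4 ex hex V N C hV q hq
    have h8 : NRC_A (ex := ex) C w q ↔ ∀ t ∈ M.dsk, M.th1 w t = 0 :=
      NRC_mem h2 h3 hex C hV w M q (by rw [h5]; exact NRC_c M) (by rw [h5]; exact h6)
    have h9 : ∀ᶠ q' in 𝓝[C2.VC C] q, ‖q'.1 C.i₀ - M.c‖ < M.r := by
      have hc : ContinuousAt (fun q' : (V → ℂ) × ℂ => ‖q'.1 C.i₀ - M.c‖) q := by fun_prop
      have := hc.tendsto.eventually_lt_const (u := M.r) (by rw [h5, sub_self, norm_zero]; exact M.per.pos)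
      exact this.filter_mono nhdsWithin_le_nhds
    have h10 : ∀ᶠ q' in 𝓝[C2.VC C] q, ‖q'.2 - q.2‖ < M.r := by
      have hc : ContinuousAt (fun q' : (V → ℂ) × ℂ => ‖q'.2 - q.2‖) q := by fun_prop
      have := hc.tendsto.eventually_lt_const (u := M.r) (by rw [sub_self, norm_zero]; exact M.per.pos)
      exact this.filter_mono nhdsWithin_le_nhds
    filter_upwards [h9, h10, self_mem_nhdsWithin] with q' h11 h12 h13
    have h14 := h7 q' h13 h11 h12
    rw [h8]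
    refine (NRC_mem h2 h3 hex C hV w M q' ?_ h14.symm).symm
    rw [Loc1.dsk, Metric.mem_ball, dist_eq_norm]
    exact h11
  have hall : ∀ q ∈ C2.VC C, ∀ q' ∈ C2.VC C,
      (NRC_A (ex := ex) C w q ↔ NRC_A (ex := ex) C w q') := by
    intro q hq q' hq'
    refine IsPreconnected.induction₂' (h1 V N C hV)
      (fun a b => (NRC_A (ex := ex) C w a ↔ NRC_A (ex := ex) C w b)) ?_ ?_ hq hq'
    · intro a ha
      filter_upwards [key a ha] with b hb
      exact ⟨hb, hb.symm⟩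
    · intro a b c _ _ _ hab hbc
      exact hab.trans hbc
  have h5 : NRC_A (ex := ex) C w ((fun _ => L.c), L.x L.c) :=
    ⟨L, rfl, rfl, hL⟩
  have h6 := (hall ((fun _ => L.c), L.x L.c) (L.pt L.c (NRC_c L)) ((fun _ => t), L'.x t)
    (L'.pt t ht)).1 h5
  exact (NRC_mem h2 h3 hex C hV w L' ((fun _ => t), L'.x t) ht rfl).1 h6 t ht

end EQ

end Pool.Agent.ZR
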