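import Pool.Agent.ZR.EQ.St

/-!
# ZR, block EQ, module NRZ: a disc on which the Betti form of an approximate relation vanishes has
mass zero
-/

set_option autoImplicit false

open scoped BigOperators ComplexConjugate
open Filter Topology MeasureTheory

namespace Pool.Agent.ZR

open Pool.Agent.ZPT Pool.Agent.ZPE

namespace EQ

/-- integral vectors close to multiples of `w ≠ 0`, with large norm -/
theorem NRZ_near {N : Type} [Fintype N] (w : N → ℝ) (hw : w ≠ 0) (c C' K : ℝ) (hc : 0 < c) :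
    ∃ (Λ : ℝ) (m : N → ℤ), Near w Λ m ∧ K ≤ c * ∑ ν, (m ν : ℝ) ^ 2 - C' := by
  obtain ⟨ν₀, h0⟩ := Function.ne_iff.1 hw
  have h0' : 0 < |w ν₀| := abs_pos.2 h0
  set s : ℝ := (|K| + |C'|) / c + 1 with hs
  have hs1 : 1 ≤ s := by
    have : 0 ≤ (|K| + |C'|) / c := by positivity
    linarith
  refine ⟨(1 + s) / |w ν₀|, fun ν => round ((1 + s) / |w ν₀| * w ν), fun ν => ?_, ?_⟩
  · have h1 := abs_sub_round ((1 + s) / |w ν₀| * w ν)
    rw [abs_sub_comm] at h1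
    linarith
  · have h1 := abs_sub_round ((1 + s) / |w ν₀| * w ν₀)
    have h2 : |(1 + s) / |w ν₀| * w ν₀| = 1 + s := by
      rw [abs_mul, abs_div, abs_abs, div_mul_cancel₀ _ h0'.ne']
      exact abs_of_pos (by linarith)
    have h3 : s ≤ |((round ((1 + s) / |w ν₀| * w ν₀) : ℤ) : ℝ)| := by
      have h4 := abs_sub_abs_le_abs_sub ((1 + s) / |w ν₀| * w ν₀)
        ((round ((1 + s) / |w ν₀| * w ν₀) : ℤ) : ℝ)
      rw [h2] at h4
      linarith
    have h5 : s ^ 2 ≤ ((round ((1 + s) / |w ν₀| * w ν₀) : ℤ) : ℝ) ^ 2 := by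
      rw [← sq_abs ((round ((1 + s) / |w ν₀| * w ν₀) : ℤ) : ℝ)]
      exact pow_le_pow_left₀ (by linarith) h3 2
    have h6 : ((round ((1 + s) / |w ν₀| * w ν₀) : ℤ) : ℝ) ^ 2 ≤
        ∑ ν, ((round ((1 + s) / |w ν₀| * w ν) : ℤ) : ℝ) ^ 2 :=
      Finset.single_le_sum (f := fun ν => ((round ((1 + s) / |w ν₀| * w ν) : ℤ) : ℝ) ^ 2)
        (fun ν _ => sq_nonneg _) (Finset.mem_univ ν₀)
    have h7 : s ≤ s ^ 2 := by nlinarith
    have h8 : |K| + |C'| ≤ c * s := by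
      rw [hs, mul_add, mul_div_cancel₀ _ hc.ne']
      linarith
    have h9 : c * s ≤ c * ∑ ν, ((round ((1 + s) / |w ν₀| * w ν) : ℤ) : ℝ) ^ 2 :=
      mul_le_mul_of_nonneg_left (h7.trans (h5.trans h6)) hc.le
    have h10 := le_abs_self K
    have h11 := le_abs_self C'
    linarith

theorem NRZ_of (h1 : St_LG0) (h2 : St_UPP) (h3 : St_DGC) : St_NRZ := by
  intro ex hex V N _ _ C hV κ hκ hCo hI Q U p y x hG KK hK hm w H hw hH hHB L hL t₁ r R hr hrR
    hsub ε hε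
  obtain ⟨e, he, hLG⟩ := h1 ex hex V N C L w hL t₁ R (hr.trans hrR) hsub
  obtain ⟨c, C', hc, hD⟩ := h3 V N C hV Q U p y x hG hm
  have hℓ0 : 0 < Real.log (R / r) := Real.log_pos ((one_lt_div hr).2 hrR)
  have hq : (0 : ℝ) < Module.finrank ℚ κ := by
    haveI := hκ
    exact_mod_cast Module.finrank_pos
  set ℓ := Real.log (R / r) with hℓ
  set q : ℝ := (Module.finrank ℚ κ : ℝ) with hqd
  set β : ℝ := 10 * e / ℓ + 2 * (H + 1) / (ε * ℓ) + 1 with hβ
  have hβ1 : 0 < β := by positivity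
  obtain ⟨Λ, m, hnear, hK'⟩ := NRZ_near w hw c C' (40 * β + 8 * β / (ε * q)) hc
  obtain ⟨X, hX, hFam⟩ := hD m
  obtain ⟨G₀, G₃, hGau⟩ := hLG Λ m hnear
  have hXc : 40 * β + 8 * β / (ε * q) ≤ (X.card : ℝ) := hK'.trans hX
  have hp1 : 0 < 8 * β / (ε * q) := by positivity
  have hXp : (0 : ℝ) < X.card := by linarith
  have h4 := h2 ex hex V N C hV κ hκ hCo hI Q U p y x hG KK hK L m X hFam H hH (hHB Λ m hnear) t₁
    r R 0 e β 1 G₀ G₃ hr hrR le_rfl he hβ1 one_pos le_rfl hGau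
    (by
      rw [one_mul, ← hℓ, hβ, add_mul, add_mul, div_mul_cancel₀ _ hℓ0.ne']
      have : 0 ≤ 2 * (H + 1) / (ε * ℓ) * ℓ := by positivity
      linarith)
    (by
      rw [one_mul]
      linarith)
  filter_upwards [h4] with k hk
  refine hk.trans ?_
  rw [← hℓ, ← hqd]
  have h5 : (1 + 1) * (2 * (0 * R ^ 2 + β)) / (q * X.card) ≤ ε / 2 := by
    rw [div_le_iff₀ (by positivity)]
    have h6 : 8 * β / (ε * q) ≤ (X.card : ℝ) := by linarith
    rw [div_le_iff₀ (by positivity)] at h6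
    nlinarith
  have h7 : (H + 1) / (β * ℓ) ≤ ε / 2 := by
    rw [div_le_iff₀ (by positivity)]
    have h8 : 2 * (H + 1) / (ε * ℓ) ≤ β := by
      have : 0 ≤ 10 * e / ℓ := by positivity
      linarith
    rw [div_le_iff₀ (by positivity)] at h8
    nlinarith
  linarith

end EQ

end Pool.Agent.ZR
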