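import Pool.Agent.ZR.EQ.St

/-!
# ZR, block EQ, module NUMU (helper44): the choice of the parameters (real analysis)

`θ = 2 τ (1 + η/4) / (q b)`, `T = ⌈n τ⌉`, `h = θ g₀ n`, `R' = n g₀`, `Rg = g₀ n (1 - η/5)`.
-/

set_option autoImplicit false

open Filter Topology

namespace Pool.Agent.ZR.EQ

private theorem NUMU_log (c ε : ℝ) (hε : 0 < ε) :
    ∀ᶠ n : ℕ in atTop, c + Real.log ((n : ℝ) + 1) ≤ ε * n := by
  have h1 : Tendsto (fun n : ℕ => (n : ℝ) + 1) atTop atTop :=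
    tendsto_atTop_add_const_right _ _ tendsto_natCast_atTop_atTop
  have h2 := (Real.isLittleO_log_id_atTop.comp_tendsto h1).def (c := ε / 2) (by positivity)
  have h3 : ∀ᶠ n : ℕ in atTop, (2 * |c| + ε) / ε ≤ (n : ℝ) :=
    tendsto_natCast_atTop_atTop.eventually (eventually_ge_atTop _)
  filter_upwards [h2, h3] with n hn hn'
  simp only [Function.comp_apply, id_eq, Real.norm_eq_abs] at hn
  have h4 : Real.log ((n : ℝ) + 1) ≤ ε / 2 * ((n : ℝ) + 1) := by
    refine (le_abs_self _).trans (hn.trans (le_of_eq ?_))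
    rw [abs_of_nonneg (by positivity : (0 : ℝ) ≤ (n : ℝ) + 1)]
  rw [div_le_iff₀ hε] at hn'
  have h10 := le_abs_self c
  linarith

private theorem NUMU_large (c ε : ℝ) (hε : 0 < ε) : ∀ᶠ n : ℕ in atTop, c ≤ ε * n := by
  have h3 : ∀ᶠ n : ℕ in atTop, c / ε ≤ (n : ℝ) :=
    tendsto_natCast_atTop_atTop.eventually (eventually_ge_atTop _)
  filter_upwards [h3] with n hn
  rw [div_le_iff₀ hε] at hn
  linarith

/-- NUMU -/
theorem NUMU_of : St_NUMU := by
  intro q b τ e g₀ η Cx H hq hb hτ he hg hη hη1 hCx hH he2 hτ2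
  have hq' : (2 : ℝ) ≤ q := by exact_mod_cast hq
  have hb' : (1 : ℝ) ≤ b := by exact_mod_cast hb
  have hq0 : (0 : ℝ) < q := by linarith
  have hb0 : (0 : ℝ) < b := by linarith
  have hqb : (0 : ℝ) < q * b := mul_pos hq0 hb0
  have hη2 : η * η ≤ η := by
    calc η * η ≤ η * 1 := mul_le_mul_of_nonneg_left hη1 hη.le
      _ = η := mul_one η
  obtain ⟨ε, hεd⟩ : ∃ ε : ℝ, ε = min (η * g₀ / 40) 1 := ⟨_, rfl⟩
  have hε : 0 < ε := by
    rw [hεd]
    exact lt_min (by positivity) one_pos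
  have hε1 : ε ≤ η * g₀ / 40 := by rw [hεd]; exact min_le_left _ _
  have hε2 : ε ≤ 1 := by rw [hεd]; exact min_le_right _ _
  obtain ⟨n₀, hn₀⟩ := eventually_atTop.1 ((NUMU_log (Real.log ((q : ℝ) * b) + 2 * Cx + 5) ε hε).and
    (NUMU_large 1 (η * τ / 20) (by positivity)))
  refine ⟨n₀ + 1, fun n hn => ?_⟩
  obtain ⟨h1, h2⟩ := hn₀ n (by omega)
  have hn1 : (1 : ℝ) ≤ n := by exact_mod_cast (by omega : 1 ≤ n)
  have hn0 : (0 : ℝ) < n := by linarith
  -- the number of the unknowns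
  obtain ⟨Qn, hQn⟩ : ∃ Qn : ℝ, Qn = ((q * ((n + 1) * b) : ℕ) : ℝ) := ⟨_, rfl⟩
  have hQ1 : Qn = (q : ℝ) * b * ((n : ℝ) + 1) := by
    rw [hQn]
    push_cast
    ring
  have hQ0 : 0 < Qn := by rw [hQ1]; positivity
  have hL : Real.log Qn = Real.log ((q : ℝ) * b) + Real.log ((n : ℝ) + 1) := by
    rw [hQ1, Real.log_mul hqb.ne' (by positivity)]
  obtain ⟨Lg, hLg⟩ : ∃ Lg : ℝ, Lg = Real.log Qn := ⟨_, rfl⟩
  have hLb : Lg + 2 * Cx + 5 ≤ ε * n := by
    rw [hLg, hL]
    linarith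
  have hLb1 : Lg + 2 * Cx + 5 ≤ η * g₀ / 40 * n :=
    hLb.trans (mul_le_mul_of_nonneg_right hε1 hn0.le)
  have hLb2 : Lg + 2 * Cx + 5 ≤ n := by
    refine hLb.trans ((mul_le_mul_of_nonneg_right hε2 hn0.le).trans ?_)
    rw [one_mul]
  -- the parameters
  obtain ⟨θ, hθ⟩ : ∃ θ : ℝ, θ = 2 * τ * (1 + η / 4) / (q * b) := ⟨_, rfl⟩
  have hθ0 : 0 ≤ θ := by rw [hθ]; positivity
  have hθqb : q * b * θ = 2 * τ * (1 + η / 4) := by
    rw [hθ]
    field_simp
  have hθ1 : θ ≤ η / 16 := by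
    rw [hθ, div_le_iff₀ hqb]
    have h3 : 2 * τ * (1 + η / 4) ≤ 2 * τ * (5 / 4) :=
      mul_le_mul_of_nonneg_left (by linarith) (by positivity)
    have h4 : η / 16 * (2 * b) ≤ η / 16 * (q * b) :=
      mul_le_mul_of_nonneg_left (mul_le_mul_of_nonneg_right hq' hb0.le) (by positivity)
    linarith
  obtain ⟨T, hT⟩ : ∃ T : ℕ, T = ⌈(n : ℝ) * τ⌉₊ := ⟨_, rfl⟩
  have hT1 : (n : ℝ) * τ ≤ T := by rw [hT]; exact Nat.le_ceil _
  have hT2 : (T : ℝ) ≤ n * τ + 1 := by
    rw [hT]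
    exact (Nat.ceil_lt_add_one (by positivity)).le
  have hT0 : (0 : ℝ) < T := lt_of_lt_of_le (by positivity) hT1
  have hT3 : (T : ℝ) ≤ n * τ * (1 + η / 20) := by
    have h3 : n * τ * (1 + η / 20) = n * τ + η * τ / 20 * n := by ring
    rw [h3]
    linarith
  have hTQ : (T : ℝ) ≤ Qn := by
    rw [hQ1]
    have h3 : (n : ℝ) * τ ≤ n * b := by
      refine mul_le_mul_of_nonneg_left ?_ hn0.le
      have h4 : η * b ≤ 1 * b := mul_le_mul_of_nonneg_right hη1 hb0.le
      linarith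
    have h5 : (b : ℝ) * ((n : ℝ) + 1) ≤ q * b * ((n : ℝ) + 1) := by
      refine mul_le_mul_of_nonneg_right ?_ (by positivity)
      exact le_mul_of_one_le_left hb0.le (by linarith)
    have h6 : (b : ℝ) * ((n : ℝ) + 1) = n * b + b := by ring
    linarith
  have hTL : Real.log T ≤ Lg := by
    rw [hLg]
    exact Real.log_le_log hT0 hTQ
  have hlog2 : Real.log 2 ≤ 1 := by
    have := Real.log_two_lt_d9
    linarith
  have hen : 2 * (n : ℝ) * e ≤ η * g₀ / 10 * n := by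
    have h3 : 2 * (n : ℝ) * (20 * e) ≤ 2 * n * (η * g₀) :=
      mul_le_mul_of_nonneg_left he2 (by positivity)
    linarith
  have hgn : 0 < g₀ * n := mul_pos hg hn0
  have hhn : θ * g₀ * n ≤ η / 16 * (g₀ * n) := by
    rw [mul_assoc]
    exact mul_le_mul_of_nonneg_right hθ1 hgn.le
  have hηg : 0 < η * g₀ * n := by positivity
  refine ⟨T, θ * g₀ * n, n * g₀, g₀ * n * (1 - η / 5), hT1, by positivity, by positivity,
    mul_pos hgn (by linarith), ?_, ?_, ?_⟩
  · -- the pigeonhole principle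
    rw [← hQn, ← hLg]
    have h3 : n * g₀ + θ * g₀ * n + Lg + 5 ≤ g₀ * n * (1 + η / 16 + η / 40) := by
      have h4 : g₀ * n * (1 + η / 16 + η / 40) =
          n * g₀ + η / 16 * (g₀ * n) + η * g₀ / 40 * n := by ring
      rw [h4]
      linarith
    have h4 : 0 ≤ g₀ * n * (1 + η / 16 + η / 40) := by positivity
    have h5 : 2 * (T : ℝ) * (n * g₀ + θ * g₀ * n + Lg + 5) ≤
        2 * (n * τ * (1 + η / 20)) * (g₀ * n * (1 + η / 16 + η / 40)) := by
      calc 2 * (T : ℝ) * (n * g₀ + θ * g₀ * n + Lg + 5)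
          ≤ 2 * (T : ℝ) * (g₀ * n * (1 + η / 16 + η / 40)) :=
            mul_le_mul_of_nonneg_left h3 (by positivity)
        _ ≤ 2 * (n * τ * (1 + η / 20)) * (g₀ * n * (1 + η / 16 + η / 40)) :=
            mul_le_mul_of_nonneg_right (by linarith) h4
    have h6 : (1 + η / 20) * (1 + η / 16 + η / 40) ≤ 1 + η / 4 := by
      have h7 : (1 + η / 20) * (1 + η / 16 + η / 40) = 1 + 11 * η / 80 + 7 * (η * η) / 1600 := by
        ring
      rw [h7]
      linarith
    have h7 : 2 * (n * τ * (1 + η / 20)) * (g₀ * n * (1 + η / 16 + η / 40)) ≤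
        2 * τ * (1 + η / 4) * (n * (g₀ * n)) := by
      have h8 : 2 * (n * τ * (1 + η / 20)) * (g₀ * n * (1 + η / 16 + η / 40)) =
          2 * τ * ((1 + η / 20) * (1 + η / 16 + η / 40)) * (n * (g₀ * n)) := by ring
      rw [h8]
      refine mul_le_mul_of_nonneg_right ?_ (by positivity)
      exact mul_le_mul_of_nonneg_left h6 (by positivity)
    have h8 : 2 * τ * (1 + η / 4) * (n * (g₀ * n)) ≤ Qn * (θ * g₀ * n) := by
      rw [← hθqb, hQ1]
      have h9 : (q : ℝ) * b * ((n : ℝ) + 1) * (θ * g₀ * n) =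
          q * b * θ * (n * (g₀ * n)) + q * b * (θ * (g₀ * n)) := by ring
      rw [h9]
      have h10 : 0 ≤ (q : ℝ) * b * (θ * (g₀ * n)) := by positivity
      linarith
    linarith
  · -- the bound of the values
    rw [← hQn]
    have h3 : Real.exp (2 * n * e + Cx) * (T * Real.exp (1 - n * g₀)) ≤
        Real.exp (-(g₀ * n * (1 - η / 5))) / 2 := by
      have h4 : Real.exp (-(g₀ * n * (1 - η / 5))) / 2 =
          Real.exp (-(g₀ * n * (1 - η / 5)) - Real.log 2) := by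
        rw [Real.exp_sub, Real.exp_log (by norm_num : (0 : ℝ) < 2)]
      have h5 : Real.exp (2 * n * e + Cx) * (T * Real.exp (1 - n * g₀)) =
          Real.exp (2 * n * e + Cx + (Real.log T + (1 - n * g₀))) := by
        rw [Real.exp_add (2 * n * e + Cx), Real.exp_add (Real.log T), Real.exp_log hT0]
      rw [h4, h5]
      apply Real.exp_le_exp.2
      have h6 : g₀ * n * (1 - η / 5) = n * g₀ - 2 * (η * g₀ / 10 * n) := by ring
      rw [h6]
      have h7 : η * g₀ / 40 * n = (η * g₀ * n) / 40 := by ring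
      have h8 : η * g₀ / 10 * n = (η * g₀ * n) / 10 := by ring
      rw [h7] at hLb1
      rw [h8] at hen ⊢
      linarith
    have h4 : Real.exp (2 * n * e + Cx) * (Qn * Real.exp (θ * g₀ * n - n * g₀ + Cx)) ≤
        Real.exp (-(g₀ * n * (1 - η / 5))) / 2 := by
      have h4 : Real.exp (-(g₀ * n * (1 - η / 5))) / 2 =
          Real.exp (-(g₀ * n * (1 - η / 5)) - Real.log 2) := by
        rw [Real.exp_sub, Real.exp_log (by norm_num : (0 : ℝ) < 2)]
      have h5 : Real.exp (2 * n * e + Cx) * (Qn * Real.exp (θ * g₀ * n - n * g₀ + Cx)) =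
          Real.exp (2 * n * e + Cx + (Lg + (θ * g₀ * n - n * g₀ + Cx))) := by
        rw [Real.exp_add (2 * n * e + Cx), Real.exp_add Lg, hLg, Real.exp_log hQ0]
      rw [h4, h5]
      apply Real.exp_le_exp.2
      have h6 : g₀ * n * (1 - η / 5) = n * g₀ - 2 * (η * g₀ / 10 * n) := by ring
      rw [h6]
      have h7 : η * g₀ / 40 * n = (η * g₀ * n) / 40 := by ring
      have h8 : η * g₀ / 10 * n = (η * g₀ * n) / 10 := by ring
      have h9 : η / 16 * (g₀ * n) = (η * g₀ * n) / 16 := by ring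
      rw [h7] at hLb1
      rw [h8] at hen ⊢
      rw [h9] at hhn
      linarith
    rw [mul_add]
    linarith
  · -- the product formula
    rw [← hQn, ← hLg]
    have h3 : 2 * (g₀ * n * (1 - η / 5)) * ((1 + η) * τ / (q * b) + 2 * (H + 1) / g₀) =
        g₀ * n * (2 * τ / (q * b) * ((1 - η / 5) * (1 + η))) +
          4 * (n * (1 - η / 5)) * (H + 1) := by
      field_simp
      ring
    rw [h3]
    have h4 : θ * g₀ * n = g₀ * n * (2 * τ / (q * b) * (1 + η / 4)) := by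
      rw [hθ]
      ring
    have h5 : 1 + η / 4 ≤ (1 - η / 5) * (1 + η) := by
      have h7 : (1 - η / 5) * (1 + η) = 1 + 4 * η / 5 - (η * η) / 5 := by ring
      rw [h7]
      linarith
    have h6 : g₀ * n * (2 * τ / (q * b) * (1 + η / 4)) ≤
        g₀ * n * (2 * τ / (q * b) * ((1 - η / 5) * (1 + η))) :=
      mul_le_mul_of_nonneg_left (mul_le_mul_of_nonneg_left h5 (by positivity)) hgn.le
    have h7 : 3 * n * (H + 1) ≤ 4 * (n * (1 - η / 5)) * (H + 1) := by
      refine mul_le_mul_of_nonneg_right ?_ (by linarith)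
      have h8 : 4 * (n * (1 - η / 5)) = 4 * n - 4 / 5 * (n * η) := by ring
      rw [h8]
      have h9 : n * η ≤ n * 1 := mul_le_mul_of_nonneg_left hη1 hn0.le
      linarith
    have h8 : 0 ≤ n * H := mul_nonneg hn0.le hH
    rw [h4]
    have h9 : 3 * n * (H + 1) = 3 * (n * H) + 3 * n := by ring
    rw [h9] at h7
    linarith

end Pool.Agent.ZR.EQ
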