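import Pool.Agent.ZR.EQ.St
import Pool.Agent.ZR.S.B1
import Pool.Agent.ZR.S.S1

/-!
# ZR, block EQ, module NVQ

`NVQ_of`: the auxiliary function with algebraic coefficients does not vanish at the points of a
generic sequence of points of a chart (generalises `ZR/C2/NV.lean`).
-/

set_option autoImplicit false

open scoped BigOperators
open Filter Topology

namespace Pool.Agent.ZR

open Pool.Agent.ZPT Pool.Agent.ZPE

namespace EQ

section NVQ

variable {V : Type} [Fintype V]

private theorem nvq_map {R S : Type} [CommRing R] [CommRing S] (φ : R →+* S) (n : ℕ)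
    (X : Finset ((V → ℕ) × ℕ)) (c : (V → Fin (n + 1)) × X → R) (y : V → R) (x : R)
    (A : V → Fin 4 → R) :
    φ (PhK n X c y x A) = PhK n X (fun p => φ (c p)) (fun i => φ (y i)) (φ x)
      (fun s i => φ (A s i)) := by
  simp only [PhK, map_sum, map_mul, map_prod, map_pow]

private theorem nvq_hom {R : Type} [CommRing R] (n : ℕ)
    (X : Finset ((V → ℕ) × ℕ)) (c : (V → Fin (n + 1)) × X → R) (y : V → R) (x : R)
    (d : V → R) (B : V → Fin 4 → R) :
    PhK n X c y x (fun s i => d s * B s i) = (∏ s, d s ^ n) * PhK n X c y x B := by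
  classical
  simp only [PhK, Finset.mul_sum]
  refine Finset.sum_congr rfl fun p _ => ?_
  have h0 : ∏ s, ((d s * B s 0) ^ (p.1 s : ℕ) * (d s * B s 3) ^ (n - (p.1 s : ℕ))) =
      (∏ s, d s ^ n) * ∏ s, (B s 0 ^ (p.1 s : ℕ) * B s 3 ^ (n - (p.1 s : ℕ))) := by
    rw [← Finset.prod_mul_distrib]
    refine Finset.prod_congr rfl fun s _ => ?_
    have h : (p.1 s : ℕ) + (n - p.1 s) = n := by
      have := (p.1 s).2
      omega
    rw [mul_pow, mul_pow]
    calc d s ^ (p.1 s : ℕ) * B s 0 ^ (p.1 s : ℕ) *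
          (d s ^ (n - (p.1 s : ℕ)) * B s 3 ^ (n - (p.1 s : ℕ))) =
          d s ^ ((p.1 s : ℕ) + (n - p.1 s)) * (B s 0 ^ (p.1 s : ℕ) * B s 3 ^ (n - (p.1 s : ℕ))) := by
          rw [pow_add]
          ring
      _ = _ := by rw [h]
  rw [h0]
  ring

private theorem nvq_ne {R : Type} [Field R] (n : ℕ)
    (X : Finset ((V → ℕ) × ℕ)) (c : (V → Fin (n + 1)) × X → R) (y : V → R) (x : R)
    (d : V → R) (A B : V → Fin 4 → R) (hA : ∀ s, A s = d s • B s) :
    (PhK n X c y x A ≠ 0 → PhK n X c y x B ≠ 0) ∧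
    ((∀ s, d s ≠ 0) → PhK n X c y x B ≠ 0 → PhK n X c y x A ≠ 0) := by
  have h : A = fun s i => d s * B s i := by
    funext s i
    rw [hA s]
    rfl
  rw [h, nvq_hom]
  exact ⟨fun h1 => right_ne_zero_of_mul h1, fun hd h1 =>
    mul_ne_zero (Finset.prod_ne_zero_iff.mpr fun s _ => pow_ne_zero _ (hd s)) h1⟩

/-! ### the generic point -/

private theorem nvq_bez {L : Type} [Field L] (g p : Polynomial L) (hg : Irreducible g)
    (h : ¬ g ∣ p) : ∃ a b : Polynomial L, a * g + b * p = 1 :=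
  (hg.coprime_iff_not_dvd).mpr h

omit [Fintype V] in
private theorem nvq_gen (f : Polynomial (MvPolynomial V Qb))
    (hf : Irreducible (f.map (algebraMap (MvPolynomial V Qb)
      (FractionRing (MvPolynomial V Qb))))) :
    ∃ (K₀ : Type) (_ : Field K₀) (_ : Algebra Qb K₀) (y₀ : V → K₀) (x₀ : K₀),
      AlgebraicIndependent Qb y₀ ∧ ev f y₀ x₀ = 0 ∧
      ∀ p : Polynomial (MvPolynomial V Qb), ev p y₀ x₀ ≠ 0 →
        ∃ δ : MvPolynomial V Qb, δ ≠ 0 ∧ ∃ a b : Polynomial (MvPolynomial V Qb),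
          a * f + b * p = Polynomial.C δ := by
  set L := FractionRing (MvPolynomial V Qb) with hL
  set g : Polynomial L := f.map (algebraMap (MvPolynomial V Qb) L) with hg
  have : Fact (Irreducible g) := ⟨hf⟩
  have hinj : Function.Injective (algebraMap (MvPolynomial V Qb) L) :=
    IsFractionRing.injective (MvPolynomial V Qb) L
  have hinj2 : Function.Injective (AdjoinRoot.of g) := (AdjoinRoot.of g).injective
  let y₀ : V → AdjoinRoot g := fun i =>
    AdjoinRoot.of g (algebraMap (MvPolynomial V Qb) L (MvPolynomial.X i))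
  have h1 : ∀ q : MvPolynomial V Qb, MvPolynomial.aeval y₀ q =
      AdjoinRoot.of g (algebraMap (MvPolynomial V Qb) L q) := by
    intro q
    induction q using MvPolynomial.induction_on with
    | C a =>
      rw [MvPolynomial.algHom_C]
      rfl
    | add p q hp hq => rw [map_add, map_add, map_add, hp, hq]
    | mul_X p i hp => rw [map_mul, map_mul, map_mul, hp, MvPolynomial.aeval_X]
  have h2 : ∀ p : Polynomial (MvPolynomial V Qb), ev p y₀ (AdjoinRoot.root g) =
      AdjoinRoot.mk g (p.map (algebraMap (MvPolynomial V Qb) L)) := by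
    intro p
    rw [← AdjoinRoot.aeval_eq, Polynomial.aeval_def, Polynomial.eval₂_map, ev]
    congr 1
    ext q
    · exact h1 _
    · exact h1 _
  refine ⟨AdjoinRoot g, inferInstance, inferInstance, y₀, AdjoinRoot.root g, ?_, ?_, ?_⟩
  · rw [algebraicIndependent_iff_injective_aeval]
    intro p q hpq
    rw [h1, h1] at hpq
    exact hinj (hinj2 hpq)
  · rw [h2, AdjoinRoot.mk_eq_zero]
  · intro p hp
    rw [h2, Ne, AdjoinRoot.mk_eq_zero] at hp
    obtain ⟨a, b, hab⟩ := nvq_bez g (p.map (algebraMap (MvPolynomial V Qb) L)) hf hp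
    obtain ⟨δ₁, hδ₁, ha⟩ := IsLocalization.integerNormalization_spec
      (nonZeroDivisors (MvPolynomial V Qb)) a
    obtain ⟨δ₂, hδ₂, hb⟩ := IsLocalization.integerNormalization_spec
      (nonZeroDivisors (MvPolynomial V Qb)) b
    generalize IsLocalization.integerNormalization (nonZeroDivisors (MvPolynomial V Qb)) a = a'
      at ha
    generalize IsLocalization.integerNormalization (nonZeroDivisors (MvPolynomial V Qb)) b = b'
      at hb
    refine ⟨δ₁ * δ₂, mul_ne_zero (nonZeroDivisors.ne_zero hδ₁) (nonZeroDivisors.ne_zero hδ₂),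
      Polynomial.C δ₂ * a', Polynomial.C δ₁ * b', ?_⟩
    apply Polynomial.map_injective _ hinj
    rw [Polynomial.map_add, Polynomial.map_mul, Polynomial.map_mul, Polynomial.map_mul,
      Polynomial.map_mul, ha, hb, Polynomial.map_C, Polynomial.map_C, Polynomial.map_C, map_mul,
      Polynomial.C_mul]
    have e1 : ∀ (u : MvPolynomial V Qb) (q : Polynomial L),
        u • q = Polynomial.C (algebraMap (MvPolynomial V Qb) L u) * q := by
      intro u q
      rw [← Polynomial.smul_eq_C_mul, algebraMap_smul]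
    rw [← hg]
    change Polynomial.C (algebraMap (MvPolynomial V Qb) L δ₂) * (δ₁ • a) * g +
      Polynomial.C (algebraMap (MvPolynomial V Qb) L δ₁) * (δ₂ • b) *
        (p.map (algebraMap (MvPolynomial V Qb) L)) = _
    rw [e1, e1]
    linear_combination Polynomial.C (algebraMap (MvPolynomial V Qb) L δ₁) *
      Polynomial.C (algebraMap (MvPolynomial V Qb) L δ₂) * hab

/-! ### conversions of polynomials -/

private noncomputable def nvq_to : MvPolynomial (Option V) Qb →ₐ[Qb] Polynomial (MvPolynomial V Qb) :=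
  MvPolynomial.aeval fun o => o.elim Polynomial.X fun i => Polynomial.C (MvPolynomial.X i)

private noncomputable def nvq_from (p : Polynomial (MvPolynomial V Qb)) : MvPolynomial (Option V) Qb :=
  p.eval₂ (MvPolynomial.rename some : MvPolynomial V Qb →ₐ[Qb] MvPolynomial (Option V) Qb).toRingHom
    (MvPolynomial.X none)

omit [Fintype V] in
private theorem nvq_ev_to {K : Type} [Field K] [Algebra Qb K] (y : V → K) (x : K)
    (G : MvPolynomial (Option V) Qb) :
    ev (nvq_to G) y x = MvPolynomial.aeval (fun o : Option V => o.elim x y) G := by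
  induction G using MvPolynomial.induction_on with
  | C a =>
    rw [MvPolynomial.algHom_C, MvPolynomial.algHom_C, ev, IsScalarTower.algebraMap_apply Qb
      (MvPolynomial V Qb) (Polynomial (MvPolynomial V Qb)), Polynomial.algebraMap_apply,
      Polynomial.eval₂_C]
    simp
  | add p q hp hq =>
    rw [map_add, map_add, ← hp, ← hq, ev, Polynomial.eval₂_add]
    rfl
  | mul_X p i hp =>
    rw [map_mul, map_mul, ← hp, ev, Polynomial.eval₂_mul]
    congr 1
    rw [nvq_to, MvPolynomial.aeval_X, MvPolynomial.aeval_X]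
    rcases i with _ | i
    · simp
    · simp

omit [Fintype V] in
private theorem nvq_aeval_from {K : Type} [Field K] [Algebra Qb K] (z : Option V → K)
    (p : Polynomial (MvPolynomial V Qb)) :
    MvPolynomial.aeval z (nvq_from p) = ev p (fun i => z (some i)) (z none) := by
  have h := Polynomial.hom_eval₂ p
    (MvPolynomial.rename some : MvPolynomial V Qb →ₐ[Qb] MvPolynomial (Option V) Qb).toRingHom
    (MvPolynomial.aeval z : MvPolynomial (Option V) Qb →ₐ[Qb] K).toRingHom (MvPolynomial.X none)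
  have h2 : MvPolynomial.aeval z (nvq_from p) =
      (MvPolynomial.aeval z : MvPolynomial (Option V) Qb →ₐ[Qb] K).toRingHom (nvq_from p) := rfl
  rw [h2, nvq_from, h, ev]
  congr 1
  · apply RingHom.ext
    intro q
    simp only [RingHom.comp_apply, AlgHom.toRingHom_eq_coe, RingHom.coe_coe,
      MvPolynomial.aeval_rename]
    rfl
  · simp

private theorem nvq_tr {K : Type} [Field K] {N : Type} [Fintype N] {t t' : K} (h : t = t')
    (P : N → LPt t) : ∃ P' : N → LPt t', (∀ ν, rp (P' ν) = rp (P ν)) ∧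
      ∀ m : N → ℤ, rp (cb P' m) = rp (cb P m) := by
  subst h
  exact ⟨P, fun _ => rfl, fun _ => rfl⟩

private theorem nvq_pt {N : Type} [Fintype N] (C : JCh V N) {K : Type} [Field K] [Algebra Qb K]
    {y : V → K} {x : K} (h : C.M.IsPt y (fun _ => x)) :
    y C.i₀ ≠ 0 ∧ y C.i₀ ≠ 1 ∧ ∀ ν, C.co y x ν ≠ 0 ∧ OnJ (y C.i₀) (C.co y x ν) := by
  have hD := h.ne ()
  have hf : ev (C.M.f ()) y x = 0 := h.eq ()
  have hdvd : ∀ q : Polynomial (MvPolynomial V Qb), C.M.f () ∣ q → ev q y x = 0 := by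
    rintro q ⟨q', rfl⟩
    rw [ev, Polynomial.eval₂_mul]
    rw [ev] at hf
    rw [hf, zero_mul]
  obtain ⟨q, hq⟩ := C.tD
  rw [hq] at hD
  simp only [map_mul, map_sub, map_one, MvPolynomial.aeval_X] at hD
  have h0 : y C.i₀ ≠ 0 := fun e => hD (by rw [e]; simp)
  have h1 : y C.i₀ ≠ 1 := fun e => hD (by rw [e]; simp)
  refine ⟨h0, h1, fun ν => ⟨fun e => ?_, ?_, ?_⟩⟩
  · have e1 : C.co y x ν (C.jn ν) = 0 := by rw [e]; rfl
    rw [JCh.co, C.one ν, ev, Polynomial.eval₂_C] at e1
    exact h.ne () e1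
  · have e1 := hdvd _ (C.eq₁ ν)
    simp only [ev, Polynomial.eval₂_sub, Polynomial.eval₂_add, Polynomial.eval₂_pow] at e1
    simp only [JCh.co, ev]
    linear_combination e1
  · have e1 := hdvd _ (C.eq₂ ν)
    simp only [ev, Polynomial.eval₂_sub, Polynomial.eval₂_add, Polynomial.eval₂_pow,
      Polynomial.eval₂_mul, Polynomial.eval₂_C] at e1
    have e2 : (MvPolynomial.aeval y : MvPolynomial V Qb →ₐ[Qb] K).toRingHom
        (MvPolynomial.X C.i₀) = y C.i₀ := MvPolynomial.aeval_X _ _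
    rw [e2] at e1
    simp only [JCh.co, ev]
    linear_combination e1

end NVQ

/-- **NVQ**. -/
theorem NVQ_of : St_NVQ := by
  classical
  intro V N _ _ C Q U p y x hG m X hF n c hc
  obtain ⟨K₀, _, _, y₀, x₀, hind, hf0, hbez⟩ := nvq_gen (C.M.f ()) (C.irr ())
  have hcz : CharZero K₀ := charZero_of_injective_algebraMap (algebraMap Qb K₀).injective
  have hD0 : MvPolynomial.aeval y₀ (C.M.D ()) ≠ 0 := by
    intro h
    rw [algebraicIndependent_iff_injective_aeval] at hind
    exact C.M.D_ne () (hind (by rw [h, map_zero]))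
  have hpt : C.M.IsPt y₀ (fun _ => x₀) := ⟨fun _ => hf0, fun _ => hD0⟩
  obtain ⟨ht0, ht1, hco⟩ := nvq_pt C hpt
  have hS := thm_S1 K₀ (y₀ C.i₀) ht0 ht1 two_ne_zero
  choose P₀ c₀ hc₀ hP₀ using fun ν => hS.2.2 _ (hco ν).1 (hco ν).2
  -- the polynomials
  set z₀ : Option V → K₀ := fun o => o.elim x₀ y₀ with hz₀
  set T : MvPolynomial (Option V) Qb := MvPolynomial.X (some C.i₀) with hT
  have hTz : y₀ C.i₀ = MvPolynomial.aeval z₀ T := by
    rw [hT, MvPolynomial.aeval_X]
    rfl
  obtain ⟨P₁, hP₁, hcb₁⟩ := nvq_tr hTz P₀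
  obtain ⟨G, -, -, hG1, hG2⟩ := B1_of thm_S1 (Option V) N T (fun ν a => nvq_from (C.Xp ν a)) K₀ z₀
    (hTz ▸ ht0) (hTz ▸ ht1) P₁ (fun ν => ⟨c₀ ν, hc₀ ν, by
      rw [hP₁ ν, ← hP₀ ν]
      funext i
      rw [nvq_aeval_from]
      rfl⟩)
  set Ψ : MvPolynomial (Option V) Qb := PhK n X (fun p => MvPolynomial.C (c p))
    (fun i => MvPolynomial.X (some i)) (MvPolynomial.X none) (fun s => G (m s)) with hΨ
  have hev : ∀ (K : Type) [Field K] [Algebra Qb K] (y' : V → K) (x' : K),
      MvPolynomial.aeval (fun o : Option V => o.elim x' y') Ψ =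
        PhK n X (fun p => algebraMap Qb K (c p)) y' x'
          (fun s i => MvPolynomial.aeval (fun o : Option V => o.elim x' y') (G (m s) i)) := by
    intro K _ _ y' x'
    have h := nvq_map (MvPolynomial.aeval (fun o : Option V => o.elim x' y') :
      MvPolynomial (Option V) Qb →ₐ[Qb] K).toRingHom n X (fun p => MvPolynomial.C (c p))
      (fun i => MvPolynomial.X (some i)) (MvPolynomial.X none) (fun s => G (m s))
    have e1 : (MvPolynomial.aeval (fun o : Option V => o.elim x' y') :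
        MvPolynomial (Option V) Qb →ₐ[Qb] K).toRingHom (MvPolynomial.X none) = x' :=
      MvPolynomial.aeval_X _ _
    have e2 : (fun i => (MvPolynomial.aeval (fun o : Option V => o.elim x' y') :
        MvPolynomial (Option V) Qb →ₐ[Qb] K).toRingHom (MvPolynomial.X (some i))) = y' := by
      funext i
      exact MvPolynomial.aeval_X _ _
    have e3 : (fun p => (MvPolynomial.aeval (fun o : Option V => o.elim x' y') :
        MvPolynomial (Option V) Qb →ₐ[Qb] K).toRingHom (MvPolynomial.C (c p))) =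
        fun p => algebraMap Qb K (c p) := by
      funext p
      exact MvPolynomial.algHom_C _ _
    rw [e1, e2, e3] at h
    exact h
  have hfam : PhK n X (fun p => algebraMap Qb K₀ (c p)) y₀ x₀ (fun s => rp (cb P₀ (m s))) ≠ 0 :=
    hF K₀ y₀ x₀ hind hpt P₀ (fun ν => ⟨c₀ ν, hc₀ ν, hP₀ ν⟩) n c hc
  have hΨ0 : MvPolynomial.aeval z₀ Ψ ≠ 0 := by
    rw [hz₀, hev K₀ y₀ x₀]
    choose d hd hd' using hG1
    refine (nvq_ne n X (fun p => algebraMap Qb K₀ (c p)) y₀ x₀ (fun s => d (m s)) _ _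
      fun s => ?_).2 (fun s => hd (m s)) hfam
    rw [← hcb₁ (m s)]
    exact hd' (m s)
  obtain ⟨δ, hδ, a, b, hab⟩ := hbez (nvq_to Ψ) (by rw [nvq_ev_to]; exact hΨ0)
  filter_upwards [hG.pt, hG.gen δ hδ] with k hk hδk
  obtain ⟨hp, ht, hJ⟩ := hk
  intro A hA
  have hfk : ev (C.M.f ()) (y k) (x k) = 0 := hp.eq ()
  have e1 : ev (a * C.M.f () + b * nvq_to Ψ) (y k) (x k) = MvPolynomial.aeval (y k) δ := by
    rw [hab, ev, Polynomial.eval₂_C]
    rfl
  have e2 : ev (nvq_to Ψ) (y k) (x k) ≠ 0 := by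
    intro h0
    rw [ev] at hfk h0
    rw [ev, Polynomial.eval₂_add, Polynomial.eval₂_mul, Polynomial.eval₂_mul, hfk, h0, mul_zero,
      mul_zero, add_zero] at e1
    exact hδk e1.symm
  rw [nvq_ev_to, hev Qb (y k) (x k)] at e2
  have hcc : (fun p => algebraMap Qb Qb (c p)) = c := rfl
  rw [hcc] at e2
  have hTk : p.t k = MvPolynomial.aeval (fun o : Option V => o.elim (x k) (y k)) T := by
    rw [hT, MvPolynomial.aeval_X]
    exact ht.symm
  obtain ⟨P₂, hP₂, hcb₂⟩ := nvq_tr hTk (p.P k)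
  have hW := hG2 Qb (fun o : Option V => o.elim (x k) (y k)) (hTk ▸ p.t0 k) (hTk ▸ p.t1 k) P₂
    (fun ν => by
      obtain ⟨c', -, h'⟩ := hJ ν
      refine ⟨c', ?_⟩
      rw [hP₂ ν]
      have h'' : C.co (y k) (x k) ν = c' • rp (p.P k ν) := h'
      rw [← h'']
      funext i
      rw [nvq_aeval_from]
      rfl)
  choose d hd using hW
  have e3 := (nvq_ne n X c (y k) (x k) (fun s => d (m s)) _ (fun s => rp (cb (p.P k) (m s)))
    fun s => by
      rw [← hcb₂ (m s)]
      exact hd (m s)).1 e2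
  choose d' hd1 hd2 using hA
  exact (nvq_ne n X c (y k) (x k) d' A (fun s => rp (cb (p.P k) (m s))) hd2).2 hd1 e3

end EQ

end Pool.Agent.ZR
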