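import Pool.Agent.ZR.EQ.St

/-!
# ZR, block EQ, module OMG (helper28): independent algebraic integers of a number field
-/

set_option autoImplicit false

open scoped BigOperators

namespace Pool.Agent.ZR.EQ

/-- OMG -/
theorem OMG_of : St_OMG := by
  classical
  intro κ hκ
  have hN : NumberField κ := { to_charZero := inferInstance, to_finiteDimensional := hκ }
  let b := NumberField.integralBasis κ
  have hcard : Fintype.card (Module.Free.ChooseBasisIndex ℤ (NumberField.RingOfIntegers κ)) =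
      Module.finrank ℚ κ := (Module.finrank_eq_card_basis b).symm
  let e : Module.Free.ChooseBasisIndex ℤ (NumberField.RingOfIntegers κ) ≃
      Fin (Module.finrank ℚ κ) := Fintype.equivFinOfCardEq hcard
  let ω : Fin (Module.finrank ℚ κ) → κ := fun j => b (e.symm j)
  have hω : ∀ j, IsIntegral ℤ (ω j) := by
    intro j
    change IsIntegral ℤ (NumberField.integralBasis κ (e.symm j))
    rw [NumberField.integralBasis_apply]
    exact NumberField.RingOfIntegers.isIntegral_coe _
  have hli : LinearIndependent ℚ ω := b.linearIndependent.comp e.symm e.symm.injective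
  have hli' : LinearIndependent ℤ ω := by
    refine hli.restrict_scalars ?_
    intro a c hac
    simpa using hac
  refine ⟨ω, 1 + ∑ ψ : κ →+* ℂ, ∑ j, ‖ψ (ω j)‖, hω, hli', ?_, ?_⟩
  · have : 0 ≤ ∑ ψ : κ →+* ℂ, ∑ j, ‖ψ (ω j)‖ :=
      Finset.sum_nonneg fun ψ _ => Finset.sum_nonneg fun j _ => norm_nonneg _
    linarith
  · intro ψ j
    have h1 : ‖ψ (ω j)‖ ≤ ∑ j, ‖ψ (ω j)‖ :=
      Finset.single_le_sum (f := fun j => ‖ψ (ω j)‖) (fun j _ => norm_nonneg _)
        (Finset.mem_univ j)
    have h2 : ∑ j, ‖ψ (ω j)‖ ≤ ∑ ψ : κ →+* ℂ, ∑ j, ‖ψ (ω j)‖ :=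
      Finset.single_le_sum (f := fun ψ : κ →+* ℂ => ∑ j, ‖ψ (ω j)‖)
        (fun ψ _ => Finset.sum_nonneg fun j _ => norm_nonneg _) (Finset.mem_univ ψ)
    linarith

end Pool.Agent.ZR.EQ
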