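import Pool.Agent.ZR.EQ.St

/-!
# ZR, block EQ, module PACB: packing of discs (helper26)
-/

set_option autoImplicit false

open scoped BigOperators ComplexConjugate
open Filter Topology MeasureTheory

namespace Pool.Agent.ZR

namespace EQ

private theorem PACB_vol (x : ℂ) (r : ℝ) (hr : 0 ≤ r) :
    (volume (Metric.closedBall x r)).toReal = Real.pi * r ^ 2 := by
  rw [Complex.volume_closedBall, ENNReal.toReal_mul, ENNReal.toReal_pow, ENNReal.toReal_ofReal hr,
    ENNReal.coe_toReal, NNReal.coe_real_pi]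
  ring

theorem PACB_of : St_PACB := by
  classical
  intro O F O' s hO hF hOF hO' hFO' hs hs0 hnul ε r₀ hε hr₀
  have hVF : volume F ≠ ⊤ := hF.measure_lt_top.ne
  obtain ⟨v, hv⟩ : ∃ v : ℝ, v = (volume F).toReal := ⟨_, rfl⟩
  have hv0 : 0 ≤ v := by
    rw [hv]
    exact ENNReal.toReal_nonneg
  obtain ⟨ε', hε'⟩ : ∃ ε' : ℝ, ε' = ε / (2 * (v + 1)) := ⟨_, rfl⟩
  have hε'0 : 0 < ε' := by
    rw [hε']
    positivity
  have hεv : ε' * v ≤ ε / 2 := by
    have h1 : ε' * (v + 1) = ε / 2 := by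
      rw [hε']
      field_simp
    nlinarith
  -- radii
  have hR : ∀ x ∈ O, ∃ R : ℝ, 0 < R ∧ R ≤ r₀ ∧ Metric.ball x R ⊆ O ∧
      ∀ t ∈ Metric.ball x R, s t ≤ s x + ε' := by
    intro x hx
    have hc : ContinuousAt s x := hs.continuousAt (hO'.mem_nhds (hFO' (hOF hx)))
    have h1 : ∀ᶠ t in 𝓝 x, s t < s x + ε' := hc.eventually_lt_const (by linarith)
    obtain ⟨R₁, hR₁, h1'⟩ := Metric.eventually_nhds_iff_ball.1 h1
    obtain ⟨R₂, hR₂, h2⟩ := Metric.isOpen_iff.1 hO x hx
    refine ⟨min r₀ (min R₁ R₂), lt_min hr₀ (lt_min hR₁ hR₂), min_le_left _ _, ?_, ?_⟩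
    · exact (Metric.ball_subset_ball ((min_le_right _ _).trans (min_le_right _ _))).trans h2
    · intro t ht
      exact (h1' t (Metric.ball_subset_ball ((min_le_right _ _).trans (min_le_left _ _)) ht)).le
  choose! R hR0 hRr hRO hRs using hR
  obtain ⟨t, r, htc, htO, hr, hcov, hdis⟩ := Besicovitch.exists_disjoint_closedBall_covering_ae
    (volume : Measure ℂ) (fun _ => Set.univ) O
    (fun x _ δ hδ => ⟨δ / 2, trivial, by constructor <;> linarith⟩) R hR0
  have hr1 : ∀ x ∈ t, 0 < r x ∧ r x < R x := fun x hx => (hr x hx).2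
  have hcb : ∀ x ∈ t, Metric.closedBall x (r x) ⊆ Metric.ball x (R x) :=
    fun x hx => Metric.closedBall_subset_ball (hr1 x hx).2
  have hcbO : ∀ x ∈ t, Metric.closedBall x (r x) ⊆ O :=
    fun x hx => (hcb x hx).trans (hRO x (htO hx))
  -- the integral is the sum over the discs
  have hint : IntegrableOn s F volume := (hs.mono hFO').integrableOn_compact hF
  have hintO : IntegrableOn s O volume := hint.mono_set hOF
  haveI : Countable t := htc.to_subtype
  have hsum : HasSum (fun x : t => ∫ y in Metric.closedBall (x : ℂ) (r x), s y)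
      (∫ y in ⋃ x : t, Metric.closedBall (x : ℂ) (r x), s y) := by
    refine hasSum_integral_iUnion (fun x => Metric.isClosed_closedBall.measurableSet) ?_ ?_
    · intro x y hxy
      exact hdis x.2 y.2 (fun h => hxy (Subtype.ext h))
    · refine hintO.mono_set ?_
      exact Set.iUnion_subset fun x => hcbO x x.2
  have hU : (∫ y in ⋃ x : t, Metric.closedBall (x : ℂ) (r x), s y) = ∫ y in F, s y := by
    apply setIntegral_congr_set
    rw [ae_eq_set]
    constructor
    · have h1 : (⋃ x : t, Metric.closedBall (x : ℂ) (r x)) \ F = ∅ := by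
        rw [Set.diff_eq_empty]
        exact Set.iUnion_subset fun x => (hcbO x x.2).trans hOF
      rw [h1, measure_empty]
    · have h1 : F \ (⋃ x : t, Metric.closedBall (x : ℂ) (r x)) ⊆
          (F \ O) ∪ (O \ ⋃ x ∈ t, Metric.closedBall x (r x)) := by
        rintro y ⟨hyF, hy⟩
        by_cases hyO : y ∈ O
        · refine Or.inr ⟨hyO, fun h => hy ?_⟩
          rw [Set.mem_iUnion₂] at h
          obtain ⟨x, hx, hxy⟩ := h
          exact Set.mem_iUnion.2 ⟨⟨x, hx⟩, hxy⟩
        · exact Or.inl ⟨hyF, hyO⟩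
      exact measure_mono_null h1 (measure_union_null hnul hcov)
  rw [hU] at hsum
  have hev : ∀ᶠ S : Finset t in atTop, (∫ y in F, s y) - ε / 2 <
      ∑ x ∈ S, ∫ y in Metric.closedBall (x : ℂ) (r x), s y :=
    hsum.eventually (lt_mem_nhds (by linarith))
  obtain ⟨S, hS⟩ := hev.exists
  -- the sum of the areas
  let D : t → Set ℂ := fun x => Metric.closedBall (x : ℂ) (r x)
  let pr : t → ℂ × ℝ := fun x => ((x : ℂ), r x)
  have harea : ∑ x ∈ S, Real.pi * (r (x : ℂ)) ^ 2 ≤ v := by
    have h1 : ∑ x ∈ S, Real.pi * (r (x : ℂ)) ^ 2 =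
        (volume (⋃ x ∈ S, D x)).toReal := by
      have hd : (S : Set t).PairwiseDisjoint D :=
        fun x _ y _ hxy => hdis x.2 y.2 (fun h => hxy (Subtype.ext h))
      rw [measure_biUnion_finset hd (fun x _ => Metric.isClosed_closedBall.measurableSet),
        ENNReal.toReal_sum fun x _ => measure_closedBall_lt_top.ne]
      exact Finset.sum_congr rfl fun x _ => (PACB_vol _ _ (hr1 x x.2).1.le).symm
    rw [h1, hv]
    refine ENNReal.toReal_mono hVF (measure_mono ?_)
    exact Set.iUnion₂_subset fun x _ => (hcbO x x.2).trans hOF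
  have hpiece : ∀ x ∈ S, (∫ y in Metric.closedBall (x : ℂ) (r x), s y) ≤
      (s x + ε') * (Real.pi * (r (x : ℂ)) ^ 2) := by
    intro x _
    have h1 : (∫ y in Metric.closedBall (x : ℂ) (r x), s y) ≤
        ∫ y in Metric.closedBall (x : ℂ) (r x), (s x + ε') := by
      refine setIntegral_mono_on (hintO.mono_set (hcbO x x.2)) ?_
        Metric.isClosed_closedBall.measurableSet fun y hy => hRs x (htO x.2) y (hcb x x.2 hy)
      exact integrableOn_const measure_closedBall_lt_top.ne
    refine h1.trans (le_of_eq ?_)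
    rw [setIntegral_const, smul_eq_mul, Measure.real, PACB_vol _ _ (hr1 x x.2).1.le]
    ring
  have hinj : Set.InjOn pr S :=
    fun x _ y _ h => Subtype.ext (Prod.mk.inj h).1
  refine ⟨S.image pr, ?_, ?_, ?_, ?_⟩
  · intro b hb
    obtain ⟨x, _, rfl⟩ := Finset.mem_image.1 hb
    exact ⟨(hr1 x x.2).1, (hr1 x x.2).2.le.trans (hRr x (htO x.2)), hcbO x x.2⟩
  · intro b hb b' hb' hne
    obtain ⟨x, _, rfl⟩ := Finset.mem_image.1 hb
    obtain ⟨y, _, rfl⟩ := Finset.mem_image.1 hb'
    exact hdis x.2 y.2 fun h => hne (by rw [Subtype.ext h])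
  · rw [Finset.sum_image hinj]
    have h1 := Finset.sum_le_sum hpiece
    have h2 : ∑ x ∈ S, (s x + ε') * (Real.pi * (r (x : ℂ)) ^ 2) =
        ∑ x ∈ S, s x * (Real.pi * (r (x : ℂ)) ^ 2) + ε' * ∑ x ∈ S, Real.pi * (r (x : ℂ)) ^ 2 := by
      rw [Finset.mul_sum, ← Finset.sum_add_distrib]
      exact Finset.sum_congr rfl fun x _ => by ring
    have h3 := mul_le_mul_of_nonneg_left harea hε'0.le
    linarith
  · rw [Finset.sum_image hinj, ← hv]
    exact harea

end EQ

end Pool.Agent.ZR
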