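import Pool.Agent.ZR.EQ.St

/-!
# ZR, block EQ, module PCS: pieces from finitely many discs (helper30)
-/

set_option autoImplicit false

open scoped BigOperators ComplexConjugate
open Filter Topology MeasureTheory

namespace Pool.Agent.ZR

open Pool.Agent.ZPT Pool.Agent.ZPE

namespace EQ

/-- two roots which agree at a point agree near this point -/
private theorem PCS_uniq (h : St_LC1) (ex : (t : ℂ) → ℂ →+ LPt t) (hex : ExP ex) {V N : Type}
    [Fintype V] [Fintype N] (C : JCh V N) (hV : Fintype.card V = 1) (L L' : Loc1 ex C) (t₀ : ℂ)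
    (ht : t₀ ∈ L.dsk) (ht' : t₀ ∈ L'.dsk) (hx : L.x t₀ = L'.x t₀) :
    ∀ᶠ t in 𝓝 t₀, L.x t = L'.x t := by
  obtain ⟨L₀, hc, hr, hu⟩ := h ex hex V N C hV ((fun _ => t₀), L.x t₀) (L.pt t₀ ht)
  have hc0 : t₀ = L₀.c := hc C.i₀
  have hpos : 0 < L₀.r := L₀.per.pos
  have hO : IsOpen L.dsk := Metric.isOpen_ball
  have hO' : IsOpen L'.dsk := Metric.isOpen_ball
  have key : ∀ M : Loc1 ex C, t₀ ∈ M.dsk → M.x t₀ = L.x t₀ → ∀ᶠ t in 𝓝 t₀, M.x t = L₀.x t := by
    intro M hM hMx
    have h1 : ContinuousAt M.x t₀ := (M.x_an t₀ hM).continuousAt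
    have h2 : ∀ᶠ t in 𝓝 t₀, ‖M.x t - M.x t₀‖ < L₀.r := by
      have := Metric.continuousAt_iff'.1 h1 L₀.r hpos
      simpa only [dist_eq_norm] using this
    have h3 : ∀ᶠ t in 𝓝 t₀, ‖t - t₀‖ < L₀.r := by
      have := Metric.ball_mem_nhds t₀ hpos
      filter_upwards [this] with t ht
      rw [← dist_eq_norm]
      exact Metric.mem_ball.1 ht
    have h4 : ∀ᶠ t in 𝓝 t₀, t ∈ M.dsk :=
      (Metric.isOpen_ball : IsOpen M.dsk).mem_nhds hM
    filter_upwards [h2, h3, h4] with t e1 e2 e3
    exact hu ((fun _ => t), M.x t) (M.pt t e3) (by rw [← hc0]; exact e2) (by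
      rw [← hMx]; exact e1)
  filter_upwards [key L ht rfl, key L' ht' hx.symm] with t e1 e2
  rw [e1, e2]

theorem PCS_of (h : St_LC1) : St_PCS := by
  intro ex hex V N _ _ C hV n L c r hr hL
  have hbc : ∀ i, Metric.ball (c i) (r i) ⊆ Metric.closedBall (c i) (r i) := fun i =>
    Metric.ball_subset_closedBall
  refine ⟨{ L := L
            F := fun j => {t | t ∈ Metric.closedBall (c j) (r j) ∧
              ∀ i < j, ¬ (t ∈ Metric.ball (c i) (r i) ∧ (L i).x t = (L j).x t)}
            O := fun j => {t | t ∈ Metric.ball (c j) (r j) ∧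
              ∀ i < j, ¬ (t ∈ Metric.closedBall (c i) (r i) ∧ (L i).x t = (L j).x t)}
            cpt := fun j => ?_
            opn := fun j => ?_
            OF := fun j t ht => ⟨hbc j ht.1, fun i hi h' => ht.2 i hi ⟨hbc i h'.1, h'.2⟩⟩
            Fb := fun j t ht => hL j ht.1
            nul := fun j => ?_
            dis := fun i j hij t hti htj hx => ?_ }, rfl, fun j => rfl⟩
  · refine (isCompact_closedBall (c j) (r j)).of_isClosed_subset ?_ fun t ht => ht.1
    rw [← isOpen_compl_iff, isOpen_iff_mem_nhds]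
    intro t ht
    by_cases h1 : t ∈ Metric.closedBall (c j) (r j)
    · have h2 : ∃ i < j, t ∈ Metric.ball (c i) (r i) ∧ (L i).x t = (L j).x t := by
        by_contra h3
        push Not at h3
        exact ht ⟨h1, fun i hi h4 => h3 i hi h4.1 h4.2⟩
      obtain ⟨i, hi, h3, h4⟩ := h2
      have h5 := PCS_uniq h ex hex C hV (L i) (L j) t (hL i (hbc i h3)) (hL j h1) h4
      filter_upwards [h5, Metric.isOpen_ball.mem_nhds h3] with s e1 e2 e3
      exact e3.2 i hi ⟨e2, e1⟩
    · filter_upwards [Metric.isClosed_closedBall.isOpen_compl.mem_nhds h1] with s e1 e2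
      exact e1 e2.1
  · rw [isOpen_iff_mem_nhds]
    intro t ht
    have h1 : ∀ i, ∀ᶠ s in 𝓝 t, i < j →
        ¬ (s ∈ Metric.closedBall (c i) (r i) ∧ (L i).x s = (L j).x s) := by
      intro i
      by_cases hi : i < j
      · by_cases h2 : t ∈ Metric.closedBall (c i) (r i)
        · have h3 : (L i).x t ≠ (L j).x t := fun h4 => ht.2 i hi ⟨h2, h4⟩
          have h5 : ContinuousAt (L i).x t := ((L i).x_an t (hL i h2)).continuousAt
          have h6 : ContinuousAt (L j).x t := ((L j).x_an t (hL j (hbc j ht.1))).continuousAt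
          have h7 : ∀ᶠ s in 𝓝 t, (L i).x s - (L j).x s ≠ 0 :=
            (h5.sub h6).eventually_ne (sub_ne_zero.2 h3)
          filter_upwards [h7] with s e1 _ e2
          exact e1 (sub_eq_zero.2 e2.2)
        · filter_upwards [Metric.isClosed_closedBall.isOpen_compl.mem_nhds h2] with s e1 _ e2
          exact e1 e2.1
      · exact Eventually.of_forall fun s h2 => absurd h2 hi
    filter_upwards [Filter.eventually_all.2 h1, Metric.isOpen_ball.mem_nhds ht.1] with s e1 e2
    exact ⟨e2, e1⟩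
  · refine measure_mono_null (t := ⋃ i, Metric.sphere (c i) (r i)) ?_
      (measure_iUnion_null fun i => Measure.addHaar_sphere volume (c i) (r i))
    rintro t ⟨ht, ht'⟩
    rw [Set.mem_iUnion]
    by_cases h1 : t ∈ Metric.ball (c j) (r j)
    · have h2 : ∃ i < j, t ∈ Metric.closedBall (c i) (r i) ∧ (L i).x t = (L j).x t := by
        by_contra h3
        push Not at h3
        exact ht' ⟨h1, fun i hi h4 => h3 i hi h4.1 h4.2⟩
      obtain ⟨i, hi, h3, h4⟩ := h2
      refine ⟨i, ?_⟩
      have h5 : t ∉ Metric.ball (c i) (r i) := fun h6 => ht.2 i hi ⟨h6, h4⟩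
      rw [Metric.mem_sphere]
      rw [Metric.mem_closedBall] at h3
      rw [Metric.mem_ball, not_lt] at h5
      exact le_antisymm h3 h5
    · refine ⟨j, ?_⟩
      have h3 := ht.1
      rw [Metric.mem_sphere]
      rw [Metric.mem_closedBall] at h3
      rw [Metric.mem_ball, not_lt] at h1
      exact le_antisymm h3 h1
  · rcases lt_or_gt_of_ne hij with h1 | h1
    · exact htj.2 i h1 ⟨hbc i hti.1, hx⟩
    · exact hti.2 j h1 ⟨hbc j htj.1, hx.symm⟩

end EQ

end Pool.Agent.ZR
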