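import Pool.Agent.ZR.EQ.St
import Pool.Agent.ZPE.II.PFS
import Pool.Agent.ZPT.F.Arc
import Pool.Agent.ZPT.F.Hgt

/-!
# ZR, block EQ, module PFQ (helper95): the product formula for the auxiliary function, coefficients
in the number field
-/

set_option autoImplicit false

open scoped BigOperators ComplexConjugate
open Filter Topology NumberField

namespace Pool.Agent.ZR

open Pool.Agent.ZPT Pool.Agent.ZPE

namespace EQ

section PFQ_local

variable {V : Type} [Fintype V] {K : Type} [Field K]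

/-- the supremum of a finite family of absolute values -/
private theorem PFQ_le_sup (v : AbsoluteValue K ℝ) (a : Fin 4 → K) (i : Fin 4) :
    v (a i) ≤ ⨆ i, v (a i) := le_ciSup (Set.finite_range fun i => v (a i)).bddAbove i

private theorem PFQ_sup_pos (v : AbsoluteValue K ℝ) (a : Fin 4 → K) (ha : a ≠ 0) :
    0 < ⨆ i, v (a i) := by
  obtain ⟨i, hi⟩ := Function.ne_iff.1 ha
  exact lt_of_lt_of_le (v.pos hi) (PFQ_le_sup v a i)

/-- nonarchimedean sums -/
private theorem PFQ_na {ι : Type} (v : AbsoluteValue K ℝ) (hv : IsNonarchimedean v)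
    (s : Finset ι) (f : ι → K) (M : ℝ) (hM : 0 ≤ M) (hf : ∀ p ∈ s, v (f p) ≤ M) :
    v (∑ p ∈ s, f p) ≤ M := by
  classical
  induction s using Finset.induction_on with
  | empty => simpa using hM
  | insert p s hp ih =>
    rw [Finset.sum_insert hp]
    exact (hv _ _).trans (max_le (hf p (Finset.mem_insert_self _ _))
      (ih fun q hq => hf q (Finset.mem_insert_of_mem hq)))

/-- the bound for one monomial -/
private theorem PFQ_mono (v : AbsoluteValue K ℝ) (y : V → K) (x : K) (A : V → Fin 4 → K)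
    (n Dg : ℕ) (e : V → ℕ) (d : ℕ) (m : V → Fin (n + 1)) (he : ∀ i, e i ≤ Dg) (hd : d ≤ Dg) :
    v ((∏ i, y i ^ e i) * x ^ d * ∏ s, (A s 0 ^ (m s : ℕ) * A s 3 ^ (n - (m s : ℕ)))) ≤
      (∏ i, max 1 (v (y i)) ^ Dg) * max 1 (v x) ^ Dg * ∏ s, (⨆ i, v (A s i)) ^ n := by
  have hp : ∀ (z : K) (k : ℕ), k ≤ Dg → v (z ^ k) ≤ max 1 (v z) ^ Dg := by
    intro z k hk
    rw [map_pow]
    exact (pow_le_pow_left₀ (v.nonneg z) (le_max_right _ _) k).trans
      (pow_le_pow_right₀ (le_max_left _ _) hk)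
  rw [map_mul, map_mul, map_prod, map_prod]
  refine mul_le_mul (mul_le_mul ?_ (hp x d hd) (v.nonneg _) ?_) ?_ ?_ ?_
  · exact Finset.prod_le_prod (fun i _ => v.nonneg _) fun i _ => hp (y i) (e i) (he i)
  · exact Finset.prod_nonneg fun i _ => by positivity
  · refine Finset.prod_le_prod (fun s _ => v.nonneg _) fun s _ => ?_
    have h0 : 0 ≤ ⨆ i, v (A s i) := (v.nonneg _).trans (PFQ_le_sup v (A s) 0)
    rw [map_mul, map_pow, map_pow]
    calc v (A s 0) ^ (m s : ℕ) * v (A s 3) ^ (n - (m s : ℕ))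
        ≤ (⨆ i, v (A s i)) ^ (m s : ℕ) * (⨆ i, v (A s i)) ^ (n - (m s : ℕ)) :=
          mul_le_mul (pow_le_pow_left₀ (v.nonneg _) (PFQ_le_sup v (A s) 0) _)
            (pow_le_pow_left₀ (v.nonneg _) (PFQ_le_sup v (A s) 3) _)
            (pow_nonneg (v.nonneg _) _) (pow_nonneg h0 _)
      _ = (⨆ i, v (A s i)) ^ n := by
          rw [← pow_add]
          congr 1
          have := (m s).2
          omega
  · exact Finset.prod_nonneg fun s _ => v.nonneg _
  · exact mul_nonneg (Finset.prod_nonneg fun i _ => by positivity) (by positivity)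

open scoped Classical in
/-- the local bound at an arbitrary absolute value -/
private theorem PFQ_bound (v : AbsoluteValue K ℝ) (y : V → K) (x : K) (A : V → Fin 4 → K)
    (n Dg : ℕ) (X : Finset ((V → ℕ) × ℕ)) (c : (V → Fin (n + 1)) × X → K) (G : ℝ)
    (hX : ∀ p ∈ X, (∀ i, p.1 i ≤ Dg) ∧ p.2 ≤ Dg)
    (hc : ∀ M : ℝ, 0 ≤ M → ∀ z : (V → Fin (n + 1)) × X → K, (∀ p, v (z p) ≤ M) →
      v (∑ p, c p * z p) ≤ G * M) :
    v (PhK n X c y x A) ≤
      G * ((∏ i, max 1 (v (y i)) ^ Dg) * max 1 (v x) ^ Dg * ∏ s, (⨆ i, v (A s i)) ^ n) := by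
  unfold PhK
  refine hc _ ?_ _ fun p => ?_
  · refine mul_nonneg (mul_nonneg (Finset.prod_nonneg fun i _ => by positivity) (by positivity))
      (Finset.prod_nonneg fun s _ => ?_)
    exact pow_nonneg ((v.nonneg _).trans (PFQ_le_sup v (A s) 0)) _
  · exact PFQ_mono v y x A n Dg p.2.1.1 p.2.1.2 p.1 (hX _ p.2.2).1 (hX _ p.2.2).2

/-- logarithm of the bound -/
private theorem PFQ_log (v : AbsoluteValue K ℝ) (y : V → K) (x : K) (A : V → Fin 4 → K)
    (n Dg : ℕ) (G L : ℝ) (a : K) (ha : a ≠ 0) (hA : ∀ s, A s ≠ 0) (hG : 0 < G)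
    (hL : Real.log G ≤ L)
    (hb : v a ≤ G * ((∏ i, max 1 (v (y i)) ^ Dg) * max 1 (v x) ^ Dg *
      ∏ s, (⨆ i, v (A s i)) ^ n)) :
    Real.log (v a) ≤ L + (Dg : ℝ) * (∑ i, Real.posLog (v (y i)) + Real.posLog (v x)) +
      (n : ℝ) * ∑ s, Real.log (⨆ i, v (A s i)) := by
  have hm : ∀ z : K, (0 : ℝ) < max 1 (v z) := fun z => lt_of_lt_of_le one_pos (le_max_left _ _)
  have hs : ∀ s, 0 < ⨆ i, v (A s i) := fun s => PFQ_sup_pos v (A s) (hA s)
  have h1 := Real.log_le_log (v.pos ha) hb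
  have hy0 : (∏ i, max 1 (v (y i)) ^ Dg) ≠ 0 :=
    Finset.prod_ne_zero_iff.2 fun i _ => pow_ne_zero _ (hm _).ne'
  have hs0 : (∏ s, (⨆ i, v (A s i)) ^ n) ≠ 0 :=
    Finset.prod_ne_zero_iff.2 fun s _ => pow_ne_zero _ (hs s).ne'
  rw [Real.log_mul hG.ne' (mul_ne_zero (mul_ne_zero hy0 (pow_ne_zero _ (hm x).ne')) hs0),
    Real.log_mul (mul_ne_zero hy0 (pow_ne_zero _ (hm x).ne')) hs0,
    Real.log_mul hy0 (pow_ne_zero _ (hm x).ne'),
    Real.log_prod fun i _ => pow_ne_zero _ (hm (y i)).ne',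
    Real.log_prod fun s _ => pow_ne_zero _ (hs s).ne'] at h1
  have hpl : ∀ z : K, Real.log (max 1 (v z) ^ Dg) = (Dg : ℝ) * Real.posLog (v z) := by
    intro z
    rw [Real.log_pow, Real.posLog_eq_log_max_one (v.nonneg z)]
  simp only [hpl, Real.log_pow] at h1
  rw [← Finset.mul_sum, ← Finset.mul_sum] at h1
  linarith

end PFQ_local

theorem PFQ_of : St_PFQ := by
  classical
  intro V _ K _ _ y x A n Dg X c h R S₀ hA hX hh hR hc hcf hne hS
  have hl2 : Real.log 2 ≠ 0 := (Real.log_pos (by norm_num)).ne'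
  have hcard : 1 ≤ Fintype.card ((V → Fin (n + 1)) × X) := by
    rw [Nat.one_le_iff_ne_zero]
    intro h0
    have hE : IsEmpty ((V → Fin (n + 1)) × X) := Fintype.card_eq_zero_iff.1 h0
    apply hne
    unfold PhK
    exact Finset.sum_of_isEmpty _
  have hcard' : (1 : ℝ) ≤ (Fintype.card ((V → Fin (n + 1)) × X) : ℝ) := by exact_mod_cast hcard
  set L : ℝ := h + Real.log (Fintype.card ((V → Fin (n + 1)) × X)) with hLdef
  have hL0 : 0 ≤ L := add_nonneg hh (Real.log_nonneg hcard')
  -- the local bound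
  let β : AbsoluteValue K ℝ → ℝ := fun v => L / Real.log 2 * Real.log (e2 v) +
    ((Dg : ℝ) * (∑ i, Real.posLog (v (y i)) + Real.posLog (v x)) +
      (n : ℝ) * ∑ s, Real.log (⨆ i, v (A s i)))
  have hArc := thm_Arc K
  have hβa : ∀ ψ : K →+* ℂ, β (place ψ) = L +
      ((Dg : ℝ) * (∑ i, Real.posLog (place ψ (y i)) + Real.posLog (place ψ x)) +
      (n : ℝ) * ∑ s, Real.log (⨆ i, place ψ (A s i))) := by
    intro ψ
    have : e2 (place ψ) = 2 := by
      unfold e2
      rw [if_neg (hArc.1 ψ)]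
    simp only [β, this]
    rw [div_mul_cancel₀ _ hl2]
  have hβw : ∀ w : FinitePlace K, β w.val = 
      ((Dg : ℝ) * (∑ i, Real.posLog (w.val (y i)) + Real.posLog (w.val x)) +
      (n : ℝ) * ∑ s, Real.log (⨆ i, w.val (A s i))) := by
    intro w
    have : e2 w.val = 1 := by
      unfold e2
      rw [if_pos (hArc.2.1 w)]
    simp only [β, this, Real.log_one, mul_zero, zero_add]
  refine II.thm_PFS K (PhK n X c y x A) β _ R S₀ hne hR ?_ ?_ ?_ ?_
  · intro ψ
    rw [hβa ψ, ← add_assoc]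
    refine PFQ_log (place ψ) y x A n Dg
      ((Fintype.card ((V → Fin (n + 1)) × X) : ℝ) * Real.exp h) L _ hne hA (by positivity) ?_ ?_
    · rw [Real.log_mul (by positivity) (Real.exp_pos _).ne', Real.log_exp, hLdef]
      linarith
    · refine PFQ_bound (place ψ) y x A n Dg X c _ hX fun M hM z hz => ?_
      calc place ψ (∑ p, c p * z p) ≤ ∑ p, place ψ (c p * z p) :=
            (place ψ).sum_le _ _
        _ ≤ ∑ _p : (V → Fin (n + 1)) × X, Real.exp h * M := by
            refine Finset.sum_le_sum fun p _ => ?_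
            rw [map_mul]
            refine mul_le_mul ?_ (hz p) ((place ψ).nonneg _) (Real.exp_pos _).le
            rw [NumberField.place_apply]
            exact hc ψ p
        _ = _ := by
            rw [Finset.sum_const, Finset.card_univ, nsmul_eq_mul]
            ring
  · intro w
    rw [hβw w]
    have := PFQ_log w.val y x A n Dg 1 0 _ hne hA one_pos (by simp) ?_
    · linarith
    · refine PFQ_bound w.val y x A n Dg X c _ hX fun M hM z hz => ?_
      have hna := hArc.2.1 w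
      rw [one_mul]
      refine PFQ_na w.val hna Finset.univ _ M hM fun p _ => ?_
      rw [map_mul]
      calc w.val (c p) * w.val (z p) ≤ 1 * M :=
            mul_le_mul (hcf w p) (hz p) (w.val.nonneg _) zero_le_one
        _ = M := one_mul M
  · intro ψ hψ
    rw [hβa ψ]
    have h1 := hS ψ hψ
    have hpos : 0 < ‖ψ (PhK n X c y x A)‖ := by
      rw [norm_pos_iff]
      exact (map_ne_zero ψ).2 hne
    have h2 := Real.log_le_log hpos h1
    have hs : ∀ s, 0 < ⨆ i, ‖ψ (A s i)‖ := fun s => PFQ_sup_pos (place ψ) (A s) (hA s)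
    rw [Real.log_mul (Real.exp_pos _).ne' (Finset.prod_ne_zero_iff.2 fun s _ =>
      pow_ne_zero _ (hs s).ne'), Real.log_exp,
      Real.log_prod fun s _ => pow_ne_zero _ (hs s).ne'] at h2
    simp only [Real.log_pow] at h2
    rw [← Finset.mul_sum] at h2
    have h3 : 0 ≤ (Dg : ℝ) * (∑ i, Real.posLog (place ψ (y i)) + Real.posLog (place ψ x)) :=
      mul_nonneg (Nat.cast_nonneg _) (add_nonneg (Finset.sum_nonneg fun i _ => Real.posLog_nonneg)
        Real.posLog_nonneg)
    have h4 : Real.log (place ψ (PhK n X c y x A)) ≤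
        -R + n * ∑ s, Real.log (⨆ i, place ψ (A s i)) := h2
    linarith
  · have a1 : ∀ᶠ T : Finset (FinitePlace K) in atTop, ∀ i : V,
        Helper10.ZP2.av T (fun v => Real.posLog (v (y i))) = hN (y i) := by
      rw [Filter.eventually_all]
      exact fun i => Helper10.ZP2.ev_height (y i)
    have a2 : ∀ᶠ T : Finset (FinitePlace K) in atTop,
        Helper10.ZP2.av T (fun v => Real.posLog (v x)) = hN x := Helper10.ZP2.ev_height x
    have a3 : ∀ᶠ T : Finset (FinitePlace K) in atTop, ∀ s : V,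
        Helper10.ZP2.av T (fun v => Real.log (⨆ i, v (A s i))) =
          Height.logHeight (A s) / Module.finrank ℚ K := by
      rw [Filter.eventually_all]
      exact fun s => (thm_Hgt K (Fin 4) (A s) (hA s)).1
    filter_upwards [a1, a2, a3] with T b1 b2 b3
    have e0 : Helper10.ZP2.av T (fun v => L / Real.log 2 * Real.log (e2 v)) = L := by
      rw [hArc.2.2, div_mul_cancel₀ _ hl2]
    have e1 : Helper10.ZP2.av T (fun v => (Dg : ℝ) * (∑ i, Real.posLog (v (y i)) +
        Real.posLog (v x))) = Dg * (∑ i, hN (y i) + hN x) := by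
      rw [Helper10.ZP2.av_mul T (Dg : ℝ) (fun v => ∑ i, Real.posLog (v (y i)) +
        Real.posLog (v x)),
        Helper10.ZP2.av_add T (fun v => ∑ i, Real.posLog (v (y i)))
          (fun v => Real.posLog (v x)),
        Helper10.ZP2.av_sum T Finset.univ (fun i v => Real.posLog (v (y i))), b2]
      congr 2
      exact Finset.sum_congr rfl fun i _ => b1 i
    have e2' : Helper10.ZP2.av T (fun v => (n : ℝ) * ∑ s, Real.log (⨆ i, v (A s i))) =
        n * ∑ s, Height.logHeight (A s) / Module.finrank ℚ K := by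
      rw [Helper10.ZP2.av_mul T (n : ℝ) (fun v => ∑ s, Real.log (⨆ i, v (A s i))),
        Helper10.ZP2.av_sum T Finset.univ (fun s v => Real.log (⨆ i, v (A s i)))]
      congr 1
      exact Finset.sum_congr rfl fun s _ => b3 s
    have e4 : Helper10.ZP2.av T β = L + (Dg * (∑ i, hN (y i) + hN x) +
        n * ∑ s, Height.logHeight (A s) / Module.finrank ℚ K) := by
      rw [← e1, ← e2', ← Helper10.ZP2.av_add T (fun v => (Dg : ℝ) * (∑ i, Real.posLog (v (y i)) +
        Real.posLog (v x))) (fun v => (n : ℝ) * ∑ s, Real.log (⨆ i, v (A s i)))]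
      conv_rhs => rw [← e0]
      rw [← Helper10.ZP2.av_add T (fun v => L / Real.log 2 * Real.log (e2 v))
        (fun v => (Dg : ℝ) * (∑ i, Real.posLog (v (y i)) + Real.posLog (v x)) +
          (n : ℝ) * ∑ s, Real.log (⨆ i, v (A s i)))]
    rw [e4]
    linarith

end EQ

end Pool.Agent.ZR
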