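import Pool.Agent.ZR.EQ.St
import Pool.Agent.ZR.S.All

/-!
# ZR, block EQ, module SHC: sharp lower bound for the degree
-/

set_option autoImplicit false

open scoped BigOperators ComplexConjugate
open Filter Topology MeasureTheory

namespace Pool.Agent.ZR

open Pool.Agent.ZPT Pool.Agent.ZPE

namespace EQ

private theorem SHC_count : Countable Qb := by
  have h1 : {x : ℂ | IsAlgebraic ℚ x}.Countable := Algebraic.countable ℚ ℂ
  have h2 : ((algebraicClosure ℚ ℂ : Set ℂ)).Countable :=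
    h1.mono fun x hx => mem_algebraicClosure_iff.1 hx
  exact h2.to_subtype

private theorem SHC_onJ {t : ℂ} {X : Fin 4 → ℂ} (h : OnJ t X) (hX : X ≠ 0) : X 0 ≠ 0 ∨ X 3 ≠ 0 := by
  by_contra hcon
  push Not at hcon
  obtain ⟨h0, h3⟩ := hcon
  apply hX
  have h1 : X 1 = 0 := by
    have e := h.c
    rw [h0, h3] at e
    have e' : X 1 ^ 2 = 0 := by linear_combination e
    exact pow_eq_zero_iff two_ne_zero |>.1 e'
  have h2 : X 2 = 0 := by
    have e := h.d
    rw [h0, h3] at e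
    have e' : X 2 ^ 2 = 0 := by linear_combination e
    exact pow_eq_zero_iff two_ne_zero |>.1 e'
  funext i
  fin_cases i
  · exact h0
  · exact h1
  · exact h2
  · exact h3

private theorem SHC_cb {ex : (t : ℂ) → ℂ →+ LPt t} {V N : Type} [Fintype V] [Fintype N]
    {C : JCh V N} (L : Loc1 ex C) (m : N → ℤ) (t : ℂ) :
    cb (fun ν => ex t (L.z ν t)) m = ex t (L.zm m t) := by
  unfold cb Loc1.zm
  rw [map_sum]
  refine Finset.sum_congr rfl fun ν _ => ?_
  rw [← zsmul_eq_mul, map_zsmul]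

private theorem SHC_real {α R e δ : ℝ} (hδ : 0 < δ) (hR : 0 < R) (hα : 0 ≤ α) :
    2 * α * R ^ 2 / (1 + δ) ^ 2 - (2 * e + Real.log 2) / Real.log (1 + δ) ≤
      ((α * R ^ 2 - e) - (α * (R / (1 + δ)) ^ 2 + e) - Real.log 2) / Real.log (1 + δ) := by
  have h1 : 0 < Real.log (1 + δ) := Real.log_pos (by linarith)
  have h2 : (0 : ℝ) < 1 + δ := by linarith
  rw [le_div_iff₀ h1, sub_mul, div_mul_cancel₀ _ h1.ne']
  have h3 : Real.log ((1 + δ) ^ 2) ≤ (1 + δ) ^ 2 - 1 :=
    Real.log_le_sub_one_of_pos (by positivity)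
  rw [Real.log_pow] at h3
  push_cast at h3
  have h4 : R ^ 2 = (R / (1 + δ)) ^ 2 * (1 + δ) ^ 2 := by
    rw [div_pow]
    field_simp
  have h5 : 2 * α * R ^ 2 / (1 + δ) ^ 2 = 2 * α * (R / (1 + δ)) ^ 2 := by
    rw [div_pow]
    ring
  rw [h5, h4]
  have h6 : 0 ≤ α * (R / (1 + δ)) ^ 2 := by positivity
  have h7 := mul_le_mul_of_nonneg_left h3 h6
  nlinarith [h7]

/-- SHC.  Sharp lower bound for the degree. -/
theorem SHC_of (hFIB : St_FIB) (hFAJ : D.St_FAJ) : St_SHC := by
  classical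
  intro ex hex V N _ _ C hV J _ L m t₁ R α e δ G₀ G₃ hδ hR hG hdis
  have hVu : Nonempty (Unique V) := by
    rw [← Fintype.card_eq_one_iff_nonempty_unique]
    exact hV
  obtain ⟨hu⟩ := hVu
  have hne : ∀ j, ∀ t ∈ Metric.closedBall (t₁ j) (R j), t ≠ 0 ∧ t ≠ 1 := by
    intro j t ht
    have h1 := (hG j).sub ht
    refine ⟨?_, ?_⟩
    · rintro rfl
      exact (L j).per.n0 h1
    · rintro rfl
      exact (L j).per.n1 h1
  have hcnt : {ζ : ℂ | IsAlgebraic Qb ζ}.Countable := by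
    have := SHC_count
    exact Algebraic.countable Qb ℂ
  have hℓ : 0 < Real.log (1 + δ) := Real.log_pos (by linarith)
  have h1δ : (0 : ℝ) < 1 + δ := by linarith
  obtain ⟨ζ, Z, hζ, hZ, hsum⟩ := hFIB J t₁ (fun j => R j / (1 + δ)) R
    (fun j => α j * (R j / (1 + δ)) ^ 2 + e j) (fun j => α j * R j ^ 2 - e j)
    (Real.log (1 + δ)) G₀ G₃ hℓ
    (by
      intro j
      refine ⟨div_pos (hR j).1 h1δ, ?_, ?_⟩
      · rw [div_lt_iff₀ h1δ]
        nlinarith [(hR j).1]
      · congr 1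
        have := (hR j).1.ne'
        field_simp)
    (fun j => (hG j).an₀) (fun j => (hG j).an₃)
    (by
      intro j t ht
      obtain ⟨u, hu0, e0, e3⟩ := (hG j).pr t ht
      obtain ⟨ht0, ht1⟩ := hne j t ht
      rcases SHC_onJ (hex.onJ t ((L j).zm m t) ht0 ht1) (hex.ne t _ ht0 ht1) with h | h
      · left
        rw [e0]
        exact mul_ne_zero hu0 h
      · right
        rw [e3]
        exact mul_ne_zero hu0 h)
    (by
      intro j t ht
      have h1 : ‖t - t₁ j‖ = R j / (1 + δ) := by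
        rw [← dist_eq_norm]
        exact ht
      have h2 : t ∈ Metric.closedBall (t₁ j) (R j) := by
        rw [Metric.mem_closedBall, dist_eq_norm, h1, div_le_iff₀ h1δ]
        nlinarith [(hR j).1]
      have h3 := (abs_le.1 ((hG j).bd t h2)).2
      rw [h1] at h3
      linarith)
    (by
      intro j t ht
      have h1 : ‖t - t₁ j‖ = R j := by
        rw [← dist_eq_norm]
        exact ht
      have h3 := (abs_le.1 ((hG j).bd t (Metric.sphere_subset_closedBall ht))).1
      rw [h1] at h3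
      linarith)
    _ hcnt
  let Z' : Finset ((V → ℂ) × ℂ) := Finset.univ.biUnion fun j =>
    (Z j).image fun t => ((fun _ => t : V → ℂ), (L j).x t)
  have hcard : Z'.card = ∑ j, (Z j).card := by
    rw [Finset.card_biUnion]
    · refine Finset.sum_congr rfl fun j _ => Finset.card_image_of_injOn ?_
      intro t _ t' _ h
      exact congrFun (Prod.ext_iff.1 h).1 default
    · intro i _ j _ hij
      rw [Function.onFun, Finset.disjoint_left]
      intro q hq hq'
      obtain ⟨t, ht, rfl⟩ := Finset.mem_image.1 hq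
      obtain ⟨t', ht', hq2⟩ := Finset.mem_image.1 hq'
      exact Set.disjoint_left.1 (hdis i j hij) ⟨t, (hZ i t ht).1, rfl⟩
        ⟨t', (hZ j t' ht').1, hq2.symm⟩
  have halg : AlgebraicIndependent Qb (fun _ : V => ζ) := by
    rw [algebraicIndependent_unique_type_iff]
    exact hζ
  obtain ⟨X, hXc, hX⟩ := hFAJ V N C (fun _ => m) (fun _ => ζ) Z' halg (by
    intro p hp
    obtain ⟨j, -, hp⟩ := Finset.mem_biUnion.1 hp
    obtain ⟨t, ht, rfl⟩ := Finset.mem_image.1 hp
    obtain ⟨ht1, hG3, hG0⟩ := hZ j t ht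
    obtain ⟨hn0, hn1⟩ := hne j t ht1
    have hd := (hG j).sub ht1
    refine ⟨(L j).pt t hd, fun ν => ex t ((L j).z ν t), ?_, ?_⟩
    · intro ν
      obtain ⟨u, hu0, e1⟩ := (L j).th ν t hd
      obtain ⟨u', hu', e2⟩ := hex.pt t ((L j).z ν t) hn0 hn1
      refine ⟨u * u', mul_ne_zero hu0 hu', ?_⟩
      show C.co (fun _ => t) ((L j).x t) ν = (u * u') • rp (ex t ((L j).z ν t))
      rw [e1, e2, smul_smul]
    · intro s
      show rp (cb (fun ν => ex t ((L j).z ν t)) m) 3 ≠ 0 ∧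
        rp (cb (fun ν => ex t ((L j).z ν t)) m) 0 = ζ * rp (cb (fun ν => ex t ((L j).z ν t)) m) 3
      rw [SHC_cb]
      obtain ⟨u, hu0, e0, e3⟩ := (hG j).pr t ht1
      obtain ⟨u', hu', e2⟩ := hex.pt t ((L j).zm m t) hn0 hn1
      have e20 : Th ((L j).zm m t) t 0 = u' * rp (ex t ((L j).zm m t)) 0 := congrFun e2 0
      have e23 : Th ((L j).zm m t) t 3 = u' * rp (ex t ((L j).zm m t)) 3 := congrFun e2 3
      rw [e0, e3, e20, e23] at hG0
      rw [e3, e23] at hG3
      refine ⟨right_ne_zero_of_mul (right_ne_zero_of_mul hG3), ?_⟩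
      have hc : u * u' ≠ 0 := mul_ne_zero hu0 hu'
      refine mul_left_cancel₀ hc ?_
      linear_combination hG0)
  refine ⟨X, hX, ?_⟩
  have h1 : ∑ j, (2 * α j * R j ^ 2 / (1 + δ) ^ 2 -
      (2 * e j + Real.log 2) / Real.log (1 + δ)) ≤
      (∑ j, ((α j * R j ^ 2 - e j) - (α j * (R j / (1 + δ)) ^ 2 + e j) - Real.log 2)) /
        Real.log (1 + δ) := by
    rw [Finset.sum_div]
    exact Finset.sum_le_sum fun j _ => SHC_real hδ (hR j).1 (hR j).2
  refine h1.trans ?_
  rw [div_le_iff₀ hℓ, hXc, hcard]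
  push_cast
  exact hsum

end EQ

end Pool.Agent.ZR
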