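import Pool.Agent.ZR.EQ.St
import Pool.Agent.ZPE.II.PIG2

/-!
# ZR, block EQ, [TAY]: pigeonhole for the Taylor coefficients with the Gaussian weight
-/

set_option autoImplicit false

open scoped BigOperators
open Filter Topology

namespace Pool.Agent.ZR

open Pool.Agent.ZPT Pool.Agent.ZPE

namespace EQ

private lemma TAY_le {u : ℝ} (hu : 0 ≤ u) : u ≤ Real.exp ((u ^ 2 - 1) / 2) := by
  have h1 : u ^ 2 ≤ Real.exp (u ^ 2 - 1) := by
    have := Real.add_one_le_exp (u ^ 2 - 1)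
    linarith
  have h2 : Real.exp (u ^ 2 - 1) = Real.exp ((u ^ 2 - 1) / 2) ^ 2 := by
    rw [← Real.exp_nat_mul]
    congr 1
    push_cast
    ring
  rw [h2] at h1
  exact (sq_le_sq₀ hu (Real.exp_pos _).le).1 h1

private lemma TAY_pow {u : ℝ} (hu : 0 ≤ u) (x : ℕ) :
    u ^ x ≤ Real.exp (x * ((u ^ 2 - 1) / 2)) := by
  rw [Real.exp_nat_mul]
  exact pow_le_pow_left₀ hu (TAY_le hu) x

private lemma TAY_rpow {u p : ℝ} (hu : 0 ≤ u) (hp : 0 ≤ p) :
    u ^ p ≤ Real.exp (p * ((u ^ 2 - 1) / 2)) := by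
  rw [mul_comm, Real.exp_mul]
  exact Real.rpow_le_rpow hu (TAY_le hu) hp

private lemma TAY_rho (α R₁ : ℝ) (hα : 0 ≤ α) (hR : 0 < R₁) (x : ℕ) :
    ∃ ρ : ℝ, 0 < ρ ∧ ρ ≤ R₁ ∧ ∀ s : ℝ, 0 ≤ s → s ≤ R₁ →
      (s / ρ) ^ x * Real.exp (α * ρ ^ 2) ≤ Real.exp (α * s ^ 2 + 1) := by
  by_cases h1 : 2 * (α * R₁ ^ 2) ≤ x
  · refine ⟨R₁, hR, le_rfl, fun s hs hsR => ?_⟩
    have hu : 0 ≤ s / R₁ := div_nonneg hs hR.le
    have hu1 : s / R₁ ≤ 1 := (div_le_one hR).2 hsR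
    have hsq : (s / R₁) ^ 2 ≤ 1 := pow_le_one₀ hu hu1
    have h2 := TAY_pow hu x
    have h3 : (x : ℝ) * (((s / R₁) ^ 2 - 1) / 2) ≤ α * R₁ ^ 2 * ((s / R₁) ^ 2 - 1) := by
      nlinarith
    have h4 : α * R₁ ^ 2 * ((s / R₁) ^ 2 - 1) + α * R₁ ^ 2 = α * s ^ 2 := by
      field_simp
      ring
    calc (s / R₁) ^ x * Real.exp (α * R₁ ^ 2)
        ≤ Real.exp (α * R₁ ^ 2 * ((s / R₁) ^ 2 - 1)) * Real.exp (α * R₁ ^ 2) := by
          gcongr
          exact h2.trans (Real.exp_le_exp.2 h3)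
      _ = Real.exp (α * s ^ 2) := by rw [← Real.exp_add, h4]
      _ ≤ Real.exp (α * s ^ 2 + 1) := Real.exp_le_exp.2 (by linarith)
  · rw [not_le] at h1
    have hx0 : (0 : ℝ) ≤ x := Nat.cast_nonneg x
    have hαpos : 0 < α := by
      rcases hα.lt_or_eq with h | h
      · exact h
      · rw [← h] at h1
        simp at h1
        linarith
    rcases Nat.eq_zero_or_pos x with hx | hx
    · subst hx
      refine ⟨min R₁ (1 / Real.sqrt α), lt_min hR (by positivity), min_le_left _ _,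
        fun s hs hsR => ?_⟩
      rw [pow_zero, one_mul]
      refine Real.exp_le_exp.2 ?_
      have h2 : (min R₁ (1 / Real.sqrt α)) ^ 2 ≤ (1 / Real.sqrt α) ^ 2 := by
        refine pow_le_pow_left₀ (le_min hR.le (by positivity)) (min_le_right _ _) 2
      have h3 : α * (1 / Real.sqrt α) ^ 2 = 1 := by
        rw [div_pow, one_pow, Real.sq_sqrt hα]
        field_simp
      have h4 : 0 ≤ α * s ^ 2 := by positivity
      nlinarith [mul_le_mul_of_nonneg_left h2 hα]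
    · have hxp : (0 : ℝ) < x := by exact_mod_cast hx
      set ρ : ℝ := Real.sqrt (x / (2 * α)) with hρ
      have hρ2 : ρ ^ 2 = x / (2 * α) := by
        rw [hρ]
        exact Real.sq_sqrt (by positivity)
      have hρpos : 0 < ρ := Real.sqrt_pos.2 (by positivity)
      have hρR : ρ ≤ R₁ := by
        refine Real.sqrt_le_iff.2 ⟨hR.le, ?_⟩
        rw [div_le_iff₀ (by positivity)]
        nlinarith
      refine ⟨ρ, hρpos, hρR, fun s hs _ => ?_⟩
      have hu : 0 ≤ s / ρ := div_nonneg hs hρpos.le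
      have h2 := TAY_pow hu x
      have hx2 : (x : ℝ) = 2 * α * ρ ^ 2 := by
        rw [hρ2]
        field_simp
      have h4 : (x : ℝ) * (((s / ρ) ^ 2 - 1) / 2) + α * ρ ^ 2 = α * s ^ 2 := by
        rw [hx2]
        field_simp
        ring
      calc (s / ρ) ^ x * Real.exp (α * ρ ^ 2)
          ≤ Real.exp ((x : ℝ) * (((s / ρ) ^ 2 - 1) / 2)) * Real.exp (α * ρ ^ 2) := by
            gcongr
        _ = Real.exp (α * s ^ 2) := by rw [← Real.exp_add, h4]
        _ ≤ Real.exp (α * s ^ 2 + 1) := Real.exp_le_exp.2 (by linarith)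

/-- the Taylor coefficient -/
private noncomputable def TAY_a (f : ℂ → ℂ) (t₁ : ℂ) (x : ℕ) : ℂ :=
  ((x.factorial : ℂ))⁻¹ * iteratedDeriv x f t₁

private lemma TAY_cauchy (f : ℂ → ℂ) (t₁ : ℂ) (α e R₁ ρ : ℝ) (x : ℕ) (hρ : 0 < ρ) (hρR : ρ ≤ R₁)
    (hf : AnalyticOnNhd ℂ f (Metric.closedBall t₁ R₁))
    (hb : ∀ t ∈ Metric.closedBall t₁ R₁, ‖f t‖ ≤ Real.exp (α * ‖t - t₁‖ ^ 2 + e)) :
    ‖TAY_a f t₁ x‖ * ρ ^ x ≤ Real.exp (α * ρ ^ 2 + e) := by
  have hd : DiffContOnCl ℂ f (Metric.ball t₁ ρ) := by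
    refine DifferentiableOn.diffContOnCl ?_
    rw [closure_ball t₁ hρ.ne']
    exact hf.differentiableOn.mono (Metric.closedBall_subset_closedBall hρR)
  have h1 := Complex.norm_iteratedDeriv_le_of_forall_mem_sphere_norm_le x hρ hd
    (C := Real.exp (α * ρ ^ 2 + e)) (fun z hz => by
      have hz' : ‖z - t₁‖ = ρ := by rwa [mem_sphere_iff_norm] at hz
      have := hb z (by rw [mem_closedBall_iff_norm, hz']; exact hρR)
      rwa [hz'] at this)
  rw [TAY_a, norm_mul, norm_inv, Complex.norm_natCast]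
  have hfac : (0 : ℝ) < x.factorial := by exact_mod_cast x.factorial_pos
  have hρx : 0 < ρ ^ x := by positivity
  calc (x.factorial : ℝ)⁻¹ * ‖iteratedDeriv x f t₁‖ * ρ ^ x
      ≤ (x.factorial : ℝ)⁻¹ * (x.factorial * Real.exp (α * ρ ^ 2 + e) / ρ ^ x) * ρ ^ x := by
        gcongr
    _ = Real.exp (α * ρ ^ 2 + e) := by
        field_simp

private lemma TAY_sum (f : ℂ → ℂ) (t₁ t : ℂ) (R₁ : ℝ)
    (hf : AnalyticOnNhd ℂ f (Metric.closedBall t₁ R₁)) (ht : t ∈ Metric.ball t₁ R₁) :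
    HasSum (fun x : ℕ => TAY_a f t₁ x * (t - t₁) ^ x) (f t) := by
  have h := Complex.hasSum_taylorSeries_on_ball
    (hf.differentiableOn.mono Metric.ball_subset_closedBall) ht
  have he : (fun x : ℕ => TAY_a f t₁ x * (t - t₁) ^ x) =
      fun n : ℕ => (n.factorial : ℂ)⁻¹ • (t - t₁) ^ n • iteratedDeriv n f t₁ := by
    funext x
    simp only [TAY_a, smul_eq_mul]
    ring
  rw [he]
  exact h

theorem TAY_of : St_TAY := by
  intro ι _ v t₁ α e β r R₁ R' h T hα he hβ hr hrR hv hb hT hcard hR' hh hpig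
  classical
  have hR₁ : 0 < R₁ := hr.trans hrR
  choose ρ hρ0 hρR hρ using fun x : ℕ => TAY_rho α R₁ hα hR₁ x
  -- the pigeonhole principle
  have hcau : ∀ (i : ι) (x : ℕ), ‖TAY_a (v i) t₁ x‖ * (ρ x) ^ x ≤
      Real.exp (α * (ρ x) ^ 2 + e) := fun i x =>
    TAY_cauchy (v i) t₁ α e R₁ (ρ x) x (hρ0 x) (hρR x) (hv i) (hb i)
  obtain ⟨c, hc0, hch, hcx⟩ := Pool.Agent.ZPE.II.thm_PIG2 (Fin T) ι T
    (fun i x => TAY_a (v i) t₁ x * ((ρ x : ℝ) : ℂ) ^ (x : ℕ) *
      ((Real.exp (-(α * (ρ x) ^ 2 + e)) : ℝ) : ℂ)) R' h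
    (by
      intro i x
      rw [norm_mul, norm_mul, norm_pow, Complex.norm_real, Complex.norm_real, Real.norm_eq_abs,
        Real.norm_eq_abs, abs_of_pos (hρ0 x), abs_of_pos (Real.exp_pos _), Real.exp_neg]
      rw [← div_eq_mul_inv]
      exact (div_le_one (Real.exp_pos _)).2 (hcau i x))
    ((Submodule.finrank_le _).trans (by simp)) hcard hR' hh hpig
  refine ⟨c, hc0, hch, fun t ht => ?_⟩
  have hs0 : 0 ≤ ‖t - t₁‖ := norm_nonneg _
  have hsr : ‖t - t₁‖ ≤ r := by rwa [mem_closedBall_iff_norm] at ht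
  have htb : t ∈ Metric.ball t₁ R₁ := by
    rw [mem_ball_iff_norm]
    exact hsr.trans_lt hrR
  set s : ℝ := ‖t - t₁‖ with hs
  -- the combined Taylor coefficients
  set b : ℕ → ℂ := fun x => ∑ i, (c i : ℂ) * TAY_a (v i) t₁ x with hbdef
  have hsum : HasSum (fun x : ℕ => b x * (t - t₁) ^ x) (∑ i, (c i : ℂ) * v i t) := by
    have h1 : HasSum (fun x : ℕ => ∑ i, (c i : ℂ) * (TAY_a (v i) t₁ x * (t - t₁) ^ x))
        (∑ i, (c i : ℂ) * v i t) :=
      hasSum_sum fun i _ => (TAY_sum (v i) t₁ t R₁ (hv i) htb).mul_left _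
    have h2 : (fun x : ℕ => b x * (t - t₁) ^ x) =
        fun x : ℕ => ∑ i, (c i : ℂ) * (TAY_a (v i) t₁ x * (t - t₁) ^ x) := by
      funext x
      rw [hbdef, Finset.sum_mul]
      exact Finset.sum_congr rfl fun i _ => by ring
    rw [h2]
    exact h1
  set G : ℝ := Real.exp (α * s ^ 2 + e) with hG
  have hGpos : 0 < G := Real.exp_pos _
  -- the terms below `T`
  have hlow : ∀ x ∈ Finset.range T, ‖b x * (t - t₁) ^ x‖ ≤ G * Real.exp (1 - R') := by
    intro x hx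
    have hxT : x < T := Finset.mem_range.1 hx
    have h1 := hcx ⟨x, hxT⟩
    have h2 : (∑ i, (c i : ℂ) * (TAY_a (v i) t₁ ((⟨x, hxT⟩ : Fin T) : ℕ) *
        ((ρ ((⟨x, hxT⟩ : Fin T) : ℕ) : ℝ) : ℂ) ^ (((⟨x, hxT⟩ : Fin T) : ℕ)) *
        ((Real.exp (-(α * (ρ ((⟨x, hxT⟩ : Fin T) : ℕ)) ^ 2 + e)) : ℝ) : ℂ))) =
        b x * ((ρ x : ℝ) : ℂ) ^ x * ((Real.exp (-(α * (ρ x) ^ 2 + e)) : ℝ) : ℂ) := by
      rw [hbdef]
      simp only [Finset.sum_mul]
      exact Finset.sum_congr rfl fun i _ => by ring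
    rw [h2, norm_mul, norm_mul, norm_pow, Complex.norm_real, Complex.norm_real, Real.norm_eq_abs,
      Real.norm_eq_abs, abs_of_pos (hρ0 x), abs_of_pos (Real.exp_pos _)] at h1
    have hb1 : ‖b x‖ * (ρ x) ^ x ≤ Real.exp (-R') * Real.exp (α * (ρ x) ^ 2 + e) := by
      have h3 : Real.exp (-(α * (ρ x) ^ 2 + e)) * Real.exp (α * (ρ x) ^ 2 + e) = 1 := by
        rw [← Real.exp_add]
        simp
      calc ‖b x‖ * (ρ x) ^ x = ‖b x‖ * (ρ x) ^ x *
            (Real.exp (-(α * (ρ x) ^ 2 + e)) * Real.exp (α * (ρ x) ^ 2 + e)) := by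
            rw [h3, mul_one]
        _ = ‖b x‖ * (ρ x) ^ x * Real.exp (-(α * (ρ x) ^ 2 + e)) *
            Real.exp (α * (ρ x) ^ 2 + e) := by ring
        _ ≤ Real.exp (-R') * Real.exp (α * (ρ x) ^ 2 + e) := by gcongr
    have h4 := hρ x s hs0 (hsr.trans hrR.le)
    have hρx : 0 < (ρ x) ^ x := pow_pos (hρ0 x) x
    rw [norm_mul, norm_pow]
    calc ‖b x‖ * s ^ x = ‖b x‖ * (ρ x) ^ x * (s / ρ x) ^ x := by
          rw [div_pow]
          field_simp
      _ ≤ Real.exp (-R') * Real.exp (α * (ρ x) ^ 2 + e) * (s / ρ x) ^ x := by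
          have : 0 ≤ (s / ρ x) ^ x := pow_nonneg (div_nonneg hs0 (hρ0 x).le) x
          gcongr
      _ = Real.exp (-R') * Real.exp e * ((s / ρ x) ^ x * Real.exp (α * (ρ x) ^ 2)) := by
          rw [Real.exp_add]
          ring
      _ ≤ Real.exp (-R') * Real.exp e * Real.exp (α * s ^ 2 + 1) := by gcongr
      _ = G * Real.exp (1 - R') := by
          rw [hG, ← Real.exp_add, ← Real.exp_add, ← Real.exp_add]
          congr 1
          ring
  -- all terms
  set K : ℝ := Fintype.card ι * Real.exp h * Real.exp (α * R₁ ^ 2 + e) with hK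
  have hKpos : 0 ≤ K := by positivity
  have hball : ∀ x : ℕ, ‖b x‖ * R₁ ^ x ≤ K := by
    intro x
    have h1 : ∀ i : ι, ‖(c i : ℂ) * TAY_a (v i) t₁ x‖ * R₁ ^ x ≤
        Real.exp h * Real.exp (α * R₁ ^ 2 + e) := by
      intro i
      have h2 := TAY_cauchy (v i) t₁ α e R₁ R₁ x hR₁ le_rfl (hv i) (hb i)
      have h3 : ‖(c i : ℂ)‖ ≤ Real.exp h := by
        rw [Complex.norm_intCast]
        exact hch i
      rw [norm_mul, mul_assoc]
      gcongr
    calc ‖b x‖ * R₁ ^ x ≤ (∑ i, ‖(c i : ℂ) * TAY_a (v i) t₁ x‖) * R₁ ^ x := by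
          gcongr
          exact norm_sum_le _ _
      _ = ∑ i, ‖(c i : ℂ) * TAY_a (v i) t₁ x‖ * R₁ ^ x := Finset.sum_mul _ _ _
      _ ≤ ∑ _i : ι, Real.exp h * Real.exp (α * R₁ ^ 2 + e) :=
          Finset.sum_le_sum fun i _ => h1 i
      _ = K := by
          rw [Finset.sum_const, Finset.card_univ, nsmul_eq_mul, hK]
          ring
  set u : ℝ := s / R₁ with hu
  have hu0 : 0 ≤ u := div_nonneg hs0 hR₁.le
  have hur : u ≤ r / R₁ := by
    rw [hu]
    gcongr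
  have hrR1 : r / R₁ < 1 := (div_lt_one hR₁).2 hrR
  have hu1 : u < 1 := hur.trans_lt hrR1
  have hterm : ∀ x : ℕ, ‖b x * (t - t₁) ^ x‖ ≤ K * u ^ x := by
    intro x
    rw [norm_mul, norm_pow]
    calc ‖b x‖ * s ^ x = ‖b x‖ * R₁ ^ x * u ^ x := by
          rw [hu, div_pow]
          field_simp
      _ ≤ K * u ^ x := by
          have : 0 ≤ u ^ x := pow_nonneg hu0 x
          gcongr
          exact hball x
  -- the tail
  have hgeo : HasSum (fun j : ℕ => K * u ^ (j + T)) (K * u ^ T * (1 - u)⁻¹) := by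
    have h1 := (hasSum_geometric_of_lt_one hu0 hu1).mul_left (K * u ^ T)
    have h2 : (fun j : ℕ => K * u ^ (j + T)) = fun j : ℕ => K * u ^ T * u ^ j := by
      funext j
      rw [pow_add]
      ring
    rw [h2]
    exact h1
  have htail : ‖∑' j : ℕ, b (j + T) * (t - t₁) ^ (j + T)‖ ≤ K * u ^ T * (1 - u)⁻¹ :=
    tsum_of_norm_bounded hgeo fun j => hterm (j + T)
  have hsplit : ∑ i, (c i : ℂ) * v i t =
      ∑ x ∈ Finset.range T, b x * (t - t₁) ^ x + ∑' j : ℕ, b (j + T) * (t - t₁) ^ (j + T) := by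
    rw [hsum.summable.sum_add_tsum_nat_add T, hsum.tsum_eq]
  -- the size of the tail
  have hTpos : (0 : ℝ) < T := by
    have : 0 ≤ α * R₁ ^ 2 := by positivity
    linarith
  have hT0 : T ≠ 0 := by
    intro h0
    rw [h0] at hTpos
    simp at hTpos
  have hαR : 0 ≤ α * R₁ ^ 2 := by positivity
  have huT : Real.exp (α * R₁ ^ 2) * u ^ T ≤ Real.exp (α * s ^ 2) * (r / R₁) ^ (2 * β) := by
    rcases hu0.lt_or_eq with hup | hu00
    · have h1 : u ^ T ≤ u ^ (2 * (α * R₁ ^ 2)) * u ^ (2 * β) := by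
        rw [← Real.rpow_natCast, ← Real.rpow_add hup]
        exact Real.rpow_le_rpow_of_exponent_ge hup hu1.le (by linarith)
      have h2 := TAY_rpow hu0 (p := 2 * (α * R₁ ^ 2)) (by positivity)
      have h3 : u ^ (2 * β) ≤ (r / R₁) ^ (2 * β) :=
        Real.rpow_le_rpow hu0 hur (by positivity)
      have h4 : 2 * (α * R₁ ^ 2) * ((u ^ 2 - 1) / 2) + α * R₁ ^ 2 = α * s ^ 2 := by
        rw [hu]
        field_simp
        ring
      calc Real.exp (α * R₁ ^ 2) * u ^ T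
          ≤ Real.exp (α * R₁ ^ 2) * (Real.exp (2 * (α * R₁ ^ 2) * ((u ^ 2 - 1) / 2)) *
              (r / R₁) ^ (2 * β)) := by
            gcongr
            exact h1.trans (mul_le_mul h2 h3 (Real.rpow_nonneg hu0 _) (Real.exp_pos _).le)
        _ = Real.exp (2 * (α * R₁ ^ 2) * ((u ^ 2 - 1) / 2) + α * R₁ ^ 2) *
              (r / R₁) ^ (2 * β) := by
            rw [Real.exp_add]
            ring
        _ = Real.exp (α * s ^ 2) * (r / R₁) ^ (2 * β) := by rw [h4]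
    · rw [← hu00, zero_pow hT0, mul_zero]
      positivity
  have htail2 : K * u ^ T * (1 - u)⁻¹ ≤
      G * (Fintype.card ι * Real.exp h * (r / R₁) ^ (2 * β) / (1 - r / R₁)) := by
    have h1 : (1 - u)⁻¹ ≤ (1 - r / R₁)⁻¹ := by
      have : 0 < 1 - r / R₁ := by linarith
      gcongr
    have h2 : K * u ^ T = Fintype.card ι * Real.exp h * Real.exp e *
        (Real.exp (α * R₁ ^ 2) * u ^ T) := by
      rw [hK, Real.exp_add]
      ring
    have h3 : 0 ≤ (1 - r / R₁)⁻¹ := by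
      have : 0 < 1 - r / R₁ := by linarith
      positivity
    calc K * u ^ T * (1 - u)⁻¹
        ≤ Fintype.card ι * Real.exp h * Real.exp e *
          (Real.exp (α * s ^ 2) * (r / R₁) ^ (2 * β)) * (1 - r / R₁)⁻¹ := by
          rw [h2]
          gcongr
      _ = G * (Fintype.card ι * Real.exp h * (r / R₁) ^ (2 * β) / (1 - r / R₁)) := by
          rw [hG, Real.exp_add]
          ring
  rw [hsplit]
  calc ‖∑ x ∈ Finset.range T, b x * (t - t₁) ^ x + ∑' j : ℕ, b (j + T) * (t - t₁) ^ (j + T)‖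
      ≤ ‖∑ x ∈ Finset.range T, b x * (t - t₁) ^ x‖ +
        ‖∑' j : ℕ, b (j + T) * (t - t₁) ^ (j + T)‖ := norm_add_le _ _
    _ ≤ T * (G * Real.exp (1 - R')) +
        G * (Fintype.card ι * Real.exp h * (r / R₁) ^ (2 * β) / (1 - r / R₁)) := by
        refine add_le_add ?_ (htail.trans htail2)
        refine (norm_sum_le_of_le _ hlow).trans ?_
        rw [Finset.sum_const, Finset.card_range, nsmul_eq_mul]
    _ = G * (T * Real.exp (1 - R') +
          Fintype.card ι * Real.exp h * (r / R₁) ^ (2 * β) / (1 - r / R₁)) := by ring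

end EQ

end Pool.Agent.ZR
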