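import Pool.Agent.ZR.EQ.St
import Pool.Agent.ZR.C2.LOCT

/-!
# ZR, block EQ, module THI: the Betti form does not depend on the local data (helper99)
-/

set_option autoImplicit false

open scoped BigOperators ComplexConjugate
open Filter Topology MeasureTheory

namespace Pool.Agent.ZR

open Pool.Agent.ZPT Pool.Agent.ZPE

namespace EQ

/-! ### Betti coordinates -/

private theorem THI_im' {a b : ℂ} (h : (a * conj b).im ≠ 0) : (b * conj a).im ≠ 0 := by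
  intro h1
  apply h
  simp only [Complex.mul_im, Complex.conj_re, Complex.conj_im] at h1 ⊢
  linarith

/-- the coordinates of a real combination -/
private theorem THI_be {a b : ℂ} (h : (a * conj b).im ≠ 0) (s t : ℝ) :
    be1 a b (s * a + t * b) = s ∧ be2 a b (s * a + t * b) = t := by
  have h' := THI_im' h
  constructor
  · unfold be1
    rw [div_eq_iff h]
    simp only [Complex.mul_im, Complex.add_re, Complex.add_im, Complex.mul_re,
      Complex.ofReal_re, Complex.ofReal_im, Complex.conj_re, Complex.conj_im]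
    ring
  · unfold be2
    rw [div_eq_iff h']
    simp only [Complex.mul_im, Complex.add_re, Complex.add_im, Complex.mul_re,
      Complex.ofReal_re, Complex.ofReal_im, Complex.conj_re, Complex.conj_im]
    ring

/-- every number is the combination of the periods with its coordinates -/
private theorem THI_eq {a b : ℂ} (h : (a * conj b).im ≠ 0) (z : ℂ) :
    z = be1 a b z * a + be2 a b z * b := by
  have h' := THI_im' h
  obtain ⟨δ, hδ⟩ : ∃ δ : ℝ, δ = a.im * b.re - a.re * b.im := ⟨_, rfl⟩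
  have e1 : (a * conj b).im = δ := by
    rw [hδ]
    simp only [Complex.mul_im, Complex.conj_re, Complex.conj_im]
    ring
  have e2 : (b * conj a).im = -δ := by
    rw [hδ]
    simp only [Complex.mul_im, Complex.conj_re, Complex.conj_im]
    ring
  have hδ0 : δ ≠ 0 := by
    rw [← e1]
    exact h
  have f1 : be1 a b z = (z.im * b.re - z.re * b.im) / δ := by
    unfold be1
    rw [e1]
    congr 1
    simp only [Complex.mul_im, Complex.conj_re, Complex.conj_im]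
    ring
  have f2 : be2 a b z = -((z.im * a.re - z.re * a.im) / δ) := by
    unfold be2
    rw [e2, div_neg]
    congr 2
    simp only [Complex.mul_im, Complex.conj_re, Complex.conj_im]
    ring
  apply Complex.ext
  · rw [f1, f2]
    simp only [Complex.add_re, Complex.mul_re, Complex.ofReal_re, Complex.ofReal_im]
    field_simp
    rw [hδ]
    ring
  · rw [f1, f2]
    simp only [Complex.add_im, Complex.mul_im, Complex.ofReal_re, Complex.ofReal_im]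
    field_simp
    rw [hδ]
    ring

/-! ### the kernel of the exponential map -/

/-- the kernel is discrete -/
private theorem THI_disc (hT : ThP) (ex : (t : ℂ) → ℂ →+ LPt t) (hex : ExP ex) {t : ℂ}
    (h0 : t ≠ 0) (h1 : t ≠ 1) : ∃ s : ℝ, 0 < s ∧ ∀ z : ℂ, ‖z‖ < s → ex t z = 0 → z = 0 := by
  obtain ⟨B, s₀, hs₀, hB⟩ := hT.loc ‖t‖
  refine ⟨min s₀ (min 1 (1 / (|B| + 1))), by positivity, fun z hz hz0 => ?_⟩
  obtain ⟨u, -, hu⟩ := hex.pt t z h0 h1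
  rw [hz0, rp_zero] at hu
  have h2 : Th z t 0 = 0 := by
    have h3 := congrFun hu 0
    rw [h3]
    show u * jo ℂ 0 = 0
    have h4 : jo ℂ 0 = 0 := rfl
    rw [h4, mul_zero]
  have h3 := hB z t (hz.le.trans (min_le_left _ _)) le_rfl
  have h4 : ‖z‖ ≤ B * ‖z‖ ^ 3 := by
    have h5 := (norm_le_pi_norm (Th z t - X0 z t) 0).trans h3
    have h6 : (Th z t - X0 z t) 0 = -z := by
      show Th z t 0 - X0 z t 0 = -z
      rw [h2]
      have h7 : X0 z t 0 = z := rfl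
      rw [h7, zero_sub]
    rwa [h6, norm_neg] at h5
  have hz1 : ‖z‖ < 1 := hz.trans_le ((min_le_right _ _).trans (min_le_left _ _))
  have hz2 : ‖z‖ < 1 / (|B| + 1) := hz.trans_le ((min_le_right _ _).trans (min_le_right _ _))
  by_contra hne
  have hp : 0 < ‖z‖ := norm_pos_iff.2 hne
  have h5 : ‖z‖ * (|B| + 1) < 1 := by
    have h6 : (0 : ℝ) < |B| + 1 := by positivity
    rwa [lt_div_iff₀ h6] at hz2
  have h6 : B * ‖z‖ ^ 3 ≤ |B| * ‖z‖ ^ 2 := by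
    have h7 : B * ‖z‖ ^ 3 ≤ |B| * ‖z‖ ^ 3 :=
      mul_le_mul_of_nonneg_right (le_abs_self B) (by positivity)
    have h8 : ‖z‖ ^ 3 ≤ ‖z‖ ^ 2 := pow_le_pow_of_le_one hp.le hz1.le (by norm_num)
    exact h7.trans (mul_le_mul_of_nonneg_left h8 (abs_nonneg B))
  have h7 : |B| * ‖z‖ ^ 2 < ‖z‖ := by
    have h8 : |B| * ‖z‖ ^ 2 = (‖z‖ * |B|) * ‖z‖ := by ring
    rw [h8]
    have h9 : ‖z‖ * |B| < 1 := by nlinarith
    nlinarith
  linarith

/-- the coordinates of an element of the kernel are rational -/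
private theorem THI_rat (hT : ThP) (ex : (t : ℂ) → ℂ →+ LPt t) (hex : ExP ex) {t : ℂ}
    (h0 : t ≠ 0) (h1 : t ≠ 1) {a b p : ℂ} (ha : ex t a = 0) (hb : ex t b = 0)
    (him : (a * conj b).im ≠ 0) (hp : ex t p = 0) :
    ∃ q₁ q₂ : ℚ, be1 a b p = q₁ ∧ be2 a b p = q₂ := by
  obtain ⟨s, hs, hdisc⟩ := THI_disc hT ex hex h0 h1
  obtain ⟨x, hx⟩ : ∃ x : ℝ, x = be1 a b p := ⟨_, rfl⟩
  obtain ⟨y, hy⟩ : ∃ y : ℝ, y = be2 a b p := ⟨_, rfl⟩
  have hpe : p = x * a + y * b := by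
    rw [hx, hy]
    exact THI_eq him p
  obtain ⟨u, hu⟩ : ∃ u : ℕ → ℂ, u = fun (j : ℕ) =>
      ((Int.fract ((j : ℝ) * x) : ℝ) : ℂ) * a + ((Int.fract ((j : ℝ) * y) : ℝ) : ℂ) * b :=
    ⟨_, rfl⟩
  have hub : ∀ j, u j ∈ Metric.closedBall (0 : ℂ) (‖a‖ + ‖b‖) := by
    intro j
    rw [mem_closedBall_zero_iff, hu]
    refine (norm_add_le _ _).trans (add_le_add ?_ ?_)
    · rw [norm_mul, Complex.norm_real, Real.norm_eq_abs, abs_of_nonneg (Int.fract_nonneg _)]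
      have h2 := (Int.fract_lt_one ((j : ℝ) * x)).le
      have h3 := norm_nonneg a
      nlinarith
    · rw [norm_mul, Complex.norm_real, Real.norm_eq_abs, abs_of_nonneg (Int.fract_nonneg _)]
      have h2 := (Int.fract_lt_one ((j : ℝ) * y)).le
      have h3 := norm_nonneg b
      nlinarith
  have hue : ∀ j, u j = j • p - ⌊(j : ℝ) * x⌋ • a - ⌊(j : ℝ) * y⌋ • b := by
    intro j
    rw [hu]
    simp only [nsmul_eq_mul, zsmul_eq_mul]
    have h2 : ((Int.fract ((j : ℝ) * x) : ℝ) : ℂ) = (j : ℂ) * x - (⌊(j : ℝ) * x⌋ : ℂ) := by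
      have h3 : Int.fract ((j : ℝ) * x) = (j : ℝ) * x - (⌊(j : ℝ) * x⌋ : ℝ) := rfl
      rw [h3]
      push_cast
      ring
    have h4 : ((Int.fract ((j : ℝ) * y) : ℝ) : ℂ) = (j : ℂ) * y - (⌊(j : ℝ) * y⌋ : ℂ) := by
      have h3 : Int.fract ((j : ℝ) * y) = (j : ℝ) * y - (⌊(j : ℝ) * y⌋ : ℝ) := rfl
      rw [h3]
      push_cast
      ring
    rw [h2, h4, hpe]
    ring
  have huk : ∀ j, ex t (u j) = 0 := by
    intro j
    rw [hue, map_sub, map_sub, map_nsmul, map_zsmul, map_zsmul, hp, ha, hb, smul_zero, smul_zero,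
      smul_zero, sub_zero, sub_zero]
  obtain ⟨l, -, φ, hφ, hl⟩ := (isCompact_closedBall (0 : ℂ) (‖a‖ + ‖b‖)).tendsto_subseq hub
  have hc : CauchySeq (u ∘ φ) := hl.cauchySeq
  obtain ⟨n, hn⟩ := Metric.cauchySeq_iff.1 hc s hs
  have h2 := hn n le_rfl (n + 1) (Nat.le_succ n)
  obtain ⟨i, hi⟩ : ∃ i, i = φ n := ⟨_, rfl⟩
  obtain ⟨j, hj⟩ : ∃ j, j = φ (n + 1) := ⟨_, rfl⟩
  have hij : i < j := by
    rw [hi, hj]
    exact hφ (Nat.lt_succ_self n)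
  have h3 : u i - u j = 0 := by
    apply hdisc
    · rw [← dist_eq_norm, hi, hj]
      exact h2
    · rw [map_sub, huk, huk, sub_zero]
  have h4 : ((i : ℝ) * x - ⌊(i : ℝ) * x⌋ : ℝ) = (j : ℝ) * x - ⌊(j : ℝ) * x⌋ ∧
      ((i : ℝ) * y - ⌊(i : ℝ) * y⌋ : ℝ) = (j : ℝ) * y - ⌊(j : ℝ) * y⌋ := by
    have h5 : u i = u j := sub_eq_zero.1 h3
    rw [hu] at h5
    simp only at h5
    have h6 := THI_be him (Int.fract ((i : ℝ) * x)) (Int.fract ((i : ℝ) * y))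
    have h7 := THI_be him (Int.fract ((j : ℝ) * x)) (Int.fract ((j : ℝ) * y))
    rw [h5] at h6
    constructor
    · exact h6.1.symm.trans h7.1
    · exact h6.2.symm.trans h7.2
  have hji : ((j : ℝ) - i) ≠ 0 := by
    have : (i : ℝ) < j := by exact_mod_cast hij
    linarith
  refine ⟨((⌊(j : ℝ) * x⌋ - ⌊(i : ℝ) * x⌋ : ℤ) : ℚ) / ((j : ℚ) - i),
    ((⌊(j : ℝ) * y⌋ - ⌊(i : ℝ) * y⌋ : ℤ) : ℚ) / ((j : ℚ) - i), ?_, ?_⟩
  · rw [← hx]
    push_cast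
    rw [eq_div_iff hji]
    linarith [h4.1]
  · rw [← hy]
    push_cast
    rw [eq_div_iff hji]
    linarith [h4.2]

/-- a continuous function with rational values is locally constant -/
private theorem THI_cst {f : ℂ → ℝ} {t₀ : ℂ} (hf : ∀ᶠ t in 𝓝 t₀, ContinuousAt f t)
    (hq : ∀ᶠ t in 𝓝 t₀, ∃ q : ℚ, f t = q) : ∀ᶠ t in 𝓝 t₀, f t = f t₀ := by
  obtain ⟨ε, hε, h⟩ := Metric.eventually_nhds_iff_ball.1 (hf.and hq)
  rw [Metric.eventually_nhds_iff_ball]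
  refine ⟨ε, hε, fun t ht => ?_⟩
  have h1 : IsPreconnected (Metric.ball t₀ ε) := (convex_ball t₀ ε).isPreconnected
  have h2 : ContinuousOn f (Metric.ball t₀ ε) := fun y hy => (h y hy).1.continuousWithinAt
  have h3 : IsPreconnected (f '' Metric.ball t₀ ε) := h1.image f h2
  have h4 : f '' Metric.ball t₀ ε ⊆ Set.range (fun q : ℚ => (q : ℝ)) := by
    rintro _ ⟨y, hy, rfl⟩
    obtain ⟨q, hq⟩ := (h y hy).2
    exact ⟨q, hq.symm⟩
  have h5 : (Set.range (fun q : ℚ => (q : ℝ))).Countable := Set.countable_range _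
  exact h5.isTotallyDisconnected _ h4 h3 ⟨t, ht, rfl⟩ ⟨t₀, Metric.mem_ball_self hε, rfl⟩

/-- an analytic family of elements of the kernel has constant coordinates -/
private theorem THI_fam (hT : ThP) (ex : (t : ℂ) → ℂ →+ LPt t) (hex : ExP ex) {c : ℂ} {r : ℝ}
    {w₁ w₂ : ℂ → ℂ} (hw : Pers ex c r w₁ w₂) {t₀ : ℂ} (ht : t₀ ∈ Metric.ball c r) (p : ℂ → ℂ)
    (hp : AnalyticAt ℂ p t₀) (hk : ∀ᶠ t in 𝓝 t₀, ex t (p t) = 0) :
    ∃ a b : ℝ, ∀ᶠ t in 𝓝 t₀, p t = a * w₁ t + b * w₂ t := by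
  have hball : ∀ᶠ t in 𝓝 t₀, t ∈ Metric.ball c r := Metric.isOpen_ball.mem_nhds ht
  have hcont : ∀ {t : ℂ}, t ∈ Metric.ball c r → AnalyticAt ℂ p t →
      ContinuousAt (fun t => be1 (w₁ t) (w₂ t) (p t)) t ∧
        ContinuousAt (fun t => be2 (w₁ t) (w₂ t) (p t)) t := by
    intro t ht hp
    have c1 : ContinuousAt w₁ t := (hw.a₁ t ht).continuousAt
    have c2 : ContinuousAt w₂ t := (hw.a₂ t ht).continuousAt
    have c3 : ContinuousAt p t := hp.continuousAt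
    have cj : ∀ {g : ℂ → ℂ}, ContinuousAt g t → ContinuousAt (fun t => conj (g t)) t := fun hg =>
      (Complex.continuous_conj.continuousAt).comp hg
    have ci : ∀ {g : ℂ → ℂ}, ContinuousAt g t → ContinuousAt (fun t => (g t).im) t := fun hg =>
      (Complex.continuous_im.continuousAt).comp hg
    constructor
    · exact (ci (c3.mul (cj c2))).div (ci (c1.mul (cj c2))) (hw.im t ht)
    · exact (ci (c3.mul (cj c1))).div (ci (c2.mul (cj c1))) (THI_im' (hw.im t ht))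
  have hne : ∀ {t : ℂ}, t ∈ Metric.ball c r → t ≠ 0 ∧ t ≠ 1 := by
    intro t ht
    exact ⟨fun h => hw.n0 (h ▸ ht), fun h => hw.n1 (h ▸ ht)⟩
  have hrat : ∀ᶠ t in 𝓝 t₀, ∃ q₁ q₂ : ℚ, be1 (w₁ t) (w₂ t) (p t) = q₁ ∧
      be2 (w₁ t) (w₂ t) (p t) = q₂ := by
    filter_upwards [hball, hk] with t ht' hk'
    exact THI_rat hT ex hex (hne ht').1 (hne ht').2 (hw.k₁ t ht') (hw.k₂ t ht') (hw.im t ht') hk'
  have e1 := THI_cst (f := fun t => be1 (w₁ t) (w₂ t) (p t))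
    (by
      filter_upwards [hball, hp.eventually_analyticAt] with t ht' hp'
      exact (hcont ht' hp').1)
    (by
      filter_upwards [hrat] with t ht'
      obtain ⟨q₁, q₂, h1, -⟩ := ht'
      exact ⟨q₁, h1⟩)
  have e2 := THI_cst (f := fun t => be2 (w₁ t) (w₂ t) (p t))
    (by
      filter_upwards [hball, hp.eventually_analyticAt] with t ht' hp'
      exact (hcont ht' hp').2)
    (by
      filter_upwards [hrat] with t ht'
      obtain ⟨q₁, q₂, -, h2⟩ := ht'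
      exact ⟨q₂, h2⟩)
  refine ⟨be1 (w₁ t₀) (w₂ t₀) (p t₀), be2 (w₁ t₀) (w₂ t₀) (p t₀), ?_⟩
  filter_upwards [e1, e2, hball] with t h1 h2 h3
  rw [← h1, ← h2]
  exact THI_eq (hw.im t h3) (p t)

/-- points with proportional theta vectors -/
private theorem THI_pts (hS : St_S1) (ex : (t : ℂ) → ℂ →+ LPt t) (hex : ExP ex) {t : ℂ}
    (h0 : t ≠ 0) (h1 : t ≠ 1) {z z' u u' : ℂ} (hu : u ≠ 0) (hu' : u' ≠ 0)
    (h : u • Th z t = u' • Th z' t) : ex t (z' - z) = 0 := by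
  obtain ⟨c, hc, hTh⟩ := hex.pt t z h0 h1
  obtain ⟨c', hc', hTh'⟩ := hex.pt t z' h0 h1
  rw [hTh, hTh', smul_smul, smul_smul] at h
  have h2 := (hS ℂ t h0 h1 two_ne_zero).2.1 (ex t z') (ex t z)
    ⟨(u' * c')⁻¹ * (u * c), mul_ne_zero (inv_ne_zero (mul_ne_zero hu' hc')) (mul_ne_zero hu hc),
      by rw [mul_smul, h, smul_smul, inv_mul_cancel₀ (mul_ne_zero hu' hc'), one_smul]⟩
  rw [map_sub, h2, sub_self]

/-- [THI] -/
theorem THI_of (hT : ThP) (hS : St_S1) : St_THI := by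
  intro ex hex V N _ _ C _ L L' t₀ ht ht' hx w
  have hball : ∀ᶠ t in 𝓝 t₀, t ∈ L.dsk := Metric.isOpen_ball.mem_nhds ht
  have hball' : ∀ᶠ t in 𝓝 t₀, t ∈ L'.dsk := Metric.isOpen_ball.mem_nhds ht'
  -- the roots agree
  have hroot : ∀ᶠ t in 𝓝 t₀, L.x t = L'.x t := by
    obtain ⟨Φ, hΦ⟩ : ∃ Φ : ℂ × ℂ → ℂ, Φ = fun q => ev (C.M.f ()) (fun _ => q.2) q.1 := ⟨_, rfl⟩
    have hΦa : AnalyticAt ℂ Φ (L.x t₀, t₀) := by
      rw [hΦ]
      refine C2.LOCTx.ev_an (C.M.f ()) (fun q : ℂ × ℂ => (fun _ => q.2)) (fun q => q.1) (L.x t₀, t₀)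
        ?_ analyticAt_fst
      exact AnalyticAt.pi fun _ => analyticAt_snd
    have hΦd : deriv (fun z => Φ (z, t₀)) (L.x t₀) ≠ 0 := by
      rw [hΦ]
      exact C2.LOCTx.der_ne C (L.pt t₀ ht)
    obtain ⟨δ, hδ, hinj⟩ := C2.LOCTx.inj Φ (L.x t₀) t₀ hΦa hΦd
    have h1 : ∀ᶠ t in 𝓝 t₀, L.x t ∈ Metric.ball (L.x t₀) δ :=
      (L.x_an t₀ ht).continuousAt.eventually_mem (Metric.ball_mem_nhds _ hδ)
    have h2 : ∀ᶠ t in 𝓝 t₀, L'.x t ∈ Metric.ball (L.x t₀) δ := by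
      have h3 := (L'.x_an t₀ ht').continuousAt.eventually_mem (Metric.ball_mem_nhds (L'.x t₀) hδ)
      rwa [← hx] at h3
    filter_upwards [h1, h2, hball, hball', Metric.ball_mem_nhds t₀ hδ] with t a1 a2 a3 a4 a5
    refine hinj t a5 (L.x t) a1 (L'.x t) a2 ?_
    rw [hΦ]
    have a6 : ev (C.M.f ()) (fun _ => t) (L.x t) = 0 := (L.pt t a3).eq ()
    have a7 : ev (C.M.f ()) (fun _ => t) (L'.x t) = 0 := (L'.pt t a4).eq ()
    show ev (C.M.f ()) (fun _ => t) (L.x t) = ev (C.M.f ()) (fun _ => t) (L'.x t)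
    rw [a6, a7]
  have hne : ∀ {t : ℂ}, t ∈ L.dsk → t ≠ 0 ∧ t ≠ 1 := by
    intro t ht
    exact ⟨fun h => L.per.n0 (h ▸ ht), fun h => L.per.n1 (h ▸ ht)⟩
  -- the logarithms
  have hz : ∀ ν, ∃ a b : ℝ, ∀ᶠ t in 𝓝 t₀, L'.z ν t - L.z ν t = a * L.w₁ t + b * L.w₂ t := by
    intro ν
    refine THI_fam hT ex hex L.per ht (fun t => L'.z ν t - L.z ν t)
      ((L'.z_an ν t₀ ht').sub (L.z_an ν t₀ ht)) ?_
    filter_upwards [hroot, hball, hball'] with t a1 a2 a3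
    obtain ⟨u, hu, e⟩ := L.th ν t a2
    obtain ⟨u', hu', e'⟩ := L'.th ν t a3
    refine THI_pts hS ex hex (hne a2).1 (hne a2).2 hu hu' ?_
    rw [← e, ← e', a1]
  choose az bz hz using hz
  obtain ⟨c₁, d₁, h1⟩ := THI_fam hT ex hex L.per ht L'.w₁ (L'.per.a₁ t₀ ht') (by
    filter_upwards [hball'] with t a1
    exact L'.per.k₁ t a1)
  obtain ⟨c₂, d₂, h2⟩ := THI_fam hT ex hex L.per ht L'.w₂ (L'.per.a₂ t₀ ht') (by
    filter_upwards [hball'] with t a1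
    exact L'.per.k₂ t a1)
  obtain ⟨A, hA⟩ : ∃ A : ℝ, A = ∑ ν, w ν * az ν := ⟨_, rfl⟩
  obtain ⟨B, hB⟩ : ∃ B : ℝ, B = ∑ ν, w ν * bz ν := ⟨_, rfl⟩
  have h3 : ∀ᶠ t in 𝓝 t₀, L'.zw w t = L.zw w t + (A * L.w₁ t + B * L.w₂ t) := by
    filter_upwards [eventually_all.2 hz] with t a1
    have a2 : L'.zw w t = ∑ ν, ((w ν : ℂ) * L.z ν t +
        (((w ν * az ν : ℝ) : ℂ) * L.w₁ t + ((w ν * bz ν : ℝ) : ℂ) * L.w₂ t)) := by
      unfold Loc1.zw
      refine Finset.sum_congr rfl fun ν _ => ?_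
      have a3 : L'.z ν t = L.z ν t + (az ν * L.w₁ t + bz ν * L.w₂ t) := by
        rw [← a1 ν]
        ring
      rw [a3]
      push_cast
      ring
    rw [a2, Finset.sum_add_distrib, Finset.sum_add_distrib, ← Finset.sum_mul, ← Finset.sum_mul,
      hA, hB]
    push_cast
    rfl
  filter_upwards [h1.eventually_nhds, h2.eventually_nhds, h3.eventually_nhds, hball, hball']
    with t a1 a2 a3 a4 a5
  have hd1 : DifferentiableAt ℂ L.w₁ t := (L.per.a₁ t a4).differentiableAt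
  have hd2 : DifferentiableAt ℂ L.w₂ t := (L.per.a₂ t a4).differentiableAt
  have hdz : DifferentiableAt ℂ (L.zw w) t := by
    unfold Loc1.zw
    exact DifferentiableAt.fun_sum fun ν _ => ((L.z_an ν t a4).differentiableAt).const_mul _
  have b1 : deriv L'.w₁ t = c₁ * deriv L.w₁ t + d₁ * deriv L.w₂ t := by
    rw [EventuallyEq.deriv_eq a1]
    exact ((hd1.hasDerivAt.const_mul _).add (hd2.hasDerivAt.const_mul _)).deriv
  have b2 : deriv L'.w₂ t = c₂ * deriv L.w₁ t + d₂ * deriv L.w₂ t := by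
    rw [EventuallyEq.deriv_eq a2]
    exact ((hd1.hasDerivAt.const_mul _).add (hd2.hasDerivAt.const_mul _)).deriv
  have b3 : deriv (L'.zw w) t = deriv (L.zw w) t + (A * deriv L.w₁ t + B * deriv L.w₂ t) := by
    rw [EventuallyEq.deriv_eq a3]
    exact (hdz.hasDerivAt.add
      ((hd1.hasDerivAt.const_mul _).add (hd2.hasDerivAt.const_mul _))).deriv
  have a1' := a1.self_of_nhds
  have a2' := a2.self_of_nhds
  have a3' := a3.self_of_nhds
  obtain ⟨β₁, hβ₁⟩ : ∃ β₁ : ℝ, β₁ = be1 (L.w₁ t) (L.w₂ t) (L.zw w t) := ⟨_, rfl⟩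
  obtain ⟨β₂, hβ₂⟩ : ∃ β₂ : ℝ, β₂ = be2 (L.w₁ t) (L.w₂ t) (L.zw w t) := ⟨_, rfl⟩
  obtain ⟨γ₁, hγ₁⟩ : ∃ γ₁ : ℝ, γ₁ = be1 (L'.w₁ t) (L'.w₂ t) (L'.zw w t) := ⟨_, rfl⟩
  obtain ⟨γ₂, hγ₂⟩ : ∃ γ₂ : ℝ, γ₂ = be2 (L'.w₁ t) (L'.w₂ t) (L'.zw w t) := ⟨_, rfl⟩
  have e1 : L.zw w t = β₁ * L.w₁ t + β₂ * L.w₂ t := by
    rw [hβ₁, hβ₂]
    exact THI_eq (L.per.im t a4) _
  have e2 : L'.zw w t = γ₁ * L'.w₁ t + γ₂ * L'.w₂ t := by
    rw [hγ₁, hγ₂]
    exact THI_eq (L'.per.im t a5) _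
  have e3 : (((β₁ + A : ℝ) : ℂ)) * L.w₁ t + ((β₂ + B : ℝ) : ℂ) * L.w₂ t =
      ((γ₁ * c₁ + γ₂ * c₂ : ℝ) : ℂ) * L.w₁ t + ((γ₁ * d₁ + γ₂ * d₂ : ℝ) : ℂ) * L.w₂ t := by
    push_cast
    rw [a1', a2'] at e2
    rw [e1, e2] at a3'
    linear_combination -a3'
  have f1 := THI_be (L.per.im t a4) (β₁ + A) (β₂ + B)
  have f2 := THI_be (L.per.im t a4) (γ₁ * c₁ + γ₂ * c₂) (γ₁ * d₁ + γ₂ * d₂)
  rw [e3] at f1
  have g1 : β₁ + A = γ₁ * c₁ + γ₂ * c₂ := f1.1.symm.trans f2.1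
  have g2 : β₂ + B = γ₁ * d₁ + γ₂ * d₂ := f1.2.symm.trans f2.2
  have g1' : (β₁ : ℂ) + A = γ₁ * c₁ + γ₂ * c₂ := by exact_mod_cast g1
  have g2' : (β₂ : ℂ) + B = γ₁ * d₁ + γ₂ * d₂ := by exact_mod_cast g2
  show deriv (L.zw w) t - be1 (L.w₁ t) (L.w₂ t) (L.zw w t) * deriv L.w₁ t -
      be2 (L.w₁ t) (L.w₂ t) (L.zw w t) * deriv L.w₂ t =
    deriv (L'.zw w) t - be1 (L'.w₁ t) (L'.w₂ t) (L'.zw w t) * deriv L'.w₁ t -
      be2 (L'.w₁ t) (L'.w₂ t) (L'.zw w t) * deriv L'.w₂ t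
  rw [← hβ₁, ← hβ₂, ← hγ₁, ← hγ₂, b1, b2, b3]
  linear_combination -(deriv L.w₁ t) * g1' - (deriv L.w₂ t) * g2'

end EQ

end Pool.Agent.ZR
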