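import Pool.Agent.ZR.EQ.St

/-!
# ZR, block EQ, UPF: the mass of a compact piece, sharp upper bound (helper88)
-/

set_option autoImplicit false

open scoped BigOperators ComplexConjugate
open Filter Topology MeasureTheory

namespace Pool.Agent.ZR

open Pool.Agent.ZPT Pool.Agent.ZPE

namespace EQ

variable {V N : Type} [Fintype V] [Fintype N]

private theorem UPF_cover {κ K : IntermediateField ℚ ℂ} (hK : FiniteDimensional ℚ K) {y : V → Qb}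
    {x : Qb} {ι : Type} (F : Finset ι) (Δ : Set ((V → ℂ) × ℂ)) (D : ι → Set ((V → ℂ) × ℂ))
    (h : ∀ q ∈ Δ, ∃ i ∈ F, q ∈ D i) : C2.prp κ K y x Δ ≤ ∑ i ∈ F, C2.prp κ K y x (D i) := by
  have : NumberField K := ⟨⟩
  have : Finite (K →+* ℂ) := inferInstance
  have hpos : 0 < (Module.finrank ℚ K : ℝ) := by exact_mod_cast Module.finrank_pos
  unfold C2.prp
  rw [← Finset.sum_div]
  refine div_le_div_of_nonneg_right ?_ hpos.le
  have hsub : II.EmbIn κ K y (fun _ : Unit => x) {q | (q.1, q.2 ()) ∈ Δ} ⊆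
      ⋃ i ∈ F, II.EmbIn κ K y (fun _ : Unit => x) {q | (q.1, q.2 ()) ∈ D i} := by
    rintro σ ⟨hσ, y', x', hy', hx', hp⟩
    obtain ⟨i, hi, hq⟩ := h _ hp
    simp only [Set.mem_iUnion]
    exact ⟨i, hi, hσ, y', x', hy', hx', hq⟩
  have h23 := (Set.ncard_le_ncard hsub (Set.toFinite _)).trans (Finset.set_ncard_biUnion_le _ _)
  exact_mod_cast h23

/-- the density is continuous -/
private theorem UPF_cont (hETA : St_ETA1) (hGQF : St_GQF) {ex : (t : ℂ) → ℂ →+ LPt t}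
    {C : JCh V N} (L : Loc1 ex C) (w : N → ℝ) :
    ContinuousOn (L.ds w) L.dsk ∧ ∀ t ∈ L.dsk, 0 ≤ L.ds w t := by
  obtain ⟨b, hq, -, hpos, -⟩ := hGQF
  have hsub : ∀ t ∈ L.dsk, t ≠ 0 ∧ t ≠ 1 := by
    intro t ht
    refine ⟨?_, ?_⟩
    · rintro rfl
      exact L.per.n0 ht
    · rintro rfl
      exact L.per.n1 ht
  refine ⟨?_, fun t ht => ?_⟩
  · exact (hq.mono hsub).mul (((hETA ex V N C L).2 w).norm.pow 2)
  · exact mul_nonneg (hpos t (hsub t ht).1 (hsub t ht).2).le (sq_nonneg _)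

/-- the choice of the small parameter -/
private theorem UPF_x {S M ε : ℝ} (hS : 0 ≤ S) (hM : 0 ≤ M) (hε : 0 < ε) : ∃ x : ℝ, 0 < x ∧
    x ≤ 1 ∧ (1 + x) ^ 5 * (S + x + x * M) ≤ S + ε := by
  have hd : 0 < 31 * S + 32 * (1 + M) := by positivity
  refine ⟨min 1 (ε / (31 * S + 32 * (1 + M))), lt_min one_pos (div_pos hε hd), min_le_left _ _, ?_⟩
  obtain ⟨x, hx⟩ : ∃ x, x = min 1 (ε / (31 * S + 32 * (1 + M))) := ⟨_, rfl⟩
  rw [← hx]
  have h0 : 0 < x := by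
    rw [hx]
    exact lt_min one_pos (div_pos hε hd)
  have h1 : x ≤ 1 := by
    rw [hx]
    exact min_le_left _ _
  have h2 : x * (31 * S + 32 * (1 + M)) ≤ ε := by
    rw [← le_div_iff₀ hd, hx]
    exact min_le_right _ _
  have h3 : x ^ 2 ≤ x := by nlinarith
  have h4 : x ^ 3 ≤ x := by nlinarith
  have h5 : x ^ 4 ≤ x := by nlinarith
  have h6 : x ^ 5 ≤ x := by nlinarith
  have h7 : (1 + x) ^ 5 ≤ 1 + 31 * x := by nlinarith
  have h8 : 0 ≤ S + x + x * M := by positivity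
  calc (1 + x) ^ 5 * (S + x + x * M) ≤ (1 + 31 * x) * (S + x + x * M) :=
        mul_le_mul_of_nonneg_right h7 h8
    _ = S + x * (31 * S + (1 + M)) + 31 * x ^ 2 * (1 + M) := by ring
    _ ≤ S + x * (31 * S + (1 + M)) + 31 * x * (1 + M) := by
        have := mul_le_mul_of_nonneg_right h3 (by positivity : (0 : ℝ) ≤ 31 * (1 + M))
        nlinarith
    _ = S + x * (31 * S + 32 * (1 + M)) := by ring
    _ ≤ S + ε := by linarith

theorem UPF_of (hLG : St_LG) (hUPP : St_UPP) (hCOVB : St_COVB) (hETA : St_ETA1)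
    (hGQF : St_GQF) : St_UPF := by
  intro ex hex V N _ _ C hV κ hκ hCo hI Q U p y x hG KK hKK w H hH hHB L F hF hFL ε c₀ hε hc₀
  obtain ⟨hsc, hs0⟩ := UPF_cont hETA hGQF L w
  have hq : 0 < (Module.finrank ℚ κ : ℝ) := by exact_mod_cast Module.finrank_pos
  -- constants
  have hS : 0 ≤ ∫ t in F, L.ds w t :=
    setIntegral_nonneg hF.measurableSet fun t ht => hs0 t (hFL ht)
  have hM : 0 ≤ (∫ t in F, (L.ds w t + 1)) + 1 := by
    have : 0 ≤ ∫ t in F, (L.ds w t + 1) :=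
      setIntegral_nonneg hF.measurableSet fun t ht => by linarith [hs0 t (hFL ht)]
    linarith
  obtain ⟨δ, hδ, hδ1, hδS⟩ := UPF_x hS hM hε
  have hlog : 0 < Real.log (1 + δ) := Real.log_pos (by linarith)
  obtain ⟨r₀, hr₀, hLG⟩ := hLG ex hex V N C L F hF hFL w (δ * δ * Real.log (1 + δ) / 10)
    (by positivity)
  obtain ⟨m₀, hm₀⟩ : ∃ m₀ : ℝ, ∀ t ∈ F, L.ds w t ≤ m₀ := by
    obtain ⟨m₀, hm₀⟩ := hF.exists_bound_of_continuousOn (hsc.mono hFL)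
    exact ⟨m₀, fun t ht => (le_abs_self _).trans (hm₀ t ht)⟩
  obtain ⟨ρ, hρ, hρr, hρc⟩ : ∃ ρ : ℝ, 0 < ρ ∧ ρ ≤ r₀ ∧ 40 * ρ ^ 2 * (|m₀| + 1) ≤ δ * c₀ := by
    refine ⟨min r₀ (min 1 (δ * c₀ / (40 * (|m₀| + 1)))), ?_, min_le_left _ _, ?_⟩
    · exact lt_min hr₀ (lt_min one_pos (by positivity))
    · obtain ⟨ρ, hρ⟩ : ∃ ρ, ρ = min r₀ (min 1 (δ * c₀ / (40 * (|m₀| + 1)))) := ⟨_, rfl⟩
      rw [← hρ]
      have h0 : 0 < ρ := by
        rw [hρ]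
        exact lt_min hr₀ (lt_min one_pos (by positivity))
      have h1 : ρ ≤ 1 := by
        rw [hρ]
        exact (min_le_right _ _).trans (min_le_left _ _)
      have h2 : ρ * (40 * (|m₀| + 1)) ≤ δ * c₀ := by
        rw [← le_div_iff₀ (by positivity), hρ]
        exact (min_le_right _ _).trans (min_le_right _ _)
      have h3 : ρ ^ 2 ≤ ρ := by nlinarith
      calc 40 * ρ ^ 2 * (|m₀| + 1) = ρ ^ 2 * (40 * (|m₀| + 1)) := by ring
        _ ≤ ρ * (40 * (|m₀| + 1)) := mul_le_mul_of_nonneg_right h3 (by positivity)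
        _ ≤ δ * c₀ := h2
  obtain ⟨B, hB1, hB2, hB3, hB4⟩ := hCOVB L.dsk F (L.ds w) Metric.isOpen_ball hF hFL hsc hs0 δ δ
    (ρ / (1 + δ) ^ 2) hδ hδ (by positivity)
  have hR : ∀ b ∈ B, 0 < (1 + δ) ^ 2 * b.2 ∧ (1 + δ) ^ 2 * b.2 ≤ ρ := by
    intro b hb
    obtain ⟨-, h1, h2⟩ := hB1 b hb
    refine ⟨by positivity, ?_⟩
    rw [le_div_iff₀ (by positivity)] at h2
    linarith
  -- the bound for the degrees
  obtain ⟨K, hK⟩ : ∃ K : ℝ, K = ∑ b ∈ B, (Module.finrank ℚ κ : ℝ) *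
    ((H + 1) / (δ * ((1 + δ) ^ 2 * b.2) ^ 2 * Real.log (1 + δ))) := ⟨_, rfl⟩
  have hev : ∀ᶠ Λ : ℝ in atTop, ∀ b ∈ B, ∀ m : N → ℤ, Near w Λ m → ∃ G₀ G₃ : ℂ → ℂ,
      Gau L m b.1 ((1 + δ) ^ 2 * b.2) (Λ ^ 2 * L.ds w b.1)
        (δ * δ * Real.log (1 + δ) / 10 * Λ ^ 2 * ((1 + δ) ^ 2 * b.2) ^ 2) G₀ G₃ := by
    rw [Finset.eventually_all]
    intro b hb
    obtain ⟨Λ₀, -, hΛ₀⟩ := hLG b.1 (hB1 b hb).1 _ (hR b hb).1 ((hR b hb).2.trans hρr)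
    exact (eventually_ge_atTop Λ₀).mono hΛ₀
  obtain ⟨Λ₀, hΛ₀⟩ := (hev.and (eventually_ge_atTop (max 1 (K / ε)))).exists_forall_of_atTop
  refine ⟨max Λ₀ 1, by positivity, fun Λ hΛ m hm X hX hXc => ?_⟩
  obtain ⟨h1, h2⟩ := hΛ₀ Λ ((le_max_left _ _).trans hΛ)
  have hΛ1 : 1 ≤ Λ := (le_max_left _ _).trans h2
  have hΛK : K ≤ ε * Λ ^ 2 := by
    have h3 : K / ε ≤ Λ := (le_max_right _ _).trans h2
    rw [div_le_iff₀ hε] at h3
    have h4 : Λ * 1 ≤ Λ * Λ := mul_le_mul_of_nonneg_left hΛ1 (by linarith)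
    have h5 := mul_le_mul_of_nonneg_left h4 hε.le
    calc K ≤ Λ * ε := h3
      _ = ε * (Λ * 1) := by ring
      _ ≤ ε * (Λ * Λ) := h5
      _ = ε * Λ ^ 2 := by ring
  have hXp : 0 < (X.card : ℝ) := lt_of_lt_of_le (by positivity) hXc
  have hball : ∀ᶠ k in (U : Filter Q), ∀ b ∈ B, C2.prp κ (KK k) (y k) (x k)
      (L.lift (Metric.closedBall b.1 ((1 + δ) * b.2))) ≤
      (1 + δ) * (2 * (Λ ^ 2 * L.ds w b.1 * ((1 + δ) ^ 2 * b.2) ^ 2 +
        δ * Λ ^ 2 * ((1 + δ) ^ 2 * b.2) ^ 2)) / (Module.finrank ℚ κ * X.card) +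
        (H + 1) / (δ * Λ ^ 2 * ((1 + δ) ^ 2 * b.2) ^ 2 * Real.log (1 + δ)) := by
    rw [Finset.eventually_all]
    intro b hb
    obtain ⟨G₀, G₃, hGau⟩ := h1 b hb m hm
    obtain ⟨hbF, hb0, -⟩ := hB1 b hb
    have hquo : (1 + δ) ^ 2 * b.2 / ((1 + δ) * b.2) = 1 + δ := by
      field_simp
    have h3 := hUPP ex hex V N C hV κ hκ hCo hI Q U p y x hG KK hKK L m X hX H hH (hHB Λ m hm)
      b.1 ((1 + δ) * b.2) ((1 + δ) ^ 2 * b.2) (Λ ^ 2 * L.ds w b.1)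
      (δ * δ * Real.log (1 + δ) / 10 * Λ ^ 2 * ((1 + δ) ^ 2 * b.2) ^ 2)
      (δ * Λ ^ 2 * ((1 + δ) ^ 2 * b.2) ^ 2) δ G₀ G₃ (by positivity)
      (by
        have h6 : 0 < δ * ((1 + δ) * b.2) := by positivity
        calc (1 + δ) * b.2 < (1 + δ) * b.2 + δ * ((1 + δ) * b.2) := by linarith
          _ = (1 + δ) ^ 2 * b.2 := by ring)
      (mul_nonneg (sq_nonneg _) (hs0 _ (hFL hbF))) (by positivity) (by positivity) hδ hδ1 hGau
      (by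
        rw [hquo]
        exact le_of_eq (by ring))
      (by
        have h4 : L.ds w b.1 ≤ |m₀| := (hm₀ _ hbF).trans (le_abs_self _)
        have h5 : ((1 + δ) ^ 2 * b.2) ^ 2 ≤ ρ ^ 2 :=
          pow_le_pow_left₀ (hR b hb).1.le (hR b hb).2 2
        calc 20 * (2 * (Λ ^ 2 * L.ds w b.1 * ((1 + δ) ^ 2 * b.2) ^ 2 +
              δ * Λ ^ 2 * ((1 + δ) ^ 2 * b.2) ^ 2))
            = 40 * Λ ^ 2 * ((1 + δ) ^ 2 * b.2) ^ 2 * (L.ds w b.1 + δ) := by ring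
          _ ≤ 40 * Λ ^ 2 * ρ ^ 2 * (|m₀| + 1) := by
              refine mul_le_mul (mul_le_mul_of_nonneg_left h5 (by positivity)) (by linarith)
                (add_nonneg (hs0 _ (hFL hbF)) hδ.le) (by positivity)
          _ = Λ ^ 2 * (40 * ρ ^ 2 * (|m₀| + 1)) := by ring
          _ ≤ Λ ^ 2 * (δ * c₀) := mul_le_mul_of_nonneg_left hρc (sq_nonneg _)
          _ = δ * (c₀ * Λ ^ 2) := by ring
          _ ≤ δ * X.card := mul_le_mul_of_nonneg_left hXc hδ.le)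
    rw [hquo] at h3
    exact h3
  filter_upwards [hball] with k hk
  have hcov := UPF_cover (κ := κ) (hKK k).1 (y := y k) (x := x k) B (L.lift F)
    (fun b => L.lift (Metric.closedBall b.1 ((1 + δ) * b.2))) (by
      rintro q ⟨t, ht, rfl⟩
      obtain ⟨b, hb, htb⟩ : ∃ b ∈ B, t ∈ Metric.closedBall b.1 ((1 + δ) * b.2) := by
        have := hB2 ht
        simpa using this
      exact ⟨b, hb, t, htb, rfl⟩)
  have hsum := hcov.trans (Finset.sum_le_sum hk)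
  have hfin : (Module.finrank ℚ κ : ℝ) * C2.prp κ (KK k) (y k) (x k) (L.lift F) * X.card ≤
      (Module.finrank ℚ κ : ℝ) * (∑ b ∈ B, ((1 + δ) * (2 * (Λ ^ 2 * L.ds w b.1 *
        ((1 + δ) ^ 2 * b.2) ^ 2 + δ * Λ ^ 2 * ((1 + δ) ^ 2 * b.2) ^ 2)) /
        (Module.finrank ℚ κ * X.card) +
        (H + 1) / (δ * Λ ^ 2 * ((1 + δ) ^ 2 * b.2) ^ 2 * Real.log (1 + δ)))) * X.card :=
    mul_le_mul_of_nonneg_right (mul_le_mul_of_nonneg_left hsum hq.le) hXp.le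
  refine hfin.trans ?_
  have hsplit : (Module.finrank ℚ κ : ℝ) * (∑ b ∈ B, ((1 + δ) * (2 * (Λ ^ 2 * L.ds w b.1 *
        ((1 + δ) ^ 2 * b.2) ^ 2 + δ * Λ ^ 2 * ((1 + δ) ^ 2 * b.2) ^ 2)) /
        (Module.finrank ℚ κ * X.card) +
        (H + 1) / (δ * Λ ^ 2 * ((1 + δ) ^ 2 * b.2) ^ 2 * Real.log (1 + δ)))) * X.card =
      2 * Λ ^ 2 / Real.pi * ((1 + δ) ^ 5 * ((∑ b ∈ B, L.ds w b.1 * (Real.pi * b.2 ^ 2)) +
        δ * ∑ b ∈ B, Real.pi * b.2 ^ 2)) + K / Λ ^ 2 * X.card := by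
    rw [Finset.sum_add_distrib, mul_add, add_mul, hK]
    have e1 : (Module.finrank ℚ κ : ℝ) * (∑ b ∈ B, (1 + δ) * (2 * (Λ ^ 2 * L.ds w b.1 *
        ((1 + δ) ^ 2 * b.2) ^ 2 + δ * Λ ^ 2 * ((1 + δ) ^ 2 * b.2) ^ 2)) /
        (Module.finrank ℚ κ * X.card)) * X.card =
        2 * Λ ^ 2 / Real.pi * ((1 + δ) ^ 5 * ((∑ b ∈ B, L.ds w b.1 * (Real.pi * b.2 ^ 2)) +
        δ * ∑ b ∈ B, Real.pi * b.2 ^ 2)) := by
      rw [Finset.mul_sum, Finset.sum_mul, Finset.mul_sum, ← Finset.sum_add_distrib,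
        Finset.mul_sum, Finset.mul_sum]
      refine Finset.sum_congr rfl fun b _ => ?_
      have hpi := Real.pi_pos
      field_simp
    have e2 : (Module.finrank ℚ κ : ℝ) * (∑ b ∈ B, (H + 1) / (δ * Λ ^ 2 *
        ((1 + δ) ^ 2 * b.2) ^ 2 * Real.log (1 + δ))) * X.card =
        (∑ b ∈ B, (Module.finrank ℚ κ : ℝ) *
        ((H + 1) / (δ * ((1 + δ) ^ 2 * b.2) ^ 2 * Real.log (1 + δ)))) / Λ ^ 2 * X.card := by
      congr 1
      rw [Finset.mul_sum, Finset.sum_div]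
      refine Finset.sum_congr rfl fun b hb => ?_
      have hb0 := (hB1 b hb).2.1
      field_simp
    rw [e1, e2]
  rw [hsplit]
  refine add_le_add ?_ ?_
  · refine mul_le_mul_of_nonneg_left ?_ (by positivity)
    refine le_trans ?_ hδS
    refine mul_le_mul_of_nonneg_left ?_ (by positivity)
    have := mul_le_mul_of_nonneg_left hB4 hδ.le
    linarith
  · refine mul_le_mul_of_nonneg_right ?_ hXp.le
    rw [div_le_iff₀ (by positivity)]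
    exact hΛK

end EQ

end Pool.Agent.ZR
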