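import Pool.Agent.ZR.EQ.St
import Pool.Agent.ZR.S.S1
import Pool.Agent.ZPT.HB

/-!
# ZR, block EQ, module UPP (helper50): the mass of a disc, upper bound
-/

set_option autoImplicit false
set_option linter.unusedSectionVars false

open scoped BigOperators ComplexConjugate
open Filter Topology NumberField

namespace Pool.Agent.ZR

open Pool.Agent.ZPT Pool.Agent.ZPE

namespace EQ

/-! ### values of polynomials -/

section

variable {V : Type} [Fintype V] {K : Type} [Field K] [Algebra Qb K]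

private theorem UPP_add (p q : Polynomial (MvPolynomial V Qb)) (y : V → K) (t : K) :
    ev (p + q) y t = ev p y t + ev q y t := Polynomial.eval₂_add _ _

private theorem UPP_sub (p q : Polynomial (MvPolynomial V Qb)) (y : V → K) (t : K) :
    ev (p - q) y t = ev p y t - ev q y t := Polynomial.eval₂_sub _

private theorem UPP_mul (p q : Polynomial (MvPolynomial V Qb)) (y : V → K) (t : K) :
    ev (p * q) y t = ev p y t * ev q y t := Polynomial.eval₂_mul _ _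

private theorem UPP_pow (p : Polynomial (MvPolynomial V Qb)) (n : ℕ) (y : V → K) (t : K) :
    ev (p ^ n) y t = ev p y t ^ n := Polynomial.eval₂_pow _ _ _

private theorem UPP_C (q : MvPolynomial V Qb) (y : V → K) (t : K) :
    ev (Polynomial.C q) y t = MvPolynomial.aeval y q := Polynomial.eval₂_C _ _

private theorem UPP_dvd {p q : Polynomial (MvPolynomial V Qb)} (h : p ∣ q) {y : V → K} {t : K}
    (h0 : ev p y t = 0) : ev q y t = 0 := by
  obtain ⟨r, rfl⟩ := h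
  rw [UPP_mul, h0, zero_mul]

end

/-- the points represented by a point of a chart -/
private theorem UPP_P {V N : Type} [Fintype V] [Fintype N] (C : JCh V N) {L : Type} [Field L]
    [Algebra Qb L] (y : V → L) (x : L) (hpt : C.M.IsPt y (fun _ => x)) :
    ∃ P : N → LPt (y C.i₀), ∀ ν, IsJ (C.co y x ν) (P ν) := by
  have hf0 : ev (C.M.f ()) y x = 0 := hpt.eq ()
  have hD0 : MvPolynomial.aeval y (C.M.D ()) ≠ 0 := hpt.ne ()
  have hch : CharZero L := charZero_of_injective_algebraMap (algebraMap Qb L).injective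
  have h2 : (2 : L) ≠ 0 := two_ne_zero
  obtain ⟨E, hE⟩ := C.tD
  have hE' : (y C.i₀ * (1 - y C.i₀)) * MvPolynomial.aeval y E ≠ 0 := by
    have h1 := hD0
    rw [hE, map_mul, map_mul, map_sub, map_one, MvPolynomial.aeval_X] at h1
    exact h1
  have ht0 : y C.i₀ ≠ 0 := by
    intro h
    apply hE'
    rw [h, zero_mul, zero_mul]
  have ht1 : y C.i₀ ≠ 1 := by
    intro h
    apply hE'
    rw [h, sub_self, mul_zero, zero_mul]
  have hXne : ∀ ν, C.co y x ν ≠ 0 := by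
    intro ν h
    have h1 : ev (C.Xp ν (C.jn ν)) y x = MvPolynomial.aeval y (C.M.D ()) := by
      rw [C.one, UPP_C]
    apply hD0
    rw [← h1]
    exact congrFun h (C.jn ν)
  have hXJ : ∀ ν, OnJ (y C.i₀) (C.co y x ν) := by
    intro ν
    have h1 := UPP_dvd (C.eq₁ ν) hf0
    have h3 := UPP_dvd (C.eq₂ ν) hf0
    rw [UPP_sub, UPP_add, UPP_pow, UPP_pow, UPP_pow] at h1
    rw [UPP_sub, UPP_add, UPP_mul, UPP_pow, UPP_pow, UPP_pow, UPP_C,
      MvPolynomial.aeval_X] at h3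
    exact ⟨sub_eq_zero.1 h1, sub_eq_zero.1 h3⟩
  choose P c hc hXP using fun ν => (thm_S1 L (y C.i₀) ht0 ht1 h2).2.2 (C.co y x ν) (hXne ν) (hXJ ν)
  exact ⟨P, fun ν => ⟨c ν, hc ν, hXP ν⟩⟩

/-! ### the function -/

open scoped Classical in
private theorem UPP_map {V : Type} [Fintype V] {R S : Type} [CommRing R] [CommRing S]
    (ψ : R →+* S) (n : ℕ) (X : Finset ((V → ℕ) × ℕ)) (c : (V → Fin (n + 1)) × X → R) (y : V → R)
    (x : R) (A : V → Fin 4 → R) : ψ (PhK n X c y x A) =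
      PhK n X (fun p => ψ (c p)) (fun i => ψ (y i)) (ψ x) (fun s i => ψ (A s i)) := by
  unfold PhK
  rw [map_sum]
  refine Finset.sum_congr rfl fun p _ => ?_
  simp only [map_mul, map_prod, map_pow]

open scoped Classical in
private theorem UPP_hom {V : Type} [Fintype V] {R : Type} [CommRing R] (n : ℕ)
    (X : Finset ((V → ℕ) × ℕ)) (c : (V → Fin (n + 1)) × X → R) (y : V → R) (x : R)
    (A B : V → Fin 4 → R) (u : V → R) (h0 : ∀ s, A s 0 = u s * B s 0)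
    (h3 : ∀ s, A s 3 = u s * B s 3) : PhK n X c y x A = (∏ s, u s ^ n) * PhK n X c y x B := by
  unfold PhK
  rw [Finset.mul_sum]
  refine Finset.sum_congr rfl fun p _ => ?_
  have h1 : (∏ s, (A s 0 ^ (p.1 s : ℕ) * A s 3 ^ (n - (p.1 s : ℕ)))) =
      (∏ s, u s ^ n) * ∏ s, (B s 0 ^ (p.1 s : ℕ) * B s 3 ^ (n - (p.1 s : ℕ))) := by
    rw [← Finset.prod_mul_distrib]
    refine Finset.prod_congr rfl fun s _ => ?_
    have h2 : u s ^ n = u s ^ (p.1 s : ℕ) * u s ^ (n - (p.1 s : ℕ)) := by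
      rw [← pow_add]
      congr 1
      have := (p.1 s).2
      omega
    rw [h0, h3, h2, mul_pow, mul_pow]
    ring
  rw [h1]
  ring

/-! ### comparison of representatives -/

private theorem UPP_cmp {K : Type} [Field K] {φ : K →+* Qb} {ψ : K →+* ℂ} {t : Qb} {t' : ℂ}
    {Q : LPt t} {Q' : LPt t'} {A A' : Fin 4 → K} (hA' : A' ≠ 0)
    (h1 : IsJ (fun i => φ (A i)) Q) (h2 : IsJ (fun i => φ (A' i)) Q)
    (h3 : IsJ (fun i => ψ (A' i)) Q') : IsJ (fun i => ψ (A i)) Q' := by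
  obtain ⟨a, ha, ha'⟩ := h1
  obtain ⟨b, hb, hb'⟩ := h2
  obtain ⟨d, hd, hd'⟩ := h3
  obtain ⟨i, hi⟩ := Function.ne_iff.1 hA'
  have hi' : A' i ≠ 0 := hi
  have e1 : ∀ j, φ (A j) = a * rep Q j := fun j => congrFun ha' j
  have e2 : ∀ j, φ (A' j) = b * rep Q j := fun j => congrFun hb' j
  have e3 : ∀ j, ψ (A' j) = d * rep Q' j := fun j => congrFun hd' j
  have hφi : φ (A' i) ≠ 0 := (map_ne_zero φ).2 hi'
  have hri : rep Q i ≠ 0 := by
    intro h
    rw [e2, h, mul_zero] at hφi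
    exact hφi rfl
  have hci : φ (A i / A' i) = a / b := by
    rw [map_div₀, e1, e2]
    field_simp
  have hc : A i / A' i ≠ 0 := by
    intro h
    rw [h, map_zero] at hci
    exact (div_ne_zero ha hb) hci.symm
  have hj : ∀ j, A j = A i / A' i * A' j := by
    intro j
    apply φ.injective
    rw [map_mul, hci, e1, e2]
    field_simp
  refine ⟨ψ (A i / A' i) * d, mul_ne_zero ((map_ne_zero ψ).2 hc) hd, ?_⟩
  funext j
  show ψ (A j) = ψ (A i / A' i) * d * rep Q' j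
  rw [hj j, map_mul, e3, mul_assoc]

/-- the combination of the points at a point of the disc -/
private theorem UPP_ex {ex : (t : ℂ) → ℂ →+ LPt t} (hex : ExP ex) {V N : Type} [Fintype V]
    [Fintype N] (C : JCh V N) (L : Loc1 ex C) (m : N → ℤ) (t : ℂ) (ht : t ∈ L.dsk)
    (P' : N → LPt t) (hP' : ∀ ν, IsJ (C.co (fun _ => t) (L.x t) ν) (P' ν)) :
    cb P' m = ex t (L.zm m t) := by
  have h0 : t ≠ 0 := fun h => L.per.n0 (h ▸ ht)
  have h1 : t ≠ 1 := fun h => L.per.n1 (h ▸ ht)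
  have key : ∀ ν, P' ν = ex t (L.z ν t) := by
    intro ν
    obtain ⟨c, hc, hc'⟩ := hP' ν
    obtain ⟨u, hu, hu'⟩ := L.th ν t ht
    obtain ⟨w, hw, hw'⟩ := hex.pt t (L.z ν t) h0 h1
    refine (thm_S1 ℂ t h0 h1 two_ne_zero).2.1 _ _
      ⟨c⁻¹ * (u * w), mul_ne_zero (inv_ne_zero hc) (mul_ne_zero hu hw), ?_⟩
    have e0 : C.co (fun _ => t) (L.x t) ν = c • rp (P' ν) := hc'
    have e1 : c • rp (P' ν) = (u * w) • rp (ex t (L.z ν t)) := by
      rw [← e0, hu', hw', smul_smul]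
    rw [mul_smul, ← e1, smul_smul, inv_mul_cancel₀ hc, one_smul]
  show ∑ ν, m ν • P' ν = _
  unfold Loc1.zm
  rw [map_sum]
  refine Finset.sum_congr rfl fun ν _ => ?_
  rw [key ν, ← zsmul_eq_mul, map_zsmul]

/-- integral elements at the finite places -/
private theorem UPP_fin {K : Type} [Field K] [NumberField K] (v : NumberField.FinitePlace K)
    (z : K) (hz : IsIntegral ℤ z) : v z ≤ 1 := by
  obtain ⟨z', hz'⟩ : ∃ z' : 𝓞 K, algebraMap (𝓞 K) K z' = z := ⟨⟨z, hz⟩, rfl⟩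
  rw [← hz', ← NumberField.FinitePlace.norm_embedding_eq v]
  exact NumberField.FinitePlace.norm_le_one K v.maximalIdeal z'

/-- the number of the embeddings, with the conjugate embeddings -/
private theorem UPP_dbl (K : Type) [Field K] [NumberField K] (z : K) (S : Set (K →+* ℂ))
    (hS : ∀ ψ ∈ S, ψ z = Complex.I) :
    (S ∪ (fun ψ : K →+* ℂ => (starRingEnd ℂ).comp ψ) '' S).ncard = 2 * S.ncard := by
  have hinj : Function.Injective (fun ψ : K →+* ℂ => (starRingEnd ℂ).comp ψ) := by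
    intro a b h
    ext u
    have h1 := RingHom.congr_fun h u
    exact (starRingEnd ℂ).injective h1
  have hd : Disjoint S ((fun ψ : K →+* ℂ => (starRingEnd ℂ).comp ψ) '' S) := by
    rw [Set.disjoint_left]
    rintro ψ h1 ⟨ψ', h2, h3⟩
    have e1 := hS ψ h1
    have e2 := hS ψ' h2
    have e3 : ψ z = (starRingEnd ℂ) (ψ' z) := (RingHom.congr_fun h3 z).symm
    rw [e1, e2, Complex.conj_I] at e3
    have e4 := congrArg Complex.im e3
    norm_num at e4
  rw [Set.ncard_union_eq hd (Set.toFinite _) (Set.toFinite _), Set.ncard_image_of_injective _ hinj]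
  ring

/-- the number of the embeddings for one point -/
private theorem UPP_one (h4 : St_PFQ) (h5 : C2.St_CNJ) {ex : (t : ℂ) → ℂ →+ LPt t} (hex : ExP ex)
    {V N : Type} [Fintype V] [Fintype N] (C : JCh V N) (κ K : IntermediateField ℚ ℂ)
    [FiniteDimensional ℚ K] (hco : C2.CoIn C κ) (hκ : κ ≤ K) (hI : Complex.I ∈ κ) (y : V → Qb)
    (x : Qb) (hy : ∀ i, (y i : ℂ) ∈ K) (hx : (x : ℂ) ∈ K) (t : Qb) (P : N → LPt t)
    (hpt : C.M.IsPt y (fun _ => x)) (ht : y C.i₀ = t) (hP : ∀ ν, IsJ (C.co y x ν) (P ν))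
    (L : Loc1 ex C) (F : Set ℂ) (hF : F ⊆ L.dsk) (G₀ G₃ : ℂ → ℂ) (m : N → ℤ)
    (hG : ∀ t ∈ F, ∃ u : ℂ, u ≠ 0 ∧ G₀ t = u * Th (L.zm m t) t 0 ∧ G₃ t = u * Th (L.zm m t) t 3)
    (X : Finset ((V → ℕ) × ℕ)) (n Dg : ℕ)
    (hX : ∀ p ∈ X, (∀ i, p.1 i ≤ Dg) ∧ p.2 ≤ Dg) (c : (V → Fin (n + 1)) × X → κ)
    (cQ : (V → Fin (n + 1)) × X → Qb) (hcQ : ∀ p, ((cQ p : Qb) : ℂ) = ((c p : κ) : ℂ))
    (hint : ∀ p, IsIntegral ℤ (c p))
    (h R Bh H cd : ℝ) (hh : 0 ≤ h) (hc : ∀ (ψ : κ →+* ℂ) p, ‖ψ (c p)‖ ≤ Real.exp h)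
    (hcd : cd = by classical exact (Fintype.card ((V → Fin (n + 1)) × X) : ℝ))
    (hBy : ∀ i, hQ (y i) ≤ Bh) (hBx : hQ x ≤ Bh) (hH : hJ (cb P m) ≤ H)
    (hnv : ∀ A : V → Fin 4 → Qb, (∀ s, IsJ (A s) (cb P m)) → PhK n X cQ y x A ≠ 0)
    (hR : 0 ≤ R)
    (hv : ∀ t ∈ F, ‖PhK n X (fun p => ((c p : κ) : ℂ)) (fun _ => t) (L.x t)
      (fun _ => ![G₀ t, 0, 0, G₃ t])‖ ≤ Real.exp (-R) * ∏ _s : V, (max ‖G₀ t‖ ‖G₃ t‖) ^ n) :
    R * (2 * ((II.EmbIn κ K y (fun _ : Unit => x)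
      {q | (q.1, q.2 ()) ∈ L.lift F}).ncard : ℝ)) ≤
      (h + Real.log cd + Dg * ((Fintype.card V + 1) * Bh) + n * (Fintype.card V * H)) *
        Module.finrank ℚ K := by
  classical
  have hNF : NumberField K := { to_charZero := inferInstance, to_finiteDimensional := inferInstance }
  obtain ⟨φ, hφ⟩ := HB_incl K
  obtain ⟨y', hy'⟩ : ∃ y' : V → K, ∀ i, ((y' i : K) : ℂ) = y i := ⟨fun i => ⟨y i, hy i⟩, fun i => rfl⟩
  obtain ⟨x', hx'⟩ : ∃ x' : K, (x' : ℂ) = x := ⟨⟨x, hx⟩, rfl⟩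
  let inc : κ →+* K := (IntermediateField.inclusion hκ).toRingHom
  have hinc : ∀ a : κ, ((inc a : K) : ℂ) = (a : ℂ) := fun a => rfl
  have e1 : (fun i => φ (y' i)) = y := funext fun i => Subtype.ext ((hφ _).trans (hy' i))
  have e2 : φ x' = x := Subtype.ext ((hφ _).trans hx')
  have ec : (fun p => φ (inc (c p))) = cQ := funext fun p =>
    Subtype.ext ((hφ _).trans ((hinc _).trans (hcQ p).symm))
  have hpt' : C.M.IsPt (fun i => φ (y' i)) (fun _ => φ x') := by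
    rw [e1, e2]
    exact hpt
  have ht' : φ (y' C.i₀) = t := by
    rw [← ht]
    exact congrFun e1 C.i₀
  have hP' : ∀ ν, IsJ (C.co (fun i => φ (y' i)) (φ x') ν) (P ν) := by
    rw [e1, e2]
    exact hP
  have hcn : ∀ ψ : K →+* ℂ, (∀ c : K, (c : ℂ) ∈ κ → ψ c = c) →
      ∀ c : Qb, (c : ℂ) ∈ κ → ∃ a : K, φ a = c ∧ ψ a = (c : ℂ) := by
    intro ψ hψ c hc
    exact ⟨⟨c, hκ hc⟩, Subtype.ext (hφ _), hψ _ hc⟩
  -- the representatives
  obtain ⟨P₀, hP₀⟩ : ∃ P₀ : N → LPt (K.val.toRingHom (y' C.i₀)), ∀ ν,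
      IsJ (C.co (fun i => K.val.toRingHom (y' i)) (K.val.toRingHom x') ν) (P₀ ν) :=
    UPP_P C _ _ (h5 V N C κ K φ K.val.toRingHom hco (hcn _ fun c _ => rfl) y' x' hpt').1
  obtain ⟨A₁, hA₁, hA₂, -⟩ := (h5 V N C κ K φ K.val.toRingHom hco (hcn _ fun c _ => rfl) y' x'
    hpt').2 t P P₀ ht' hP' hP₀ m
  obtain ⟨A, hAdef⟩ : ∃ A : V → Fin 4 → K, A = fun _ => A₁ := ⟨_, rfl⟩
  have hA : ∀ s, A s ≠ 0 := by
    intro s
    rw [hAdef]
    exact hA₁
  have hA1 : ∀ s, IsJ (fun i => φ (A s i)) (cb P m) := by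
    intro s
    rw [hAdef]
    exact hA₂
  -- the function does not vanish
  have hne : PhK n X (fun p => inc (c p)) y' x' A ≠ 0 := by
    intro h0
    apply hnv (fun s i => φ (A s i)) hA1
    have h1 := UPP_map φ n X (fun p => inc (c p)) y' x' A
    rw [h0, map_zero, e1, e2, ec] at h1
    exact h1.symm
  obtain ⟨S, hSdef⟩ : ∃ S : Set (K →+* ℂ), S = II.EmbIn κ K y (fun _ : Unit => x)
    {q | (q.1, q.2 ()) ∈ L.lift F} := ⟨_, rfl⟩
  rw [← hSdef]
  -- the special embeddings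
  have hS : ∀ ψ ∈ S, ‖ψ (PhK n X (fun p => inc (c p)) y' x' A)‖ ≤ Real.exp (-R) *
        ∏ s, (⨆ i, ‖ψ (A s i)‖) ^ n := by
    rw [hSdef]
    rintro ψ ⟨hψ, y'', x'', h1, h2, h3⟩
    have e3 : y'' = y' := funext fun i => Subtype.ext ((h1 i).trans (hy' i).symm)
    have e4 : x'' () = x' := Subtype.ext ((h2 ()).trans hx'.symm)
    have h3' : ((fun i => ψ (y' i)), ψ x') ∈ L.lift F := by
      have h4 : ((fun i => ψ (y'' i)), ψ (x'' ())) ∈ L.lift F := h3
      rw [e3, e4] at h4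
      exact h4
    obtain ⟨T, hT, hq⟩ := h3'
    have q1 : (fun i => ψ (y' i)) = fun _ => T := congrArg Prod.fst hq
    have q2 : ψ x' = L.x T := congrArg Prod.snd hq
    have q3 : T = ψ (y' C.i₀) := (congrFun q1 C.i₀).symm
    subst q3
    have hTd := hF hT
    have g0 : ψ (y' C.i₀) ≠ 0 := fun h => L.per.n0 (h ▸ hTd)
    have g1 : ψ (y' C.i₀) ≠ 1 := fun h => L.per.n1 (h ▸ hTd)
    have hc5 := h5 V N C κ K φ ψ hco (hcn _ hψ) y' x' hpt'
    obtain ⟨P', hPP⟩ := UPP_P C _ _ hc5.1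
    have hA3 : ∀ s, IsJ (fun i => ψ (A s i)) (cb P' m) := by
      intro s
      obtain ⟨A', a1, a2, a3⟩ := hc5.2 t P P' ht' hP' hPP m
      exact UPP_cmp a1 (hA1 s) a2 a3
    have hcb : cb P' m = ex (ψ (y' C.i₀)) (L.zm m (ψ (y' C.i₀))) := by
      apply UPP_ex hex C L m _ hTd
      intro ν
      have h6 := hPP ν
      rw [q1, q2] at h6
      exact h6
    obtain ⟨u₀, hu₀, hg0, hg3⟩ := hG _ hT
    have hu : ∀ s, ∃ u : ℂ, ψ (A s 0) = u * G₀ (ψ (y' C.i₀)) ∧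
        ψ (A s 3) = u * G₃ (ψ (y' C.i₀)) := by
      intro s
      obtain ⟨w, hw, hw'⟩ := hA3 s
      obtain ⟨u, hu, hu'⟩ := hex.pt (ψ (y' C.i₀)) (L.zm m (ψ (y' C.i₀))) g0 g1
      have b : ∀ i, ψ (A s i) = w / u * Th (L.zm m (ψ (y' C.i₀))) (ψ (y' C.i₀)) i := by
        intro i
        have b1 : ψ (A s i) = w * rp (cb P' m) i := congrFun hw' i
        have b2 : Th (L.zm m (ψ (y' C.i₀))) (ψ (y' C.i₀)) i =
          u * rp (ex (ψ (y' C.i₀)) (L.zm m (ψ (y' C.i₀)))) i := congrFun hu' i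
        rw [b1, b2, hcb, ← mul_assoc, div_mul_cancel₀ _ hu]
      refine ⟨w / u / u₀, ?_, ?_⟩
      · rw [b, hg0]
        field_simp
      · rw [b, hg3]
        field_simp
    choose u hu using hu
    have hsup : ∀ s, ‖u s‖ * max ‖G₀ (ψ (y' C.i₀))‖ ‖G₃ (ψ (y' C.i₀))‖ ≤ ⨆ i, ‖ψ (A s i)‖ := by
      intro s
      have hb : BddAbove (Set.range fun i => ‖ψ (A s i)‖) := (Set.finite_range _).bddAbove
      rw [mul_max_of_nonneg _ _ (norm_nonneg _), ← norm_mul, ← norm_mul, ← (hu s).1, ← (hu s).2]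
      exact max_le (le_ciSup hb 0) (le_ciSup hb 3)
    have ecc : (fun p => ψ (inc (c p))) = fun p => ((c p : κ) : ℂ) := funext fun p =>
      hψ (inc (c p)) (by rw [hinc]; exact (c p).2)
    rw [UPP_map, ecc, q1, q2, UPP_hom n X _ _ _ (fun s i => ψ (A s i))
      (fun _ => ![G₀ (ψ (y' C.i₀)), 0, 0, G₃ (ψ (y' C.i₀))]) u (fun s => (hu s).1)
      (fun s => (hu s).2), norm_mul, norm_prod]
    have b5 : (∏ s, ‖u s ^ n‖) * ∏ _s : V, (max ‖G₀ (ψ (y' C.i₀))‖ ‖G₃ (ψ (y' C.i₀))‖) ^ n ≤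
        ∏ s, (⨆ i, ‖ψ (A s i)‖) ^ n := by
      rw [← Finset.prod_mul_distrib]
      refine Finset.prod_le_prod (fun s _ => by positivity) fun s _ => ?_
      rw [norm_pow, ← mul_pow]
      exact pow_le_pow_left₀ (by positivity) (hsup s) n
    calc (∏ s, ‖u s ^ n‖) * ‖PhK n X (fun p => ((c p : κ) : ℂ)) (fun _ => ψ (y' C.i₀))
          (L.x (ψ (y' C.i₀))) (fun _ => ![G₀ (ψ (y' C.i₀)), 0, 0, G₃ (ψ (y' C.i₀))])‖
        ≤ (∏ s, ‖u s ^ n‖) * (Real.exp (-R) *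
          ∏ _s : V, (max ‖G₀ (ψ (y' C.i₀))‖ ‖G₃ (ψ (y' C.i₀))‖) ^ n) :=
          mul_le_mul_of_nonneg_left (hv _ hT) (Finset.prod_nonneg fun s _ => norm_nonneg _)
      _ = Real.exp (-R) * ((∏ s, ‖u s ^ n‖) *
          ∏ _s : V, (max ‖G₀ (ψ (y' C.i₀))‖ ‖G₃ (ψ (y' C.i₀))‖) ^ n) := by ring
      _ ≤ _ := mul_le_mul_of_nonneg_left b5 (Real.exp_pos _).le
  have hS2 : ∀ ψ ∈ S ∪ (fun ψ : K →+* ℂ => (starRingEnd ℂ).comp ψ) '' S,
      ‖ψ (PhK n X (fun p => inc (c p)) y' x' A)‖ ≤ Real.exp (-R) *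
        ∏ s, (⨆ i, ‖ψ (A s i)‖) ^ n := by
    rintro ψ (hψ | ⟨ψ', hψ', rfl⟩)
    · exact hS ψ hψ
    · have h6 := hS ψ' hψ'
      simp only [RingHom.comp_apply, RCLike.norm_conj]
      exact h6
  have hcard : ((S ∪ (fun ψ : K →+* ℂ => (starRingEnd ℂ).comp ψ) '' S).ncard : ℝ) =
      2 * (S.ncard : ℝ) := by
    rw [UPP_dbl K ⟨Complex.I, hκ hI⟩ S]
    · push_cast
      ring
    · rw [hSdef]
      rintro ψ ⟨hψ, -⟩
      exact hψ _ hI
  have key := h4 V K y' x' A n Dg X (fun p => inc (c p)) h R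
    (S ∪ (fun ψ : K →+* ℂ => (starRingEnd ℂ).comp ψ) '' S) hA hX hh hR
    (fun ψ p => hc (ψ.comp inc) p)
    (fun v p => UPP_fin v _ (map_isIntegral_int inc (hint p))) hne hS2
  rw [hcard] at key
  refine key.trans (mul_le_mul_of_nonneg_right ?_ (Nat.cast_nonneg _))
  have k1 : ∑ i, hN (y' i) + hN x' ≤ (Fintype.card V + 1) * Bh := by
    have k2 : ∀ i, hN (y' i) ≤ Bh := by
      intro i
      rw [← hQ_map φ]
      have : φ (y' i) = y i := congrFun e1 i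
      rw [this]
      exact hBy i
    have k3 : hN x' ≤ Bh := by
      rw [← hQ_map φ, e2]
      exact hBx
    have k4 : ∑ i, hN (y' i) ≤ Fintype.card V * Bh := by
      refine (Finset.sum_le_sum fun i _ => k2 i).trans ?_
      rw [Finset.sum_const, Finset.card_univ, nsmul_eq_mul]
    linarith
  have k5 : ∑ s, Height.logHeight (A s) / Module.finrank ℚ K ≤ Fintype.card V * H := by
    have k6 : ∀ s, Height.logHeight (A s) / Module.finrank ℚ K ≤ H := by
      intro s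
      rw [← hP_map φ]
      obtain ⟨a, ha, ha'⟩ := hA1 s
      have k7 : (fun i => φ (A s i)) = fun i => a * rp (cb P m) i := ha'
      rw [k7, hP_smul _ _ ha]
      exact hH
    refine (Finset.sum_le_sum fun i _ => k6 i).trans ?_
    rw [Finset.sum_const, Finset.card_univ, nsmul_eq_mul]
  have k8 : (Dg : ℝ) * (∑ i, hN (y' i) + hN x') ≤ Dg * ((Fintype.card V + 1) * Bh) :=
    mul_le_mul_of_nonneg_left k1 (Nat.cast_nonneg _)
  have k9 : (n : ℝ) * ∑ s, Height.logHeight (A s) / Module.finrank ℚ K ≤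
      n * (Fintype.card V * H) := mul_le_mul_of_nonneg_left k5 (Nat.cast_nonneg _)
  rw [hcd]
  linarith

/-! ### auxiliary facts -/

private theorem UPP_deg (κ : IntermediateField ℚ ℂ) [FiniteDimensional ℚ κ]
    (hI : Complex.I ∈ κ) : 2 ≤ Module.finrank ℚ κ := by
  by_contra h
  have h0 : 0 < Module.finrank ℚ κ := Module.finrank_pos
  have h1 : Module.finrank ℚ κ = 1 := by omega
  rw [IntermediateField.finrank_eq_one_iff] at h1
  rw [h1, IntermediateField.mem_bot] at hI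
  obtain ⟨a, ha⟩ := hI
  have h2 := congrArg Complex.im ha
  rw [Complex.I_im, eq_ratCast, Complex.ratCast_im] at h2
  exact zero_ne_one h2

private theorem UPP_Dg {V : Type} [Fintype V] (X : Finset ((V → ℕ) × ℕ)) :
    ∃ Dg : ℕ, ∀ p ∈ X, (∀ i, p.1 i ≤ Dg) ∧ p.2 ≤ Dg := by
  refine ⟨X.sup fun p => (Finset.univ.sup p.1) ⊔ p.2, fun p hp => ?_⟩
  have h1 := Finset.le_sup (f := fun p : (V → ℕ) × ℕ => (Finset.univ.sup p.1) ⊔ p.2) hp
  exact ⟨fun i => ((Finset.le_sup (f := p.1) (Finset.mem_univ i)).trans le_sup_left).trans h1,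
    le_sup_right.trans h1⟩

/-- the bound for one monomial -/
private theorem UPP_bd {V : Type} [Fintype V] (n Dg : ℕ) (B G' : ℝ) (hB : 1 ≤ B) (e : V → ℕ)
    (d : ℕ) (r : V → Fin (n + 1)) (he : ∀ i, e i ≤ Dg) (hd : d ≤ Dg) (y : V → ℂ) (x : ℂ)
    (hy : ∀ i, ‖y i‖ ≤ B) (hx : ‖x‖ ≤ B) (g₀ g₃ : ℂ) (h0 : ‖g₀‖ ≤ Real.exp G')
    (h3 : ‖g₃‖ ≤ Real.exp G') :
    ‖(∏ i, y i ^ e i) * x ^ d * ∏ s, (g₀ ^ (r s : ℕ) * g₃ ^ (n - (r s : ℕ)))‖ ≤
      Real.exp (Fintype.card V * G' * n + (Fintype.card V * Dg + Dg) * Real.log B) := by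
  have hB0 : 0 < B := by linarith
  have h1 : ∀ (z : ℂ) (k : ℕ), ‖z‖ ≤ B → k ≤ Dg → ‖z ^ k‖ ≤ B ^ Dg := by
    intro z k hz hk
    rw [norm_pow]
    exact (pow_le_pow_left₀ (norm_nonneg _) hz k).trans (pow_le_pow_right₀ hB hk)
  have h2 : ‖∏ i, y i ^ e i‖ ≤ B ^ (Fintype.card V * Dg) := by
    rw [norm_prod]
    refine (Finset.prod_le_prod (fun i _ => norm_nonneg _) fun i _ =>
      h1 (y i) (e i) (hy i) (he i)).trans ?_
    rw [Finset.prod_const, Finset.card_univ, ← pow_mul, mul_comm]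
  have h3 : ‖∏ s, (g₀ ^ (r s : ℕ) * g₃ ^ (n - (r s : ℕ)))‖ ≤
      Real.exp (Fintype.card V * G' * n) := by
    rw [norm_prod]
    have h4 : ∀ s, ‖g₀ ^ (r s : ℕ) * g₃ ^ (n - (r s : ℕ))‖ ≤ Real.exp (G' * n) := by
      intro s
      rw [norm_mul, norm_pow, norm_pow]
      calc ‖g₀‖ ^ (r s : ℕ) * ‖g₃‖ ^ (n - (r s : ℕ))
          ≤ Real.exp G' ^ (r s : ℕ) * Real.exp G' ^ (n - (r s : ℕ)) :=
            mul_le_mul (pow_le_pow_left₀ (norm_nonneg _) h0 _)
              (pow_le_pow_left₀ (norm_nonneg _) h3 _) (by positivity) (by positivity)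
        _ = Real.exp G' ^ n := by
            rw [← pow_add]
            congr 1
            have := (r s).2
            omega
        _ = Real.exp (G' * n) := by
            rw [← Real.exp_nat_mul, mul_comm]
    refine (Finset.prod_le_prod (fun s _ => norm_nonneg _) fun s _ => h4 s).trans ?_
    rw [Finset.prod_const, Finset.card_univ, ← Real.exp_nat_mul, mul_assoc]
  have h6 : Real.exp ((Fintype.card V * Dg + Dg) * Real.log B) =
      B ^ (Fintype.card V * Dg) * B ^ Dg := by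
    rw [← pow_add]
    have h7 : ((Fintype.card V * Dg + Dg : ℝ)) = ((Fintype.card V * Dg + Dg : ℕ) : ℝ) := by
      push_cast
      ring
    rw [h7, ← Real.log_pow, Real.exp_log (pow_pos hB0 _)]
  rw [norm_mul, norm_mul, Real.exp_add, h6, mul_comm (Real.exp _)]
  exact mul_le_mul (mul_le_mul h2 (h1 x d hx hd) (norm_nonneg _) (by positivity)) h3
    (norm_nonneg _) (by positivity)

/-- the coordinates `0` and `3` do not vanish simultaneously -/
private theorem UPP_pos {ex : (t : ℂ) → ℂ →+ LPt t} (hex : ExP ex) {t z u g₀ g₃ : ℂ} (h0 : t ≠ 0)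
    (h1 : t ≠ 1) (hu : u ≠ 0) (e0 : g₀ = u * Th z t 0) (e3 : g₃ = u * Th z t 3) :
    0 < max ‖g₀‖ ‖g₃‖ := by
  by_contra h
  have h' : max ‖g₀‖ ‖g₃‖ ≤ 0 := not_lt.1 h
  have a0 : g₀ = 0 := norm_le_zero_iff.1 ((le_max_left _ _).trans h')
  have a3 : g₃ = 0 := norm_le_zero_iff.1 ((le_max_right _ _).trans h')
  have b0 : Th z t 0 = 0 := by
    rw [e0] at a0
    exact (mul_eq_zero.1 a0).resolve_left hu
  have b3 : Th z t 3 = 0 := by
    rw [e3] at a3
    exact (mul_eq_zero.1 a3).resolve_left hu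
  have hJ := hex.onJ t z h0 h1
  have c1 : Th z t 1 = 0 := by
    have h2 := hJ.c
    rw [b0, b3] at h2
    have h3 : Th z t 1 ^ 2 = 0 := by linear_combination h2
    exact pow_eq_zero_iff two_ne_zero |>.1 h3
  have c2 : Th z t 2 = 0 := by
    have h2 := hJ.d
    rw [b0, b3] at h2
    have h3 : Th z t 2 ^ 2 = 0 := by linear_combination h2
    exact pow_eq_zero_iff two_ne_zero |>.1 h3
  apply hex.ne t z h0 h1
  funext i
  fin_cases i
  · exact b0
  · exact c1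
  · exact c2
  · exact b3

/-- [UPP] -/
theorem UPP_of (h1 : St_TAY) (h2 : St_NUMU) (h3 : St_OMG) (h4 : St_PFQ) (h5 : St_NVQ)
    (h6 : C2.St_CNJ) : St_UPP := by
  classical
  intro ex hex V N _ _ C hV κ hκf hco hI Q U p y x hGS KK hKK L m X hFam H hH0 hH t₁ r R₁ α e β η
    G₀ G₃ hr hrR hα he hβ hη hη1 hGau hs1 hs2
  obtain ⟨ω, B, hωi, hωl, hB, hωB⟩ := h3 κ hκf
  have hq2 : 2 ≤ Module.finrank ℚ κ := UPP_deg κ hI
  have hR₁ : 0 < R₁ := hr.trans hrR
  have hlog : 0 < Real.log (R₁ / r) := Real.log_pos (by rw [lt_div_iff₀ hr]; linarith)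
  have hτ : 0 < 2 * (α * R₁ ^ 2 + β) := by positivity
  have hb1 : 1 ≤ X.card := by
    rcases Nat.eq_zero_or_pos X.card with h0 | h0
    · rw [h0, Nat.cast_zero, mul_zero] at hs2
      linarith
    · exact h0
  obtain ⟨Dg, hDg⟩ := UPP_Dg X
  obtain ⟨Bh, hBh⟩ := hGS.ht
  have hF : Metric.closedBall t₁ r ⊆ Metric.closedBall t₁ R₁ :=
    Metric.closedBall_subset_closedBall hrR.le
  -- bound for the coordinates on the closed disc
  obtain ⟨B₂, hB₂, hB₂'⟩ : ∃ B₂ : ℝ, 1 ≤ B₂ ∧ ∀ t ∈ Metric.closedBall t₁ R₁,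
      ‖t‖ ≤ B₂ ∧ ‖L.x t‖ ≤ B₂ := by
    have hc : IsCompact (Metric.closedBall t₁ R₁) := isCompact_closedBall _ _
    obtain ⟨M₁, hM₁⟩ := hc.exists_bound_of_continuousOn (f := fun t : ℂ => t) continuousOn_id
    obtain ⟨M₂, hM₂⟩ := hc.exists_bound_of_continuousOn (f := L.x)
      (L.x_an.continuousOn.mono hGau.sub)
    exact ⟨max 1 (max M₁ M₂), le_max_left _ _, fun t ht =>
      ⟨(hM₁ t ht).trans ((le_max_left _ _).trans (le_max_right _ _)),
        (hM₂ t ht).trans ((le_max_right _ _).trans (le_max_right _ _))⟩⟩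
  have hrR1 : r / R₁ < 1 := (div_lt_one hR₁).2 hrR
  have hrR0 : 0 < r / R₁ := div_pos hr hR₁
  have hlB : 0 ≤ Real.log B := Real.log_nonneg hB
  have hlB₂ : 0 ≤ Real.log B₂ := Real.log_nonneg hB₂
  have hlr : 0 ≤ -Real.log (1 - r / R₁) := by
    rw [Right.nonneg_neg_iff]
    exact Real.log_nonpos (by linarith) (by linarith)
  obtain ⟨Cv, hCv⟩ : ∃ Cv : ℝ, Cv = Real.log B + ((Dg : ℝ) + Dg) * Real.log B₂ := ⟨_, rfl⟩
  have hCv0 : 0 ≤ Cv := by
    rw [hCv]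
    positivity
  obtain ⟨Cx, hCx⟩ : ∃ Cx : ℝ, Cx = Cv + Dg * (2 * |Bh|) + -Real.log (1 - r / R₁) := ⟨_, rfl⟩
  have hDB : 0 ≤ (Dg : ℝ) * (2 * |Bh|) := by positivity
  have hCx0 : 0 ≤ Cx := by
    rw [hCx]
    linarith
  obtain ⟨n₀, hn₀⟩ := h2 (Module.finrank ℚ κ) X.card (2 * (α * R₁ ^ 2 + β)) e
    (2 * β * Real.log (R₁ / r)) η Cx H hq2 hb1 hτ he (by positivity) hη hη1 hCx0 hH0
    (by linarith) hs2
  obtain ⟨n, hn1, hn2⟩ : ∃ n : ℕ, n₀ ≤ n ∧ 1 ≤ n := ⟨max n₀ 1, le_max_left _ _, le_max_right _ _⟩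
  have hn0 : (0 : ℝ) < n := by exact_mod_cast hn2
  obtain ⟨T, h, R', Rg, t1, t2, t3, t4, t5, t6, t7⟩ := hn₀ n hn1
  have hcard : Fintype.card (Fin (Module.finrank ℚ κ) × ((V → Fin (n + 1)) × X)) =
      Module.finrank ℚ κ * ((n + 1) * X.card) := by
    rw [Fintype.card_prod, Fintype.card_fin, Fintype.card_prod, Fintype.card_fun,
      Fintype.card_fin, Fintype.card_coe, hV, pow_one]
  have hcard2 : Fintype.card ((V → Fin (n + 1)) × X) = (n + 1) * X.card := by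
    rw [Fintype.card_prod, Fintype.card_fun, Fintype.card_fin, Fintype.card_coe, hV, pow_one]
  have hqb : 0 < Module.finrank ℚ κ * ((n + 1) * X.card) :=
    Nat.mul_pos (by omega) (Nat.mul_pos (Nat.succ_pos n) hb1)
  -- the functions
  let v : Fin (Module.finrank ℚ κ) × ((V → Fin (n + 1)) × X) → ℂ → ℂ := fun a t =>
    ((ω a.1 : κ) : ℂ) * ((∏ i, (fun _ : V => t) i ^ a.2.2.1.1 i) * L.x t ^ a.2.2.1.2 *
      ∏ s, (G₀ t ^ (a.2.1 s : ℕ) * G₃ t ^ (n - (a.2.1 s : ℕ))))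
  have hvan : ∀ a, AnalyticOnNhd ℂ (v a) (Metric.closedBall t₁ R₁) := by
    intro a t ht
    have a0 := hGau.an₀ t ht
    have a3 := hGau.an₃ t ht
    have ax := L.x_an t (hGau.sub ht)
    exact analyticAt_const.mul (((Finset.analyticAt_fun_prod _ fun i _ => analyticAt_id.pow _).mul
      (ax.pow _)).mul (Finset.analyticAt_fun_prod _ fun s _ => (a0.pow _).mul (a3.pow _)))
  have hmax : ∀ t ∈ Metric.closedBall t₁ R₁,
      Real.exp (α * ‖t - t₁‖ ^ 2 - e) ≤ max ‖G₀ t‖ ‖G₃ t‖ ∧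
      max ‖G₀ t‖ ‖G₃ t‖ ≤ Real.exp (α * ‖t - t₁‖ ^ 2 + e) := by
    intro t ht
    obtain ⟨u, hu, e0, e3⟩ := hGau.pr t ht
    have hpos : 0 < max ‖G₀ t‖ ‖G₃ t‖ := UPP_pos hex (fun h => L.per.n0 (h ▸ hGau.sub ht))
      (fun h => L.per.n1 (h ▸ hGau.sub ht)) hu e0 e3
    have hb := abs_le.1 (hGau.bd t ht)
    constructor
    · rw [← Real.le_log_iff_exp_le hpos]
      linarith [hb.1]
    · rw [← Real.log_le_iff_le_exp hpos]
      linarith [hb.2]
  have hvb : ∀ a, ∀ t ∈ Metric.closedBall t₁ R₁, ‖v a t‖ ≤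
      Real.exp (n * α * ‖t - t₁‖ ^ 2 + (n * e + Cv)) := by
    intro a t ht
    have e1 := UPP_bd n Dg B₂ (α * ‖t - t₁‖ ^ 2 + e) hB₂ a.2.2.1.1 a.2.2.1.2 a.2.1
      (hDg _ a.2.2.2).1 (hDg _ a.2.2.2).2 (fun _ => t) (L.x t) (fun _ => (hB₂' t ht).1)
      (hB₂' t ht).2 (G₀ t) (G₃ t) ((le_max_left _ _).trans (hmax t ht).2)
      ((le_max_right _ _).trans (hmax t ht).2)
    have e2 : ‖((ω a.1 : κ) : ℂ)‖ ≤ Real.exp (Real.log B) := by
      rw [Real.exp_log (by linarith)]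
      exact hωB κ.val.toRingHom a.1
    have e3 : ‖v a t‖ ≤ Real.exp (Real.log B) *
        Real.exp (Fintype.card V * (α * ‖t - t₁‖ ^ 2 + e) * n +
          (Fintype.card V * Dg + Dg) * Real.log B₂) := by
      show ‖((ω a.1 : κ) : ℂ) * _‖ ≤ _
      rw [norm_mul]
      exact mul_le_mul e2 e1 (norm_nonneg _) (Real.exp_pos _).le
    refine e3.trans (le_of_eq ?_)
    rw [← Real.exp_add, hV, hCv]
    congr 1
    push_cast
    ring
  obtain ⟨c, hc0, hcb, hcs⟩ := h1 (Fin (Module.finrank ℚ κ) × ((V → Fin (n + 1)) × X)) v t₁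
    (n * α) (n * e + Cv) (n * β) r R₁ R' h T (by positivity) (by positivity) (by positivity) hr hrR
    hvan hvb (by
      have : 2 * ((n : ℝ) * α * R₁ ^ 2 + n * β) = n * (2 * (α * R₁ ^ 2 + β)) := by ring
      rw [this]
      exact t1) (by
      rw [hcard]
      exact hqb) t3 t2 (by
      rw [hcard]
      exact t5)
  -- the coefficients
  let cκ : (V → Fin (n + 1)) × X → κ := fun a => ∑ j, c (j, a) • ω j
  obtain ⟨φ, hφ⟩ := HB_incl κ
  let cQ : (V → Fin (n + 1)) × X → Qb := fun a => φ (cκ a)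
  have hcQ : ∀ a, ((cQ a : Qb) : ℂ) = ((cκ a : κ) : ℂ) := fun a => hφ _
  have hcQ0 : cQ ≠ 0 := by
    intro h0
    apply hc0
    funext a
    obtain ⟨j, a⟩ := a
    have e1 : φ (cκ a) = 0 := congrFun h0 a
    have e2 : cκ a = 0 := (map_eq_zero φ).1 e1
    exact Fintype.linearIndependent_iff.1 hωl (fun j => c (j, a)) e2 j
  have hint : ∀ a, IsIntegral ℤ (cκ a) := fun a =>
    IsIntegral.sum _ fun j _ => (hωi j).smul _
  have hq0 : (0 : ℝ) < Module.finrank ℚ κ := by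
    have : 0 < Module.finrank ℚ κ := by omega
    exact_mod_cast this
  have hqB : 0 < (Module.finrank ℚ κ : ℝ) * B := by positivity
  have hqB1 : 1 ≤ (Module.finrank ℚ κ : ℝ) * B := by
    have : (1 : ℝ) ≤ Module.finrank ℚ κ := by
      have : 1 ≤ Module.finrank ℚ κ := by omega
      exact_mod_cast this
    nlinarith
  have hcψ : ∀ (ψ : κ →+* ℂ) (a), ‖ψ (cκ a)‖ ≤
      Real.exp (h + Real.log (Module.finrank ℚ κ * B)) := by
    intro ψ a
    rw [Real.exp_add, Real.exp_log hqB]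
    show ‖ψ (∑ j, c (j, a) • ω j)‖ ≤ _
    rw [map_sum]
    have e1 : ∀ j ∈ (Finset.univ : Finset (Fin (Module.finrank ℚ κ))),
        ‖ψ (c (j, a) • ω j)‖ ≤ Real.exp h * B := by
      intro j _
      rw [zsmul_eq_mul, map_mul, map_intCast, norm_mul, Complex.norm_intCast]
      exact mul_le_mul (hcb (j, a)) (hωB ψ j) (norm_nonneg _) (Real.exp_pos _).le
    refine (norm_sum_le_of_le _ e1).trans (le_of_eq ?_)
    rw [Finset.sum_const, Finset.card_univ, Fintype.card_fin, nsmul_eq_mul]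
    ring
  have hval : ∀ t, ∑ a, (c a : ℂ) * v a t = PhK n X (fun a => ((cκ a : κ) : ℂ)) (fun _ => t)
      (L.x t) (fun _ => ![G₀ t, 0, 0, G₃ t]) := by
    intro t
    rw [Fintype.sum_prod_type_right]
    unfold PhK
    refine Finset.sum_congr rfl fun a _ => ?_
    have e1 : ((cκ a : κ) : ℂ) = ∑ j, (c (j, a) : ℂ) * ((ω j : κ) : ℂ) := by
      have e2 : κ.val.toRingHom (∑ j, c (j, a) • ω j) = ∑ j, (c (j, a) : ℂ) * ((ω j : κ) : ℂ) := by
        rw [map_sum]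
        refine Finset.sum_congr rfl fun j _ => ?_
        rw [zsmul_eq_mul, map_mul, map_intCast]
        rfl
      exact e2
    show ∑ j, (c (j, a) : ℂ) * v (j, a) t = ((cκ a : κ) : ℂ) * _
    rw [e1, Finset.sum_mul]
    refine Finset.sum_congr rfl fun j _ => ?_
    rw [mul_assoc]
    rfl
  have hv2 : ∀ t ∈ Metric.closedBall t₁ r, ‖PhK n X (fun a => ((cκ a : κ) : ℂ)) (fun _ => t)
      (L.x t) (fun _ => ![G₀ t, 0, 0, G₃ t])‖ ≤ Real.exp (-Rg) *
        ∏ _s : V, (max ‖G₀ t‖ ‖G₃ t‖) ^ n := by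
    intro t ht
    rw [← hval, Finset.prod_const, Finset.card_univ, hV, pow_one]
    refine (hcs t ht).trans ?_
    have e1 : Real.exp (n * (α * ‖t - t₁‖ ^ 2 - e)) ≤ (max ‖G₀ t‖ ‖G₃ t‖) ^ n := by
      rw [Real.exp_nat_mul]
      exact pow_le_pow_left₀ (Real.exp_pos _).le (hmax t (hF ht)).1 n
    refine le_trans ?_ (mul_le_mul_of_nonneg_left e1 (Real.exp_pos _).le)
    rw [hcard]
    have e2 : (r / R₁) ^ (2 * (n * β)) = Real.exp (-(n * (2 * β * Real.log (R₁ / r)))) := by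
      rw [Real.rpow_def_of_pos hrR0]
      congr 1
      have : Real.log (r / R₁) = -Real.log (R₁ / r) := by
        rw [← Real.log_inv, inv_div]
      rw [this]
      ring
    have e3 : (0 : ℝ) < 1 - r / R₁ := by linarith
    have e4 : ((Module.finrank ℚ κ * ((n + 1) * X.card) : ℕ) : ℝ) * Real.exp h *
        (r / R₁) ^ (2 * (n * β)) / (1 - r / R₁) ≤
        ((Module.finrank ℚ κ * ((n + 1) * X.card) : ℕ) : ℝ) *
          Real.exp (h - n * (2 * β * Real.log (R₁ / r)) + Cx) := by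
      have e5 : ((Module.finrank ℚ κ * ((n + 1) * X.card) : ℕ) : ℝ) * Real.exp h *
          (r / R₁) ^ (2 * (n * β)) / (1 - r / R₁) =
          ((Module.finrank ℚ κ * ((n + 1) * X.card) : ℕ) : ℝ) *
            Real.exp (h - n * (2 * β * Real.log (R₁ / r)) + -Real.log (1 - r / R₁)) := by
        have e9 : Real.exp (h - n * (2 * β * Real.log (R₁ / r))) =
            Real.exp h * Real.exp (-(n * (2 * β * Real.log (R₁ / r)))) := by
          rw [← Real.exp_add, ← sub_eq_add_neg]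
        rw [e2, Real.exp_add, Real.exp_neg (Real.log (1 - r / R₁)), Real.exp_log e3, e9]
        ring
      rw [e5]
      refine mul_le_mul_of_nonneg_left (Real.exp_le_exp.2 ?_) (Nat.cast_nonneg _)
      rw [hCx]
      linarith
    have e6 : Real.exp (n * α * ‖t - t₁‖ ^ 2 + (n * e + Cv)) =
        Real.exp (2 * n * e + Cv) * Real.exp (n * (α * ‖t - t₁‖ ^ 2 - e)) := by
      rw [← Real.exp_add]
      congr 1
      ring
    have e7 : Real.exp (2 * n * e + Cv) ≤ Real.exp (2 * n * e + Cx) := by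
      refine Real.exp_le_exp.2 ?_
      rw [hCx]
      linarith
    have e8 : 0 ≤ ((Module.finrank ℚ κ * ((n + 1) * X.card) : ℕ) : ℝ) * Real.exp h *
        (r / R₁) ^ (2 * (n * β)) / (1 - r / R₁) := by positivity
    rw [e6]
    calc Real.exp (2 * n * e + Cv) * Real.exp (n * (α * ‖t - t₁‖ ^ 2 - e)) *
          (T * Real.exp (1 - R') + ((Module.finrank ℚ κ * ((n + 1) * X.card) : ℕ) : ℝ) *
            Real.exp h * (r / R₁) ^ (2 * (n * β)) / (1 - r / R₁))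
        = (Real.exp (2 * n * e + Cv) * (T * Real.exp (1 - R') +
            ((Module.finrank ℚ κ * ((n + 1) * X.card) : ℕ) : ℝ) *
            Real.exp h * (r / R₁) ^ (2 * (n * β)) / (1 - r / R₁))) *
              Real.exp (n * (α * ‖t - t₁‖ ^ 2 - e)) := by ring
      _ ≤ (Real.exp (2 * n * e + Cx) * (T * Real.exp (1 - R') +
            ((Module.finrank ℚ κ * ((n + 1) * X.card) : ℕ) : ℝ) *
          Real.exp (h - n * (2 * β * Real.log (R₁ / r)) + Cx))) *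
              Real.exp (n * (α * ‖t - t₁‖ ^ 2 - e)) := by
          refine mul_le_mul_of_nonneg_right ?_ (Real.exp_pos _).le
          exact mul_le_mul e7 (by linarith) (by positivity) (Real.exp_pos _).le
      _ ≤ Real.exp (-Rg) * Real.exp (n * (α * ‖t - t₁‖ ^ 2 - e)) :=
          mul_le_mul_of_nonneg_right t6 (Real.exp_pos _).le
  filter_upwards [h5 V N C Q U p y x hGS (fun _ => m) X hFam n cQ hcQ0, hGS.pt, hBh, hH] with
    k k1 k2 k3 k4
  obtain ⟨i1, i2, i3, i4⟩ := hKK k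
  have hpos : (0 : ℝ) < Module.finrank ℚ (KK k) := by exact_mod_cast Module.finrank_pos
  have key := UPP_one h4 h6 hex C κ (KK k) hco i2 hI (y k) (x k) i3 i4 (p.t k) (p.P k) k2.1 k2.2.1
    k2.2.2 L (Metric.closedBall t₁ r) (hF.trans hGau.sub) G₀ G₃ m (fun t ht => hGau.pr t (hF ht))
    X n Dg hDg cκ cQ hcQ hint (h + Real.log (Module.finrank ℚ κ * B)) Rg |Bh| H
    (((n + 1) * X.card : ℕ) : ℝ) (add_nonneg t2 (Real.log_nonneg hqB1)) hcψ (by rw [← hcard2])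
    (fun i => (k3.1 i).trans (le_abs_self _)) (k3.2.trans (le_abs_self _)) k4 k1 t4.le hv2
  unfold C2.prp
  rw [div_le_iff₀ hpos]
  have hD : (0 : ℝ) < 2 * Rg := by positivity
  refine le_of_mul_le_mul_left ?_ hD
  have e1 : 2 * Rg * ((II.EmbIn κ (KK k) (y k) (fun _ : Unit => x k)
      {q | (q.1, q.2 ()) ∈ L.lift (Metric.closedBall t₁ r)}).ncard : ℝ) =
      Rg * (2 * ((II.EmbIn κ (KK k) (y k) (fun _ : Unit => x k)
      {q | (q.1, q.2 ()) ∈ L.lift (Metric.closedBall t₁ r)}).ncard : ℝ)) := by ring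
  rw [e1]
  refine key.trans ?_
  rw [← mul_assoc (2 * Rg)]
  refine mul_le_mul_of_nonneg_right ?_ hpos.le
  have e2 : h + Real.log (Module.finrank ℚ κ * B) + Real.log (((n + 1) * X.card : ℕ) : ℝ) +
      Dg * ((Fintype.card V + 1) * |Bh|) + n * (Fintype.card V * H) ≤
      h + Real.log ((Module.finrank ℚ κ * ((n + 1) * X.card) : ℕ) : ℝ) + Cx + n * H := by
    have hnb : (0 : ℝ) < (((n + 1) * X.card : ℕ) : ℝ) := by
      have : 0 < (n + 1) * X.card := Nat.mul_pos (Nat.succ_pos n) hb1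
      exact_mod_cast this
    rw [Nat.cast_mul (Module.finrank ℚ κ), Real.log_mul hq0.ne' (by linarith),
      Real.log_mul hq0.ne' hnb.ne', hV, hCx, hCv]
    have e3 : 0 ≤ ((Dg : ℝ) + Dg) * Real.log B₂ := by positivity
    push_cast
    have e4 : (Dg : ℝ) * ((1 + 1) * |Bh|) = Dg * (2 * |Bh|) := by ring
    rw [e4]
    linarith
  refine e2.trans (t7.trans (le_of_eq ?_))
  congr 1
  rw [mul_assoc 2 β, mul_div_mul_left _ _ (two_ne_zero)]

end EQ

end Pool.Agent.ZR
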