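import Pool.Agent.ZR.C2.All
import Pool.Agent.ZR.D.All
import Pool.Agent.ZR.QG.All
import Pool.Agent.ZR.EQ.BADC
import Pool.Agent.ZR.EQ.CAR
import Pool.Agent.ZR.EQ.CONN
import Pool.Agent.ZR.EQ.COVB
import Pool.Agent.ZR.EQ.CST
import Pool.Agent.ZR.EQ.END
import Pool.Agent.ZR.EQ.ETA1
import Pool.Agent.ZR.EQ.FIB
import Pool.Agent.ZR.EQ.GQF
import Pool.Agent.ZR.EQ.DGC
import Pool.Agent.ZR.EQ.INT
import Pool.Agent.ZR.EQ.ISO
import Pool.Agent.ZR.EQ.JEN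
import Pool.Agent.ZR.EQ.LC1
import Pool.Agent.ZR.EQ.LG
import Pool.Agent.ZR.EQ.LG0
import Pool.Agent.ZR.EQ.LINL
import Pool.Agent.ZR.EQ.LOW
import Pool.Agent.ZR.EQ.MII
import Pool.Agent.ZR.EQ.NR
import Pool.Agent.ZR.EQ.NRC
import Pool.Agent.ZR.EQ.NRZ
import Pool.Agent.ZR.EQ.NUMU
import Pool.Agent.ZR.EQ.NVQ
import Pool.Agent.ZR.EQ.OMG
import Pool.Agent.ZR.EQ.PACB
import Pool.Agent.ZR.EQ.PCS
import Pool.Agent.ZR.EQ.PFQ
import Pool.Agent.ZR.EQ.RAT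
import Pool.Agent.ZR.EQ.SHC
import Pool.Agent.ZR.EQ.TAY
import Pool.Agent.ZR.EQ.THI
import Pool.Agent.ZR.EQ.UPF
import Pool.Agent.ZR.EQ.UPP

/-!
# ZR, block EQ: assembly
-/

set_option autoImplicit false

namespace Pool.Agent.ZR.EQ

open Pool.Agent.ZPT Pool.Agent.ZPE

theorem thm_LC1 : St_LC1 := LC1_of C2.thm_LOCT

theorem thm_LINL : St_LINL := LINL_of ETA1_of

theorem thm_LG0 : St_LG0 := LG0_of CST_of thm_GRW thm_THP

theorem thm_FIB : St_FIB := FIB_of JEN_of CAR_of BADC_of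

theorem thm_FAJ : D.St_FAJ :=
  D.thm_FAJ D.thm_SEP D.thm_TRG (D.thm_GNP thm_S1 thm_MAP) thm_B1

theorem thm_SHC : St_SHC := SHC_of thm_FIB thm_FAJ

theorem thm_PCS : St_PCS := PCS_of thm_LC1

theorem thm_THI : St_THI := THI_of thm_THP thm_S1

theorem thm_GQF : St_GQF := GQF_of thm_THP thm_GRQ

theorem thm_UPP : St_UPP := UPP_of TAY_of NUMU_of OMG_of PFQ_of NVQ_of C2.thm_CNJ

/-- `MinII` for `fB ⊤ = 1`, and NR -/
theorem thm_main : MinIIone ∧ St_NR := by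
  have hISO : St_ISO := ISO_of ETA1_of thm_GQF
  have hDGC : St_DGC := DGC_of QG.thm_QG
  have hGQF : St_GQF := thm_GQF
  have hUPP : St_UPP := thm_UPP
  have hCONN : St_CONN := CONN_of
  have hLG : St_LG := LG_of thm_LINL hGQF ETA1_of
  have hLOW : St_LOW := LOW_of hLG thm_SHC PACB_of ETA1_of hGQF
  have hUPF : St_UPF := UPF_of hLG hUPP COVB_of ETA1_of hGQF
  have hINT : St_INT := INT_of hLOW hUPF hGQF
  have hRAT : St_RAT := RAT_of hINT thm_PCS thm_LC1 C2.thm_KM ETA1_of hGQF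
  have hNRZ : St_NRZ := NRZ_of thm_LG0 hUPP hDGC
  have hNRC : St_NRC := NRC_of hCONN thm_THI CST_of thm_LC1
  exact ⟨END_of thm_EX C2.thm_CHT C2.thm_KAP C2.thm_HTS C2.thm_KM thm_LC1 hRAT hISO hNRZ,
    NR_of hNRC hNRZ thm_LC1 C2.thm_KAP C2.thm_HTS C2.thm_KM⟩

end Pool.Agent.ZR.EQ
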