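import Pool.Agent.ZPT.Defs

/-!
# ZR, block EQ, CONN: an irreducible polynomial over the algebraic numbers does not split over the
complex numbers (helper99)
-/

set_option autoImplicit false

open scoped BigOperators

namespace Pool.Agent.ZR

open Pool.Agent.ZPT

namespace EQ

/-- a finitely generated algebra over an algebraically closed field has a point -/
theorem CONA_hom {k K : Type} [Field k] [IsAlgClosed k] [Field K] [Algebra k K] (S : Finset K) :
    Nonempty (Algebra.adjoin k (S : Set K) →ₐ[k] k) := by
  have h1 : Algebra.FiniteType k (Algebra.adjoin k (S : Set K)) :=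
    (Subalgebra.fg_iff_finiteType _).1 ⟨S, rfl⟩
  obtain ⟨m, hm⟩ := Ideal.exists_maximal (Algebra.adjoin k (S : Set K))
  let _ : Field (Algebra.adjoin k (S : Set K) ⧸ m) := Ideal.Quotient.field m
  have h2 : Module.Finite k (Algebra.adjoin k (S : Set K) ⧸ m) :=
    finite_of_finite_type_of_isJacobsonRing k _
  have h3 : Function.Bijective (algebraMap k (Algebra.adjoin k (S : Set K) ⧸ m)) :=
    IsAlgClosed.algebraMap_bijective_of_isIntegral
  exact ⟨(AlgEquiv.ofBijective (Algebra.ofId k (Algebra.adjoin k (S : Set K) ⧸ m))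
    h3).symm.toAlgHom.comp (Ideal.Quotient.mkₐ k m)⟩

/-- monic polynomials whose coefficients are in a subring -/
theorem CONA_lift {k K : Type} [Field k] [Field K] [Algebra k K] {V : Type} {S : Set K} (P : Polynomial (MvPolynomial V K)) (hP : P.Monic)
    (h : ∀ n, ((P.coeff n).coeffs : Set K) ⊆ S) :
    ∃ P' : Polynomial (MvPolynomial V (Algebra.adjoin k S)),
      P'.map (MvPolynomial.map (algebraMap (Algebra.adjoin k S) K)) = P ∧
        P'.natDegree = P.natDegree ∧ P'.Monic := by
  refine Polynomial.lifts_and_natDegree_eq_and_monic ?_ hP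
  rw [Polynomial.lifts_iff_coeff_lifts]
  intro n
  have h1 : P.coeff n ∈
      Set.range (MvPolynomial.map (σ := V) (algebraMap (Algebra.adjoin k S) K)) := by
    rw [MvPolynomial.mem_range_map_iff_coeffs_subset]
    intro a ha
    exact ⟨⟨a, Algebra.subset_adjoin (h n ha)⟩, rfl⟩
  exact h1

/-- irreducible over an algebraically closed field implies irreducible over a larger field -/
theorem CONA_irr0 {k K : Type} [Field k] [IsAlgClosed k] [Field K] [Algebra k K] {V : Type} [Finite V] (f : Polynomial (MvPolynomial V k)) (hf : f.Monic)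
    (hirr : Irreducible (f.map (algebraMap (MvPolynomial V k)
      (FractionRing (MvPolynomial V k)))))
    (P Q : Polynomial (MvPolynomial V K)) (hP : P.Monic) (hQ : Q.Monic)
    (h : f.map (MvPolynomial.map (algebraMap k K)) = P * Q) :
    P.natDegree = 0 ∨ Q.natDegree = 0 := by
  classical
  obtain ⟨S, hS⟩ : ∃ S : Finset K, S = (P.support.biUnion fun n => (P.coeff n).coeffs) ∪
      (Q.support.biUnion fun n => (Q.coeff n).coeffs) := ⟨_, rfl⟩
  have hPS : ∀ n, ((P.coeff n).coeffs : Set K) ⊆ S := by
    intro n a ha
    have hn : n ∈ P.support := by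
      rw [Polynomial.mem_support_iff]
      intro h0
      rw [h0, MvPolynomial.coeffs_zero] at ha
      simp at ha
    rw [hS, Finset.mem_coe, Finset.mem_union, Finset.mem_biUnion]
    exact Or.inl ⟨n, hn, ha⟩
  have hQS : ∀ n, ((Q.coeff n).coeffs : Set K) ⊆ S := by
    intro n a ha
    have hn : n ∈ Q.support := by
      rw [Polynomial.mem_support_iff]
      intro h0
      rw [h0, MvPolynomial.coeffs_zero] at ha
      simp at ha
    rw [hS, Finset.mem_coe, Finset.mem_union, Finset.mem_biUnion, Finset.mem_biUnion]
    exact Or.inr ⟨n, hn, ha⟩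
  obtain ⟨φ⟩ := CONA_hom (k := k) S
  obtain ⟨P', hP1, hP2, hP3⟩ := CONA_lift (k := k) P hP hPS
  obtain ⟨Q', hQ1, hQ2, hQ3⟩ := CONA_lift (k := k) Q hQ hQS
  -- the identity over the subring
  have h1 : f.map (MvPolynomial.map (algebraMap k (Algebra.adjoin k (S : Set K)))) =
      P' * Q' := by
    apply Polynomial.map_injective (MvPolynomial.map (σ := V)
      (algebraMap (Algebra.adjoin k (S : Set K)) K))
      (MvPolynomial.map_injective _ Subtype.val_injective)
    rw [Polynomial.map_mul, hP1, hQ1, ← h, Polynomial.map_map]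
    congr 1
    apply RingHom.ext
    intro p
    rw [RingHom.comp_apply, MvPolynomial.map_map]
    rfl
  have h2 := congrArg (Polynomial.map (MvPolynomial.map (σ := V) (φ : _ →+* k))) h1
  have h3 : (f.map (MvPolynomial.map (algebraMap k (Algebra.adjoin k (S : Set K))))).map
      (MvPolynomial.map (σ := V) (φ : _ →+* k)) = f := by
    rw [Polynomial.map_map]
    have h4 : (MvPolynomial.map (σ := V) (φ : Algebra.adjoin k (S : Set K) →+* k)).comp
        (MvPolynomial.map (algebraMap k (Algebra.adjoin k (S : Set K)))) =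
        RingHom.id (MvPolynomial V k) := by
      apply RingHom.ext
      intro p
      rw [RingHom.comp_apply, MvPolynomial.map_map]
      have h5 : (φ : Algebra.adjoin k (S : Set K) →+* k).comp
          (algebraMap k (Algebra.adjoin k (S : Set K))) = RingHom.id k := by
        apply RingHom.ext
        intro a
        exact φ.commutes a
      rw [h5, MvPolynomial.map_id]
      rfl
    rw [h4, Polynomial.map_id]
  rw [h3, Polynomial.map_mul] at h2
  have h4 : Irreducible f := (hf.irreducible_iff_irreducible_map_fraction_map).2 hirr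
  have hP4 : (P'.map (MvPolynomial.map (σ := V) (φ : _ →+* k))).Monic := hP3.map _
  have hQ4 : (Q'.map (MvPolynomial.map (σ := V) (φ : _ →+* k))).Monic := hQ3.map _
  rcases h4.isUnit_or_isUnit h2 with h5 | h5
  · left
    rw [hP4.isUnit_iff] at h5
    rw [← hP2, ← hP3.natDegree_map (MvPolynomial.map (σ := V) (φ : _ →+* k)), h5,
      Polynomial.natDegree_one]
  · right
    rw [hQ4.isUnit_iff] at h5
    rw [← hQ2, ← hQ3.natDegree_map (MvPolynomial.map (σ := V) (φ : _ →+* k)), h5,
      Polynomial.natDegree_one]

/-- irreducible over the algebraic numbers implies irreducible over the complex numbers -/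
theorem CONA_irr {V : Type} [Finite V] (f : Polynomial (MvPolynomial V Qb)) (hf : f.Monic)
    (hirr : Irreducible (f.map (algebraMap (MvPolynomial V Qb)
      (FractionRing (MvPolynomial V Qb)))))
    (P Q : Polynomial (MvPolynomial V ℂ)) (hP : P.Monic) (hQ : Q.Monic)
    (h : f.map (MvPolynomial.map (algebraMap Qb ℂ)) = P * Q) :
    P.natDegree = 0 ∨ Q.natDegree = 0 := by
  have hac : IsAlgClosed Qb := (algebraicClosure.isAlgClosure ℚ ℂ).isAlgClosed
  exact CONA_irr0 f hf hirr P Q hP hQ h

end EQ

end Pool.Agent.ZR
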