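import Mathlib

/-!
# ZR, block EQ, CONN: holomorphic functions of polynomial growth outside a finite set (helper99;
the case without exceptional points is after HQ/PolyG.lean)
-/

set_option autoImplicit false

open Filter Topology Set Metric

namespace Pool.Agent.ZR

namespace EQ

private theorem CONB_zero {τ : ℂ → ℂ} (hτ : Differentiable ℂ τ) (N : ℕ) (C : ℝ)
    (h : ∀ v, ‖τ v‖ ≤ C * (1 + ‖v‖) ^ N) {k : ℕ} (hk : N < k) :
    iteratedDeriv k τ 0 = 0 := by
  have hC : 0 ≤ C := by
    have h0 := h 0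
    simp only [norm_zero, add_zero, one_pow, mul_one] at h0
    exact (norm_nonneg _).trans h0
  have hb : ∀ R : ℝ, 1 ≤ R → ‖iteratedDeriv k τ 0‖ ≤ (k.factorial * C * 2 ^ N) / R := by
    intro R hR
    have hR0 : 0 < R := by linarith
    have h1 := Complex.norm_iteratedDeriv_le_of_forall_mem_sphere_norm_le (c := 0) (R := R)
      (C := C * (1 + R) ^ N) (f := τ) k hR0 hτ.diffContOnCl (by
        intro z hz
        have hz' : ‖z‖ = R := by simpa using hz
        have := h z
        rwa [hz'] at this)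
    refine h1.trans ?_
    rw [div_le_div_iff₀ (pow_pos hR0 k) hR0]
    have h2 : (1 + R) ^ N ≤ (2 * R) ^ N := pow_le_pow_left₀ (by linarith) (by linarith) N
    have h3 : R ^ N * R ≤ R ^ k := by
      rw [← pow_succ]
      exact pow_le_pow_right₀ hR hk
    have hf : (0 : ℝ) ≤ k.factorial := Nat.cast_nonneg _
    calc (k.factorial : ℝ) * (C * (1 + R) ^ N) * R
        ≤ k.factorial * (C * (2 * R) ^ N) * R := by gcongr
      _ = k.factorial * C * 2 ^ N * (R ^ N * R) := by rw [mul_pow]; ring
      _ ≤ k.factorial * C * 2 ^ N * R ^ k := by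
          gcongr
  have hlim : Tendsto (fun R : ℝ => (k.factorial * C * 2 ^ N) / R) atTop (𝓝 0) :=
    tendsto_const_nhds.div_atTop tendsto_id
  have h4 : ‖iteratedDeriv k τ 0‖ ≤ 0 :=
    ge_of_tendsto hlim (by
      filter_upwards [eventually_ge_atTop 1] with R hR using hb R hR)
  exact norm_le_zero_iff.1 h4

private theorem CONB_entire {τ : ℂ → ℂ} (hτ : Differentiable ℂ τ) (N : ℕ) (C : ℝ)
    (h : ∀ v, ‖τ v‖ ≤ C * (1 + ‖v‖) ^ N) :
    ∃ p : Polynomial ℂ, ∀ v, τ v = p.eval v := by
  refine ⟨∑ k ∈ Finset.range (N + 1),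
    Polynomial.C (((k.factorial : ℂ))⁻¹ * iteratedDeriv k τ 0) * Polynomial.X ^ k, ?_⟩
  intro v
  have h1 := Complex.hasSum_taylorSeries_of_entire hτ 0 v
  have h2 : HasSum (fun n : ℕ => ((n.factorial : ℂ))⁻¹ • (v - 0) ^ n • iteratedDeriv n τ 0)
      (∑ n ∈ Finset.range (N + 1),
        ((n.factorial : ℂ))⁻¹ • (v - 0) ^ n • iteratedDeriv n τ 0) := by
    refine hasSum_sum_of_ne_finset_zero fun n hn => ?_
    have : N < n := by
      have := Finset.mem_range.not.1 hn
      omega
    rw [CONB_zero hτ N C h this]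
    simp
  rw [h1.unique h2, Polynomial.eval_finsetSum]
  refine Finset.sum_congr rfl fun k _ => ?_
  simp only [Polynomial.eval_mul, Polynomial.eval_C, Polynomial.eval_pow, Polynomial.eval_X,
    smul_eq_mul, sub_zero]
  ring

/-- a function which is holomorphic outside a finite set and of polynomial growth is a
polynomial -/
theorem CONB_poly (S : Set ℂ) (hS : S.Finite) (K : ℝ) (k : ℕ) :
    ∀ h : ℂ → ℂ, DifferentiableOn ℂ h Sᶜ → (∀ t ∉ S, ‖h t‖ ≤ K * (1 + ‖t‖) ^ k) →
      ∃ p : Polynomial ℂ, ∀ t ∉ S, h t = p.eval t := by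
  induction S, hS using Set.Finite.induction_on with
  | empty =>
    intro h hd hb
    rw [compl_empty, differentiableOn_univ] at hd
    obtain ⟨p, hp⟩ := CONB_entire hd k K fun v => hb v (notMem_empty v)
    exact ⟨p, fun t _ => hp t⟩
  | @insert s S₀ hs hS₀ ih =>
    intro h hd hb
    have hop : IsOpen (S₀ᶜ) := hS₀.isClosed.isOpen_compl
    have hop' : IsOpen ((insert s S₀)ᶜ) := (hS₀.insert s).isClosed.isOpen_compl
    obtain ⟨g, hg⟩ : ∃ g : ℂ → ℂ, g = Function.update h s (limUnder (𝓝[≠] s) h) := ⟨_, rfl⟩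
    have hgh : ∀ t, t ≠ s → g t = h t := by
      intro t ht
      rw [hg, Function.update_of_ne ht]
    obtain ⟨ε, hε, hεS⟩ := Metric.isOpen_iff.1 hop s hs
    have hball : ball s ε \ {s} ⊆ (insert s S₀)ᶜ := by
      rintro t ⟨ht, hts⟩ hmem
      rcases mem_insert_iff.1 hmem with h1 | h1
      · exact hts h1
      · exact hεS ht h1
    have hgs : DifferentiableAt ℂ g s := by
      have h1 : DifferentiableOn ℂ g (ball s ε) := by
        rw [hg]
        refine Complex.differentiableOn_update_limUnder_of_bddAbove (ball_mem_nhds s hε)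
          (hd.mono hball) ?_
        refine ⟨|K| * (1 + (‖s‖ + ε)) ^ k, ?_⟩
        rintro _ ⟨t, ht, rfl⟩
        have h2 := hb t (hball ht)
        have h3 : ‖t‖ ≤ ‖s‖ + ε := by
          have h4 : ‖t - s‖ < ε := by
            rw [← dist_eq_norm]
            exact ht.1
          have h5 : t = s + (t - s) := by ring
          rw [h5]
          exact (norm_add_le _ _).trans (by linarith)
        show ‖h t‖ ≤ _
        have h6 : (1 + ‖t‖) ^ k ≤ (1 + (‖s‖ + ε)) ^ k :=
          pow_le_pow_left₀ (by positivity) (by linarith) k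
        calc ‖h t‖ ≤ K * (1 + ‖t‖) ^ k := h2
          _ ≤ |K| * (1 + ‖t‖) ^ k := mul_le_mul_of_nonneg_right (le_abs_self K) (by positivity)
          _ ≤ |K| * (1 + (‖s‖ + ε)) ^ k := mul_le_mul_of_nonneg_left h6 (abs_nonneg K)
      exact (h1 s (mem_ball_self hε)).differentiableAt (ball_mem_nhds s hε)
    obtain ⟨p, hp⟩ := ih g (by
      intro t ht
      by_cases hts : t = s
      · rw [hts]
        exact hgs.differentiableWithinAt
      · have h1 : t ∈ (insert s S₀)ᶜ := by
          intro hmem
          rcases mem_insert_iff.1 hmem with h2 | h2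
          · exact hts h2
          · exact ht h2
        have h2 : DifferentiableAt ℂ h t := (hd t h1).differentiableAt (hop'.mem_nhds h1)
        have h3 : g =ᶠ[𝓝 t] h := by
          filter_upwards [isOpen_ne.mem_nhds hts] with u hu
          exact hgh u hu
        exact (h2.congr_of_eventuallyEq h3).differentiableWithinAt) (by
      intro t ht
      by_cases hts : t = s
      · rw [hts]
        have h1 : Tendsto (fun u => ‖g u‖) (𝓝[≠] s) (𝓝 ‖g s‖) :=
          (hgs.continuousAt.norm).tendsto.mono_left nhdsWithin_le_nhds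
        have h2 : Tendsto (fun u : ℂ => K * (1 + ‖u‖) ^ k) (𝓝[≠] s) (𝓝 (K * (1 + ‖s‖) ^ k)) := by
          have h3 : Continuous fun u : ℂ => K * (1 + ‖u‖) ^ k := by fun_prop
          exact h3.continuousAt.tendsto.mono_left nhdsWithin_le_nhds
        refine le_of_tendsto_of_tendsto h1 h2 ?_
        have h3 : ∀ᶠ u in 𝓝[≠] s, u ∈ ball s ε :=
          nhdsWithin_le_nhds (ball_mem_nhds s hε)
        filter_upwards [h3, self_mem_nhdsWithin] with u hu hus
        rw [hgh u hus]
        exact hb u (hball ⟨hu, hus⟩)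
      · rw [hgh t hts]
        refine hb t ?_
        intro hmem
        rcases mem_insert_iff.1 hmem with h2 | h2
        · exact hts h2
        · exact ht h2)
    refine ⟨p, fun t ht => ?_⟩
    have h1 : t ≠ s := fun h2 => ht (by rw [h2]; exact mem_insert s S₀)
    rw [← hgh t h1]
    exact hp t fun h2 => ht (mem_insert_of_mem s h2)

end EQ

end Pool.Agent.ZR
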