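import Pool.Agent.ZR.EQ.St
import Pool.Agent.ZR.S.LOG

/-!
# ZR, block EQ, module CONN, analytic part: sums over the points of a clopen subset of an affine
plane curve are polynomials (helper36)
-/

set_option autoImplicit false

open scoped BigOperators Topology
open Filter Topology Polynomial

namespace Pool.Agent.ZR

namespace EQ

/-- entire functions of polynomial growth -/
private theorem CONN_poly (h : ℂ → ℂ) (hd : Differentiable ℂ h) (C : ℝ) (K : ℕ) (hC : 0 ≤ C)
    (hb : ∀ t, ‖h t‖ ≤ C * (1 + ‖t‖) ^ K) : ∃ P : ℂ[X], ∀ t, h t = P.eval t := by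
  have h0 : ∀ n, K < n → iteratedDeriv n h 0 = 0 := by
    intro n hn
    by_contra hne
    have hpos : 0 < ‖iteratedDeriv n h 0‖ := norm_pos_iff.2 hne
    obtain ⟨c, hc⟩ : ∃ c : ℝ, c = (n.factorial : ℝ) * (C * 2 ^ K) := ⟨_, rfl⟩
    have hc0 : 0 ≤ c := by rw [hc]; positivity
    have key : ∀ R : ℝ, 1 ≤ R → ‖iteratedDeriv n h 0‖ ≤ c / R := by
      intro R hR
      have hR0 : 0 < R := by linarith
      have h1 := Complex.norm_iteratedDeriv_le_of_forall_mem_sphere_norm_le (f := h) (c := 0)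
        (R := R) (C := C * (2 * R) ^ K) n hR0 hd.diffContOnCl (fun z hz => by
          refine (hb z).trans (mul_le_mul_of_nonneg_left (pow_le_pow_left₀ (by positivity) ?_ _) hC)
          have h2 : ‖z‖ = R := by simpa using hz
          rw [h2]
          linarith)
      refine h1.trans ?_
      rw [div_le_div_iff₀ (pow_pos hR0 n) hR0]
      have h3 : R ^ K * R ≤ R ^ n := by
        rw [← pow_succ]
        exact pow_le_pow_right₀ hR hn
      have h4 : (n.factorial : ℝ) * (C * (2 * R) ^ K) * R = c * (R ^ K * R) := by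
        rw [hc, mul_pow]
        ring
      rw [h4]
      exact mul_le_mul_of_nonneg_left h3 hc0
    have h5 := key (max 1 (c / ‖iteratedDeriv n h 0‖ + 1)) (le_max_left _ _)
    have hR : c / ‖iteratedDeriv n h 0‖ + 1 ≤ max 1 (c / ‖iteratedDeriv n h 0‖ + 1) :=
      le_max_right _ _
    have hR0 : 0 < max 1 (c / ‖iteratedDeriv n h 0‖ + 1) := lt_of_lt_of_le one_pos (le_max_left _ _)
    rw [le_div_iff₀ hR0] at h5
    have h6 : ‖iteratedDeriv n h 0‖ * (c / ‖iteratedDeriv n h 0‖ + 1) ≤ c :=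
      (mul_le_mul_of_nonneg_left hR hpos.le).trans h5
    rw [mul_add, mul_div_cancel₀ _ hpos.ne', mul_one] at h6
    linarith
  refine ⟨∑ n ∈ Finset.range (K + 1), Polynomial.C ((n.factorial : ℂ)⁻¹ * iteratedDeriv n h 0) *
    X ^ n, fun t => ?_⟩
  rw [← Complex.taylorSeries_eq_of_entire' 0 t hd, tsum_eq_sum (s := Finset.range (K + 1))]
  · rw [Polynomial.eval_finsetSum]
    refine Finset.sum_congr rfl fun n _ => ?_
    rw [Polynomial.eval_mul, Polynomial.eval_C, Polynomial.eval_pow, Polynomial.eval_X, sub_zero]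
  · intro n hn
    rw [h0 n (by simpa using hn), mul_zero, zero_mul]

/-- removable singularities of continuous functions -/
private theorem CONN_entire (h : ℂ → ℂ) (S : Set ℂ) (hS : S.Countable) (hc : Continuous h)
    (hd : ∀ z, z ∉ S → DifferentiableAt ℂ h z) : Differentiable ℂ h := by
  intro c
  have h1 := Complex.hasFPowerSeriesOnBall_of_differentiable_off_countable (R := 1) (c := c)
    (f := h) hS hc.continuousOn (fun z hz => hd z hz.2) one_pos
  exact h1.hasFPowerSeriesAt.differentiableAt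

/-- bivariate polynomials are analytic -/
private theorem CONN_an (q : Polynomial ℂ[X]) (p : ℂ × ℂ) :
    AnalyticAt ℂ (fun s : ℂ × ℂ => q.evalEval s.2 s.1) p := by
  induction q using Polynomial.induction_on' with
  | add a b ha hb =>
    have h : (fun s : ℂ × ℂ => (a + b).evalEval s.2 s.1) =
        fun s => a.evalEval s.2 s.1 + b.evalEval s.2 s.1 := by
      funext s
      exact Polynomial.evalEval_add _ _ _ _
    rw [h]
    exact ha.add hb
  | monomial n a =>
    have h : (fun s : ℂ × ℂ => (Polynomial.monomial n a : Polynomial ℂ[X]).evalEval s.2 s.1) =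
        fun s => Polynomial.aeval s.2 a * s.1 ^ n := by
      funext s
      rw [Polynomial.evalEval, Polynomial.eval_monomial, Polynomial.eval_mul,
        Polynomial.eval_pow, Polynomial.eval_C]
      rfl
    rw [h]
    exact (analyticAt_snd.aeval_polynomial a).mul (analyticAt_fst.pow n)

/-- polynomial growth on a set -/
private def PGr (T : Set (ℂ × ℂ)) (g : ℂ × ℂ → ℂ) : Prop :=
  ∃ (C : ℝ) (K : ℕ), 0 ≤ C ∧ ∀ p ∈ T, ‖g p‖ ≤ C * (1 + ‖p.1‖) ^ K

private theorem PGr.add {T : Set (ℂ × ℂ)} {g g' : ℂ × ℂ → ℂ} (h : PGr T g) (h' : PGr T g') :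
    PGr T (fun p => g p + g' p) := by
  obtain ⟨C, K, hC, h⟩ := h
  obtain ⟨C', K', hC', h'⟩ := h'
  refine ⟨C + C', K + K', by positivity, fun p hp => ?_⟩
  have h1 : (1 : ℝ) ≤ 1 + ‖p.1‖ := by linarith [norm_nonneg p.1]
  calc ‖g p + g' p‖ ≤ ‖g p‖ + ‖g' p‖ := norm_add_le _ _
    _ ≤ C * (1 + ‖p.1‖) ^ K + C' * (1 + ‖p.1‖) ^ K' := add_le_add (h p hp) (h' p hp)
    _ ≤ C * (1 + ‖p.1‖) ^ (K + K') + C' * (1 + ‖p.1‖) ^ (K + K') :=
      add_le_add (mul_le_mul_of_nonneg_left (pow_le_pow_right₀ h1 (by omega)) hC)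
        (mul_le_mul_of_nonneg_left (pow_le_pow_right₀ h1 (by omega)) hC')
    _ = (C + C') * (1 + ‖p.1‖) ^ (K + K') := by ring

private theorem PGr.mul {T : Set (ℂ × ℂ)} {g g' : ℂ × ℂ → ℂ} (h : PGr T g) (h' : PGr T g') :
    PGr T (fun p => g p * g' p) := by
  obtain ⟨C, K, hC, h⟩ := h
  obtain ⟨C', K', hC', h'⟩ := h'
  refine ⟨C * C', K + K', by positivity, fun p hp => ?_⟩
  have h1 : (0 : ℝ) ≤ 1 + ‖p.1‖ := by linarith [norm_nonneg p.1]
  calc ‖g p * g' p‖ = ‖g p‖ * ‖g' p‖ := norm_mul _ _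
    _ ≤ (C * (1 + ‖p.1‖) ^ K) * (C' * (1 + ‖p.1‖) ^ K') :=
      mul_le_mul (h p hp) (h' p hp) (norm_nonneg _) (by positivity)
    _ = C * C' * (1 + ‖p.1‖) ^ (K + K') := by ring

private theorem PGr.const {T : Set (ℂ × ℂ)} (c : ℂ) : PGr T (fun _ => c) :=
  ⟨‖c‖, 0, norm_nonneg _, fun p _ => by simp⟩

private theorem PGr.fst {T : Set (ℂ × ℂ)} : PGr T (fun p => p.1) :=
  ⟨1, 1, zero_le_one, fun p _ => by rw [pow_one, one_mul]; linarith⟩

private theorem PGr.pow {T : Set (ℂ × ℂ)} {g : ℂ × ℂ → ℂ} (h : PGr T g) (n : ℕ) :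
    PGr T (fun p => g p ^ n) := by
  induction n with
  | zero =>
    have h1 : (fun p => g p ^ 0) = fun _ => (1 : ℂ) := by funext p; rw [pow_zero]
    rw [h1]
    exact PGr.const 1
  | succ n ih =>
    have h1 : (fun p => g p ^ (n + 1)) = fun p => g p ^ n * g p := by funext p; rw [pow_succ]
    rw [h1]
    exact ih.mul h

private theorem PGr.one {T : Set (ℂ × ℂ)} (a : ℂ[X]) : PGr T (fun p => a.eval p.1) := by
  induction a using Polynomial.induction_on' with
  | add a b ha hb =>
    have h : (fun p : ℂ × ℂ => (a + b).eval p.1) = fun p => a.eval p.1 + b.eval p.1 := by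
      funext p
      exact Polynomial.eval_add
    rw [h]
    exact ha.add hb
  | monomial n c =>
    have h : (fun p : ℂ × ℂ => (Polynomial.monomial n c).eval p.1) = fun p => c * p.1 ^ n := by
      funext p
      exact Polynomial.eval_monomial
    rw [h]
    exact (PGr.const c).mul (PGr.fst.pow n)

private theorem PGr.two {T : Set (ℂ × ℂ)} (hT : PGr T (fun p => p.2)) (a : Polynomial ℂ[X]) :
    PGr T (fun p => a.evalEval p.1 p.2) := by
  induction a using Polynomial.induction_on' with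
  | add a b ha hb =>
    have h : (fun p : ℂ × ℂ => (a + b).evalEval p.1 p.2) =
        fun p => a.evalEval p.1 p.2 + b.evalEval p.1 p.2 := by
      funext p
      exact Polynomial.evalEval_add _ _ _ _
    rw [h]
    exact ha.add hb
  | monomial n c =>
    have h : (fun p : ℂ × ℂ => (Polynomial.monomial n c : Polynomial ℂ[X]).evalEval p.1 p.2) =
        fun p => c.eval p.1 * p.2 ^ n := by
      funext p
      rw [Polynomial.evalEval, Polynomial.eval_monomial, Polynomial.eval_mul,
        Polynomial.eval_pow, Polynomial.eval_C]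
    rw [h]
    exact (PGr.one c).mul (hT.pow n)

private theorem PGr.mono {T : Set (ℂ × ℂ)} {g g' : ℂ × ℂ → ℂ} (h : PGr T g)
    (h' : ∀ p ∈ T, ‖g' p‖ ≤ ‖g p‖) : PGr T g' := by
  obtain ⟨C, K, hC, h⟩ := h
  exact ⟨C, K, hC, fun p hp => (h' p hp).trans (h p hp)⟩

private theorem PGr.norm {T : Set (ℂ × ℂ)} {g : ℂ × ℂ → ℂ} (h : PGr T g) :
    PGr T (fun p => ((‖g p‖ : ℝ) : ℂ)) := by
  refine h.mono fun p _ => ?_
  rw [Complex.norm_real, norm_norm]

private theorem PGr.sum {T : Set (ℂ × ℂ)} {ι : Type} (s : Finset ι) (g : ι → ℂ × ℂ → ℂ)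
    (h : ∀ i, PGr T (g i)) : PGr T (fun p => ∑ i ∈ s, g i p) := by
  classical
  induction s using Finset.induction_on with
  | empty =>
    simp only [Finset.sum_empty]
    exact PGr.const 0
  | insert a s ha ih =>
    simp only [Finset.sum_insert ha]
    exact (h a).add ih

/-- the roots of a monic polynomial are bounded -/
private theorem CONN_root (f : Polynomial ℂ[X]) (hf : f.Monic) :
    PGr {p | f.evalEval p.1 p.2 = 0} (fun p => p.2) := by
  have h1 : PGr {p : ℂ × ℂ | f.evalEval p.1 p.2 = 0}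
      (fun p => (∑ i ∈ Finset.range f.natDegree, ((‖(f.coeff i).eval p.1‖ : ℝ) : ℂ)) + 1) :=
    (PGr.sum (Finset.range f.natDegree) (fun i p => ((‖(f.coeff i).eval p.1‖ : ℝ) : ℂ))
      (fun i => (PGr.one (f.coeff i)).norm)).add (PGr.const 1)
  refine h1.mono fun p hp => ?_
  have hm : (f.map (Polynomial.evalRingHom p.1)).Monic := hf.map _
  have hr : (f.map (Polynomial.evalRingHom p.1)).IsRoot p.2 := by
    rw [Polynomial.IsRoot.def, Polynomial.map_evalRingHom_eval]
    exact hp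
  have h2 := Polynomial.IsRoot.norm_lt_cauchyBound hm.ne_zero hr
  have h3 : (Polynomial.cauchyBound (f.map (Polynomial.evalRingHom p.1)) : ℝ) ≤
      (∑ i ∈ Finset.range f.natDegree, ‖(f.coeff i).eval p.1‖) + 1 := by
    rw [Polynomial.cauchyBound, hm.leadingCoeff, nnnorm_one, div_one, NNReal.coe_add,
      NNReal.coe_one, hf.natDegree_map]
    refine add_le_add ?_ le_rfl
    have h4 : (Finset.range f.natDegree).sup
        (fun i => ‖(f.map (Polynomial.evalRingHom p.1)).coeff i‖₊) ≤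
        ∑ i ∈ Finset.range f.natDegree, ‖(f.coeff i).eval p.1‖₊ := by
      refine Finset.sup_le fun i hi => ?_
      rw [Polynomial.coeff_map]
      exact Finset.single_le_sum (f := fun i => ‖(f.coeff i).eval p.1‖₊) (fun _ _ => zero_le) hi
    have h5 := NNReal.coe_le_coe.2 h4
    refine h5.trans (le_of_eq ?_)
    rw [NNReal.coe_sum]
    rfl
  have h4 : ‖((∑ i ∈ Finset.range f.natDegree, ((‖(f.coeff i).eval p.1‖ : ℝ) : ℂ)) + 1 : ℂ)‖ =
      (∑ i ∈ Finset.range f.natDegree, ‖(f.coeff i).eval p.1‖) + 1 := by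
    have h5 : ((∑ i ∈ Finset.range f.natDegree, ((‖(f.coeff i).eval p.1‖ : ℝ) : ℂ)) + 1 : ℂ) =
        (((∑ i ∈ Finset.range f.natDegree, ‖(f.coeff i).eval p.1‖) + 1 : ℝ) : ℂ) := by
      push_cast
      rfl
    rw [h5, Complex.norm_real, Real.norm_of_nonneg]
    exact add_nonneg (Finset.sum_nonneg fun _ _ => norm_nonneg _) zero_le_one
  rw [h4]
  exact (le_of_lt (NNReal.coe_lt_coe.2 h2)).trans h3

/-! ### the points over `t` -/

/-- the roots over `t` -/
private noncomputable def Rt (f : Polynomial ℂ[X]) (t : ℂ) : Finset ℂ :=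
  (f.map (Polynomial.evalRingHom t)).roots.toFinset

/-- the points of the curve -/
def CONN_VX (f : Polynomial ℂ[X]) (D : ℂ[X]) : Set (ℂ × ℂ) :=
  {p | f.evalEval p.1 p.2 = 0 ∧ D.eval p.1 ≠ 0}

private theorem mem_Rt {f : Polynomial ℂ[X]} (hf : f.Monic) (t x : ℂ) :
    x ∈ Rt f t ↔ f.evalEval t x = 0 := by
  rw [Rt, Multiset.mem_toFinset, Polynomial.mem_roots (hf.map _).ne_zero, Polynomial.IsRoot.def,
    Polynomial.map_evalRingHom_eval]

private theorem card_Rt_le {f : Polynomial ℂ[X]} (hf : f.Monic) (t : ℂ) :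
    (Rt f t).card ≤ f.natDegree := by
  refine (Multiset.toFinset_card_le _).trans ((Polynomial.card_roots' _).trans ?_)
  rw [hf.natDegree_map]

section curve

variable {f : Polynomial ℂ[X]} (hf : f.Monic) {D : ℂ[X]} {Bz : Polynomial ℂ[X]}
  (hbez : f ∣ Bz * derivative f - C D)

include hf hbez

private theorem card_Rt {t : ℂ} (ht : D.eval t ≠ 0) : (Rt f t).card = f.natDegree := by
  obtain ⟨g, hg⟩ := hbez
  have h1 : Bz.map (Polynomial.evalRingHom t) *
      derivative (f.map (Polynomial.evalRingHom t)) - C (D.eval t) =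
      f.map (Polynomial.evalRingHom t) * g.map (Polynomial.evalRingHom t) := by
    have h2 := congrArg (Polynomial.map (Polynomial.evalRingHom t)) hg
    rw [Polynomial.map_sub, Polynomial.map_mul, Polynomial.map_mul, Polynomial.map_C,
      ← Polynomial.derivative_map] at h2
    exact h2
  have hsep : (f.map (Polynomial.evalRingHom t)).Separable := by
    refine ⟨-(C (D.eval t)⁻¹ * g.map (Polynomial.evalRingHom t)),
      C (D.eval t)⁻¹ * Bz.map (Polynomial.evalRingHom t), ?_⟩
    have h3 : C (D.eval t)⁻¹ * C (D.eval t) = (1 : ℂ[X]) := by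
      rw [← Polynomial.C_mul, inv_mul_cancel₀ ht, Polynomial.C_1]
    linear_combination C (D.eval t)⁻¹ * h1 + h3
  rw [Rt, Multiset.toFinset_card_of_nodup (Polynomial.nodup_roots hsep),
    IsAlgClosed.card_roots_eq_natDegree, hf.natDegree_map]

omit hf in
private theorem der_ne {t x : ℂ} (ht : D.eval t ≠ 0) (hx : f.evalEval t x = 0) :
    Bz.evalEval t x * (derivative f).evalEval t x = D.eval t ∧
      (derivative f).evalEval t x ≠ 0 := by
  obtain ⟨g, hg⟩ := hbez
  have h1 := congrArg (Polynomial.evalEval t x) hg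
  rw [Polynomial.evalEval_sub, Polynomial.evalEval_mul, Polynomial.evalEval_mul, hx, zero_mul,
    Polynomial.evalEval_C] at h1
  have h2 : Bz.evalEval t x * (derivative f).evalEval t x = D.eval t := by
    linear_combination h1
  refine ⟨h2, fun h3 => ht ?_⟩
  rw [← h2, h3, mul_zero]

omit hf in
private theorem exists_root {t₀ x₀ : ℂ} (ht : D.eval t₀ ≠ 0) (hx : f.evalEval t₀ x₀ = 0) :
    ∃ ζ : ℂ → ℂ, AnalyticAt ℂ ζ t₀ ∧ ζ t₀ = x₀ ∧ ∀ᶠ t in 𝓝 t₀, f.evalEval t (ζ t) = 0 := by
  refine LOG.ift (fun s : ℂ × ℂ => f.evalEval s.2 s.1) x₀ t₀ (CONN_an f (x₀, t₀)) hx ?_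
  have h1 : (fun z => f.evalEval t₀ z) =
      fun z => (f.map (Polynomial.evalRingHom t₀)).eval z := by
    funext z
    rw [Polynomial.map_evalRingHom_eval]
  have h2 : deriv (fun z => f.evalEval t₀ z) x₀ = (derivative f).evalEval t₀ x₀ := by
    rw [h1, Polynomial.deriv, Polynomial.derivative_map, Polynomial.map_evalRingHom_eval]
  show deriv (fun z => f.evalEval t₀ z) x₀ ≠ 0
  rw [h2]
  exact (der_ne hbez ht hx).2

variable {A : Set (ℂ × ℂ)} (hA : ∀ p ∈ CONN_VX f D, ∀ᶠ p' in 𝓝[CONN_VX f D] p, (p' ∈ A ↔ p ∈ A))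

open Classical in
omit hf hbez in
/-- the sum of the values of a polynomial over the points of `A` over `t` -/
private noncomputable def SA (f : Polynomial ℂ[X]) (A : Set (ℂ × ℂ)) (q : Polynomial ℂ[X])
    (t : ℂ) : ℂ :=
  ∑ x ∈ (Rt f t).filter (fun x => (t, x) ∈ A), q.evalEval t x

include hA

private theorem SA_diff (q : Polynomial ℂ[X]) {t₀ : ℂ} (ht : D.eval t₀ ≠ 0) :
    DifferentiableAt ℂ (SA f A q) t₀ := by
  classical
  have hex : ∀ x ∈ Rt f t₀, ∃ ζ : ℂ → ℂ, AnalyticAt ℂ ζ t₀ ∧ ζ t₀ = x ∧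
      ∀ᶠ t in 𝓝 t₀, f.evalEval t (ζ t) = 0 := fun x hx =>
    exists_root hbez ht ((mem_Rt hf _ _).1 hx)
  choose! g hga hg0 hgr using hex
  have E1 : ∀ᶠ t in 𝓝 t₀, D.eval t ≠ 0 := D.continuous.continuousAt.eventually_ne ht
  have E2 : ∀ᶠ t in 𝓝 t₀, ∀ x ∈ Rt f t₀, f.evalEval t (g x t) = 0 :=
    (Filter.eventually_all_finset _).2 hgr
  have E3 : ∀ᶠ t in 𝓝 t₀, ∀ x ∈ Rt f t₀, ∀ x' ∈ Rt f t₀, x ≠ x' → g x t ≠ g x' t := by
    refine (Filter.eventually_all_finset _).2 fun x hx => ?_
    refine (Filter.eventually_all_finset _).2 fun x' hx' => ?_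
    by_cases h : x = x'
    · exact Filter.Eventually.of_forall fun t h' => absurd h h'
    · have h1 : ContinuousAt (fun t => g x t - g x' t) t₀ :=
        (hga x hx).continuousAt.sub (hga x' hx').continuousAt
      have h2 : (fun t => g x t - g x' t) t₀ ≠ 0 := by
        show g x t₀ - g x' t₀ ≠ 0
        rw [hg0 x hx, hg0 x' hx']
        exact sub_ne_zero.2 h
      filter_upwards [h1.eventually_ne h2] with t ht' _
      exact sub_ne_zero.1 ht'
  have E4 : ∀ᶠ t in 𝓝 t₀, ∀ x ∈ Rt f t₀, ((t, g x t) ∈ A ↔ (t₀, x) ∈ A) := by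
    refine (Filter.eventually_all_finset _).2 fun x hx => ?_
    have h1 : Tendsto (fun t => (t, g x t)) (𝓝 t₀) (𝓝[CONN_VX f D] (t₀, x)) := by
      rw [tendsto_nhdsWithin_iff]
      constructor
      · have h2 : Tendsto (fun t => (t, g x t)) (𝓝 t₀) (𝓝 (t₀, g x t₀)) :=
          (continuousAt_id.prodMk (hga x hx).continuousAt).tendsto
        rwa [hg0 x hx] at h2
      · filter_upwards [E1, E2] with t h2 h3
        exact ⟨h3 x hx, h2⟩
    exact h1.eventually (hA (t₀, x) ⟨(mem_Rt hf _ _).1 hx, ht⟩)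
  have E : SA f A q =ᶠ[𝓝 t₀] fun t =>
      ∑ x ∈ (Rt f t₀).filter (fun x => (t₀, x) ∈ A), q.evalEval t (g x t) := by
    filter_upwards [E1, E2, E3, E4] with t h1 h2 h3 h4
    have hinj : Set.InjOn (fun x => g x t) (Rt f t₀) := by
      intro x hx x' hx' hxx
      by_contra hne
      exact h3 x hx x' hx' hne hxx
    have himg : (Rt f t₀).image (fun x => g x t) = Rt f t := by
      refine Finset.eq_of_subset_of_card_le (fun y hy => ?_) ?_
      · obtain ⟨x, hx, rfl⟩ := Finset.mem_image.1 hy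
        exact (mem_Rt hf _ _).2 (h2 x hx)
      · rw [Finset.card_image_of_injOn hinj, card_Rt hf hbez ht, card_Rt hf hbez h1]
    rw [SA, ← himg, Finset.filter_image, Finset.sum_image]
    · refine Finset.sum_congr ?_ fun _ _ => rfl
      refine Finset.filter_congr fun x hx => ?_
      exact h4 x hx
    · intro x hx x' hx' hxx
      exact hinj (Finset.mem_of_mem_filter x hx) (Finset.mem_of_mem_filter x' hx') hxx
  refine DifferentiableAt.congr_of_eventuallyEq ?_ E
  refine DifferentiableAt.fun_sum fun x hx => ?_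
  have hx' := Finset.mem_of_mem_filter x hx
  have h1 : AnalyticAt ℂ (fun t => (g x t, t)) t₀ := (hga x hx').prod analyticAt_id
  have h2 := AnalyticAt.comp (g := fun s : ℂ × ℂ => q.evalEval s.2 s.1)
    (f := fun t => (g x t, t)) (x := t₀) (CONN_an q _) h1
  exact h2.differentiableAt

omit hbez hA in
private theorem SA_growth (q : Polynomial ℂ[X]) :
    ∃ (C : ℝ) (K : ℕ), 0 ≤ C ∧ ∀ t, ‖SA f A q t‖ ≤ C * (1 + ‖t‖) ^ K := by
  classical
  obtain ⟨C, K, hC, h⟩ := PGr.two (CONN_root f hf) q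
  refine ⟨f.natDegree * C, K, by positivity, fun t => ?_⟩
  have h1 : (0 : ℝ) ≤ (1 + ‖t‖) ^ K := by positivity
  calc ‖SA f A q t‖ ≤ ∑ x ∈ (Rt f t).filter (fun x => (t, x) ∈ A), ‖q.evalEval t x‖ :=
        norm_sum_le _ _
    _ ≤ ∑ x ∈ (Rt f t).filter (fun x => (t, x) ∈ A), C * (1 + ‖t‖) ^ K :=
        Finset.sum_le_sum fun x hx =>
          h (t, x) ((mem_Rt hf _ _).1 (Finset.mem_of_mem_filter x hx))
    _ = (((Rt f t).filter (fun x => (t, x) ∈ A)).card : ℝ) * (C * (1 + ‖t‖) ^ K) := by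
        rw [Finset.sum_const, nsmul_eq_mul]
    _ ≤ (f.natDegree : ℝ) * (C * (1 + ‖t‖) ^ K) := by
        refine mul_le_mul_of_nonneg_right ?_ (by positivity)
        exact_mod_cast (Finset.card_filter_le _ _).trans (card_Rt_le hf t)
    _ = f.natDegree * C * (1 + ‖t‖) ^ K := by ring

private theorem SA_poly (hD : D ≠ 0) (q : Polynomial ℂ[X]) :
    ∃ P : ℂ[X], ∀ t, D.eval t * SA f A q t = P.eval t := by
  obtain ⟨C, K, hC, h⟩ := SA_growth hf (A := A) q
  obtain ⟨C', K', hC', h'⟩ := PGr.one (T := Set.univ) D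
  have hb : ∀ t, ‖D.eval t * SA f A q t‖ ≤ C' * C * (1 + ‖t‖) ^ (K' + K) := by
    intro t
    calc ‖D.eval t * SA f A q t‖ = ‖D.eval t‖ * ‖SA f A q t‖ := norm_mul _ _
      _ ≤ (C' * (1 + ‖t‖) ^ K') * (C * (1 + ‖t‖) ^ K) :=
        mul_le_mul (h' (t, 0) trivial) (h t) (norm_nonneg _) (by positivity)
      _ = C' * C * (1 + ‖t‖) ^ (K' + K) := by ring
  have hd : ∀ t, D.eval t ≠ 0 → DifferentiableAt ℂ (fun t => D.eval t * SA f A q t) t :=
    fun t ht => (D.differentiable t).mul (SA_diff hf hbez hA q ht)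
  refine CONN_poly _ (CONN_entire _ {t | D.eval t = 0} ?_ ?_ fun t ht => hd t ht) _ _
    (by positivity) hb
  · have h1 : {t : ℂ | D.eval t = 0} ⊆ (D.roots.toFinset : Set ℂ) := by
      intro t ht
      rw [Finset.mem_coe, Multiset.mem_toFinset, Polynomial.mem_roots hD]
      exact ht
    exact (Finset.countable_toSet _).mono h1
  · rw [continuous_iff_continuousAt]
    intro t
    by_cases ht : D.eval t = 0
    · show Tendsto _ _ (𝓝 (D.eval t * SA f A q t))
      rw [ht, zero_mul]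
      refine squeeze_zero_norm (a := fun t => ‖D.eval t‖ * (C * (1 + ‖t‖) ^ K)) (fun s => ?_) ?_
      · rw [norm_mul]
        exact mul_le_mul_of_nonneg_left (h s) (norm_nonneg _)
      · have h1 : Continuous fun t : ℂ => ‖D.eval t‖ * (C * (1 + ‖t‖) ^ K) :=
          D.continuous.norm.mul (continuous_const.mul ((continuous_const.add continuous_norm).pow K))
        have h2 := h1.tendsto t
        rw [ht, norm_zero, zero_mul] at h2
        exact h2
    · exact (hd t ht).continuousAt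

/-- the indicator function of a clopen subset is a polynomial, up to a factor -/
theorem CONN_ind (hD : D ≠ 0) : ∃ G : Polynomial ℂ[X], ∀ p ∈ CONN_VX f D,
    (p ∈ A → G.evalEval p.1 p.2 = D.eval p.1 ^ 2) ∧ (p ∉ A → G.evalEval p.1 p.2 = 0) := by
  classical
  choose P hP using fun q => SA_poly hf hbez hA hD q
  -- division by `X - Z`
  obtain ⟨Q, hQ⟩ : ∃ Q : Polynomial (Polynomial ℂ[X]),
      f.map C = (X - C X) * Q + C f := by
    refine ⟨(f.map C) /ₘ (X - C X), ?_⟩
    have h1 := Polynomial.modByMonic_add_div (f.map (C : ℂ[X] →+* Polynomial ℂ[X]))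
      (X - C (X : Polynomial ℂ[X]))
    rw [Polynomial.modByMonic_X_sub_C_eq_C_eval] at h1
    have h2 : (f.map (C : ℂ[X] →+* Polynomial ℂ[X])).eval X = f := by
      rw [Polynomial.eval_map, Polynomial.eval₂_C_X]
    rw [h2] at h1
    exact h1.symm.trans (add_comm _ _)
  have hQe : ∀ t x' : ℂ, f.evalEval t x' = 0 → f.map (Polynomial.evalRingHom t) =
      (X - C x') * Q.map (Polynomial.evalEvalRingHom t x') := by
    intro t x' hx'
    have h1 := congrArg (Polynomial.map (Polynomial.evalEvalRingHom t x')) hQ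
    rw [Polynomial.map_add, Polynomial.map_mul, Polynomial.map_sub, Polynomial.map_X,
      Polynomial.map_C, Polynomial.map_C, Polynomial.map_map] at h1
    have h2 : (Polynomial.evalEvalRingHom t x').comp (C : ℂ[X] →+* Polynomial ℂ[X]) =
        Polynomial.evalRingHom t := by
      apply RingHom.ext
      intro a
      exact Polynomial.evalEval_C _ _ _
    have h3 : Polynomial.evalEvalRingHom t x' f = 0 := hx'
    have h4 : Polynomial.evalEvalRingHom t x' (X : Polynomial ℂ[X]) = x' :=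
      Polynomial.evalEval_X _ _
    rw [h2, h3, h4, Polynomial.C_0, add_zero] at h1
    exact h1
  refine ⟨∑ k ∈ Finset.range (Q.natDegree + 1), C (P (Q.coeff k * Bz)) * X ^ k, ?_⟩
  rintro ⟨t, x⟩ ⟨hx, ht⟩
  have hx0 : f.evalEval t x = 0 := hx
  have ht0 : D.eval t ≠ 0 := ht
  have key : (∑ k ∈ Finset.range (Q.natDegree + 1),
      C (P (Q.coeff k * Bz)) * X ^ k : Polynomial ℂ[X]).evalEval t x =
      D.eval t * ∑ x' ∈ (Rt f t).filter (fun x => (t, x) ∈ A),
        Bz.evalEval t x' * (Q.map (Polynomial.evalEvalRingHom t x')).eval x := by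
    rw [Polynomial.evalEval_finsetSum]
    have h1 : ∀ k ∈ Finset.range (Q.natDegree + 1),
        (C (P (Q.coeff k * Bz)) * X ^ k : Polynomial ℂ[X]).evalEval t x =
        D.eval t * ∑ x' ∈ (Rt f t).filter (fun x => (t, x) ∈ A),
          Bz.evalEval t x' * ((Q.coeff k).evalEval t x' * x ^ k) := by
      intro k _
      rw [Polynomial.evalEval_mul, Polynomial.evalEval_C, Polynomial.evalEval_pow,
        Polynomial.evalEval_X, ← hP, SA, mul_assoc, Finset.sum_mul]
      congr 1
      refine Finset.sum_congr rfl fun x' _ => ?_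
      rw [Polynomial.evalEval_mul]
      ring
    rw [Finset.sum_congr rfl h1, ← Finset.mul_sum, Finset.sum_comm]
    congr 1
    refine Finset.sum_congr rfl fun x' _ => ?_
    rw [← Finset.mul_sum]
    congr 1
    rw [Polynomial.eval_eq_sum_range' (n := Q.natDegree + 1)
      (lt_of_le_of_lt Polynomial.natDegree_map_le (Nat.lt_succ_self _))]
    refine Finset.sum_congr rfl fun k _ => ?_
    rw [Polynomial.coeff_map]
    rfl
  have hne : ∀ x' ∈ Rt f t, x' ≠ x → (Q.map (Polynomial.evalEvalRingHom t x')).eval x = 0 := by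
    intro x' hx' hne
    have h1 := congrArg (Polynomial.eval x) (hQe t x' ((mem_Rt hf _ _).1 hx'))
    rw [Polynomial.map_evalRingHom_eval, hx0, Polynomial.eval_mul, Polynomial.eval_sub,
      Polynomial.eval_X, Polynomial.eval_C] at h1
    exact (mul_eq_zero.1 h1.symm).resolve_left (sub_ne_zero.2 hne.symm)
  have heq : Bz.evalEval t x * (Q.map (Polynomial.evalEvalRingHom t x)).eval x = D.eval t := by
    have h1 : (derivative (f.map (Polynomial.evalRingHom t))).eval x =
        (derivative ((X - C x) * Q.map (Polynomial.evalEvalRingHom t x))).eval x := by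
      rw [hQe t x hx0]
    rw [Polynomial.derivative_map, Polynomial.map_evalRingHom_eval, Polynomial.derivative_mul,
      Polynomial.derivative_sub, Polynomial.derivative_X, Polynomial.derivative_C, sub_zero,
      one_mul, Polynomial.eval_add, Polynomial.eval_mul, Polynomial.eval_sub, Polynomial.eval_X,
      Polynomial.eval_C, sub_self, zero_mul, add_zero] at h1
    rw [← h1]
    exact (der_ne hbez ht0 hx0).1
  constructor
  · intro hpA
    show (∑ k ∈ Finset.range (Q.natDegree + 1),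
      C (P (Q.coeff k * Bz)) * X ^ k : Polynomial ℂ[X]).evalEval t x = D.eval t ^ 2
    rw [key, Finset.sum_eq_single_of_mem x
      (Finset.mem_filter.2 ⟨(mem_Rt hf _ _).2 hx0, hpA⟩), heq, sq]
    intro x' hx' hxx
    rw [hne x' (Finset.mem_of_mem_filter x' hx') hxx, mul_zero]
  · intro hpA
    show (∑ k ∈ Finset.range (Q.natDegree + 1),
      C (P (Q.coeff k * Bz)) * X ^ k : Polynomial ℂ[X]).evalEval t x = 0
    rw [key, Finset.sum_eq_zero, mul_zero]
    intro x' hx'
    rw [hne x' (Finset.mem_of_mem_filter x' hx'), mul_zero]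
    rintro rfl
    exact hpA (Finset.mem_filter.1 hx').2

/-- the factorisation given by a clopen subset -/
theorem CONN_fact (hD : D ≠ 0) (hn : 0 < f.natDegree) : ∃ G : Polynomial ℂ[X],
    f ∣ G * (G - C (D ^ 2)) ∧ ∀ p ∈ CONN_VX f D,
      (p ∈ A → G.evalEval p.1 p.2 = D.eval p.1 ^ 2) ∧ (p ∉ A → G.evalEval p.1 p.2 = 0) := by
  obtain ⟨G, hG⟩ := CONN_ind hf hbez hA hD
  refine ⟨G, ?_, hG⟩
  rw [← Polynomial.modByMonic_eq_zero_iff_dvd hf]
  obtain ⟨ρ, hρ⟩ : ∃ ρ, ρ = (G * (G - C (D ^ 2))) %ₘ f := ⟨_, rfl⟩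
  rw [← hρ]
  have hf1 : f ≠ 1 := by
    rintro rfl
    rw [Polynomial.natDegree_one] at hn
    exact absurd hn (lt_irrefl _)
  have hdeg : ρ.natDegree < f.natDegree := by
    rw [hρ]
    exact Polynomial.natDegree_modByMonic_lt _ hf hf1
  have hval : ∀ t x : ℂ, D.eval t ≠ 0 → f.evalEval t x = 0 → ρ.evalEval t x = 0 := by
    intro t x ht hx
    have h1 := congrArg (Polynomial.evalEval t x)
      (Polynomial.modByMonic_add_div (G * (G - C (D ^ 2))) f)
    rw [← hρ, Polynomial.evalEval_add, Polynomial.evalEval_mul, hx, zero_mul, add_zero,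
      Polynomial.evalEval_mul, Polynomial.evalEval_sub, Polynomial.evalEval_C,
      Polynomial.eval_pow] at h1
    rw [h1]
    by_cases hp : (t, x) ∈ A
    · have h2 : G.evalEval t x = D.eval t ^ 2 := (hG (t, x) ⟨hx, ht⟩).1 hp
      rw [h2, sub_self, mul_zero]
    · have h2 : G.evalEval t x = 0 := (hG (t, x) ⟨hx, ht⟩).2 hp
      rw [h2, zero_mul]
  have hz : ∀ t : ℂ, D.eval t ≠ 0 → ρ.map (Polynomial.evalRingHom t) = 0 := by
    intro t ht
    refine Polynomial.eq_zero_of_natDegree_lt_card_of_eval_eq_zero' _ (Rt f t) (fun x hx => ?_) ?_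
    · rw [Polynomial.map_evalRingHom_eval]
      exact hval t x ht ((mem_Rt hf _ _).1 hx)
    · rw [card_Rt hf hbez ht]
      exact lt_of_le_of_lt Polynomial.natDegree_map_le hdeg
  ext1 k
  have h3 : ρ.coeff k * D = 0 := by
    apply Polynomial.funext
    intro t
    rw [Polynomial.eval_mul, Polynomial.eval_zero]
    by_cases ht : D.eval t = 0
    · rw [ht, mul_zero]
    · have h4 := congrArg (fun r => Polynomial.coeff r k) (hz t ht)
      have h5 : (ρ.coeff k).eval t = 0 := by
        have h6 : (ρ.map (Polynomial.evalRingHom t)).coeff k = (0 : ℂ[X]).coeff k := h4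
        rwa [Polynomial.coeff_map, Polynomial.coeff_zero] at h6
      rw [h5, zero_mul]
  rw [(mul_eq_zero.1 h3).resolve_right hD, Polynomial.coeff_zero]

end curve

end EQ

end Pool.Agent.ZR
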