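import Pool.Agent.ZR.C2.Defs

/-!
# ZR, block EQ: sharp equidistribution on curves (CORE II for `f = 1`).  Definitions (helper27)
-/

set_option autoImplicit false

open scoped BigOperators ComplexConjugate
open Filter Topology MeasureTheory

namespace Pool.Agent.ZR

open Pool.Agent.ZPT Pool.Agent.ZPE

namespace EQ

variable {ex : (t : ℂ) → ℂ →+ LPt t} {V N : Type} [Fintype V] [Fintype N]

/-! ### one-variable local data -/

/-- Local data of a curve chart (`card V = 1`), in one variable, on the disc of radius `r` around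
`c`: the root `x`, the logarithms `z ν` of the points, two independent periods. -/
structure Loc1 (ex : (t : ℂ) → ℂ →+ LPt t) {V N : Type} [Fintype V] [Fintype N] (C : JCh V N) where
  /-- the centre -/
  c : ℂ
  /-- the radius -/
  r : ℝ
  /-- the root -/
  x : ℂ → ℂ
  /-- the logarithms of the points -/
  z : N → ℂ → ℂ
  /-- the first period -/
  w₁ : ℂ → ℂ
  /-- the second period -/
  w₂ : ℂ → ℂ
  x_an : AnalyticOnNhd ℂ x (Metric.ball c r)
  pt : ∀ t ∈ Metric.ball c r, C.M.IsPt (fun _ => t) (fun _ => x t)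
  z_an : ∀ ν, AnalyticOnNhd ℂ (z ν) (Metric.ball c r)
  per : Pers ex c r w₁ w₂
  th : ∀ ν, ∀ t ∈ Metric.ball c r, ∃ u : ℂ, u ≠ 0 ∧ C.co (fun _ => t) (x t) ν = u • Th (z ν t) t

namespace Loc1

variable {C : JCh V N}

/-- the disc of the local data -/
def dsk (L : Loc1 ex C) : Set ℂ := Metric.ball L.c L.r

/-- the logarithm of a real combination -/
noncomputable def zw (L : Loc1 ex C) (w : N → ℝ) (t : ℂ) : ℂ := ∑ ν, (w ν : ℂ) * L.z ν t

/-- the logarithm of an integral combination -/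
noncomputable def zm (L : Loc1 ex C) (m : N → ℤ) (t : ℂ) : ℂ := ∑ ν, (m ν : ℂ) * L.z ν t

/-- the Betti form -/
noncomputable def th1 (L : Loc1 ex C) (w : N → ℝ) (t : ℂ) : ℂ :=
  deriv (L.zw w) t - be1 (L.w₁ t) (L.w₂ t) (L.zw w t) * deriv L.w₁ t -
    be2 (L.w₁ t) (L.w₂ t) (L.zw w t) * deriv L.w₂ t

/-- the points of the chart over `F` -/
def lift (L : Loc1 ex C) (F : Set ℂ) : Set ((V → ℂ) × ℂ) :=
  {q | ∃ t ∈ F, q = (fun _ => t, L.x t)}

/-- restriction to a smaller disc -/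
def res (L : Loc1 ex C) (c' : ℂ) (r' : ℝ) (h0 : 0 < r') (h : Metric.ball c' r' ⊆ L.dsk) :
    Loc1 ex C where
  c := c'
  r := r'
  x := L.x
  z := L.z
  w₁ := L.w₁
  w₂ := L.w₂
  x_an := L.x_an.mono h
  pt := fun t ht => L.pt t (h ht)
  z_an := fun ν => (L.z_an ν).mono h
  per :=
    { pos := h0
      n0 := fun h0' => L.per.n0 (h h0')
      n1 := fun h0' => L.per.n1 (h h0')
      a₁ := L.per.a₁.mono h
      a₂ := L.per.a₂.mono h
      k₁ := fun t ht => L.per.k₁ t (h ht)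
      k₂ := fun t ht => L.per.k₂ t (h ht)
      im := fun t ht => L.per.im t (h ht)
      wr := fun t ht => L.per.wr t (h ht) }
  th := fun ν t ht => L.th ν t (h ht)

end Loc1

/-- the coefficient of `|z|²` in the growth form -/
noncomputable def aq (t : ℂ) : ℝ := (gq t 1 + gq t Complex.I) / 2

/-- the density of the Betti measure -/
noncomputable def Loc1.ds {C : JCh V N} (L : Loc1 ex C) (w : N → ℝ) (t : ℂ) : ℝ :=
  aq t * ‖L.th1 w t‖ ^ 2

/-- On the closed disc of radius `R` around `t₁` the functions `G₀`, `G₃` are proportional to the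
coordinates `0` and `3` of `m . P`, and they have the size `exp (α |t - t₁|²)`, up to `exp e`. -/
structure Gau {C : JCh V N} (L : Loc1 ex C) (m : N → ℤ) (t₁ : ℂ) (R α e : ℝ) (G₀ G₃ : ℂ → ℂ) :
    Prop where
  sub : Metric.closedBall t₁ R ⊆ L.dsk
  an₀ : AnalyticOnNhd ℂ G₀ (Metric.closedBall t₁ R)
  an₃ : AnalyticOnNhd ℂ G₃ (Metric.closedBall t₁ R)
  pr : ∀ t ∈ Metric.closedBall t₁ R, ∃ u : ℂ, u ≠ 0 ∧ G₀ t = u * Th (L.zm m t) t 0 ∧
    G₃ t = u * Th (L.zm m t) t 3
  bd : ∀ t ∈ Metric.closedBall t₁ R,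
    |Real.log (max ‖G₀ t‖ ‖G₃ t‖) - α * ‖t - t₁‖ ^ 2| ≤ e

/-- Finitely many compact pieces of the curve, whose interiors are disjoint. -/
structure Pieces (ex : (t : ℂ) → ℂ →+ LPt t) {V N : Type} [Fintype V] [Fintype N] (C : JCh V N)
    (J : Type) where
  /-- the local data -/
  L : J → Loc1 ex C
  /-- the closed piece -/
  F : J → Set ℂ
  /-- the open piece -/
  O : J → Set ℂ
  cpt : ∀ j, IsCompact (F j)
  opn : ∀ j, IsOpen (O j)
  OF : ∀ j, O j ⊆ F j
  Fb : ∀ j, F j ⊆ (L j).dsk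
  nul : ∀ j, volume (F j \ O j) = 0
  dis : ∀ i j, i ≠ j → ∀ t ∈ O i, t ∈ O j → (L i).x t ≠ (L j).x t

open scoped Classical in
/-- the auxiliary function with coefficients in the ring -/
noncomputable def PhK {V : Type} [Fintype V] {R : Type} [CommRing R] (n : ℕ)
    (X : Finset ((V → ℕ) × ℕ)) (c : (V → Fin (n + 1)) × X → R) (y : V → R) (x : R)
    (A : V → Fin 4 → R) : R :=
  ∑ p, c p * ((∏ i, y i ^ p.2.1.1 i) * x ^ p.2.1.2 *
    ∏ s, (A s 0 ^ (p.1 s : ℕ) * A s 3 ^ (n - (p.1 s : ℕ))))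

/-- the integral vector `m` is close to `Λ w` -/
def Near (w : N → ℝ) (Λ : ℝ) (m : N → ℤ) : Prop := ∀ ν, |(m ν : ℝ) - Λ * w ν| ≤ 1

/-- the heights of the combinations close to multiples of `w` are bounded by `H` -/
def HB {Q : Type} (U : Ultrafilter Q) (p : PreF N Q) (w : N → ℝ) (H : ℝ) : Prop :=
  ∀ (Λ : ℝ) (m : N → ℤ), Near w Λ m → ∀ᶠ k in (U : Filter Q), hJ (cb (p.P k) m) ≤ H

end EQ

end Pool.Agent.ZR
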