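import Pool.Agent.ZR.EQ.St

/-!
# ZR, block EQ, module JEN: the formula of Jensen on two circles (helper56)
-/

set_option autoImplicit false

open scoped BigOperators
open Filter Topology MeasureTheory

namespace Pool.Agent.ZR.EQ

section JEN

open Metric Real MeromorphicOn

variable {g : ℂ → ℂ} {c : ℂ} {R : ℝ}

private theorem JEN_div (hg : AnalyticOnNhd ℂ g (closedBall c R))
    (hs : ∀ t ∈ closedBall c R, g t = 0 → deriv g t ≠ 0) {u : ℂ} (hu : u ∈ closedBall c R) :
    divisor g (closedBall c R) u = open Classical in if g u = 0 then 1 else 0 := by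
  rw [hg.divisor_apply hu]
  split_ifs with h
  · rw [(hg u hu).analyticOrderAt_eq_one_of_zero_deriv_ne_zero h (hs u hu h)]
    rfl
  · rw [(hg u hu).analyticOrderAt_eq_zero.2 h]
    rfl

private theorem JEN_fin (hg : AnalyticOnNhd ℂ g (closedBall c R))
    (hs : ∀ t ∈ closedBall c R, g t = 0 → deriv g t ≠ 0) :
    {u | u ∈ closedBall c R ∧ g u = 0}.Finite := by
  refine ((divisor g (closedBall c R)).finiteSupport (isCompact_closedBall c R)).subset ?_
  rintro u ⟨hu, h0⟩
  rw [Function.mem_support, JEN_div hg hs hu, if_pos h0]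
  exact one_ne_zero

open Classical in
private theorem JEN_avg (hg : AnalyticOnNhd ℂ g (closedBall c R))
    (hs : ∀ t ∈ closedBall c R, g t = 0 → deriv g t ≠ 0) {s : ℝ} (h0 : 0 < s) (hsR : s ≤ R)
    (Z : Finset ℂ) (hZ : ∀ u, u ∈ Z ↔ u ∈ closedBall c R ∧ g u = 0) :
    circleAverage (fun t => Real.log ‖g t‖) c s =
      ∑ u ∈ Z, (if u ∈ closedBall c s then
        Real.log (s * ‖c - u‖⁻¹) + (if u = c then Real.log s else 0) else 0) +
      Real.log ‖meromorphicTrailingCoeffAt g c‖ := by
  have hsub : closedBall c s ⊆ closedBall c R := closedBall_subset_closedBall hsR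
  have hg' : AnalyticOnNhd ℂ g (closedBall c s) := hg.mono hsub
  have hs' : ∀ t ∈ closedBall c s, g t = 0 → deriv g t ≠ 0 := fun t ht => hs t (hsub ht)
  have habs : |s| = s := abs_of_pos h0
  have h1 := MeromorphicOn.circleAverage_log_norm (c := c) (R := s) (f := g) h0.ne' (by
    rw [habs]
    exact hg'.meromorphicOn)
  rw [habs] at h1
  rw [h1]
  congr 1
  have hD : ∀ u, ((divisor g (closedBall c s) u : ℤ) : ℝ) =
      if u ∈ Z ∧ u ∈ closedBall c s then 1 else 0 := by
    intro u
    by_cases hu : u ∈ closedBall c s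
    · rw [JEN_div hg' hs' hu]
      by_cases h : g u = 0
      · rw [if_pos h, if_pos ⟨(hZ u).2 ⟨hsub hu, h⟩, hu⟩, Int.cast_one]
      · rw [if_neg h, if_neg (fun h' => h ((hZ u).1 h'.1).2), Int.cast_zero]
    · rw [Function.locallyFinsuppWithin.apply_eq_zero_of_notMem _ hu, if_neg (fun h => hu h.2),
        Int.cast_zero]
  have h2 : ∑ᶠ u, ((divisor g (closedBall c s) u : ℤ) : ℝ) * Real.log (s * ‖c - u‖⁻¹) =
      ∑ u ∈ Z, (if u ∈ closedBall c s then Real.log (s * ‖c - u‖⁻¹) else 0) := by
    rw [finsum_eq_sum_of_support_subset (s := Z)]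
    · refine Finset.sum_congr rfl fun u hu => ?_
      rw [hD]
      by_cases h : u ∈ closedBall c s
      · rw [if_pos ⟨hu, h⟩, if_pos h, one_mul]
      · rw [if_neg (fun h' => h h'.2), if_neg h, zero_mul]
    · intro u hu
      by_contra hcon
      rw [Finset.mem_coe] at hcon
      apply hu
      show _ * _ = (0 : ℝ)
      rw [hD, if_neg (fun h => hcon h.1), zero_mul]
  have h3 : ((divisor g (closedBall c s) c : ℤ) : ℝ) * Real.log s =
      ∑ u ∈ Z, (if u ∈ closedBall c s then (if u = c then Real.log s else 0) else 0) := by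
    rw [hD]
    have h4 : ∀ u ∈ Z, (if u ∈ closedBall c s then (if u = c then Real.log s else 0) else 0) =
        if u = c then Real.log s else 0 := by
      intro u _
      by_cases h : u = c
      · subst h
        rw [if_pos (mem_closedBall_self h0.le)]
      · rw [if_neg h, ite_self]
    rw [Finset.sum_congr rfl h4, Finset.sum_ite_eq']
    by_cases h : c ∈ Z
    · rw [if_pos h, if_pos ⟨h, mem_closedBall_self h0.le⟩, one_mul]
    · rw [if_neg h, if_neg (fun h' => h h'.1), zero_mul]
  rw [h2, h3, ← Finset.sum_add_distrib]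
  refine Finset.sum_congr rfl fun u _ => ?_
  by_cases h : u ∈ closedBall c s
  · rw [if_pos h, if_pos h, if_pos h]
  · rw [if_neg h, if_neg h, if_neg h, add_zero]

end JEN

open Metric Real in
theorem JEN_of : St_JEN := by
  classical
  intro g c r R hr hrR hg hs
  obtain ⟨Z, hZ⟩ : ∃ Z : Finset ℂ, ∀ u, u ∈ Z ↔ u ∈ closedBall c R ∧ g u = 0 :=
    ⟨(JEN_fin hg hs).toFinset, fun u => by
      rw [Set.Finite.mem_toFinset]
      exact Iff.rfl⟩
  refine ⟨Z, fun t ht => (hZ t).1 ht, ?_⟩
  have hR : 0 < R := hr.trans hrR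
  rw [JEN_avg hg hs hR le_rfl Z hZ, JEN_avg hg hs hr hrR.le Z hZ, add_sub_add_right_eq_sub,
    ← Finset.sum_sub_distrib]
  refine (Finset.sum_le_card_nsmul Z _ (Real.log (R / r)) fun u hu => ?_).trans_eq
    (by rw [nsmul_eq_mul])
  have huR : u ∈ closedBall c R := ((hZ u).1 hu).1
  rw [if_pos huR, Real.log_div hR.ne' hr.ne']
  by_cases huc : u = c
  · subst huc
    rw [if_pos (mem_closedBall_self hr.le)]
    simp
  · have hn : 0 < ‖c - u‖ := norm_pos_iff.2 (sub_ne_zero.2 (Ne.symm huc))
    rw [if_neg huc, Real.log_mul hR.ne' (inv_pos.2 hn).ne', Real.log_inv]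
    by_cases hur : u ∈ closedBall c r
    · rw [if_pos hur, if_neg huc, Real.log_mul hr.ne' (inv_pos.2 hn).ne', Real.log_inv]
      linarith
    · rw [if_neg hur]
      have h1 : r < ‖c - u‖ := by
        rw [mem_closedBall, dist_comm, dist_eq_norm, not_le] at hur
        exact hur
      have h2 := Real.log_lt_log hr h1
      linarith

end Pool.Agent.ZR.EQ
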