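import Pool.Agent.ZR.EQ.St
import Pool.Agent.ZPE.II.LgU

/-!
# ZR, block EQ, module RAT: the densities are proportional (helper57)
-/

set_option autoImplicit false

open scoped BigOperators
open Filter Topology MeasureTheory

namespace Pool.Agent.ZR

open Pool.Agent.ZPT Pool.Agent.ZPE

namespace EQ

/-- the compact part of the chart -/
private theorem RAT_cpt {V N : Type} [Fintype V] [Fintype N] (C : JCh V N) (M : ℝ)
    (hM : 0 < M) : IsCompact {q : (V → ℂ) × ℂ | q ∈ C2.VC C ∧ (∀ i, ‖q.1 i‖ ≤ M) ∧ ‖q.2‖ ≤ M ∧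
      1 ≤ M * ‖(MvPolynomial.aeval q.1 (C.M.D ()) : ℂ)‖} := by
  have hset : {q : (V → ℂ) × ℂ | q ∈ C2.VC C ∧ (∀ i, ‖q.1 i‖ ≤ M) ∧ ‖q.2‖ ≤ M ∧
      1 ≤ M * ‖(MvPolynomial.aeval q.1 (C.M.D ()) : ℂ)‖} =
      {q : (V → ℂ) × ℂ | (∀ i, ‖q.1 i‖ ≤ M) ∧ ‖q.2‖ ≤ M ∧
        ev (C.M.f ()) q.1 q.2 = 0 ∧ 1 ≤ M * ‖(MvPolynomial.aeval q.1 (C.M.D ()) : ℂ)‖} := by
    ext q
    constructor
    · rintro ⟨h1, h2, h3, h4⟩
      exact ⟨h2, h3, h1.eq (), h4⟩
    · rintro ⟨h2, h3, h1, h4⟩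
      refine ⟨⟨?_, ?_⟩, h2, h3, h4⟩
      · rintro ⟨⟩
        exact h1
      · rintro ⟨⟩ h5
        rw [h5, norm_zero, mul_zero] at h4
        linarith
  rw [hset]
  have hcl : IsClosed {q : (V → ℂ) × ℂ | (∀ i, ‖q.1 i‖ ≤ M) ∧ ‖q.2‖ ≤ M ∧
        ev (C.M.f ()) q.1 q.2 = 0 ∧
        1 ≤ M * ‖(MvPolynomial.aeval q.1 (C.M.D ()) : ℂ)‖} := by
    simp only [Set.ofPred_and]
    refine IsClosed.inter ?_ (IsClosed.inter ?_ (IsClosed.inter ?_ ?_))
    · rw [Set.ofPred_forall]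
      exact isClosed_iInter fun i => isClosed_le (by fun_prop) continuous_const
    · exact isClosed_le (by fun_prop) continuous_const
    · exact isClosed_eq (II.continuous_ev _) continuous_const
    · refine isClosed_le continuous_const ?_
      exact continuous_const.mul ((II.continuous_aeval_C _).comp continuous_fst).norm
  refine (isCompact_closedBall (0 : (V → ℂ) × ℂ) M).of_isClosed_subset hcl ?_
  intro p hp
  rw [mem_closedBall_zero_iff, Prod.norm_def]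
  refine max_le ?_ hp.2.1
  rw [pi_norm_le_iff_of_nonneg hM.le]
  exact hp.1

/-- the embeddings of a number field are finite in number -/
private theorem RAT_fin (κ K : IntermediateField ℚ ℂ) (hK : FiniteDimensional ℚ K) {V : Type}
    (y : V → Qb) (x : Qb) (Δ : Set ((V → ℂ) × (Unit → ℂ))) :
    (II.EmbIn κ K y (fun _ : Unit => x) Δ).Finite := by
  have : NumberField K := ⟨⟩
  exact Set.toFinite _

private theorem RAT_mono (κ K : IntermediateField ℚ ℂ) (hK : FiniteDimensional ℚ K) {V : Type}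
    [Fintype V] (y : V → Qb) (x : Qb) {Δ Δ' : Set ((V → ℂ) × ℂ)} (h : Δ ⊆ Δ') :
    C2.prp κ K y x Δ ≤ C2.prp κ K y x Δ' := by
  unfold C2.prp
  apply div_le_div_of_nonneg_right _ (Nat.cast_nonneg _)
  have h1 : II.EmbIn κ K y (fun _ : Unit => x) {q | (q.1, q.2 ()) ∈ Δ} ⊆
      II.EmbIn κ K y (fun _ : Unit => x) {q | (q.1, q.2 ()) ∈ Δ'} := by
    rintro σ ⟨h1, y', x', h2, h3, h4⟩
    exact ⟨h1, y', x', h2, h3, h h4⟩
  exact_mod_cast Set.ncard_le_ncard h1 (RAT_fin κ K hK y x _)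

private theorem RAT_union (κ K : IntermediateField ℚ ℂ) (hK : FiniteDimensional ℚ K) {V : Type}
    [Fintype V] (y : V → Qb) (x : Qb) (Δ Δ' : Set ((V → ℂ) × ℂ)) :
    C2.prp κ K y x (Δ ∪ Δ') ≤ C2.prp κ K y x Δ + C2.prp κ K y x Δ' := by
  unfold C2.prp
  rw [← add_div]
  apply div_le_div_of_nonneg_right _ (Nat.cast_nonneg _)
  have h1 : II.EmbIn κ K y (fun _ : Unit => x) {q | (q.1, q.2 ()) ∈ Δ ∪ Δ'} ⊆
      II.EmbIn κ K y (fun _ : Unit => x) {q | (q.1, q.2 ()) ∈ Δ} ∪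
      II.EmbIn κ K y (fun _ : Unit => x) {q | (q.1, q.2 ()) ∈ Δ'} := by
    rintro σ ⟨h1, y', x', h2, h3, h4⟩
    rcases h4 with h4 | h4
    · exact Or.inl ⟨h1, y', x', h2, h3, h4⟩
    · exact Or.inr ⟨h1, y', x', h2, h3, h4⟩
  have h2 := Set.ncard_le_ncard h1 ((RAT_fin κ K hK y x _).union (RAT_fin κ K hK y x _))
  exact_mod_cast h2.trans (Set.ncard_union_le _ _)

private theorem RAT_empty (κ K : IntermediateField ℚ ℂ) {V : Type} [Fintype V] (y : V → Qb)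
    (x : Qb) : C2.prp κ K y x ∅ = 0 := by
  unfold C2.prp
  have h1 : II.EmbIn κ K y (fun _ : Unit => x)
      {q | (q.1, q.2 ()) ∈ (∅ : Set ((V → ℂ) × ℂ))} = ∅ := by
    rw [Set.eq_empty_iff_forall_notMem]
    rintro σ ⟨h1, y', x', h2, h3, h4⟩
    exact h4
  rw [h1, Set.ncard_empty, Nat.cast_zero, zero_div]

private theorem RAT_cov (κ K : IntermediateField ℚ ℂ) (hK : FiniteDimensional ℚ K) {V : Type}
    [Fintype V] (y : V → Qb) (x : Qb) {J : Type} [Fintype J] (S : J → Set ((V → ℂ) × ℂ)) :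
    C2.prp κ K y x (⋃ j, S j) ≤ ∑ j, C2.prp κ K y x (S j) := by
  classical
  have h : ∀ s : Finset J, C2.prp κ K y x (⋃ j ∈ s, S j) ≤ ∑ j ∈ s, C2.prp κ K y x (S j) := by
    intro s
    induction s using Finset.induction_on with
    | empty =>
      simp only [Finset.notMem_empty, Set.iUnion_of_empty, Set.iUnion_empty, Finset.sum_empty]
      exact (RAT_empty κ K y x).le
    | insert a s ha ih =>
      rw [Finset.sum_insert ha, Finset.set_biUnion_insert]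
      exact (RAT_union κ K hK y x _ _).trans (by linarith)
  have h1 := h Finset.univ
  simpa using h1

/-- the arithmetic of the comparison -/
private theorem RAT_num {n : ℕ} (I J π : Fin n → ℝ) (i₀ i₁ : Fin n) (S T S₁ S₂ c ε ε' e : ℝ)
    (hS : S = ∑ i, I i) (hT : T = ∑ i, J i) (hS0 : 0 ≤ S) (hT0 : 0 ≤ T) (hε : 0 ≤ ε)
    (hε' : 0 ≤ ε') (hε1 : ε' ≤ 1) (hc : 0 < c) (hπ0 : ∀ i, 0 ≤ π i)
    (hI : ∀ i, π i * S ≤ I i + ε') (hJ : ∀ i, π i * T ≤ J i + ε')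
    (hπ : 1 - ε ≤ ∑ i, π i) (hπc : c ≤ π i₀ + π i₁) (hA : I i₀ + I i₁ ≤ S₁)
    (hB : J i₀ + J i₁ ≤ S₂) (hA0 : 0 ≤ I i₀) (hA1 : 0 ≤ I i₁) (hB0 : 0 ≤ J i₀) (hB1 : 0 ≤ J i₁)
    (he : ε * ((S₁ + S₂ + 2) / c) + n * ε' ≤ e) (he1 : e ≤ 1) :
    |I i₀ * J i₁ - J i₀ * I i₁| ≤ (4 * (S₁ + S₂ + 2) + 2) * e := by
  classical
  obtain ⟨B, hBdef⟩ : ∃ B, B = S₁ + S₂ + 2 := ⟨_, rfl⟩
  have hn : (1 : ℝ) ≤ n := by
    have := i₀.pos
    exact_mod_cast this
  have hS1 : 0 ≤ S₁ := by linarith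
  have hS2 : 0 ≤ S₂ := by linarith
  have key : ∀ (F : Fin n → ℝ) (Z Z₁ : ℝ), Z = ∑ i, F i → 0 ≤ Z → 0 ≤ Z₁ → Z₁ ≤ S₁ + S₂ →
      F i₀ + F i₁ ≤ Z₁ → 0 ≤ F i₀ → 0 ≤ F i₁ → (∀ i, π i * Z ≤ F i + ε') →
      (π i₀ * Z ≤ B ∧ π i₁ * Z ≤ B) ∧ ∀ i, |F i - π i * Z| ≤ e := by
    intro F Z Z₁ hZ hZ0 hZ1 hZ1' hF hF0 hF1 hFi
    have h1 : c * Z ≤ B := by
      have h2 : c * Z ≤ (π i₀ + π i₁) * Z := mul_le_mul_of_nonneg_right hπc hZ0
      have h3 := hFi i₀
      have h4 := hFi i₁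
      rw [hBdef]
      nlinarith
    have h2 : Z ≤ B / c := by
      rw [le_div_iff₀ hc]
      linarith
    refine ⟨⟨?_, ?_⟩, ?_⟩
    · have h3 := hFi i₀
      rw [hBdef]
      linarith
    · have h4 := hFi i₁
      rw [hBdef]
      linarith
    · intro i
      have h5 : -ε' ≤ F i - π i * Z := by
        have := hFi i
        linarith
      have h6 : F i - π i * Z ≤ ε * Z + n * ε' := by
        have h7 : ∑ j, (F j - π j * Z) = Z - (∑ j, π j) * Z := by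
          rw [Finset.sum_sub_distrib, ← hZ, Finset.sum_mul]
        have h8 : ∑ j, (F j - π j * Z) = (F i - π i * Z) +
            ∑ j ∈ Finset.univ.erase i, (F j - π j * Z) :=
          (Finset.add_sum_erase _ _ (Finset.mem_univ i)).symm
        have h9 : -(n * ε') ≤ ∑ j ∈ Finset.univ.erase i, (F j - π j * Z) := by
          have h10 : ∑ j ∈ Finset.univ.erase i, (-ε') ≤
              ∑ j ∈ Finset.univ.erase i, (F j - π j * Z) := by
            apply Finset.sum_le_sum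
            intro j _
            have := hFi j
            linarith
          rw [Finset.sum_const, nsmul_eq_mul] at h10
          have h11 : ((Finset.univ.erase i).card : ℝ) ≤ n := by
            have := (Finset.univ.erase i).card_le_univ
            rw [Fintype.card_fin] at this
            exact_mod_cast this
          have h12 : ((Finset.univ.erase i).card : ℝ) * ε' ≤ n * ε' :=
            mul_le_mul_of_nonneg_right h11 hε'
          linarith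
        have h13 : (1 - ε) * Z ≤ (∑ j, π j) * Z := mul_le_mul_of_nonneg_right hπ hZ0
        linarith
      have h14 : ε * Z ≤ ε * (B / c) := mul_le_mul_of_nonneg_left h2 hε
      have h15 : ε' ≤ n * ε' := by nlinarith
      have h16 : 0 ≤ ε * (B / c) := (mul_nonneg hε hZ0).trans h14
      rw [abs_le]
      rw [← hBdef] at he
      constructor <;> linarith
  obtain ⟨⟨a1, a2⟩, a3⟩ := key I S S₁ hS hS0 hS1 (by linarith) hA hA0 hA1 hI
  obtain ⟨⟨b1, b2⟩, b3⟩ := key J T S₂ hT hT0 hS2 (by linarith) hB hB0 hB1 hJ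
  have e0 : 0 ≤ e := (abs_nonneg _).trans (a3 i₀)
  obtain ⟨x₀, hx₀⟩ : ∃ x, x = I i₀ - π i₀ * S := ⟨_, rfl⟩
  obtain ⟨x₁, hx₁⟩ : ∃ x, x = I i₁ - π i₁ * S := ⟨_, rfl⟩
  obtain ⟨z₀, hz₀⟩ : ∃ x, x = J i₀ - π i₀ * T := ⟨_, rfl⟩
  obtain ⟨z₁, hz₁⟩ : ∃ x, x = J i₁ - π i₁ * T := ⟨_, rfl⟩
  have k1 := a3 i₀
  have k2 := a3 i₁
  have k3 := b3 i₀
  have k4 := b3 i₁
  rw [← hx₀] at k1
  rw [← hx₁] at k2
  rw [← hz₀] at k3
  rw [← hz₁] at k4
  have hid : I i₀ * J i₁ - J i₀ * I i₁ = (π i₀ * S) * z₁ + (π i₁ * T) * x₀ + x₀ * z₁ -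
      (π i₀ * T) * x₁ - (π i₁ * S) * z₀ - z₀ * x₁ := by
    rw [hx₀, hx₁, hz₀, hz₁]
    ring
  rw [hid]
  have hB0 : 0 ≤ B := by
    rw [hBdef]
    linarith
  have m : ∀ a b : ℝ, 0 ≤ a → a ≤ B → |b| ≤ e → |a * b| ≤ B * e := by
    intro a b ha hab hb
    rw [abs_mul, abs_of_nonneg ha]
    exact mul_le_mul hab hb (abs_nonneg _) hB0
  have m' : ∀ a b : ℝ, |a| ≤ e → |b| ≤ e → |a * b| ≤ e := by
    intro a b ha hb
    rw [abs_mul]
    calc |a| * |b| ≤ e * 1 := mul_le_mul ha (hb.trans he1) (abs_nonneg _) e0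
      _ = e := mul_one e
  have q1 := m _ z₁ (mul_nonneg (hπ0 i₀) hS0) a1 k4
  have q2 := m _ x₀ (mul_nonneg (hπ0 i₁) hT0) b2 k1
  have q3 := m' x₀ z₁ k1 k4
  have q4 := m _ x₁ (mul_nonneg (hπ0 i₀) hT0) b1 k2
  have q5 := m _ z₀ (mul_nonneg (hπ0 i₁) hS0) a2 k3
  have q6 := m' z₀ x₁ k3 k2
  rw [abs_le] at q1 q2 q3 q4 q5 q6
  rw [← hBdef, abs_le]
  constructor <;> nlinarith

variable {ex : (t : ℂ) → ℂ →+ LPt t} {V N : Type} [Fintype V] [Fintype N] {C : JCh V N}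

/-- the density is continuous and non-negative -/
private theorem RAT_ds (h5 : St_ETA1) (h6 : St_GQF) (L : Loc1 ex C) (w : N → ℝ) :
    ContinuousOn (L.ds w) L.dsk ∧ ∀ t ∈ L.dsk, 0 ≤ L.ds w t := by
  obtain ⟨b, h1, -, h2, -⟩ := h6
  have h01 : ∀ t ∈ L.dsk, t ≠ 0 ∧ t ≠ 1 := by
    intro t ht
    refine ⟨?_, ?_⟩
    · rintro rfl
      exact L.per.n0 ht
    · rintro rfl
      exact L.per.n1 ht
  refine ⟨?_, ?_⟩
  · exact (h1.mono h01).mul (((h5 ex V N C L).2 w).norm.pow 2)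
  · intro t ht
    exact mul_nonneg (h2 t (h01 t ht).1 (h01 t ht).2).le (by positivity)

/-- the mean value argument -/
private theorem RAT_mean (g : ℂ → ℝ) (O : Set ℂ) (hO : IsOpen O) (hg : ContinuousOn g O) (t₁ : ℂ)
    (ht : t₁ ∈ O) (h : ∀ s : ℝ, 0 < s → Metric.closedBall t₁ s ⊆ O →
      (∫ t in Metric.closedBall t₁ s, g t) = 0) : g t₁ ≤ 0 := by
  by_contra hlt
  rw [not_le] at hlt
  have h1 : ∀ᶠ t in 𝓝 t₁, g t₁ / 2 < g t :=
    (hg.continuousAt (hO.mem_nhds ht)).eventually (lt_mem_nhds (by linarith))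
  have h2 : ∀ᶠ t in 𝓝 t₁, g t₁ / 2 < g t ∧ t ∈ O := h1.and (hO.mem_nhds ht)
  obtain ⟨s, hs, hsub⟩ := Metric.nhds_basis_closedBall.mem_iff.mp h2
  have h3 : Metric.closedBall t₁ s ⊆ O := fun t ht' => (hsub ht').2
  have h4 := h s hs h3
  have hint : IntegrableOn g (Metric.closedBall t₁ s) :=
    (hg.mono h3).integrableOn_compact (isCompact_closedBall _ _)
  have hfin : volume (Metric.closedBall t₁ s) ≠ ⊤ := (isCompact_closedBall t₁ s).measure_lt_top.ne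
  have h5 := setIntegral_ge_of_const_le_real (μ := volume)
    (isCompact_closedBall t₁ s).measurableSet hfin
    (fun t ht' => (hsub ht').1.le) hint
  have h6 : 0 < volume.real (Metric.closedBall t₁ s) := by
    rw [Measure.real, ENNReal.toReal_pos_iff]
    exact ⟨Metric.measure_closedBall_pos volume t₁ hs, hfin.lt_top⟩
  have h7 : 0 < g t₁ / 2 * volume.real (Metric.closedBall t₁ s) := by positivity
  linarith

/-- the two parts of the disc -/
private theorem RAT_split (g : ℂ → ℝ) (c₁ t₁ : ℂ) (r₁ s : ℝ)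
    (hs : Metric.closedBall t₁ s ⊆ Metric.ball c₁ r₁)
    (hg : ContinuousOn g (Metric.closedBall c₁ r₁)) :
    (∫ t in Metric.closedBall t₁ s, g t) +
      (∫ t in Metric.closedBall c₁ r₁ \ Metric.ball t₁ s, g t) =
      ∫ t in Metric.closedBall c₁ r₁, g t := by
  have h1 : Metric.ball t₁ s ⊆ Metric.closedBall c₁ r₁ :=
    Metric.ball_subset_closedBall.trans (hs.trans Metric.ball_subset_closedBall)
  have hint : IntegrableOn g (Metric.closedBall c₁ r₁) :=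
    hg.integrableOn_compact (isCompact_closedBall _ _)
  have h2 : (Metric.ball t₁ s : Set ℂ) =ᵐ[volume] (Metric.closedBall t₁ s : Set ℂ) := by
    have h3 : volume (Metric.sphere t₁ s) = 0 := Measure.addHaar_sphere volume t₁ s
    have h4 : (Metric.closedBall t₁ s \ Metric.sphere t₁ s : Set ℂ) =ᵐ[volume]
        (Metric.closedBall t₁ s : Set ℂ) := sdiff_null_ae_eq_self h3
    rw [Metric.closedBall_sdiff_sphere] at h4
    exact h4
  rw [← setIntegral_congr_set h2, setIntegral_sdiff measurableSet_ball hint h1]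
  ring

/-- THE CLAIM. -/
private theorem RAT_claim (h1 : St_INT) (h2 : St_PCS) (h3 : St_LC1) (h4 : C2.St_KM) (h5 : St_ETA1)
    (h6 : St_GQF) (hex : ExP ex) (hV : Fintype.card V = 1) (κ : IntermediateField ℚ ℂ)
    (hκ : FiniteDimensional ℚ κ) (hCo : C2.CoIn C κ) (hI : Complex.I ∈ κ) (Q : Type)
    (U : Ultrafilter Q) (p : PreF N Q) (y : Q → V → Qb) (x : Q → Qb) (hG : C2.GSeq C U p y x)
    (KK : Q → IntermediateField ℚ ℂ) (hKK : C2.GoodK κ y x KK) (L : Loc1 ex C) (c₁ : ℂ)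
    (r₁ δ₀ : ℝ) (hr₁ : 0 < r₁) (hδ₀ : 0 < δ₀) (hsub : Metric.closedBall c₁ r₁ ⊆ L.dsk)
    (hmass : ∀ᶠ k in (U : Filter Q), δ₀ ≤ C2.prp κ (KK k) (y k) (x k)
      (L.lift (Metric.closedBall c₁ r₁)))
    (w w' : N → ℝ) (H : ℝ) (hH : 0 ≤ H) (hw : HB U p w H) (hw' : HB U p w' H)
    (t₁ : ℂ) (s : ℝ) (hs : 0 < s) (hball : Metric.closedBall t₁ s ⊆ Metric.ball c₁ r₁) :
    (∫ t in Metric.closedBall t₁ s, L.ds w t) * (∫ t in Metric.closedBall c₁ r₁, L.ds w' t) =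
      (∫ t in Metric.closedBall t₁ s, L.ds w' t) * (∫ t in Metric.closedBall c₁ r₁, L.ds w t) := by
  classical
  have hsub' : Metric.closedBall t₁ s ⊆ L.dsk :=
    hball.trans (Metric.ball_subset_closedBall.trans hsub)
  have hVs : Subsingleton V := Fintype.card_le_one_iff_subsingleton.mp hV.le
  have hq : 0 < (Module.finrank ℚ κ : ℝ) := by exact_mod_cast Module.finrank_pos
  obtain ⟨q, hqdef⟩ : ∃ q : ℝ, q = (Module.finrank ℚ κ : ℝ) := ⟨_, rfl⟩
  rw [← hqdef] at hq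
  obtain ⟨S₁, hS₁⟩ : ∃ S, S = ∫ t in Metric.closedBall c₁ r₁, L.ds w t := ⟨_, rfl⟩
  obtain ⟨S₂, hS₂⟩ : ∃ S, S = ∫ t in Metric.closedBall c₁ r₁, L.ds w' t := ⟨_, rfl⟩
  obtain ⟨A, hA⟩ : ∃ A, A = ∫ t in Metric.closedBall t₁ s, L.ds w t := ⟨_, rfl⟩
  obtain ⟨A', hA'⟩ : ∃ A, A = ∫ t in Metric.closedBall t₁ s, L.ds w' t := ⟨_, rfl⟩
  obtain ⟨B, hB⟩ : ∃ B, B = ∫ t in Metric.closedBall c₁ r₁ \ Metric.ball t₁ s, L.ds w t :=
    ⟨_, rfl⟩
  obtain ⟨B', hB'⟩ : ∃ B, B = ∫ t in Metric.closedBall c₁ r₁ \ Metric.ball t₁ s, L.ds w' t :=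
    ⟨_, rfl⟩
  have hspl : A + B = S₁ := by
    rw [hA, hB, hS₁]
    exact RAT_split _ c₁ t₁ r₁ s hball ((RAT_ds h5 h6 L w).1.mono hsub)
  have hspl' : A' + B' = S₂ := by
    rw [hA', hB', hS₂]
    exact RAT_split _ c₁ t₁ r₁ s hball ((RAT_ds h5 h6 L w').1.mono hsub)
  have hnn : ∀ (L' : Loc1 ex C) (F : Set ℂ) (v : N → ℝ), MeasurableSet F → F ⊆ L'.dsk →
      0 ≤ ∫ t in F, L'.ds v t := fun L' F v hF hFd =>
    setIntegral_nonneg hF fun t ht => (RAT_ds h5 h6 L' v).2 t (hFd ht)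
  have hcb : MeasurableSet (Metric.closedBall t₁ s) := (isCompact_closedBall t₁ s).measurableSet
  have hdf : MeasurableSet (Metric.closedBall c₁ r₁ \ Metric.ball t₁ s) :=
    (isCompact_closedBall c₁ r₁).measurableSet.diff measurableSet_ball
  have hA0 : 0 ≤ A := hA ▸ hnn L _ w hcb hsub'
  have hA'0 : 0 ≤ A' := hA' ▸ hnn L _ w' hcb hsub'
  have hB0 : 0 ≤ B := hB ▸ hnn L _ w hdf (Set.sdiff_subset.trans hsub)
  have hB'0 : 0 ≤ B' := hB' ▸ hnn L _ w' hdf (Set.sdiff_subset.trans hsub)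
  obtain ⟨R, hR⟩ : ∃ R : ℝ, R = S₁ + S₂ + 2 := ⟨_, rfl⟩
  have hRpos : 0 < R := by
    rw [hR]
    linarith
  -- the estimate for all positive numbers
  have hmain : ∀ e : ℝ, 0 < e → e ≤ 1 → |A * B' - A' * B| ≤ (4 * (S₁ + S₂ + 2) + 2) * e := by
    intro e he he1
    -- the compact part
    obtain ⟨ε, hε⟩ : ∃ ε : ℝ, ε = e / 2 * (q * δ₀) / R := ⟨_, rfl⟩
    have hε0 : 0 < ε := by
      rw [hε]
      positivity
    obtain ⟨M, hM, hKM⟩ := h4 V N C κ hκ hCo Q U p y x hG (ε / q) (by positivity)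
    have hcpt := RAT_cpt C M hM
    have hbig := hKM KK hKK
    obtain ⟨KM, hKMdef⟩ : ∃ S : Set ((V → ℂ) × ℂ), S = {q | q ∈ C2.VC C ∧ (∀ i, ‖q.1 i‖ ≤ M) ∧
      ‖q.2‖ ≤ M ∧ 1 ≤ M * ‖(MvPolynomial.aeval q.1 (C.M.D ()) : ℂ)‖} := ⟨_, rfl⟩
    rw [← hKMdef] at hcpt hbig
    have hKMV : ∀ z ∈ KM, z ∈ C2.VC C := by
      intro z hz
      rw [hKMdef] at hz
      exact hz.1
    -- the cover
    have hLC := fun z : KM => h3 ex hex V N C hV z.1 (hKMV z.1 z.2)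
    choose LL hLc hLx hLu using hLC
    obtain ⟨Tf, hTf⟩ := hcpt.elim_finite_subcover (fun z : KM => Metric.ball z.1 ((LL z).r / 2))
      (fun z => Metric.isOpen_ball) (fun z hz => Set.mem_iUnion.mpr
        ⟨⟨z, hz⟩, Metric.mem_ball_self (half_pos (LL ⟨z, hz⟩).per.pos)⟩)
    obtain ⟨m, hm⟩ : ∃ m, m = Tf.card := ⟨_, rfl⟩
    obtain ⟨z, hz⟩ : ∃ z : Fin m → KM, ∀ a ∈ Tf, ∃ i, z i = a := by
      subst hm
      refine ⟨fun i => (Tf.equivFin.symm i).1, fun a ha => ⟨Tf.equivFin ⟨a, ha⟩, ?_⟩⟩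
      exact congrArg Subtype.val (Equiv.symm_apply_apply Tf.equivFin ⟨a, ha⟩)
    obtain ⟨L', hL'⟩ : ∃ L' : Fin (m + 2) → Loc1 ex C,
      L' = Fin.cons L (Fin.cons L fun i => LL (z i)) := ⟨_, rfl⟩
    obtain ⟨cc, hcc⟩ : ∃ cc : Fin (m + 2) → ℂ,
      cc = Fin.cons t₁ (Fin.cons c₁ fun i => (LL (z i)).c) := ⟨_, rfl⟩
    obtain ⟨rr, hrr⟩ : ∃ rr : Fin (m + 2) → ℝ,
      rr = Fin.cons s (Fin.cons r₁ fun i => (LL (z i)).r / 2) := ⟨_, rfl⟩
    have hL0 : L' 0 = L := by rw [hL']; rfl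
    have hL1 : L' 1 = L := by rw [hL']; rfl
    have hL2 : ∀ i : Fin m, L' i.succ.succ = LL (z i) := by intro i; rw [hL']; rfl
    have hc0 : cc 0 = t₁ := by rw [hcc]; rfl
    have hc1 : cc 1 = c₁ := by rw [hcc]; rfl
    have hc2 : ∀ i : Fin m, cc i.succ.succ = (LL (z i)).c := by intro i; rw [hcc]; rfl
    have hr0 : rr 0 = s := by rw [hrr]; rfl
    have hr1 : rr 1 = r₁ := by rw [hrr]; rfl
    have hr2 : ∀ i : Fin m, rr i.succ.succ = (LL (z i)).r / 2 := by intro i; rw [hrr]; rfl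
    have hall : ∀ P : Fin (m + 2) → Prop, P 0 → P 1 → (∀ i : Fin m, P i.succ.succ) → ∀ j, P j := by
      intro P p0 p1 p2 j
      refine Fin.cases p0 (fun j' => ?_) j
      exact Fin.cases p1 (fun i => p2 i) j'
    have hrpos : ∀ j, 0 < rr j := by
      refine hall _ ?_ ?_ ?_
      · rw [hr0]
        exact hs
      · rw [hr1]
        exact hr₁
      · intro i
        rw [hr2]
        exact half_pos (LL (z i)).per.pos
    have hdsk : ∀ j, Metric.closedBall (cc j) (rr j) ⊆ (L' j).dsk := by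
      refine hall _ ?_ ?_ ?_
      · rw [hr0, hc0, hL0]
        exact hsub'
      · rw [hr1, hc1, hL1]
        exact hsub
      · intro i
        rw [hr2, hc2, hL2]
        exact Metric.closedBall_subset_ball (half_lt_self (LL (z i)).per.pos)
    obtain ⟨T, hTL, hTF⟩ := h2 ex hex V N C hV (m + 2) L' cc rr hrpos hdsk
    have hF0 : T.F 0 = Metric.closedBall t₁ s := by
      rw [hTF, hc0, hr0]
      ext t
      constructor
      · exact fun h => h.1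
      · exact fun h => ⟨h, fun i hi => absurd hi (Fin.not_lt_zero i)⟩
    have hF1 : T.F 1 = Metric.closedBall c₁ r₁ \ Metric.ball t₁ s := by
      rw [hTF, hc1, hr1]
      ext t
      constructor
      · rintro ⟨h, h'⟩
        refine ⟨h, fun h'' => h' 0 (by simp) ⟨?_, ?_⟩⟩
        · rw [hc0, hr0]
          exact h''
        · rw [hL0, hL1]
      · rintro ⟨h, h'⟩
        refine ⟨h, fun i hi => ?_⟩
        have hi0 : i = 0 := by
          rw [Fin.lt_def] at hi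
          have h1v : ((1 : Fin (m + 2)) : ℕ) = 1 := rfl
          rw [h1v] at hi
          exact Fin.ext (by simpa using hi)
        rintro ⟨h'', -⟩
        rw [hi0, hc0, hr0] at h''
        exact h' h''
    have hcov : KM ⊆ ⋃ j, (T.L j).lift (T.F j) := by
      intro a ha
      -- some open ball
      have hex' : ∃ j : Fin (m + 2), a ∈ (L' j).lift (Metric.ball (cc j) (rr j)) := by
        obtain ⟨b, hb, hab⟩ := Set.mem_iUnion₂.mp (hTf ha)
        obtain ⟨i, hi⟩ := hz b hb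
        have hb1 := (LL b).per.pos
        rw [Metric.mem_ball, Prod.dist_eq, max_lt_iff, dist_eq_norm, dist_eq_norm] at hab
        have hab1 : ‖a.1 C.i₀ - (LL b).c‖ < (LL b).r / 2 := by
          rw [← hLc b C.i₀]
          exact (norm_le_pi_norm (a.1 - b.1.1) C.i₀).trans_lt hab.1
        have hax : a.2 = (LL b).x (a.1 C.i₀) :=
          hLu b a (hKMV a ha) (hab1.trans (half_lt_self hb1)) (hab.2.trans (half_lt_self hb1))
        refine ⟨i.succ.succ, a.1 C.i₀, ?_, ?_⟩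
        · rw [hr2, hc2, hi, Metric.mem_ball, dist_eq_norm]
          exact hab1
        · rw [hL2, hi, ← hax]
          refine Prod.ext ?_ rfl
          funext i'
          rw [Subsingleton.elim i' C.i₀]
      obtain ⟨j, hj, hmin⟩ : ∃ j : Fin (m + 2), a ∈ (L' j).lift (Metric.ball (cc j) (rr j)) ∧
          ∀ i < j, a ∉ (L' i).lift (Metric.ball (cc i) (rr i)) := by
        obtain ⟨j, hj⟩ := hex'
        obtain ⟨j', hj', hmin⟩ := WellFounded.has_min (wellFounded_lt (α := Fin (m + 2)))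
          {j | a ∈ (L' j).lift (Metric.ball (cc j) (rr j))} ⟨j, hj⟩
        exact ⟨j', hj', fun i hi hi' => hmin i hi' hi⟩
      obtain ⟨t, ht, rfl⟩ := hj
      refine Set.mem_iUnion.mpr ⟨j, t, ?_, ?_⟩
      · rw [hTF]
        refine ⟨Metric.ball_subset_closedBall ht, fun i hi hit => hmin i hi ⟨t, hit.1, ?_⟩⟩
        rw [hit.2]
      · rw [hTL]
    have hD : L.lift (Metric.closedBall c₁ r₁) ⊆
        (T.L 0).lift (T.F 0) ∪ (T.L 1).lift (T.F 1) := by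
      rintro a ⟨t, ht, rfl⟩
      rw [hTL, hL0, hL1, hF0, hF1]
      by_cases h : t ∈ Metric.ball t₁ s
      · exact Or.inl ⟨t, Metric.ball_subset_closedBall h, rfl⟩
      · exact Or.inr ⟨t, ⟨ht, h⟩, rfl⟩
    obtain ⟨ε', hε'⟩ : ∃ ε' : ℝ, ε' = e / (2 * ((m + 2 : ℕ) : ℝ)) := ⟨_, rfl⟩
    have hn2 : (2 : ℝ) ≤ ((m + 2 : ℕ) : ℝ) := by
      push_cast
      have := (Nat.cast_nonneg m : (0 : ℝ) ≤ m)
      linarith
    have hε'0 : 0 < ε' := by
      rw [hε']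
      positivity
    have hε'1 : ε' ≤ 1 := by
      rw [hε', div_le_one (by positivity)]
      linarith
    have hint := fun j => h1 ex hex V N C hV κ hκ hCo hI Q U p y x hG KK hKK w H hH hw
      (Fin (m + 2)) T j ε' hε'0
    have hint' := fun j => h1 ex hex V N C hV κ hκ hCo hI Q U p y x hG KK hKK w' H hH hw'
      (Fin (m + 2)) T j ε' hε'0
    rw [← Filter.eventually_all] at hint hint'
    obtain ⟨k, ⟨⟨hk1, hk2⟩, hk3⟩, hk4⟩ := (((hint.and hint').and hbig).and hmass).exists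
    rw [← hqdef] at hk1 hk2 hk3
    have hKfd := (hKK k).1
    obtain ⟨π, hπ⟩ : ∃ π : Fin (m + 2) → ℝ, π = fun j => q * C2.prp κ (KK k) (y k) (x k)
      ((T.L j).lift (T.F j)) := ⟨_, rfl⟩
    have hprp0 : ∀ Δ : Set ((V → ℂ) × ℂ), 0 ≤ C2.prp κ (KK k) (y k) (x k) Δ := by
      intro Δ
      unfold C2.prp
      positivity
    have hTm : ∀ j, MeasurableSet (T.F j) := fun j => (T.cpt j).measurableSet
    have hfin := RAT_num (fun j => ∫ t in T.F j, (T.L j).ds w t)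
      (fun j => ∫ t in T.F j, (T.L j).ds w' t) π 0 1 _ _ S₁ S₂ (q * δ₀) ε ε' e rfl rfl
      (Finset.sum_nonneg fun j _ => hnn _ _ _ (hTm j) (T.Fb j))
      (Finset.sum_nonneg fun j _ => hnn _ _ _ (hTm j) (T.Fb j)) hε0.le hε'0.le hε'1
      (by positivity) (fun j => by rw [hπ]; exact mul_nonneg hq.le (hprp0 _))
      (fun j => by rw [hπ]; exact hk1 j) (fun j => by rw [hπ]; exact hk2 j)
      ?_ ?_ ?_ ?_ (hnn _ _ _ (hTm 0) (T.Fb 0)) (hnn _ _ _ (hTm 1) (T.Fb 1))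
      (hnn _ _ _ (hTm 0) (T.Fb 0)) (hnn _ _ _ (hTm 1) (T.Fb 1)) ?_ he1
    · simp only [hTL, hL0, hL1, hF0, hF1] at hfin
      rw [← hA, ← hA', ← hB, ← hB'] at hfin
      exact hfin
    · rw [hπ]
      simp only
      rw [← Finset.mul_sum]
      have a1 := (RAT_mono κ (KK k) hKfd (y k) (x k) hcov).trans
        (RAT_cov κ (KK k) hKfd (y k) (x k) _)
      have a2 : q * (1 / q - ε / q) ≤ q * ∑ j, C2.prp κ (KK k) (y k) (x k)
          ((T.L j).lift (T.F j)) := mul_le_mul_of_nonneg_left (hk3.trans a1) hq.le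
      have a3 : q * (1 / q - ε / q) = 1 - ε := by
        field_simp
      linarith
    · rw [hπ]
      simp only
      rw [← mul_add]
      refine mul_le_mul_of_nonneg_left ?_ hq.le
      exact (hk4.trans (RAT_mono κ (KK k) hKfd (y k) (x k) hD)).trans
        (RAT_union κ (KK k) hKfd (y k) (x k) _ _)
    · simp only [hTL, hL0, hL1, hF0, hF1]
      rw [← hA, ← hB, hspl]
    · simp only [hTL, hL0, hL1, hF0, hF1]
      rw [← hA', ← hB', hspl']
    · rw [← hR, hε, hε']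
      have a1 : e / 2 * (q * δ₀) / R * (R / (q * δ₀)) = e / 2 := by
        field_simp
      have a2 : ((m + 2 : ℕ) : ℝ) * (e / (2 * ((m + 2 : ℕ) : ℝ))) = e / 2 := by
        field_simp
      rw [a1, a2]
      linarith
  have hzero : A * B' - A' * B = 0 := by
    by_contra hne
    have hpos : 0 < |A * B' - A' * B| := abs_pos.mpr hne
    obtain ⟨X, hX⟩ : ∃ X, X = |A * B' - A' * B| := ⟨_, rfl⟩
    obtain ⟨Y, hY⟩ : ∃ Y, Y = 4 * (S₁ + S₂ + 2) + 2 := ⟨_, rfl⟩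
    have hY0 : 0 < Y := by
      rw [hY]
      linarith
    rw [← hX] at hpos
    have h7 := hmain (min 1 (X / (2 * Y))) (lt_min one_pos (by positivity)) (min_le_left _ _)
    rw [← hX, ← hY] at h7
    have h8 : Y * min 1 (X / (2 * Y)) ≤ Y * (X / (2 * Y)) :=
      mul_le_mul_of_nonneg_left (min_le_right _ _) hY0.le
    have h9 : Y * (X / (2 * Y)) = X / 2 := by
      field_simp
    linarith
  rw [← hS₁, ← hS₂, ← hA, ← hA', ← hspl, ← hspl']
  linarith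

/-- [RAT] -/
theorem RAT_of (h1 : St_INT) (h2 : St_PCS) (h3 : St_LC1) (h4 : C2.St_KM) (h5 : St_ETA1)
    (h6 : St_GQF) : St_RAT := by
  intro ex hex V N _ _ C hV κ hκ hCo hI Q U p y x hG KK hKK L c₁ r₁ δ₀ hr₁ hδ₀ hsub hmass w w' H
    hH hw hw' t₁ ht₁
  obtain ⟨S₁, hS₁⟩ : ∃ S, S = ∫ t in Metric.closedBall c₁ r₁, L.ds w t := ⟨_, rfl⟩
  obtain ⟨S₂, hS₂⟩ : ∃ S, S = ∫ t in Metric.closedBall c₁ r₁, L.ds w' t := ⟨_, rfl⟩
  rw [← hS₁, ← hS₂]
  have hbs : Metric.ball c₁ r₁ ⊆ L.dsk := Metric.ball_subset_closedBall.trans hsub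
  have hc : ∀ v : N → ℝ, ContinuousOn (L.ds v) (Metric.ball c₁ r₁) := fun v =>
    (RAT_ds h5 h6 L v).1.mono hbs
  have hcl : ∀ s : ℝ, 0 < s → Metric.closedBall t₁ s ⊆ Metric.ball c₁ r₁ →
      (∫ t in Metric.closedBall t₁ s, L.ds w t) * S₂ =
        (∫ t in Metric.closedBall t₁ s, L.ds w' t) * S₁ := by
    intro s hs hsb
    rw [hS₁, hS₂]
    exact RAT_claim h1 h2 h3 h4 h5 h6 hex hV κ hκ hCo hI Q U p y x hG KK hKK L c₁ r₁ δ₀ hr₁ hδ₀
      hsub hmass w w' H hH hw hw' t₁ s hs hsb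
  have hint : ∀ (v : N → ℝ) (s : ℝ), Metric.closedBall t₁ s ⊆ Metric.ball c₁ r₁ →
      IntegrableOn (L.ds v) (Metric.closedBall t₁ s) := fun v s hsb =>
    ((hc v).mono hsb).integrableOn_compact (isCompact_closedBall _ _)
  have hz : ∀ s : ℝ, 0 < s → Metric.closedBall t₁ s ⊆ Metric.ball c₁ r₁ →
      (∫ t in Metric.closedBall t₁ s, (L.ds w t * S₂ - L.ds w' t * S₁)) = 0 := by
    intro s hs hsb
    have h7 := integral_sub ((hint w s hsb).mul_const S₂) ((hint w' s hsb).mul_const S₁)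
    rw [h7, integral_mul_const, integral_mul_const, hcl s hs hsb, sub_self]
  have hz' : ∀ s : ℝ, 0 < s → Metric.closedBall t₁ s ⊆ Metric.ball c₁ r₁ →
      (∫ t in Metric.closedBall t₁ s, (L.ds w' t * S₁ - L.ds w t * S₂)) = 0 := by
    intro s hs hsb
    have h7 := integral_sub ((hint w' s hsb).mul_const S₁) ((hint w s hsb).mul_const S₂)
    rw [h7, integral_mul_const, integral_mul_const, hcl s hs hsb, sub_self]
  have a1 := RAT_mean _ _ Metric.isOpen_ball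
    (((hc w).mul continuousOn_const).sub ((hc w').mul continuousOn_const)) t₁ ht₁ hz
  have a2 := RAT_mean _ _ Metric.isOpen_ball
    (((hc w').mul continuousOn_const).sub ((hc w).mul continuousOn_const)) t₁ ht₁ hz'
  have a1' : L.ds w t₁ * S₂ - L.ds w' t₁ * S₁ ≤ 0 := a1
  have a2' : L.ds w' t₁ * S₁ - L.ds w t₁ * S₂ ≤ 0 := a2
  linarith

end EQ

end Pool.Agent.ZR
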